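import Pool.Agent.H582R3.HL.Stubs

set_option autoImplicit false

open MeasureTheory Set Filter Topology
open scoped ENNReal Real

namespace Pool.Agent.H582R3.HL

namespace TB2

lemma Kf_mono_t (u : ℝ → ℝ≥0∞) : Monotone (Kf u) := by
  intro s t hst
  unfold Kf
  exact lintegral_mono fun c => min_le_min le_rfl (ENNReal.ofReal_le_ofReal hst)

lemma Kf_zero (u : ℝ → ℝ≥0∞) : Kf u 0 = 0 := by simp [Kf]

lemma top_add {u v : ℝ → ℝ≥0∞} {A : Set ℝ} (hu : Top u A) (hv : Top v A) :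
    Top (fun s => u s + v s) A := by
  filter_upwards [hu, hv] with ξ h1 h2
  filter_upwards [h1, h2] with η h3 h4 hξ hη
  exact add_le_add (h3 hξ hη) (h4 hξ hη)

lemma top_mul {u : ℝ → ℝ≥0∞} {A : Set ℝ} (c : ℝ≥0∞) (hu : Top u A) :
    Top (fun s => c * u s) A := by
  filter_upwards [hu] with ξ h1
  filter_upwards [h1] with η h3 hξ hη
  exact mul_le_mul_right (h3 hξ hη) c

lemma top_dist {f : ℝ → ℝ≥0∞} {A : Set ℝ} (hT : Top f A) (c : ℝ≥0∞) :
    min (mu {s | c < f s}) (mu A) ≤ mu (A ∩ {s | c < f s}) := by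
  by_cases h1 : mu ({s | c < f s} \ A) = 0
  · refine (min_le_left _ _).trans ?_
    calc mu {s | c < f s} ≤ mu ((A ∩ {s | c < f s}) ∪ ({s | c < f s} \ A)) := by
          refine measure_mono fun x hx => ?_
          by_cases hxA : x ∈ A
          · exact Or.inl ⟨hxA, hx⟩
          · exact Or.inr ⟨hx, hxA⟩
      _ ≤ mu (A ∩ {s | c < f s}) + mu ({s | c < f s} \ A) := measure_union_le _ _
      _ = _ := by rw [h1, add_zero]
  · by_cases h2 : mu (A \ {s | c < f s}) = 0
    · refine (min_le_right _ _).trans ?_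
      calc mu A ≤ mu ((A ∩ {s | c < f s}) ∪ (A \ {s | c < f s})) := by
            refine measure_mono fun x hx => ?_
            by_cases hxA : x ∈ {s | c < f s}
            · exact Or.inl ⟨hx, hxA⟩
            · exact Or.inr ⟨hx, hxA⟩
        _ ≤ mu (A ∩ {s | c < f s}) + mu (A \ {s | c < f s}) := measure_union_le _ _
        _ = _ := by rw [h2, add_zero]
    · exfalso
      have h3 : ∃ᵐ ξ ∂mu, ξ ∈ A \ {s | c < f s} := frequently_ae_mem_iff.2 h2
      obtain ⟨ξ, hξ, hξ'⟩ := (h3.and_eventually hT).exists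
      have h4 : ∃ᵐ η ∂mu, η ∈ {s | c < f s} \ A := frequently_ae_mem_iff.2 h1
      obtain ⟨η, hη, hη'⟩ := (h4.and_eventually hξ').exists
      have h5 := hη' hξ.1 hη.2
      exact hξ.2 (lt_of_lt_of_le hη.1 h5)

lemma exists_last {Ψ : ℝ → ℝ} (h : IsWeight Ψ) {t : ℝ} (ht : Kink Ψ t) :
    ∃ a, Kink Ψ a ∧ Ψ a = Ψ (2 * π) ∧ ∀ s, Kink Ψ s → s ≤ a := by
  have hpi : (0 : ℝ) < 2 * π := by positivity
  set S : Set ℝ := {s : ℝ | s ∈ Icc 0 (2 * π) ∧ Ψ s = Ψ (2 * π)} with hS
  set a := sInf S with ha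
  have h2S : 2 * π ∈ S := ⟨⟨hpi.le, le_rfl⟩, rfl⟩
  have hne : S.Nonempty := ⟨2 * π, h2S⟩
  have hbdd : BddBelow S := ⟨0, fun s hs => hs.1.1⟩
  have ha0 : 0 ≤ a := le_csInf hne (fun s hs => hs.1.1)
  have ha2 : a ≤ 2 * π := csInf_le hbdd h2S
  have hconst : ∀ s, a < s → ext Ψ s = Ψ (2 * π) := by
    intro s hs
    obtain ⟨s', hs'S, hs'⟩ := exists_lt_of_csInf_lt hne hs
    unfold ext
    by_cases hs2 : s ≤ 2 * π
    · rw [min_eq_left hs2, max_eq_right (ha0.trans hs.le)]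
      refine le_antisymm (h.mono ⟨ha0.trans hs.le, hs2⟩ ⟨hpi.le, le_rfl⟩ hs2) ?_
      rw [← hs'S.2]
      exact h.mono hs'S.1 ⟨ha0.trans hs.le, hs2⟩ hs'.le
    · push Not at hs2
      rw [min_eq_right hs2.le, max_eq_right hpi.le]
  have hle : ∀ s, Kink Ψ s → s ≤ a := by
    intro s hs
    by_contra hcon
    push Not at hcon
    refine hs.2 (s - a) (by linarith) ⟨Ψ (2 * π), 0, fun x hx => ?_⟩
    rw [hconst x (by have := (abs_lt.1 hx).1; linarith)]
    ring
  have hapos : 0 < a := lt_of_lt_of_le ht.1.1 (hle t ht)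
  have hext : ∀ s, 0 ≤ s → s ≤ 2 * π → ext Ψ s = Ψ s := by
    intro s h0 h2
    unfold ext
    rw [min_eq_left h2, max_eq_right h0]
  have hval : Ψ a = Ψ (2 * π) := by
    rcases ha2.eq_or_lt with h2 | h2
    · rw [h2]
    · have hcont : ContinuousOn Ψ (Ioo 0 (2 * π)) :=
        (h.conc.subset Ioo_subset_Icc_self (convex_Ioo _ _)).continuousOn isOpen_Ioo
      have hca : ContinuousAt Ψ a := hcont.continuousAt (Ioo_mem_nhds hapos h2)
      have h3 : Tendsto Ψ (𝓝[>] a) (𝓝 (Ψ a)) := hca.tendsto.mono_left nhdsWithin_le_nhds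
      have h4 : Tendsto Ψ (𝓝[>] a) (𝓝 (Ψ (2 * π))) := by
        refine tendsto_const_nhds.congr' ?_
        filter_upwards [Ioo_mem_nhdsGT h2] with s hs
        rw [← hconst s hs.1, hext s (ha0.trans hs.1.le) hs.2.le]
      exact tendsto_nhds_unique h3 h4
  refine ⟨a, ⟨⟨hapos, ha2⟩, ?_⟩, hval, hle⟩
  rintro ε hε ⟨α, β, hαβ⟩
  have e1 := hαβ (a + ε / 2) (by rw [abs_lt]; constructor <;> linarith)
  have e2 := hαβ (a + ε / 4) (by rw [abs_lt]; constructor <;> linarith)
  rw [hconst _ (by linarith)] at e1 e2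
  have hβ : β = 0 := by
    have : β * (ε / 4) = 0 := by linarith
    rcases mul_eq_zero.1 this with h | h
    · exact h
    · linarith
  have hs1 : max (a - ε / 2) (a / 2) < a := max_lt (by linarith) (by linarith)
  have hs2 : 0 < max (a - ε / 2) (a / 2) := lt_of_lt_of_le (by linarith) (le_max_right _ _)
  have hs3 : a - ε / 2 ≤ max (a - ε / 2) (a / 2) := le_max_left _ _
  have e3 := hαβ (max (a - ε / 2) (a / 2)) (by rw [abs_lt]; constructor <;> linarith)
  rw [hext _ hs2.le (by linarith)] at e3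
  have h5 : max (a - ε / 2) (a / 2) ∈ S := by
    refine ⟨⟨hs2.le, by linarith⟩, ?_⟩
    rw [e3, e1, hβ]; ring
  have := csInf_le hbdd h5
  linarith

end TB2

open TB2 in
theorem B2_ok (hW : St_WRB) (hN : St_N1) (hNP : St_NP) (hK1 : St_K1) (hK2 : St_K2) : St_B2 := by
  intro Ψ h hpos F G hF hG hFfin hGfin hC
  obtain ⟨J, τ, hR⟩ := hW Ψ h
  have hum : Measurable (fun s => ‖F s + G s‖ₑ) := (hF.add hG).enorm
  have hvm : Measurable (fun s => ‖F s - G s‖ₑ) := (hF.sub hG).enorm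
  have hfm : Measurable (fun s => ‖F s‖ₑ) := hF.enorm
  unfold lnorm
  rw [hN Ψ h J τ hR _ hum, hN Ψ h J τ hR _ hvm, hN Ψ h J τ hR _ hfm]
  have hC1 := hC.1
  have hC2 := hC.2
  generalize hu : (fun s => ‖F s + G s‖ₑ) = u at *
  generalize hv : (fun s => ‖F s - G s‖ₑ) = v at *
  generalize hf : (fun s => ‖F s‖ₑ) = f at *
  have hle : ∀ s, 2 * f s ≤ u s + v s := by
    intro s
    rw [← hu, ← hv, ← hf]
    show 2 * ‖F s‖ₑ ≤ ‖F s + G s‖ₑ + ‖F s - G s‖ₑ
    have h1 : ‖(F s + G s) + (F s - G s)‖ₑ ≤ ‖F s + G s‖ₑ + ‖F s - G s‖ₑ := enorm_add_le _ _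
    have h2 : (F s + G s) + (F s - G s) = 2 * F s := by ring
    rw [h2, enorm_mul] at h1
    have h3 : ‖(2 : ℂ)‖ₑ = 2 := by
      rw [← ofReal_norm, Complex.norm_ofNat]; simp
    rwa [h3] at h1
  have hJ : ENNReal.ofReal J * essSup u mu + ENNReal.ofReal J * essSup v mu =
      2 * (ENNReal.ofReal J * essSup f mu) := by
    rcases le_or_gt J 0 with h0 | h0
    · simp [ENNReal.ofReal_of_nonpos h0]
    · rw [← mul_add, hC2 (hR.jump.1 h0)]; ring
  have hKm : ∀ g : ℝ → ℝ≥0∞, Measurable fun p => Kf g (τ p) := fun g =>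
    (Kf_mono_t g).measurable.comp hR.meas
  have hK : ∀ p ∈ Ioi (0 : ℝ), Kf u (τ p) + Kf v (τ p) = 2 * Kf f (τ p) := by
    intro p hp
    rcases hR.kink p hp with h0 | hk
    · rw [h0, Kf_zero, Kf_zero, Kf_zero]; simp
    · set t := τ p with ht
      obtain ⟨A, hAm, hAs, hAt, hTu, hTv, -⟩ := hC1 t hk
      have htI : t ∈ Icc (0 : ℝ) (2 * π) := ⟨hk.1.1.le, hk.1.2⟩
      have huvm : Measurable fun s => u s + v s := hum.add hvm
      have h1 := (hK1 u hum A hAm t htI hAt).2.1 hTu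
      have h2 := (hK1 v hvm A hAm t htI hAt).2.1 hTv
      have h3 := (hK1 _ huvm A hAm t htI hAt).2.1 (top_add hTu hTv)
      rw [lintegral_add_left hum, h1, h2] at h3
      rw [h3]
      -- homogeneity
      have hwm : Measurable fun s => 2 * f s := hfm.const_mul 2
      have h4 : Kf (fun s => 2 * f s) t = 2 * Kf f t := by
        obtain ⟨B, hBm, -, hBt, hTB⟩ := hK2 f hfm t htI
        have h5 := (hK1 f hfm B hBm t htI hBt).2.1 hTB
        have h6 := (hK1 _ hwm B hBm t htI hBt).2.1 (top_mul 2 hTB)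
        rw [← h6, ← h5, lintegral_const_mul _ hfm]
      rw [← h4]
      -- the last kink
      obtain ⟨a, hak, hav, hlast⟩ := exists_last h hk
      obtain ⟨E, hEm, hEs, hEa, hEu, hEv, hEφ⟩ := hC1 a hak
      have hEφ := hEφ hav
      have hta : t ≤ a := hlast t hk
      have hEeq : ∀ᵐ s ∂mu, s ∈ E → u s + v s = 2 * f s := by
        filter_upwards [hEφ] with s hs hsE
        obtain ⟨φ, hφ, hGφ⟩ := hs hsE
        rw [← hu, ← hv, ← hf]
        show ‖F s + G s‖ₑ + ‖F s - G s‖ₑ = 2 * ‖F s‖ₑ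
        rw [hGφ]
        have e1 : F s + (φ : ℂ) * F s = ((1 + φ : ℝ) : ℂ) * F s := by push_cast; ring
        have e2 : F s - (φ : ℂ) * F s = ((1 - φ : ℝ) : ℂ) * F s := by push_cast; ring
        rw [e1, e2, enorm_mul, enorm_mul, ← add_mul]
        congr 1
        have hφ1 := abs_le.1 hφ
        rw [← ofReal_norm, ← ofReal_norm, Complex.norm_real, Complex.norm_real, Real.norm_eq_abs,
          Real.norm_eq_abs, abs_of_nonneg (by linarith), abs_of_nonneg (by linarith),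
          ← ENNReal.ofReal_add (by linarith) (by linarith)]
        norm_num
      unfold Kf
      refine setLIntegral_congr_fun measurableSet_Ioi fun c _ => ?_
      have h7 := top_dist (top_add hEu hEv) (ENNReal.ofReal c)
      have h8 : mu (E ∩ {s | ENNReal.ofReal c < u s + v s}) ≤
          min (mu {s | ENNReal.ofReal c < 2 * f s}) (mu E) := by
        refine le_min ?_ (measure_mono inter_subset_left)
        refine measure_mono_ae ?_
        filter_upwards [hEeq] with s hs hsE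
        have := hs hsE.1
        have h9 : ENNReal.ofReal c < u s + v s := hsE.2
        rw [this] at h9
        exact h9
      have h9 : min (mu {s | ENNReal.ofReal c < 2 * f s}) (mu E) ≤
          min (mu {s | ENNReal.ofReal c < u s + v s}) (mu E) :=
        min_le_min (measure_mono fun s hs => lt_of_lt_of_le hs (hle s)) le_rfl
      have h10 : min (mu {s | ENNReal.ofReal c < u s + v s}) (mu E) =
          min (mu {s | ENNReal.ofReal c < 2 * f s}) (mu E) :=
        le_antisymm (h7.trans h8) h9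
      rw [hEa] at h10
      have hta' : ENNReal.ofReal t ≤ ENNReal.ofReal a := ENNReal.ofReal_le_ofReal hta
      show min (mu {s | ENNReal.ofReal c < u s + v s}) (ENNReal.ofReal t) =
        min (mu {s | ENNReal.ofReal c < 2 * f s}) (ENNReal.ofReal t)
      rw [← min_eq_right hta', ← min_assoc, h10, min_assoc]
  have hI : (∫⁻ p in Ioi (0 : ℝ), Kf u (τ p)) + (∫⁻ p in Ioi (0 : ℝ), Kf v (τ p)) =
      2 * ∫⁻ p in Ioi (0 : ℝ), Kf f (τ p) := by
    rw [← lintegral_add_left (hKm u), ← lintegral_const_mul _ (hKm f)]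
    exact setLIntegral_congr_fun measurableSet_Ioi hK
  calc ENNReal.ofReal J * essSup u mu + (∫⁻ p in Ioi (0 : ℝ), Kf u (τ p)) +
        (ENNReal.ofReal J * essSup v mu + ∫⁻ p in Ioi (0 : ℝ), Kf v (τ p))
      = (ENNReal.ofReal J * essSup u mu + ENNReal.ofReal J * essSup v mu) +
        ((∫⁻ p in Ioi (0 : ℝ), Kf u (τ p)) + ∫⁻ p in Ioi (0 : ℝ), Kf v (τ p)) := by ring
    _ = 2 * (ENNReal.ofReal J * essSup f mu + ∫⁻ p in Ioi (0 : ℝ), Kf f (τ p)) := by
        rw [hJ, hI]; ring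

end Pool.Agent.H582R3.HL
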