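import Pool.Agent.H582R3.HL.Stubs

/-!
D1: for strictly concave `Ψ` the flat directions at `F` are the functions `Φ(|F|) F / |F|` with
`Φ` Lipschitz.
-/

set_option autoImplicit false

open MeasureTheory Set Filter Topology
open scoped ENNReal Real

namespace Pool.Agent.H582R3.HL

namespace D1aux

theorem kink {Ψ : ℝ → ℝ} (hs : StrictConcaveOn ℝ (Set.Icc 0 (2 * π)) Ψ) {t : ℝ}
    (ht : t ∈ Set.Ioc (0 : ℝ) (2 * π)) : Kink Ψ t := by
  refine ⟨ht, fun ε hε => ?_⟩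
  rintro ⟨a, b, hab⟩
  obtain ⟨h0, h1⟩ := ht
  obtain ⟨s, hs0⟩ : ∃ s : ℝ, s = max (t / 2) (t - ε / 2) := ⟨_, rfl⟩
  have hst : s < t := by rw [hs0]; exact max_lt (by linarith) (by linarith)
  have hs1 : t / 2 ≤ s := hs0 ▸ le_max_left _ _
  have hs2 : t - ε / 2 ≤ s := hs0 ▸ le_max_right _ _
  have hext : ∀ x ∈ Set.Icc (0 : ℝ) (2 * π), ext Ψ x = Ψ x := by
    intro x hx
    unfold ext
    rw [min_eq_left hx.2, max_eq_right hx.1]
  have ms : s ∈ Set.Icc (0 : ℝ) (2 * π) := ⟨by linarith, by linarith⟩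
  have mt : t ∈ Set.Icc (0 : ℝ) (2 * π) := ⟨h0.le, h1⟩
  have hc := hs.2 ms mt hst.ne (show (0 : ℝ) < 1 / 2 by norm_num)
    (show (0 : ℝ) < 1 / 2 by norm_num) (by norm_num)
  simp only [smul_eq_mul] at hc
  have mm : 1 / 2 * s + 1 / 2 * t ∈ Set.Icc (0 : ℝ) (2 * π) := ⟨by linarith, by linarith⟩
  rw [← hext s ms, ← hext t mt, ← hext _ mm,
    hab s (by rw [abs_lt]; constructor <;> linarith),
    hab t (by rw [sub_self, abs_zero]; exact hε),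
    hab (1 / 2 * s + 1 / 2 * t) (by rw [abs_lt]; constructor <;> linarith)] at hc
  linarith

theorem mu_univ : mu Set.univ = ENNReal.ofReal (2 * π) := by
  unfold mu
  rw [Measure.restrict_apply MeasurableSet.univ, Set.univ_inter, Real.volume_Ico, sub_zero]

theorem full {A : Set ℝ} (hA : MeasurableSet A) (h : mu A = ENNReal.ofReal (2 * π)) :
    ∀ᵐ s ∂mu, s ∈ A := by
  rw [ae_iff]
  have h1 : {a | ¬ a ∈ A} = Aᶜ := rfl
  rw [h1, measure_compl hA (by rw [h]; exact ENNReal.ofReal_ne_top), mu_univ, h, tsub_self]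

/-- the signed quotient -/
noncomputable def HH (F G : ℝ → ℂ) (s : ℝ) : ℝ := (G s * (starRingEnd ℂ) (F s)).re / ‖F s‖

theorem pt {F G : ℝ → ℂ} {s φ : ℝ} (hφ : |φ| ≤ 1) (h : G s = φ * F s) :
    |HH F G s| ≤ ‖F s‖ ∧ G s = (HH F G s : ℂ) * (F s / (‖F s‖ : ℂ)) ∧
      ‖F s + G s‖ = ‖F s‖ + HH F G s ∧ ‖F s - G s‖ = ‖F s‖ - HH F G s := by
  obtain ⟨h1, h2⟩ := abs_le.1 hφ
  have hH : HH F G s = φ * ‖F s‖ := by
    unfold HH
    have e : G s * (starRingEnd ℂ) (F s) = ((φ * ‖F s‖ ^ 2 : ℝ) : ℂ) := by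
      rw [h, mul_assoc, Complex.mul_conj, Complex.normSq_eq_norm_sq]
      push_cast
      ring
    rw [e, Complex.ofReal_re]
    by_cases h0 : ‖F s‖ = 0
    · rw [h0]; simp
    · field_simp
  refine ⟨?_, ?_, ?_, ?_⟩
  · rw [hH, abs_mul, abs_norm]
    calc |φ| * ‖F s‖ ≤ 1 * ‖F s‖ := mul_le_mul_of_nonneg_right hφ (norm_nonneg _)
      _ = ‖F s‖ := one_mul _
  · rw [hH, h]
    by_cases h0 : F s = 0
    · rw [h0]; simp
    · have h3 : (‖F s‖ : ℂ) ≠ 0 := by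
        exact_mod_cast (norm_ne_zero_iff.2 h0)
      push_cast
      field_simp
  · have e : F s + G s = ((1 + φ : ℝ) : ℂ) * F s := by rw [h]; push_cast; ring
    rw [e, norm_mul, Complex.norm_real, Real.norm_eq_abs, abs_of_nonneg (by linarith), hH]
    ring
  · have e : F s - G s = ((1 - φ : ℝ) : ℂ) * F s := by rw [h]; push_cast; ring
    rw [e, norm_mul, Complex.norm_real, Real.norm_eq_abs, abs_of_nonneg (by linarith), hH]
    ring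

theorem en_lt {x y : ℂ} (h : ‖x‖ < ‖y‖) : ‖x‖ₑ < ‖y‖ₑ := by
  rw [← ofReal_norm, ← ofReal_norm]
  exact (ENNReal.ofReal_lt_ofReal_iff_of_nonneg (norm_nonneg _)).2 h

theorem en_le {x y : ℂ} (h : ‖x‖ₑ ≤ ‖y‖ₑ) : ‖x‖ ≤ ‖y‖ := by
  rw [← ofReal_norm, ← ofReal_norm] at h
  exact (ENNReal.ofReal_le_ofReal_iff (norm_nonneg _)).1 h

end D1aux

theorem D1_ok (h1 : St_D1a) (h2 : St_D1b) : St_D1 := by
  intro Ψ _ hs F G hF hG hC
  -- `G = φ F`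
  have hphi : ∀ᵐ s ∂mu, ∃ φ : ℝ, |φ| ≤ 1 ∧ G s = φ * F s := by
    obtain ⟨A, hA, -, hm, -, -, hA2⟩ := hC.1 (2 * π)
      (D1aux.kink hs ⟨by positivity, le_rfl⟩)
    filter_upwards [D1aux.full hA hm, hA2 rfl] with s hsA hs2
    exact hs2 hsA
  have hgood : ∀ᵐ s ∂mu, |D1aux.HH F G s| ≤ ‖F s‖ ∧
      G s = (D1aux.HH F G s : ℂ) * (F s / (‖F s‖ : ℂ)) ∧
      ‖F s + G s‖ = ‖F s‖ + D1aux.HH F G s ∧ ‖F s - G s‖ = ‖F s‖ - D1aux.HH F G s := by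
    filter_upwards [hphi] with s hs'
    obtain ⟨φ, h3, h4⟩ := hs'
    exact D1aux.pt h3 h4
  have hmu : Measurable (fun s => ‖F s + G s‖ₑ) := (hF.add hG).enorm
  have hmv : Measurable (fun s => ‖F s - G s‖ₑ) := (hF.sub hG).enorm
  have ha := h1 _ _ hmu hmv (fun t ht => by
    obtain ⟨A, hA, -, hm, hT1, hT2, -⟩ := hC.1 t (D1aux.kink hs ⟨ht.1, ht.2.le⟩)
    exact ⟨A, hA, hm, hT1, hT2⟩)
  have hb := h1 _ _ hmv hmu (fun t ht => by
    obtain ⟨A, hA, -, hm, hT1, hT2, -⟩ := hC.1 t (D1aux.kink hs ⟨ht.1, ht.2.le⟩)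
    exact ⟨A, hA, hm, hT2, hT1⟩)
  have hH : Measurable (D1aux.HH F G) := by
    unfold D1aux.HH
    exact (Complex.measurable_re.comp (hG.mul (Complex.continuous_conj.measurable.comp hF))).div
      hF.norm
  have hlip : ∀ᵐ ξ ∂mu, ∀ᵐ η ∂mu,
      |D1aux.HH F G ξ - D1aux.HH F G η| ≤ |‖F ξ‖ - ‖F η‖| := by
    filter_upwards [ha, hb, hgood] with ξ ha hb hξ
    filter_upwards [ha, hb, hgood] with η ha hb hη
    obtain ⟨-, -, hξ1, hξ2⟩ := hξ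
    obtain ⟨-, -, hη1, hη2⟩ := hη
    have c1 : ‖F η + G η‖ < ‖F ξ + G ξ‖ → ‖F η - G η‖ ≤ ‖F ξ - G ξ‖ :=
      fun h => D1aux.en_le (ha (D1aux.en_lt h))
    have c2 : ‖F η - G η‖ < ‖F ξ - G ξ‖ → ‖F η + G η‖ ≤ ‖F ξ + G ξ‖ :=
      fun h => D1aux.en_le (hb (D1aux.en_lt h))
    rw [hξ1, hη1, hξ2, hη2] at c1 c2
    rw [← sq_le_sq]
    have key : 0 ≤ ((‖F ξ‖ + D1aux.HH F G ξ) - (‖F η‖ + D1aux.HH F G η)) *
        ((‖F ξ‖ - D1aux.HH F G ξ) - (‖F η‖ - D1aux.HH F G η)) := by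
      rcases lt_trichotomy (‖F η‖ + D1aux.HH F G η) (‖F ξ‖ + D1aux.HH F G ξ) with h | h | h
      · exact mul_nonneg (by linarith) (by linarith [c1 h])
      · rw [h]; simp
      · have h3 : ‖F ξ‖ - D1aux.HH F G ξ ≤ ‖F η‖ - D1aux.HH F G η := by
          by_contra hcon
          push Not at hcon
          linarith [c2 hcon]
        exact mul_nonneg_of_nonpos_of_nonpos (by linarith) (by linarith)
    nlinarith [key]
  obtain ⟨Φ, hΦ1, hΦ2, hΦ3⟩ := h2 (fun s => ‖F s‖) (D1aux.HH F G) hF.norm hH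
    (fun t => norm_nonneg _) (hgood.mono fun s h => h.1) hlip
  refine ⟨Φ, hΦ1, hΦ2, ?_⟩
  filter_upwards [hgood, hΦ3] with s h3 h4
  unfold phs
  rw [← h4]
  exact h3.2.1

end Pool.Agent.H582R3.HL
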