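import Pool.Agent.H582R3.HL.Stubs

set_option autoImplicit false

open MeasureTheory Set Filter Topology
open scoped ENNReal Real

namespace Pool.Agent.H582R3.HL

theorem D1a_ok : St_D1a := by
  intro u v hu hv h
  have hfin : ∀ B : Set ℝ, mu B ≠ ∞ := by
    intro B
    have h1 : mu B ≤ volume (Set.Ico 0 (2 * π)) := by
      unfold mu
      exact (measure_mono (subset_univ B)).trans_eq (by simp)
    exact ne_top_of_le_ne_top (by rw [Real.volume_Ico]; exact ENNReal.ofReal_ne_top) h1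
  have htot : mu univ = ENNReal.ofReal (2 * π) := by
    unfold mu
    simp
  have key : ∀ q : ℚ, ∀ᵐ ξ ∂mu, ∀ᵐ η ∂mu,
      ((Real.toNNReal q : NNReal) : ℝ≥0∞) < u ξ →
        ¬ ((Real.toNNReal q : NNReal) : ℝ≥0∞) < u η → v η ≤ v ξ := by
    intro q
    set c : ℝ≥0∞ := ((Real.toNNReal q : NNReal) : ℝ≥0∞) with hc
    set S : Set ℝ := {s | c < u s} with hS
    have hSm : MeasurableSet S := measurableSet_lt measurable_const hu
    by_cases h0 : mu S = 0
    · have h1 : ∀ᵐ ξ ∂mu, ξ ∉ S := measure_eq_zero_iff_ae_notMem.mp h0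
      filter_upwards [h1] with ξ hξ
      exact Eventually.of_forall fun η hξ' => absurd hξ' hξ
    by_cases h2 : mu Sᶜ = 0
    · have h1 : ∀ᵐ η ∂mu, η ∉ Sᶜ := measure_eq_zero_iff_ae_notMem.mp h2
      refine Eventually.of_forall fun ξ => ?_
      filter_upwards [h1] with η hη _ hη'
      exact absurd (show η ∈ Sᶜ from hη') hη
    have hadd : mu S + mu Sᶜ = ENNReal.ofReal (2 * π) := by
      rw [measure_add_measure_compl hSm, htot]
    have ht0 : 0 < (mu S).toReal := ENNReal.toReal_pos h0 (hfin S)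
    have ht1 : (mu S).toReal < 2 * π := by
      have h3 : 0 < (mu Sᶜ).toReal := ENNReal.toReal_pos h2 (hfin Sᶜ)
      have h4 : (mu S).toReal + (mu Sᶜ).toReal = 2 * π := by
        rw [← ENNReal.toReal_add (hfin S) (hfin Sᶜ), hadd, ENNReal.toReal_ofReal (by positivity)]
      linarith
    obtain ⟨A, hA, hAm, hTu, hTv⟩ := h (mu S).toReal ⟨ht0, ht1⟩
    rw [ENNReal.ofReal_toReal (hfin S)] at hAm
    have hdiff : mu (A \ S) = mu (S \ A) := by
      have h5 : mu (A ∩ S) + mu (A \ S) = mu A := measure_inter_add_sdiff A hSm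
      have h6 : mu (S ∩ A) + mu (S \ A) = mu S := measure_inter_add_sdiff S hA
      rw [inter_comm S A] at h6
      have h7 : mu (A ∩ S) + mu (A \ S) = mu (A ∩ S) + mu (S \ A) := by
        rw [h5, h6, hAm]
      exact (ENNReal.add_right_inj (hfin _)).mp h7
    have hz : mu (A \ S) = 0 := by
      by_contra hne
      have hne' : mu (S \ A) ≠ 0 := by rw [← hdiff]; exact hne
      have h8 : ∃ᵐ ξ ∂mu, ξ ∈ A \ S := frequently_ae_mem_iff.mpr hne
      obtain ⟨ξ, hξ, hξ2⟩ := (h8.and_eventually hTu).exists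
      have h9 : ∃ᵐ η ∂mu, η ∈ S \ A := frequently_ae_mem_iff.mpr hne'
      obtain ⟨η, hη, hη2⟩ := (h9.and_eventually hξ2).exists
      have h10 : u η ≤ u ξ := hη2 hξ.1 hη.2
      have h11 : c < u η := hη.1
      have h12 : ¬ c < u ξ := hξ.2
      exact h12 (lt_of_lt_of_le h11 h10)
    have hz' : mu (S \ A) = 0 := by rw [← hdiff]; exact hz
    have e1 : ∀ᵐ ξ ∂mu, ξ ∉ S \ A := measure_eq_zero_iff_ae_notMem.mp hz'
    have e2 : ∀ᵐ η ∂mu, η ∉ A \ S := measure_eq_zero_iff_ae_notMem.mp hz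
    filter_upwards [e1, hTv] with ξ hξ1 hξ2
    filter_upwards [e2, hξ2] with η hη1 hη2 hξS hηS
    refine hη2 ?_ ?_
    · by_contra hn
      exact hξ1 ⟨hξS, hn⟩
    · intro hn
      exact hη1 ⟨hn, hηS⟩
  have key2 := ae_all_iff.mpr key
  filter_upwards [key2] with ξ hξ
  have hξ' := ae_all_iff.mpr hξ
  filter_upwards [hξ'] with η hη hlt
  obtain ⟨q, _, hq1, hq2⟩ := ENNReal.lt_iff_exists_rat_btwn.mp hlt
  exact hη q hq2 (not_lt.mpr hq1.le)

end Pool.Agent.H582R3.HL
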