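import Pool.Agent.H582R3.HL.Stubs

set_option autoImplicit false

open MeasureTheory Set Filter Topology
open scoped ENNReal Real

namespace Pool.Agent.H582R3.HL

/-- almost every point is mapped into the essential range -/
theorem D1b_ess (μ : Measure ℝ) (R : ℝ → ℝ) (hR : Measurable R) :
    ∀ᵐ ξ ∂μ, ∀ e : ℝ, 0 < e → μ {η | |R η - R ξ| < e} ≠ 0 := by
  have h1 : ∀ q r : ℚ, ∀ᵐ ξ ∂μ, μ {η | |R η - q| < r} = 0 → ¬ |R ξ - q| < r := by
    intro q r
    by_cases h : μ {η | |R η - q| < r} = 0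
    · rw [measure_eq_zero_iff_ae_notMem] at h
      filter_upwards [h] with ξ hξ _
      exact hξ
    · exact Filter.Eventually.of_forall fun ξ h' => absurd h' h
  have h2 : ∀ᵐ ξ ∂μ, ∀ q r : ℚ, μ {η | |R η - q| < r} = 0 → ¬ |R ξ - q| < r := by
    rw [ae_all_iff]
    intro q
    rw [ae_all_iff]
    exact h1 q
  filter_upwards [h2] with ξ hξ e he h0
  obtain ⟨q, hq1, hq2⟩ := exists_rat_btwn (show R ξ - e / 4 < R ξ + e / 4 by linarith)
  obtain ⟨r, hr1, hr2⟩ := exists_rat_btwn (show e / 4 < e / 2 by linarith)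
  have hqr : |R ξ - q| < e / 4 := by
    rw [abs_lt]
    constructor <;> linarith
  refine hξ q r ?_ (by linarith)
  refine measure_mono_null ?_ h0
  intro η hη
  simp only [mem_setOf_eq] at hη ⊢
  have h3 : R η - R ξ = (R η - q) - (R ξ - q) := by ring
  rw [h3]
  have h4 := abs_sub (R η - q) (R ξ - q)
  linarith

theorem D1b_ok : St_D1b := by
  intro R H hR hH hR0 hHR hL
  have hess := D1b_ess mu R hR
  set X0 : Set ℝ := {ξ | (∀ᵐ η ∂mu, |H ξ - H η| ≤ |R ξ - R η|) ∧ |H ξ| ≤ R ξ ∧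
    ∀ e : ℝ, 0 < e → mu {η | |R η - R ξ| < e} ≠ 0} with hX0
  have hae : ∀ᵐ ξ ∂mu, ξ ∈ X0 := by
    filter_upwards [hess, hHR, hL] with ξ h1 h2 h3
    exact ⟨h3, h2, h1⟩
  have key : ∀ ξ₁ ∈ X0, ∀ ξ₂ ∈ X0, |H ξ₁ - H ξ₂| ≤ |R ξ₁ - R ξ₂| := by
    intro ξ₁ h1 ξ₂ h2
    refine le_of_forall_pos_le_add fun e he => ?_
    have hpos := h1.2.2 (e / 2) (by linarith)
    have hboth : ∀ᵐ η ∂mu, |H ξ₁ - H η| ≤ |R ξ₁ - R η| ∧ |H ξ₂ - H η| ≤ |R ξ₂ - R η| := by
      filter_upwards [h1.1, h2.1] with η a b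
      exact ⟨a, b⟩
    obtain ⟨η, hη1, hη2, hη3⟩ : ∃ η, |R η - R ξ₁| < e / 2 ∧ |H ξ₁ - H η| ≤ |R ξ₁ - R η| ∧
        |H ξ₂ - H η| ≤ |R ξ₂ - R η| := by
      by_contra hcon
      push Not at hcon
      apply hpos
      rw [measure_eq_zero_iff_ae_notMem]
      filter_upwards [hboth] with η hη hmem
      have := hcon η hmem hη.1
      linarith [hη.2]
    have e1 : H ξ₁ - H ξ₂ = (H ξ₁ - H η) - (H ξ₂ - H η) := by ring
    have e2 : R ξ₂ - R η = (R ξ₁ - R η) - (R ξ₁ - R ξ₂) := by ring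
    have e3 := abs_sub (H ξ₁ - H η) (H ξ₂ - H η)
    have e4 := abs_sub (R ξ₁ - R η) (R ξ₁ - R ξ₂)
    rw [← e1] at e3
    rw [← e2] at e4
    rw [abs_sub_comm] at hη1
    linarith
  classical
  set f : ℝ → ℝ := fun r => if h : ∃ ξ ∈ X0, R ξ = r then H h.choose else 0 with hf
  have hfR : ∀ ξ ∈ X0, f (R ξ) = H ξ := by
    intro ξ hξ
    have hex : ∃ ξ' ∈ X0, R ξ' = R ξ := ⟨ξ, hξ, rfl⟩
    rw [hf]
    simp only
    rw [dif_pos hex]
    have h1 := key _ hex.choose_spec.1 ξ hξ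
    rw [hex.choose_spec.2, sub_self, abs_zero] at h1
    have h2 := abs_nonneg (H hex.choose - H ξ)
    have h3 : |H hex.choose - H ξ| = 0 := le_antisymm h1 h2
    rw [abs_eq_zero] at h3
    linarith
  have hf0 : f 0 = 0 := by
    by_cases hex : ∃ ξ ∈ X0, R ξ = 0
    · obtain ⟨ξ, hξ, h0⟩ := hex
      have h1 := hfR ξ hξ
      rw [h0] at h1
      rw [h1]
      have h2 := hξ.2.1
      rw [h0] at h2
      exact abs_eq_zero.1 (le_antisymm h2 (abs_nonneg _))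
    · rw [hf]
      simp only
      rw [dif_neg hex]
  have hlip : LipschitzOnWith 1 f (R '' X0 ∪ {0}) := by
    rw [lipschitzOnWith_iff_dist_le_mul]
    intro a ha b hb
    rw [NNReal.coe_one, one_mul, Real.dist_eq, Real.dist_eq]
    rcases ha with ⟨ξ, hξ, rfl⟩ | ha
    · rcases hb with ⟨ξ', hξ', rfl⟩ | hb
      · rw [hfR ξ hξ, hfR ξ' hξ']
        exact key ξ hξ ξ' hξ'
      · rw [mem_singleton_iff] at hb
        rw [hb, hfR ξ hξ, hf0, sub_zero, sub_zero, abs_of_nonneg (hR0 ξ)]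
        exact hξ.2.1
    · rw [mem_singleton_iff] at ha
      rcases hb with ⟨ξ', hξ', rfl⟩ | hb
      · rw [ha, hfR ξ' hξ', hf0, zero_sub, zero_sub, abs_neg, abs_neg, abs_of_nonneg (hR0 ξ')]
        exact hξ'.2.1
      · rw [mem_singleton_iff] at hb
        rw [ha, hb]
        simp
  obtain ⟨Φ, hΦ, heq⟩ := hlip.extend_real
  refine ⟨Φ, hΦ, ?_, ?_⟩
  · rw [← heq (mem_union_right _ (mem_singleton 0)), hf0]
  · filter_upwards [hae] with t ht
    rw [← heq (mem_union_left _ (mem_image_of_mem R ht)), hfR t ht]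

end Pool.Agent.H582R3.HL
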