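import Pool.Agent.H582R3.HL.Stubs

/-! Task D2: Lipschitz functions give flat directions. -/

set_option autoImplicit false

open MeasureTheory Set Filter Topology
open scoped ENNReal Real

namespace Pool.Agent.H582R3.HL

namespace D2

theorem enorm_eq (z : ℂ) : ‖z‖ₑ = ENNReal.ofReal ‖z‖ := (ofReal_norm z).symm

theorem ess_fin {a : ℝ → ℝ} (hm : Monotone a) (hc : Continuous a) (h0 : a 0 = 0) (F : ℝ → ℂ)
    (hM : essSup (fun s => ‖F s‖ₑ) mu ≠ ∞) :
    essSup (fun s => ENNReal.ofReal (a ‖F s‖)) mu =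
      ENNReal.ofReal (a (essSup (fun s => ‖F s‖ₑ) mu).toReal) := by
  set M := essSup (fun s => ‖F s‖ₑ) mu with hMd
  apply le_antisymm
  · refine essSup_le_of_ae_le _ ?_
    filter_upwards [ENNReal.ae_le_essSup (μ := mu) (fun s => ‖F s‖ₑ)] with s hs
    rw [enorm_eq, ← hMd, ENNReal.ofReal_le_iff_le_toReal hM] at hs
    exact ENNReal.ofReal_le_ofReal (hm hs)
  · by_contra hlt
    rw [not_le] at hlt
    set K := essSup (fun s => ENNReal.ofReal (a ‖F s‖)) mu with hK
    have hKt : K ≠ ∞ := hlt.ne_top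
    have h1 : K.toReal < a M.toReal := (ENNReal.lt_ofReal_iff_toReal_lt hKt).1 hlt
    have h2 : ∀ᶠ r in 𝓝 M.toReal, K.toReal < a r :=
      hc.continuousAt.eventually (lt_mem_nhds h1)
    obtain ⟨δ, hδ, hball⟩ := Metric.eventually_nhds_iff.1 h2
    have h3 : K.toReal < a (M.toReal - δ / 2) := by
      apply hball
      rw [Real.dist_eq, show M.toReal - δ / 2 - M.toReal = -(δ / 2) by ring, abs_neg,
        abs_of_pos (by positivity)]
      linarith
    have h4 : 0 < M.toReal - δ / 2 := by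
      by_contra hc'
      rw [not_lt] at hc'
      have := hm hc'
      rw [h0] at this
      have hK0 : 0 ≤ K.toReal := ENNReal.toReal_nonneg
      linarith
    have h5 : M ≤ ENNReal.ofReal (M.toReal - δ / 2) := by
      refine essSup_le_of_ae_le _ ?_
      filter_upwards [ENNReal.ae_le_essSup (μ := mu) (fun s => ENNReal.ofReal (a ‖F s‖))]
        with s hs
      rw [← hK, ENNReal.ofReal_le_iff_le_toReal hKt] at hs
      rw [enorm_eq]
      apply ENNReal.ofReal_le_ofReal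
      by_contra hc'
      rw [not_le] at hc'
      have := hm hc'.le
      linarith
    have h6 := (ENNReal.le_ofReal_iff_toReal_le hM h4.le).1 h5
    linarith

theorem ess_top {a : ℝ → ℝ} {κ : ℝ} (hκ : 0 < κ) (hl : ∀ r, 0 ≤ r → κ * r ≤ a r) (F : ℝ → ℂ)
    (hM : essSup (fun s => ‖F s‖ₑ) mu = ∞) :
    essSup (fun s => ENNReal.ofReal (a ‖F s‖)) mu = ∞ := by
  by_contra hKt
  set K := essSup (fun s => ENNReal.ofReal (a ‖F s‖)) mu with hK
  have h5 : essSup (fun s => ‖F s‖ₑ) mu ≤ ENNReal.ofReal (K.toReal / κ) := by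
    refine essSup_le_of_ae_le _ ?_
    filter_upwards [ENNReal.ae_le_essSup (μ := mu) (fun s => ENNReal.ofReal (a ‖F s‖))]
      with s hs
    rw [← hK, ENNReal.ofReal_le_iff_le_toReal hKt] at hs
    rw [enorm_eq]
    apply ENNReal.ofReal_le_ofReal
    rw [le_div_iff₀ hκ]
    have := hl ‖F s‖ (norm_nonneg _)
    linarith
  rw [hM] at h5
  exact absurd (top_le_iff.1 h5) ENNReal.ofReal_ne_top

theorem top_comp {a : ℝ → ℝ} (hm : Monotone a) {F : ℝ → ℂ} {A : Set ℝ}
    (h : Top (fun s => ‖F s‖ₑ) A) : Top (fun s => ENNReal.ofReal (a ‖F s‖)) A := by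
  unfold Top at h ⊢
  filter_upwards [h] with ξ hξ
  filter_upwards [hξ] with η hη h1 h2
  have h3 := hη h1 h2
  rw [enorm_eq, enorm_eq, ENNReal.ofReal_le_ofReal_iff (norm_nonneg _)] at h3
  exact ENNReal.ofReal_le_ofReal (hm h3)

theorem phs_eq (Φ : ℝ → ℝ) (F : ℝ → ℂ) (t ε : ℝ) :
    (ε : ℂ) * phs Φ F t = ((ε * Φ ‖F t‖ / ‖F t‖ : ℝ) : ℂ) * F t := by
  unfold phs
  push_cast
  ring

theorem enorm_comb {c r : ℝ} {z : ℂ} (hz : ‖z‖ = r) (h0 : r = 0 → c = 0) (hc : 0 ≤ r + c) :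
    ‖z + ((c / r : ℝ) : ℂ) * z‖ₑ = ENNReal.ofReal (r + c) := by
  rw [enorm_eq]
  congr 1
  have e : z + ((c / r : ℝ) : ℂ) * z = ((1 + c / r : ℝ) : ℂ) * z := by
    push_cast
    ring
  rw [e, norm_mul, Complex.norm_real, hz]
  by_cases hr : r = 0
  · rw [hr, h0 hr]
    simp
  · have hr' : 0 < r := lt_of_le_of_ne (by rw [← hz]; exact norm_nonneg z) (Ne.symm hr)
    have e2 : 1 + c / r = (r + c) / r := by
      field_simp
    rw [e2, Real.norm_of_nonneg (by positivity)]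
    field_simp

end D2

open D2 in
theorem D2_ok (hK2 : St_K2) : St_D2 := by
  intro Ψ hΨ F hF Φ hL hΦ0
  obtain ⟨L, hL⟩ := hL
  have hLL : (0 : ℝ) ≤ L := L.2
  set ε : ℝ := 1 / ((L : ℝ) + 1) with hε
  have hεp : 0 < ε := by positivity
  have hεL : ε * L + ε = 1 := by
    rw [hε]
    field_simp
  have lip : ∀ r s : ℝ, r ≤ s → |ε * Φ s - ε * Φ r| ≤ (1 - ε) * (s - r) := by
    intro r s hrs
    have h := hL.dist_le_mul s r
    rw [Real.dist_eq, Real.dist_eq, abs_of_nonneg (sub_nonneg.2 hrs)] at h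
    rw [← mul_sub, abs_mul, abs_of_pos hεp]
    have h1 : ε * |Φ s - Φ r| ≤ ε * ((L : ℝ) * (s - r)) := mul_le_mul_of_nonneg_left h hεp.le
    have h2 : ε * ((L : ℝ) * (s - r)) = (1 - ε) * (s - r) := by
      rw [← hεL]
      ring
    linarith
  have hΦc : Continuous Φ := hL.continuous
  set a : ℝ → ℝ := fun r => r + ε * Φ r with ha
  set b : ℝ → ℝ := fun r => r + -(ε * Φ r) with hb
  have ham : Monotone a := by
    intro r s hrs
    have h := abs_le.1 (lip r s hrs)
    simp only [ha]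
    nlinarith [h.1, h.2]
  have hbm : Monotone b := by
    intro r s hrs
    have h := abs_le.1 (lip r s hrs)
    simp only [hb]
    nlinarith [h.1, h.2]
  have hac : Continuous a := by fun_prop
  have hbc : Continuous b := by fun_prop
  have ha0 : a 0 = 0 := by simp [ha, hΦ0]
  have hb0 : b 0 = 0 := by simp [hb, hΦ0]
  have hal : ∀ r, 0 ≤ r → ε * r ≤ a r := by
    intro r hr
    have h := abs_le.1 (lip 0 r hr)
    rw [hΦ0] at h
    simp only [ha]
    nlinarith [h.1, h.2]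
  have hbl : ∀ r, 0 ≤ r → ε * r ≤ b r := by
    intro r hr
    have h := abs_le.1 (lip 0 r hr)
    rw [hΦ0] at h
    simp only [hb]
    nlinarith [h.1, h.2]
  have hadd : ∀ s, ‖F s + ε * phs Φ F s‖ₑ = ENNReal.ofReal (a ‖F s‖) := by
    intro s
    rw [phs_eq]
    refine enorm_comb rfl (fun h => by rw [h, hΦ0, mul_zero]) ?_
    have := hal ‖F s‖ (norm_nonneg _)
    have h1 : 0 ≤ ε * ‖F s‖ := by positivity
    exact h1.trans this
  have hsub : ∀ s, ‖F s - ε * phs Φ F s‖ₑ = ENNReal.ofReal (b ‖F s‖) := by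
    intro s
    rw [phs_eq]
    have e : F s - ((ε * Φ ‖F s‖ / ‖F s‖ : ℝ) : ℂ) * F s =
        F s + ((-(ε * Φ ‖F s‖) / ‖F s‖ : ℝ) : ℂ) * F s := by
      push_cast
      ring
    rw [e]
    refine enorm_comb rfl (fun h => by rw [h, hΦ0, mul_zero, neg_zero]) ?_
    have := hbl ‖F s‖ (norm_nonneg _)
    have h1 : 0 ≤ ε * ‖F s‖ := by positivity
    exact h1.trans this
  refine ⟨ε, hεp, ?_, ?_⟩
  · intro t ht
    obtain ⟨A, hA1, hA2, hA3, hA4⟩ := hK2 (fun s => ‖F s‖ₑ) hF.enorm t ⟨ht.1.1.le, ht.1.2⟩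
    refine ⟨A, hA1, hA2, hA3, ?_, ?_, ?_⟩
    · simp only [hadd]
      exact top_comp ham hA4
    · simp only [hsub]
      exact top_comp hbm hA4
    · intro _
      refine Eventually.of_forall fun s _ => ⟨ε * Φ ‖F s‖ / ‖F s‖, ?_, phs_eq Φ F s ε⟩
      have h := lip 0 ‖F s‖ (norm_nonneg _)
      rw [hΦ0, mul_zero, sub_zero, sub_zero] at h
      rw [abs_div, abs_of_nonneg (norm_nonneg (F s))]
      apply div_le_one_of_le₀ _ (norm_nonneg _)
      have h2 : 0 ≤ ε * ‖F s‖ := by positivity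
      linarith
  · intro _
    simp only [hadd, hsub]
    by_cases hM : essSup (fun s => ‖F s‖ₑ) mu = ∞
    · rw [ess_top hεp hal F hM, ess_top hεp hbl F hM, hM]
      simp
    · rw [ess_fin ham hac ha0 F hM, ess_fin hbm hbc hb0 F hM]
      have hMn : 0 ≤ (essSup (fun s => ‖F s‖ₑ) mu).toReal := ENNReal.toReal_nonneg
      have h1 := hal _ hMn
      have h2 := hbl _ hMn
      have h3 : 0 ≤ ε * (essSup (fun s => ‖F s‖ₑ) mu).toReal := by positivity
      rw [← ENNReal.ofReal_add (h3.trans h1) (h3.trans h2)]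
      simp only [ha, hb]
      generalize hMM : essSup (fun s => ‖F s‖ₑ) mu = M at *
      rw [show M.toReal + ε * Φ M.toReal + (M.toReal + -(ε * Φ M.toReal)) = 2 * M.toReal by ring,
        ENNReal.ofReal_mul (by norm_num), ENNReal.ofReal_toReal hM]
      norm_num

end Pool.Agent.H582R3.HL
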