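import Pool.Agent.H582R3.HL.Stubs

set_option autoImplicit false

open MeasureTheory Set Filter Topology
open scoped ENNReal Real

namespace Pool.Agent.H582R3.HL

/-- Cauchy–Schwarz for `lintegral` -/
private lemma E1_cs {f g : ℝ → ℝ≥0∞} (hf : AEMeasurable f mu) (hg : AEMeasurable g mu) :
    ∫⁻ t, f t * g t ∂mu ≤ (∫⁻ t, f t ^ 2 ∂mu) ^ (1 / 2 : ℝ) * (∫⁻ t, g t ^ 2 ∂mu) ^ (1 / 2 : ℝ) := by
  have h := ENNReal.lintegral_mul_le_Lp_mul_Lq mu Real.HolderConjugate.two_two hf hg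
  simpa only [ENNReal.rpow_two, Pi.mul_apply] using h

private lemma E1_cont {a : ℕ → ℂ} (ha : Summable fun n => ‖a n‖ ^ 2) {r : ℝ} (hr : r ∈ Set.Ioo (0 : ℝ) 1) :
    Continuous (sl (fun z => ∑' n, a n * z ^ n) r) := by
  unfold sl
  have hs : Summable fun n : ℕ => ‖a n‖ ^ 2 + (r ^ 2) ^ n := by
    apply ha.add
    exact summable_geometric_of_lt_one (by positivity) (by nlinarith [hr.1, hr.2])
  apply continuous_tsum (u := fun n : ℕ => ‖a n‖ ^ 2 + (r ^ 2) ^ n)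
  · intro n
    fun_prop
  · exact hs
  · intro n t
    rw [norm_mul, norm_pow, norm_mul, Complex.norm_exp_ofReal_mul_I, mul_one, Complex.norm_real,
      Real.norm_eq_abs, abs_of_pos hr.1]
    have h1 : (r ^ 2) ^ n = (r ^ n) ^ 2 := by ring
    rw [h1]
    nlinarith [sq_nonneg (‖a n‖ - r ^ n), sq_nonneg (‖a n‖), sq_nonneg (r ^ n)]

theorem E1_ok (hb : St_E1b) (hc : St_E1c) : St_E1 := by
  intro f hf hM
  obtain ⟨a, b, ha, hb', hfab⟩ := hb f hf hM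
  obtain ⟨_, U, hU, hU2, hUt⟩ := hc a ha
  obtain ⟨hBb, V, hV, hV2, hVt⟩ := hc b hb'
  have hUm : AEMeasurable (fun t => ‖U t‖ₑ) mu := hU.enorm.aemeasurable
  have hVm : AEMeasurable (fun t => ‖V t‖ₑ) mu := hV.enorm.aemeasurable
  refine ⟨fun t => U t * V t, hU.mul hV, ?_, ?_⟩
  · refine ⟨(hU.mul hV).aestronglyMeasurable, ?_⟩
    have h1 := E1_cs hUm hVm
    unfold HasFiniteIntegral
    have h2 : ∀ t, ‖U t * V t‖ₑ = ‖U t‖ₑ * ‖V t‖ₑ := fun t => enorm_mul _ _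
    simp only [h2]
    refine lt_of_le_of_lt h1 (ENNReal.mul_lt_top ?_ ?_)
    · exact ENNReal.rpow_lt_top_of_nonneg (by norm_num) hU2.ne
    · exact ENNReal.rpow_lt_top_of_nonneg (by norm_num) hV2.ne
  · set CB : ℝ≥0∞ := ENNReal.ofReal (2 * π * ∑' n, ‖b n‖ ^ 2) with hCB
    set X : ℝ → ℝ≥0∞ := fun r => ∫⁻ t, ‖sl (fun z => ∑' n, a n * z ^ n) r t - U t‖ₑ ^ 2 ∂mu with hX
    set Y : ℝ → ℝ≥0∞ := fun r => ∫⁻ t, ‖sl (fun z => ∑' n, b n * z ^ n) r t - V t‖ₑ ^ 2 ∂mu with hY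
    have hlim : Tendsto (fun r => X r ^ (1 / 2 : ℝ) * CB ^ (1 / 2 : ℝ) +
        (∫⁻ t, ‖U t‖ₑ ^ 2 ∂mu) ^ (1 / 2 : ℝ) * Y r ^ (1 / 2 : ℝ)) (𝓝[<] 1) (𝓝 0) := by
      have h1 : Tendsto (fun r => X r ^ (1 / 2 : ℝ)) (𝓝[<] 1) (𝓝 0) := by
        have := hUt.ennrpow_const (1 / 2 : ℝ)
        rwa [ENNReal.zero_rpow_of_pos (by norm_num)] at this
      have h2 : Tendsto (fun r => Y r ^ (1 / 2 : ℝ)) (𝓝[<] 1) (𝓝 0) := by
        have := hVt.ennrpow_const (1 / 2 : ℝ)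
        rwa [ENNReal.zero_rpow_of_pos (by norm_num)] at this
      have h3 : Tendsto (fun r => X r ^ (1 / 2 : ℝ) * CB ^ (1 / 2 : ℝ)) (𝓝[<] 1) (𝓝 0) := by
        have := ENNReal.Tendsto.mul_const (b := CB ^ (1 / 2 : ℝ)) h1
          (Or.inr (ENNReal.rpow_lt_top_of_nonneg (by norm_num) ENNReal.ofReal_ne_top).ne)
        rwa [zero_mul] at this
      have h4 : Tendsto (fun r => (∫⁻ t, ‖U t‖ₑ ^ 2 ∂mu) ^ (1 / 2 : ℝ) * Y r ^ (1 / 2 : ℝ))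
          (𝓝[<] 1) (𝓝 0) := by
        have := ENNReal.Tendsto.const_mul (a := (∫⁻ t, ‖U t‖ₑ ^ 2 ∂mu) ^ (1 / 2 : ℝ)) h2
          (Or.inr (ENNReal.rpow_lt_top_of_nonneg (by norm_num) hU2.ne).ne)
        rwa [mul_zero] at this
      have := h3.add h4
      rwa [add_zero] at this
    refine tendsto_of_tendsto_of_tendsto_of_le_of_le' tendsto_const_nhds hlim
      (Eventually.of_forall fun r => bot_le) ?_
    have hev : ∀ᶠ r in 𝓝[<] (1 : ℝ), r ∈ Set.Ioo (0 : ℝ) 1 := Ioo_mem_nhdsLT (by norm_num)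
    filter_upwards [hev] with r hr
    have hAc : AEMeasurable (fun t => ‖sl (fun z => ∑' n, a n * z ^ n) r t - U t‖ₑ) mu :=
      ((E1_cont ha hr).measurable.sub hU).enorm.aemeasurable
    have hBc : AEMeasurable (fun t => ‖sl (fun z => ∑' n, b n * z ^ n) r t‖ₑ) mu :=
      (E1_cont hb' hr).measurable.enorm.aemeasurable
    have hBc' : AEMeasurable (fun t => ‖sl (fun z => ∑' n, b n * z ^ n) r t - V t‖ₑ) mu :=
      ((E1_cont hb' hr).measurable.sub hV).enorm.aemeasurable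
    have hpt : ∀ t, ‖sl f r t - U t * V t‖ₑ ≤
        ‖sl (fun z => ∑' n, a n * z ^ n) r t - U t‖ₑ * ‖sl (fun z => ∑' n, b n * z ^ n) r t‖ₑ +
        ‖U t‖ₑ * ‖sl (fun z => ∑' n, b n * z ^ n) r t - V t‖ₑ := by
      intro t
      have hz : ‖(r : ℂ) * Complex.exp (t * Complex.I)‖ < 1 := by
        rw [norm_mul, Complex.norm_exp_ofReal_mul_I, mul_one, Complex.norm_real,
          Real.norm_eq_abs, abs_of_pos hr.1]
        exact hr.2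
      have h1 : sl f r t = sl (fun z => ∑' n, a n * z ^ n) r t * sl (fun z => ∑' n, b n * z ^ n) r t :=
        hfab _ hz
      rw [h1, ← enorm_mul, ← enorm_mul]
      refine le_trans (le_of_eq ?_) (enorm_add_le _ _)
      congr 1
      ring
    calc ∫⁻ t, ‖sl f r t - U t * V t‖ₑ ∂mu
        ≤ ∫⁻ t, (‖sl (fun z => ∑' n, a n * z ^ n) r t - U t‖ₑ * ‖sl (fun z => ∑' n, b n * z ^ n) r t‖ₑ +
        ‖U t‖ₑ * ‖sl (fun z => ∑' n, b n * z ^ n) r t - V t‖ₑ) ∂mu := lintegral_mono hpt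
      _ = (∫⁻ t, ‖sl (fun z => ∑' n, a n * z ^ n) r t - U t‖ₑ * ‖sl (fun z => ∑' n, b n * z ^ n) r t‖ₑ ∂mu) +
          ∫⁻ t, ‖U t‖ₑ * ‖sl (fun z => ∑' n, b n * z ^ n) r t - V t‖ₑ ∂mu :=
        lintegral_add_left' (hAc.mul hBc) _
      _ ≤ X r ^ (1 / 2 : ℝ) * (∫⁻ t, ‖sl (fun z => ∑' n, b n * z ^ n) r t‖ₑ ^ 2 ∂mu) ^ (1 / 2 : ℝ) +
          (∫⁻ t, ‖U t‖ₑ ^ 2 ∂mu) ^ (1 / 2 : ℝ) * Y r ^ (1 / 2 : ℝ) :=
        add_le_add (E1_cs hAc hBc) (E1_cs hUm hBc')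
      _ ≤ X r ^ (1 / 2 : ℝ) * CB ^ (1 / 2 : ℝ) +
          (∫⁻ t, ‖U t‖ₑ ^ 2 ∂mu) ^ (1 / 2 : ℝ) * Y r ^ (1 / 2 : ℝ) := by
        gcongr
        exact hBb r hr

end Pool.Agent.H582R3.HL
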