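import Pool.Agent.H582R3.HL.Stubs

/-!
# E1a: division by the zeros and square root
-/

set_option autoImplicit false

open MeasureTheory Set Filter Topology
open scoped ENNReal Real

namespace Pool.Agent.H582R3.HL

namespace E1a

open Metric

theorem den_ne {b z : ℂ} (hb : ‖b‖ < 1) (hz : ‖z‖ ≤ 1) : 1 - (starRingEnd ℂ) b * z ≠ 0 := by
  intro h
  have h1 : (starRingEnd ℂ) b * z = 1 := (sub_eq_zero.1 h).symm
  have h2 : ‖(starRingEnd ℂ) b * z‖ = 1 := by rw [h1, norm_one]
  rw [norm_mul, RCLike.norm_conj] at h2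
  have := norm_nonneg b
  have := norm_nonneg z
  nlinarith

theorem den_ne' {b z : ℂ} (hb : ‖b‖ < 1) (hz : ‖z‖ < 2 / (1 + ‖b‖)) :
    1 - (starRingEnd ℂ) b * z ≠ 0 := by
  intro h
  have h1 : (starRingEnd ℂ) b * z = 1 := (sub_eq_zero.1 h).symm
  have h2 : ‖(starRingEnd ℂ) b * z‖ = 1 := by rw [h1, norm_one]
  rw [norm_mul, RCLike.norm_conj] at h2
  have h3 := norm_nonneg b
  have h4 := norm_nonneg z
  rw [lt_div_iff₀ (by linarith)] at hz
  nlinarith

theorem bl_id (b z : ℂ) : ‖1 - (starRingEnd ℂ) b * z‖ ^ 2 - ‖z - b‖ ^ 2 =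
    (1 - ‖z‖ ^ 2) * (1 - ‖b‖ ^ 2) := by
  simp only [← Complex.normSq_eq_norm_sq, Complex.normSq_apply]
  simp
  ring

theorem bl_eq {b z : ℂ} (hb : ‖b‖ < 1) (hz : ‖z‖ = 1) :
    ‖(z - b) / (1 - (starRingEnd ℂ) b * z)‖ = 1 := by
  have h0 := norm_pos_iff.2 (den_ne hb hz.le)
  rw [norm_div, div_eq_one_iff_eq h0.ne']
  have h1 := bl_id b z
  rw [hz] at h1
  have h2 : ‖z - b‖ ^ 2 = ‖1 - (starRingEnd ℂ) b * z‖ ^ 2 := by linarith
  exact (sq_eq_sq₀ (norm_nonneg _) h0.le).1 h2

theorem exists_sqrt_ball {ρ : ℝ} (hρ : 0 < ρ) (u : ℂ → ℂ) (hu : DifferentiableOn ℂ u (ball (0:ℂ) ρ))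
    (h0 : ∀ z ∈ ball (0:ℂ) ρ, u z ≠ 0) :
    ∃ v : ℂ → ℂ, DifferentiableOn ℂ v (ball (0:ℂ) ρ) ∧ ∀ z ∈ ball (0:ℂ) ρ, v z ^ 2 = u z := by
  have hd : DifferentiableOn ℂ (fun z => deriv u z / u z) (ball (0:ℂ) ρ) :=
    (hu.deriv isOpen_ball).div hu h0
  obtain ⟨L, hL⟩ := hd.isExactOn_ball
  have hw : ∀ z ∈ ball (0:ℂ) ρ, HasDerivAt (fun z => u z * Complex.exp (-L z)) 0 z := by
    intro z hz
    have h1 : HasDerivAt u (deriv u z) z :=
      (hu.differentiableAt (isOpen_ball.mem_nhds hz)).hasDerivAt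
    have h2 : HasDerivAt (fun z => Complex.exp (-L z))
        (Complex.exp (-L z) * (-(deriv u z / u z))) z := (hL z hz).neg.cexp
    have h3 := h1.mul h2
    refine h3.congr_deriv ?_
    have := h0 z hz
    field_simp
    ring
  have hc : ∀ z ∈ ball (0:ℂ) ρ, u z * Complex.exp (-L z) = u 0 * Complex.exp (-L 0) := by
    intro z hz
    have := Convex.norm_image_sub_le_of_norm_hasDerivWithin_le
      (f := fun z => u z * Complex.exp (-L z)) (f' := fun _ => 0) (C := 0)
      (s := ball (0:ℂ) ρ) (x := 0) (y := z)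
      (fun x hx => (hw x hx).hasDerivWithinAt) (fun x hx => by simp) (convex_ball _ _)
      (mem_ball_self hρ) hz
    simp only [zero_mul] at this
    exact sub_eq_zero.mp (norm_le_zero_iff.mp this)
  obtain ⟨s, hs⟩ := IsAlgClosed.exists_pow_nat_eq (u 0 * Complex.exp (-L 0)) (n := 2) (by norm_num)
  refine ⟨fun z => s * Complex.exp (L z / 2), ?_, ?_⟩
  · intro z hz
    have : HasDerivAt (fun z => s * Complex.exp (L z / 2)) _ z :=
      (((hL z hz).div_const 2).cexp).const_mul s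
    exact this.differentiableAt.differentiableWithinAt
  · intro z hz
    have e : Complex.exp (L z / 2) ^ 2 = Complex.exp (L z) := by
      rw [← Complex.exp_nat_mul]; congr 1; push_cast; ring
    show (s * Complex.exp (L z / 2)) ^ 2 = u z
    rw [mul_pow, hs, e, ← hc z hz, mul_assoc, ← Complex.exp_add]
    simp

/-- the decomposition -/
def Dc (R : ℝ) (f : ℂ → ℂ) : Prop :=
  ∃ (R' : ℝ) (B g : ℂ → ℂ), 1 < R' ∧ DifferentiableOn ℂ B (ball 0 R') ∧
    DifferentiableOn ℂ g (ball 0 R) ∧ (∀ z : ℂ, ‖z‖ < 1 → g z ≠ 0) ∧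
    (∀ z : ℂ, ‖z‖ = 1 → ‖B z‖ = 1) ∧ ∀ z : ℂ, ‖z‖ ≤ 1 → f z = B z * g z

theorem step {R : ℝ} (hR : 1 < R) {s : ℂ} (hs : ‖s‖ < 1) {f : ℂ → ℂ}
    (hf : DifferentiableOn ℂ f (ball 0 R)) (hfs : f s = 0) (hne : ∀ z : ℂ, ‖z‖ = 1 → f z ≠ 0) :
    ∃ f2 : ℂ → ℂ, DifferentiableOn ℂ f2 (ball 0 R) ∧ (∀ z : ℂ, ‖z‖ = 1 → f2 z ≠ 0) ∧
      (∀ w : ℂ, ‖w‖ < 1 → w ≠ s → f2 w = 0 → f w = 0) ∧
      analyticOrderAt f s = 1 + analyticOrderAt f2 s ∧ (Dc R f2 → Dc R f) := by
  have hsU : s ∈ ball (0 : ℂ) R := by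
    rw [mem_ball_zero_iff]
    linarith
  have hd : DifferentiableOn ℂ (dslope f s) (ball 0 R) :=
    (Complex.differentiableOn_dslope (isOpen_ball.mem_nhds hsU)).2 hf
  have hmul : ∀ w, f w = (w - s) * dslope f s w := by
    intro w
    have := sub_smul_dslope f s w
    rw [hfs, sub_zero, smul_eq_mul] at this
    exact this.symm
  have hdD : Differentiable ℂ (fun w : ℂ => 1 - (starRingEnd ℂ) s * w) := by fun_prop
  have hf2d : DifferentiableOn ℂ (fun w => dslope f s w * (1 - (starRingEnd ℂ) s * w)) (ball 0 R) :=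
    hd.mul hdD.differentiableOn
  refine ⟨fun w => dslope f s w * (1 - (starRingEnd ℂ) s * w), hf2d, ?_, ?_, ?_, ?_⟩
  · intro z hz h0
    have h' : dslope f s z * (1 - (starRingEnd ℂ) s * z) = 0 := h0
    rcases mul_eq_zero.1 h' with h1 | h1
    · exact hne z hz (by rw [hmul, h1, mul_zero])
    · exact den_ne hs hz.le h1
  · intro w hw hws h
    have h' : dslope f s w * (1 - (starRingEnd ℂ) s * w) = 0 := h
    rcases mul_eq_zero.1 h' with h1 | h1
    · rw [hmul, h1, mul_zero]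
    · exact absurd h1 (den_ne hs hw.le)
  · have ha1 : AnalyticAt ℂ (dslope f s) s := (hd.analyticAt (isOpen_ball.mem_nhds hsU))
    have ha2 : AnalyticAt ℂ (fun w => 1 - (starRingEnd ℂ) s * w) s := by fun_prop
    have ha3 : AnalyticAt ℂ (fun w : ℂ => w - s) s := by fun_prop
    have e1 : analyticOrderAt f s = analyticOrderAt (fun w : ℂ => w - s) s
        + analyticOrderAt (dslope f s) s := by
      rw [← analyticOrderAt_mul ha3 ha1]
      congr 1
      funext w
      exact hmul w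
    have e2 : analyticOrderAt (fun w => dslope f s w * (1 - (starRingEnd ℂ) s * w)) s
        = analyticOrderAt (dslope f s) s + analyticOrderAt (fun w => 1 - (starRingEnd ℂ) s * w) s := by
      rw [← analyticOrderAt_mul ha1 ha2]
      rfl
    have e3 : analyticOrderAt (fun w => 1 - (starRingEnd ℂ) s * w) s = 0 := by
      rw [ha2.analyticOrderAt_eq_zero]
      exact den_ne hs hs.le
    have e4 : analyticOrderAt (fun w : ℂ => w - s) s = 1 := by
      have : ((1 : ℕ) : ℕ∞) = 1 := rfl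
      rw [← this, ha3.analyticOrderAt_eq_natCast]
      refine ⟨fun _ => 1, analyticAt_const, one_ne_zero, ?_⟩
      filter_upwards with z
      simp
    rw [e1, e4, e2, e3, add_zero]
  · rintro ⟨R', B, g, h1, h2, h3, h4, h5, h6⟩
    have hRs : 1 < 2 / (1 + ‖s‖) := by
      rw [lt_div_iff₀ (by positivity)]
      linarith
    refine ⟨min R' (2 / (1 + ‖s‖)), fun z => (z - s) / (1 - (starRingEnd ℂ) s * z) * B z, g,
      lt_min h1 hRs, ?_, h3, h4, ?_, ?_⟩
    · refine DifferentiableOn.mul ?_ (h2.mono (ball_subset_ball (min_le_left _ _)))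
      refine DifferentiableOn.div (by fun_prop) hdD.differentiableOn ?_
      intro z hz
      rw [mem_ball_zero_iff] at hz
      exact den_ne' hs (hz.trans_le (min_le_right _ _))
    · intro z hz
      rw [norm_mul, bl_eq hs hz, h5 z hz, one_mul]
    · intro z hz
      have h7 := h6 z hz
      have h8 := den_ne hs hz
      have h9 : dslope f s z * (1 - (starRingEnd ℂ) s * z) = B z * g z := h7
      calc f z = (z - s) * dslope f s z := hmul z
        _ = (z - s) / (1 - (starRingEnd ℂ) s * z) * (dslope f s z * (1 - (starRingEnd ℂ) s * z)) := by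
            rw [div_mul_eq_mul_div, eq_div_iff h8]
            ring
        _ = _ := by rw [h9]; ring

theorem order_ne_top {R : ℝ} (hR : 1 < R) {s : ℂ} (hs : ‖s‖ < 1) {f : ℂ → ℂ}
    (hf : DifferentiableOn ℂ f (ball 0 R)) (hne : ∀ z : ℂ, ‖z‖ = 1 → f z ≠ 0) :
    analyticOrderAt f s ≠ ⊤ := by
  intro htop
  rw [analyticOrderAt_eq_top] at htop
  have hon : AnalyticOnNhd ℂ f (ball (0:ℂ) R) := hf.analyticOnNhd isOpen_ball
  have := hon.eqOn_zero_of_preconnected_of_eventuallyEq_zero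
    (convex_ball (0:ℂ) R).isPreconnected (by rw [mem_ball_zero_iff]; linarith) htop
  exact hne 1 (by simp) (this (by rw [mem_ball_zero_iff, norm_one]; exact hR))

theorem core {R : ℝ} (hR : 1 < R) (S : Finset ℂ) : ∀ f : ℂ → ℂ,
    DifferentiableOn ℂ f (ball 0 R) → (∀ z : ℂ, ‖z‖ = 1 → f z ≠ 0) →
      (∀ w : ℂ, ‖w‖ < 1 → f w = 0 → w ∈ S) → Dc R f := by
  classical
  induction S using Finset.induction_on with
  | empty =>
    intro f hf _ hS
    refine ⟨R, fun _ => 1, f, hR, differentiableOn_const _, hf, fun w hw h => ?_, by simp, by simp⟩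
    exact absurd (hS w hw h) (by simp)
  | insert s S' _ ih =>
    by_cases hs : ‖s‖ < 1
    · have hsU : s ∈ ball (0 : ℂ) R := by
        rw [mem_ball_zero_iff]
        linarith
      have key : ∀ n : ℕ, ∀ f : ℂ → ℂ, DifferentiableOn ℂ f (ball 0 R) →
          (∀ z : ℂ, ‖z‖ = 1 → f z ≠ 0) → (∀ w : ℂ, ‖w‖ < 1 → f w = 0 → w ∈ insert s S') →
          analyticOrderAt f s = n → Dc R f := by
        intro n
        induction n with
        | zero =>
          intro f hf hne hS hn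
          have ha : AnalyticAt ℂ f s := hf.analyticAt (isOpen_ball.mem_nhds hsU)
          have hfs : f s ≠ 0 := ha.analyticOrderAt_eq_zero.1 (by rw [hn]; rfl)
          refine ih f hf hne (fun w hw h => ?_)
          rcases Finset.mem_insert.1 (hS w hw h) with h1 | h1
          · exact absurd (h1 ▸ h) hfs
          · exact h1
        | succ n ihn =>
          intro f hf hne hS hn
          have ha : AnalyticAt ℂ f s := hf.analyticAt (isOpen_ball.mem_nhds hsU)
          have hfs : f s = 0 := by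
            by_contra h
            rw [ha.analyticOrderAt_eq_zero.2 h] at hn
            have : (0 : ℕ) = n + 1 := by exact_mod_cast hn
            omega
          obtain ⟨f2, h1, h2, h4, h5, h6⟩ := step hR hs hf hfs hne
          apply h6
          refine ihn f2 h1 h2 (fun w hw h => ?_) ?_
          · by_cases hws : w = s
            · rw [hws]; exact Finset.mem_insert_self _ _
            · exact hS w hw (h4 w hw hws h)
          · rw [hn] at h5
            have h7 : ((n + 1 : ℕ) : ℕ∞) = 1 + (n : ℕ∞) := by push_cast; ring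
            rw [h7] at h5
            exact (ENat.add_right_injective_of_ne_top (n := 1) (by simp) h5).symm
      intro f hf hne hS
      obtain ⟨n, hn⟩ := ENat.ne_top_iff_exists.1 (order_ne_top hR hs hf hne)
      exact key n f hf hne hS hn.symm
    · intro f hf hne hS
      refine ih f hf hne (fun w hw h => ?_)
      rcases Finset.mem_insert.1 (hS w hw h) with h1 | h1
      · exact absurd (h1 ▸ hw) hs
      · exact h1

theorem decomp {R : ℝ} (hR : 1 < R) (f : ℂ → ℂ) (hf : DifferentiableOn ℂ f (ball 0 R))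
    (hne : ∀ z : ℂ, ‖z‖ = 1 → f z ≠ 0) : Dc R f := by
  have hon : AnalyticOnNhd ℂ f (ball (0:ℂ) R) := hf.analyticOnNhd isOpen_ball
  have hfin : ({w : ℂ | ‖w‖ < 1 ∧ f w = 0}).Finite := by
    by_contra hinf
    have hinf' : ({w : ℂ | ‖w‖ < 1 ∧ f w = 0}).Infinite := hinf
    obtain ⟨x, hx, hacc⟩ := hinf'.exists_accPt_of_subset_isCompact
      (isCompact_closedBall (0:ℂ) 1) (fun w hw => by
        rw [mem_closedBall_zero_iff]
        exact hw.1.le)
    rw [accPt_iff_frequently] at hacc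
    have hfreq : ∃ᶠ z in nhdsWithin x {x}ᶜ, f z = 0 := by
      rw [frequently_nhdsWithin_iff]
      exact hacc.mono (fun y hy => ⟨hy.2.2, hy.1⟩)
    rw [mem_closedBall_zero_iff] at hx
    have h0 := hon.eqOn_zero_of_preconnected_of_frequently_eq_zero
      (convex_ball (0:ℂ) R).isPreconnected (by rw [mem_ball_zero_iff]; linarith) hfreq
    exact hne 1 (by simp) (h0 (by rw [mem_ball_zero_iff, norm_one]; exact hR))
  exact core hR hfin.toFinset f hf hne
    (fun w hw hgw => by rw [Set.Finite.mem_toFinset]; exact ⟨hw, hgw⟩)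

/-- a larger disc without zeros -/
theorem larger {R : ℝ} (hR : 1 < R) (g : ℂ → ℂ) (hg : DifferentiableOn ℂ g (ball 0 R))
    (hne : ∀ z : ℂ, ‖z‖ ≤ 1 → g z ≠ 0) : ∃ ρ : ℝ, 1 < ρ ∧ ρ ≤ R ∧ ∀ z ∈ ball (0 : ℂ) ρ, g z ≠ 0 := by
  have hR1 : (1 + R) / 2 < R := by linarith
  have hcont : ContinuousOn g (closedBall 0 ((1 + R) / 2)) :=
    hg.continuousOn.mono (closedBall_subset_ball hR1)
  have hcomp : IsCompact (closedBall (0 : ℂ) ((1 + R) / 2) ∩ g ⁻¹' {0}) :=
    (isCompact_closedBall (0 : ℂ) ((1 + R) / 2)).of_isClosed_subset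
      (hcont.preimage_isClosed_of_isClosed isClosed_closedBall isClosed_singleton) inter_subset_left
  rcases (closedBall (0 : ℂ) ((1 + R) / 2) ∩ g ⁻¹' {0}).eq_empty_or_nonempty with he | hne'
  · refine ⟨(1 + R) / 2, by linarith, hR1.le, fun z hz h0 => ?_⟩
    have : z ∈ closedBall (0 : ℂ) ((1 + R) / 2) ∩ g ⁻¹' {0} := ⟨ball_subset_closedBall hz, h0⟩
    rw [he] at this
    exact this
  · obtain ⟨z0, hz0, hmin⟩ := hcomp.exists_isMinOn hne' continuous_norm.continuousOn
    have h1 : 1 < ‖z0‖ := by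
      by_contra hcon
      exact hne z0 (not_lt.1 hcon) hz0.2
    refine ⟨min ((1 + R) / 2) ‖z0‖, lt_min (by linarith) h1, (min_le_left _ _).trans hR1.le,
      fun z hz h0 => ?_⟩
    rw [mem_ball_zero_iff, lt_min_iff] at hz
    have h2 : z ∈ closedBall (0 : ℂ) ((1 + R) / 2) ∩ g ⁻¹' {0} :=
      ⟨by rw [mem_closedBall_zero_iff]; exact hz.1.le, h0⟩
    have h3 : ‖z0‖ ≤ ‖z‖ := hmin h2
    linarith [hz.2]

end E1a

open E1a in
theorem E1a_ok : St_E1a := by
  intro R f hR hf hne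
  obtain ⟨R', B, g, h1, h2, h3, h4, h5, h6⟩ := decomp hR f hf hne
  have hgne : ∀ z : ℂ, ‖z‖ ≤ 1 → g z ≠ 0 := by
    intro z hz h0
    rcases hz.lt_or_eq with h | h
    · exact h4 z h h0
    · exact hne z h (by rw [h6 z hz, h0, mul_zero])
  obtain ⟨ρ, hρ1, hρR, hρ⟩ := larger hR g h3 hgne
  obtain ⟨v, hv1, hv2⟩ := exists_sqrt_ball (by linarith : 0 < ρ) g
    (h3.mono (Metric.ball_subset_ball hρR)) hρ
  refine ⟨min R' ρ, fun z => B z * v z, v, lt_min h1 hρ1, ?_,
    hv1.mono (Metric.ball_subset_ball (min_le_right _ _)), ?_, ?_⟩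
  · exact (h2.mono (Metric.ball_subset_ball (min_le_left _ _))).mul
      (hv1.mono (Metric.ball_subset_ball (min_le_right _ _)))
  · intro z hz
    have h7 := hv2 z (by rw [mem_ball_zero_iff]; linarith)
    rw [h6 z hz, ← h7]
    ring
  · intro z hz
    have h7 := hv2 z (by rw [mem_ball_zero_iff]; linarith)
    have h8 : ‖f z‖ = ‖v z‖ ^ 2 := by
      rw [h6 z hz.le, norm_mul, h5 z hz, one_mul, ← h7, norm_pow]
    refine ⟨?_, h8.symm⟩
    rw [norm_mul, h5 z hz, one_mul, h8]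

end Pool.Agent.H582R3.HL
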