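import Pool.Agent.H582R3.HL.Stubs
import Pool.Agent.Helper380.B1

set_option autoImplicit false

open MeasureTheory Set Filter Topology
open scoped ENNReal Real

namespace Pool.Agent.H582R3.HL

/-- Taylor coefficients and Bessel's inequality on the unit circle -/
theorem e1b_coef {R : ℝ} (hR : 1 < R) {u : ℂ → ℂ} (hu : DifferentiableOn ℂ u (Metric.ball 0 R)) :
    ∃ a : ℕ → ℂ, (∀ z : ℂ, ‖z‖ ≤ 1 → HasSum (fun n => a n * z ^ n) (u z)) ∧
      ∀ N : ℕ, ∑ n ∈ Finset.range N, 2 * π * ‖a n‖ ^ 2 ≤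
        ∫ θ in (0 : ℝ)..(2 * π), ‖u (Complex.exp ((θ : ℂ) * Complex.I))‖ ^ 2 := by
  obtain ⟨ρ, hρ1, hρR⟩ := exists_between hR
  have hρ0 : 0 < ρ := by linarith
  have hρc : (ρ : ℂ) ≠ 0 := by exact_mod_cast hρ0.ne'
  have hsum : ∀ z ∈ Metric.ball (0 : ℂ) R,
      HasSum (fun n => ((n.factorial : ℂ)⁻¹ * iteratedDeriv n u 0) * z ^ n) (u z) := by
    intro z hz
    have := Complex.hasSum_taylorSeries_on_ball hu hz
    have e : (fun n => ((n.factorial : ℂ)⁻¹ * iteratedDeriv n u 0) * z ^ n) =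
        fun n : ℕ => (n.factorial : ℂ)⁻¹ • (z - 0) ^ n • iteratedDeriv n u 0 := by
      funext n
      rw [sub_zero, smul_eq_mul, smul_eq_mul]
      ring
    rw [e]
    exact this
  refine ⟨fun n => (n.factorial : ℂ)⁻¹ * iteratedDeriv n u 0, ?_, ?_⟩
  · intro z hz
    exact hsum z (by rw [mem_ball_zero_iff]; linarith)
  · intro N
    set a : ℕ → ℂ := fun n => (n.factorial : ℂ)⁻¹ * iteratedDeriv n u 0 with ha
    have hmaps : ∀ z ∈ Metric.ball (0 : ℂ) 1, (ρ : ℂ) * z ∈ Metric.ball (0 : ℂ) R := by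
      intro z hz
      rw [mem_ball_zero_iff] at hz ⊢
      rw [norm_mul, Complex.norm_real, Real.norm_eq_abs, abs_of_pos hρ0]
      nlinarith [norm_nonneg z]
    have hd : DifferentiableOn ℂ (fun z => u ((ρ : ℂ) * z)) (Metric.ball 0 1) :=
      hu.comp (by fun_prop) hmaps
    have hb := Helper380.B1.bessel (a := fun n => a n * (ρ : ℂ) ^ n) hd (by
      intro z hz
      have := hsum _ (hmaps z hz)
      convert this using 1
      funext n
      rw [mul_pow, mul_assoc]) (r := ρ⁻¹) (by positivity) (inv_lt_one_of_one_lt₀ hρ1) N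
    have h1 : ∀ n : ℕ, ‖a n * (ρ : ℂ) ^ n‖ ^ 2 * (ρ⁻¹) ^ (2 * n) = ‖a n‖ ^ 2 := by
      intro n
      rw [norm_mul, norm_pow, Complex.norm_real, Real.norm_eq_abs, abs_of_pos hρ0, mul_pow,
        inv_pow, ← pow_mul, mul_comm n 2, mul_assoc, mul_inv_cancel₀ (by positivity), mul_one]
    have h2 : Helper380.B1.mean (fun z => u ((ρ : ℂ) * z)) ρ⁻¹ =
        ∫ θ in (0 : ℝ)..(2 * π), ‖u (Complex.exp ((θ : ℂ) * Complex.I))‖ ^ 2 := by
      unfold Helper380.B1.mean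
      refine intervalIntegral.integral_congr fun θ _ => ?_
      simp only
      rw [← mul_assoc, Complex.ofReal_inv, mul_inv_cancel₀ hρc, one_mul]
    rw [h2] at hb
    refine le_trans (le_of_eq (Finset.sum_congr rfl fun n _ => ?_)) hb
    rw [h1 n]

/-- a nonzero analytic function has no zeros on circles arbitrarily near the unit circle -/
theorem e1b_radius {f : ℂ → ℂ} (hf : DifferentiableOn ℂ f (Metric.ball 0 1))
    (h0 : ∃ z ∈ Metric.ball (0 : ℂ) 1, f z ≠ 0) {α : ℝ} (hα : α < 1) :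
    ∃ r : ℝ, α < r ∧ r < 1 ∧ ∀ z : ℂ, ‖z‖ = r → f z ≠ 0 := by
  obtain ⟨β, hαβ, hβ⟩ := exists_between hα
  by_contra hcon
  push Not at hcon
  have hZ : {z : ℂ | z ∈ Metric.closedBall 0 β ∧ f z = 0}.Infinite := by
    intro hfin
    have h1 : Ioo α β ⊆ (fun z : ℂ => ‖z‖) '' {z : ℂ | z ∈ Metric.closedBall 0 β ∧ f z = 0} := by
      intro r hr
      obtain ⟨z, hz, hfz⟩ := hcon r hr.1 (hr.2.trans hβ)
      refine ⟨z, ⟨?_, hfz⟩, hz⟩
      rw [mem_closedBall_zero_iff, hz]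
      exact hr.2.le
    exact (Ioo_infinite hαβ) ((hfin.image _).subset h1)
  obtain ⟨x, hx, hacc⟩ := hZ.exists_accPt_of_subset_isCompact (isCompact_closedBall (0 : ℂ) β)
    (fun z hz => hz.1)
  have hx1 : x ∈ Metric.ball (0 : ℂ) 1 := by
    rw [mem_closedBall_zero_iff] at hx
    rw [mem_ball_zero_iff]
    linarith
  have hfreq : ∃ᶠ z in 𝓝[≠] x, f z = 0 := by
    rw [accPt_iff_frequently_nhdsNE] at hacc
    exact hacc.mono fun z hz => hz.2
  have := (hf.analyticOnNhd Metric.isOpen_ball).eqOn_zero_of_preconnected_of_frequently_eq_zero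
    (convex_ball (0 : ℂ) 1).isPreconnected hx1 hfreq
  obtain ⟨z, hz, hfz⟩ := h0
  exact hfz (this hz)

theorem E1b_ok (h : St_E1a) : St_E1b := by
  intro f hf hM
  by_cases h0 : ∃ z ∈ Metric.ball (0 : ℂ) 1, f z ≠ 0
  swap
  · push Not at h0
    refine ⟨fun _ => 0, fun _ => 0, by simp, by simp, fun z hz => ?_⟩
    rw [h0 z (by rwa [mem_ball_zero_iff])]
    simp
  obtain ⟨M₀, hM₀⟩ := hM
  set M : ℝ := max M₀ 0 with hMdef
  have hM0 : 0 ≤ M := le_max_right _ _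
  have hMr : ∀ r ∈ Ioo (0 : ℝ) 1, ∫⁻ t, ‖sl f r t‖ₑ ∂mu ≤ ENNReal.ofReal M := fun r hr =>
    (hM₀ r hr).trans (ENNReal.ofReal_le_ofReal (le_max_left _ _))
  set B : ℝ := M / (2 * π) with hB
  have hπ : 0 < 2 * π := by positivity
  have hB0 : 0 ≤ B := by positivity
  -- radii
  have hrad : ∀ k : ℕ, ∃ r : ℝ, 1 - 1 / ((k : ℝ) + 2) < r ∧ r < 1 ∧ ∀ z : ℂ, ‖z‖ = r → f z ≠ 0 := by
    intro k
    apply e1b_radius hf h0
    · have : (0 : ℝ) < 1 / (k + 2) := by positivity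
      linarith
  choose r hr1 hr2 hr3 using hrad
  have hr0 : ∀ k, 0 < r k := by
    intro k
    have : (1 : ℝ) / (k + 2) ≤ 1 := by
      rw [div_le_one (by positivity)]
      linarith [(Nat.cast_nonneg k : (0 : ℝ) ≤ k)]
    linarith [hr1 k]
  have hrt : Tendsto r atTop (𝓝 1) := by
    have h1 : Tendsto (fun k : ℕ => 1 - 1 / ((k : ℝ) + 2)) atTop (𝓝 1) := by
      have h2 : Tendsto (fun k : ℕ => 1 / ((k : ℝ) + 2)) atTop (𝓝 0) :=
        tendsto_const_nhds.div_atTop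
          (tendsto_atTop_add_const_right _ _ tendsto_natCast_atTop_atTop)
      simpa using h2.const_sub 1
    exact tendsto_of_tendsto_of_tendsto_of_le_of_le h1 tendsto_const_nhds (fun k => (hr1 k).le)
      fun k => (hr2 k).le
  -- factorisations
  have key : ∀ k : ℕ, ∃ a b : ℕ → ℂ, (∀ N, ∑ n ∈ Finset.range N, ‖a n‖ ^ 2 ≤ B) ∧
      (∀ N, ∑ n ∈ Finset.range N, ‖b n‖ ^ 2 ≤ B) ∧
      ∀ z : ℂ, ‖z‖ < 1 → f ((r k : ℂ) * z) = (∑' n, a n * z ^ n) * (∑' n, b n * z ^ n) := by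
    intro k
    have hmaps : ∀ z ∈ Metric.ball (0 : ℂ) (r k)⁻¹, (r k : ℂ) * z ∈ Metric.ball (0 : ℂ) 1 := by
      intro z hz
      rw [mem_ball_zero_iff] at hz ⊢
      rw [norm_mul, Complex.norm_real, Real.norm_eq_abs, abs_of_pos (hr0 k)]
      calc r k * ‖z‖ < r k * (r k)⁻¹ := mul_lt_mul_of_pos_left hz (hr0 k)
        _ = 1 := mul_inv_cancel₀ (hr0 k).ne'
    have hd : DifferentiableOn ℂ (fun z => f ((r k : ℂ) * z)) (Metric.ball 0 (r k)⁻¹) :=
      hf.comp (by fun_prop) hmaps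
    obtain ⟨R', u, v, hR', hu, hv, huv, hn⟩ := h (r k)⁻¹ (fun z => f ((r k : ℂ) * z))
      ((one_lt_inv₀ (hr0 k)).2 (hr2 k)) hd (fun z hz => hr3 k _ (by
        rw [norm_mul, hz, Complex.norm_real, Real.norm_eq_abs, abs_of_pos (hr0 k), mul_one]))
    obtain ⟨a, ha1, ha2⟩ := e1b_coef hR' hu
    obtain ⟨b, hb1, hb2⟩ := e1b_coef hR' hv
    -- the integral bound
    have hbd : ∀ w : ℂ → ℂ, (∀ z : ℂ, ‖z‖ = 1 → ‖w z‖ ^ 2 = ‖f ((r k : ℂ) * z)‖) →
        ∫ θ in (0 : ℝ)..(2 * π), ‖w (Complex.exp ((θ : ℂ) * Complex.I))‖ ^ 2 ≤ M := by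
      intro w hw
      have e1 : ∫ θ in (0 : ℝ)..(2 * π), ‖w (Complex.exp ((θ : ℂ) * Complex.I))‖ ^ 2 =
          ∫ θ, ‖sl f (r k) θ‖ ∂mu := by
        rw [intervalIntegral.integral_of_le hπ.le, mu, integral_Ico_eq_integral_Ioc]
        refine integral_congr_ae (Eventually.of_forall fun θ => ?_)
        simp only [sl]
        exact hw _ (Complex.norm_exp_ofReal_mul_I θ)
      rw [e1]
      have hmeas : Continuous (fun θ : ℝ => sl f (r k) θ) := by
        unfold sl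
        refine hf.continuousOn.comp_continuous (by fun_prop) fun θ => ?_
        rw [mem_ball_zero_iff, norm_mul, Complex.norm_exp_ofReal_mul_I, mul_one,
          Complex.norm_real, Real.norm_eq_abs, abs_of_pos (hr0 k)]
        exact hr2 k
      rw [integral_norm_eq_lintegral_enorm hmeas.aestronglyMeasurable]
      exact ENNReal.toReal_le_of_le_ofReal hM0 (hMr (r k) ⟨hr0 k, hr2 k⟩)
    have hfin : ∀ (w : ℂ → ℂ) (c : ℕ → ℂ), (∀ z : ℂ, ‖z‖ = 1 → ‖w z‖ ^ 2 = ‖f ((r k : ℂ) * z)‖) →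
        (∀ N : ℕ, ∑ n ∈ Finset.range N, 2 * π * ‖c n‖ ^ 2 ≤
        ∫ θ in (0 : ℝ)..(2 * π), ‖w (Complex.exp ((θ : ℂ) * Complex.I))‖ ^ 2) →
        ∀ N, ∑ n ∈ Finset.range N, ‖c n‖ ^ 2 ≤ B := by
      intro w c hw hc N
      have h1 := (hc N).trans (hbd w hw)
      rw [← Finset.mul_sum] at h1
      rw [hB, le_div_iff₀ hπ]
      linarith
    refine ⟨a, b, hfin u a (fun z hz => (hn z hz).1) ha2, hfin v b (fun z hz => (hn z hz).2) hb2,
      fun z hz => ?_⟩
    rw [(ha1 z hz.le).tsum_eq, (hb1 z hz.le).tsum_eq]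
    exact huv z hz.le
  choose a b ha hb hab using key
  -- limits along an ultrafilter
  have hlim : ∀ c : ℕ → ℕ → ℂ, (∀ k N, ∑ n ∈ Finset.range N, ‖c k n‖ ^ 2 ≤ B) →
      (∀ k n, ‖c k n‖ ≤ √B) ∧ ∃ d : ℕ → ℂ, (∀ n, Tendsto (fun k => c k n) (hyperfilter ℕ) (𝓝 (d n))) ∧
        Summable fun n => ‖d n‖ ^ 2 := by
    intro c hc
    have hcb : ∀ k n, ‖c k n‖ ≤ √B := by
      intro k n
      apply Real.le_sqrt_of_sq_le
      refine le_trans ?_ (hc k (n + 1))
      exact Finset.single_le_sum (f := fun n => ‖c k n‖ ^ 2) (fun i _ => by positivity)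
        (Finset.self_mem_range_succ n)
    refine ⟨hcb, ?_⟩
    have hex : ∀ n, ∃ d : ℂ, Tendsto (fun k => c k n) (hyperfilter ℕ) (𝓝 d) := by
      intro n
      obtain ⟨d, -, hd⟩ := (isCompact_closedBall (0 : ℂ) √B).ultrafilter_le_nhds
        ((hyperfilter ℕ).map fun k => c k n) (by
          rw [le_principal_iff]
          simp only [Ultrafilter.coe_map, mem_map]
          refine Filter.univ_mem' fun k => ?_
          rw [mem_preimage, mem_closedBall_zero_iff]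
          exact hcb k n)
      exact ⟨d, hd⟩
    choose d hd using hex
    refine ⟨d, hd, ?_⟩
    refine summable_of_sum_range_le (c := B) (fun n => by positivity) fun N => ?_
    refine le_of_tendsto (tendsto_finsetSum _ fun n _ => ((hd n).norm.pow 2))
      (Eventually.of_forall fun k => hc k N)
  obtain ⟨hab1, A, hA, hAs⟩ := hlim a ha
  obtain ⟨hbb1, C, hC, hCs⟩ := hlim b hb
  refine ⟨A, C, hAs, hCs, fun z hz => ?_⟩
  have hts : ∀ (c : ℕ → ℕ → ℂ) (d : ℕ → ℂ), (∀ k n, ‖c k n‖ ≤ √B) →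
      (∀ n, Tendsto (fun k => c k n) (hyperfilter ℕ) (𝓝 (d n))) →
      Tendsto (fun k => ∑' n, c k n * z ^ n) (hyperfilter ℕ) (𝓝 (∑' n, d n * z ^ n)) := by
    intro c d hcb hcd
    refine tendsto_tsum_of_dominated_convergence (bound := fun n => √B * ‖z‖ ^ n)
      ((summable_geometric_of_lt_one (norm_nonneg z) hz).mul_left _)
      (fun n => (hcd n).mul_const _) (Eventually.of_forall fun k n => ?_)
    rw [norm_mul, norm_pow]
    exact mul_le_mul_of_nonneg_right (hcb k n) (by positivity)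
  have h1 := (hts a A hab1 hA).mul (hts b C hbb1 hC)
  have h2 : Tendsto (fun k => f ((r k : ℂ) * z)) (hyperfilter ℕ) (𝓝 (f z)) := by
    have h3 : Tendsto (fun k => (r k : ℂ) * z) (hyperfilter ℕ) (𝓝 z) := by
      have : Tendsto (fun k => (r k : ℂ) * z) atTop (𝓝 (((1 : ℝ) : ℂ) * z)) :=
        ((Complex.continuous_ofReal.tendsto 1).comp hrt).mul_const z
      rw [Complex.ofReal_one, one_mul] at this
      exact this.mono_left (Nat.hyperfilter_le_atTop)
    have hz' : z ∈ Metric.ball (0 : ℂ) 1 := by rwa [mem_ball_zero_iff]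
    exact ((hf.continuousOn.continuousAt (Metric.isOpen_ball.mem_nhds hz')).tendsto).comp h3
  refine tendsto_nhds_unique h2 (h1.congr fun k => ?_)
  exact (hab k z hz).symm

end Pool.Agent.H582R3.HL
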