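import Pool.Agent.H582R3.HL.Stubs

/-!
# E1c: boundary functions of `H²` functions
-/

set_option autoImplicit false

open MeasureTheory Set Filter Topology
open scoped ENNReal Real

namespace Pool.Agent.H582R3.HL

namespace E1cAux

theorem factPi : Fact (0 < 2 * π) := ⟨Real.two_pi_pos⟩

attribute [local instance] factPi

/-- the circle -/
abbrev Cc := AddCircle (2 * π)

/-- Haar probability measure -/
noncomputable abbrev hm : Measure Cc := AddCircle.haarAddCircle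

theorem lint_mu (h : Cc → ℝ≥0∞) :
    ∫⁻ t : ℝ, h (t : Cc) ∂mu = ENNReal.ofReal (2 * π) * ∫⁻ x, h x ∂hm := by
  have h1 := AddCircle.lintegral_preimage (2 * π) 0 h
  rw [AddCircle.volume_eq_smul_haarAddCircle, lintegral_smul_measure, smul_eq_mul, zero_add] at h1
  rw [← h1, mu, Measure.restrict_congr_set Ico_ae_eq_Ioc]

theorem lint_sq (g : Lp ℂ 2 hm) (f : Cc → ℂ) (hfg : f =ᵐ[hm] g) :
    ∫⁻ x, ‖f x‖ₑ ^ 2 ∂hm = ENNReal.ofReal (‖g‖ ^ 2) := by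
  have h1 : ∫⁻ x, ‖f x‖ₑ ^ 2 ∂hm = ∫⁻ x, ‖g x‖ₑ ^ 2 ∂hm := by
    refine lintegral_congr_ae ?_
    filter_upwards [hfg] with x hx
    rw [hx]
  rw [h1, ENNReal.ofReal_pow (norm_nonneg _), ofReal_norm, Lp.enorm_def,
    eLpNorm_eq_lintegral_rpow_enorm_toReal two_ne_zero ENNReal.ofNat_ne_top, ← ENNReal.rpow_two,
    ← ENNReal.rpow_mul]
  simp

/-- the orthonormal family `e^{int}`, `n ≥ 0` -/
noncomputable def e (n : ℕ) : Lp ℂ 2 hm := @fourierLp (2 * π) _ 2 _ (n : ℤ)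

theorem e_on : Orthonormal ℂ e :=
  (@orthonormal_fourier (2 * π) _).comp (fun n : ℕ => (n : ℤ)) Nat.cast_injective

/-- isometry from `ℓ²` -/
noncomputable def S : lp (fun _ : ℕ => ℂ) 2 →ₗᵢ[ℂ] Lp ℂ 2 hm :=
  e_on.orthogonalFamily.linearIsometry

theorem S_hasSum (a : lp (fun _ : ℕ => ℂ) 2) : HasSum (fun n => a n • e n) (S a) := by
  have := e_on.orthogonalFamily.hasSum_linearIsometry a
  simpa [S] using this

theorem memlp {a : ℕ → ℂ} (ha : Summable fun n => ‖a n‖ ^ 2) : Memℓp a 2 := by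
  refine memℓp_gen ?_
  simpa using ha

theorem norm_sq_lp (a : lp (fun _ : ℕ => ℂ) 2) : ‖a‖ ^ 2 = ∑' n, ‖a n‖ ^ 2 := by
  have := lp.norm_rpow_eq_tsum (p := 2) (by simp) a
  simpa using this

/-- the continuous function `Σ a_n r^n e^{int}` -/
noncomputable def Fr (a : ℕ → ℂ) (r : ℝ) : C(Cc, ℂ) :=
  ∑' n : ℕ, (a n * (r : ℂ) ^ n) • (fourier (n : ℤ) : C(Cc, ℂ))

theorem bdd_of {a : ℕ → ℂ} (ha : Summable fun n => ‖a n‖ ^ 2) : ∃ C : ℝ, ∀ n, ‖a n‖ ≤ C := by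
  have h0 := ha.tendsto_atTop_zero
  obtain ⟨C, hC⟩ := h0.bddAbove_range
  refine ⟨max 1 C, fun n => ?_⟩
  have h1 : ‖a n‖ ^ 2 ≤ C := hC ⟨n, rfl⟩
  by_contra hcon
  rw [not_le] at hcon
  have h2 : 1 < ‖a n‖ := lt_of_le_of_lt (le_max_left _ _) hcon
  have h3 : C < ‖a n‖ := lt_of_le_of_lt (le_max_right _ _) hcon
  nlinarith

theorem summ_norm {a : ℕ → ℂ} (ha : Summable fun n => ‖a n‖ ^ 2) {r : ℝ} (hr : r ∈ Ioo (0 : ℝ) 1) :
    Summable fun n : ℕ => ‖a n * (r : ℂ) ^ n‖ := by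
  obtain ⟨C, hC⟩ := bdd_of ha
  have hg : Summable fun n : ℕ => C * r ^ n :=
    (summable_geometric_of_lt_one hr.1.le hr.2).mul_left C
  refine Summable.of_nonneg_of_le (fun n => norm_nonneg _) (fun n => ?_) hg
  rw [norm_mul, norm_pow, Complex.norm_real, Real.norm_of_nonneg hr.1.le]
  exact mul_le_mul_of_nonneg_right (hC n) (pow_nonneg hr.1.le _)

theorem Fr_hasSum {a : ℕ → ℂ} (ha : Summable fun n => ‖a n‖ ^ 2) {r : ℝ}
    (hr : r ∈ Ioo (0 : ℝ) 1) :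
    HasSum (fun n : ℕ => (a n * (r : ℂ) ^ n) • (fourier (n : ℤ) : C(Cc, ℂ))) (Fr a r) := by
  refine Summable.hasSum ?_
  refine Summable.of_norm ?_
  have := summ_norm ha hr
  simpa [norm_smul, fourier_norm] using this

theorem Fr_apply {a : ℕ → ℂ} (ha : Summable fun n => ‖a n‖ ^ 2) {r : ℝ}
    (hr : r ∈ Ioo (0 : ℝ) 1) (t : ℝ) :
    Fr a r (t : Cc) = sl (fun z => ∑' n, a n * z ^ n) r t := by
  have h1 := (Fr_hasSum ha hr).map (ContinuousMap.evalCLM ℂ (t : Cc))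
    (ContinuousMap.evalCLM ℂ (t : Cc)).continuous
  have h2 := h1.tsum_eq
  simp only [Function.comp_def] at h2
  change _ = Fr a r (t : Cc) at h2
  rw [← h2, sl]
  refine tsum_congr fun n => ?_
  change (a n * (r : ℂ) ^ n) * (fourier (n : ℤ) (t : Cc)) = _
  rw [fourier_coe_apply, mul_pow, ← Complex.exp_nat_mul, mul_assoc]
  congr 3
  have hpi : (π : ℂ) ≠ 0 := by exact_mod_cast Real.pi_ne_zero
  push_cast
  field_simp

/-- the `ℓ²` element `a_n r^n` -/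
noncomputable def Ar (a : ℕ → ℂ) (r : ℝ) : ℕ → ℂ := fun n => a n * (r : ℂ) ^ n

theorem Ar_sum {a : ℕ → ℂ} (ha : Summable fun n => ‖a n‖ ^ 2) {r : ℝ}
    (hr : r ∈ Ioo (0 : ℝ) 1) : Summable fun n => ‖Ar a r n‖ ^ 2 := by
  refine Summable.of_nonneg_of_le (fun n => by positivity) (fun n => ?_) ha
  have : ‖Ar a r n‖ ≤ ‖a n‖ := by
    unfold Ar
    rw [norm_mul, norm_pow, Complex.norm_real, Real.norm_of_nonneg hr.1.le]
    exact mul_le_of_le_one_right (norm_nonneg _) (pow_le_one₀ hr.1.le hr.2.le)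
  gcongr

theorem toLp_Fr {a : ℕ → ℂ} (ha : Summable fun n => ‖a n‖ ^ 2) {r : ℝ}
    (hr : r ∈ Ioo (0 : ℝ) 1) :
    ContinuousMap.toLp (E := ℂ) 2 hm ℂ (Fr a r) = S ⟨Ar a r, memlp (Ar_sum ha hr)⟩ := by
  have h1 := (Fr_hasSum ha hr).map (ContinuousMap.toLp (E := ℂ) 2 hm ℂ)
    (ContinuousMap.toLp (E := ℂ) 2 hm ℂ).continuous
  have h2 := S_hasSum ⟨Ar a r, memlp (Ar_sum ha hr)⟩
  refine h1.unique ?_
  have h3 : (fun n => ((⟨Ar a r, memlp (Ar_sum ha hr)⟩ : lp (fun _ : ℕ => ℂ) 2) : ℕ → ℂ) n • e n)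
      = (ContinuousMap.toLp (E := ℂ) 2 hm ℂ) ∘
        fun n : ℕ => (a n * (r : ℂ) ^ n) • (fourier (n : ℤ) : C(Cc, ℂ)) := by
    funext n
    exact (map_smul (ContinuousMap.toLp (E := ℂ) 2 hm ℂ) (a n * (r : ℂ) ^ n)
      (fourier (n : ℤ) : C(Cc, ℂ))).symm
  rw [← h3]
  exact h2

theorem main {a : ℕ → ℂ} (ha : Summable fun n => ‖a n‖ ^ 2) {r : ℝ} (hr : r ∈ Ioo (0 : ℝ) 1)
    (g : lp (fun _ : ℕ => ℂ) 2) :
    ∫⁻ t, ‖sl (fun z => ∑' n, a n * z ^ n) r t - (S g : Cc → ℂ) (t : Cc)‖ₑ ^ 2 ∂mu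
      = ENNReal.ofReal (2 * π) * ENNReal.ofReal (∑' n, ‖Ar a r n - g n‖ ^ 2) := by
  have h1 : ∀ t : ℝ, ‖sl (fun z => ∑' n, a n * z ^ n) r t - (S g : Cc → ℂ) (t : Cc)‖ₑ ^ 2
      = (fun x : Cc => ‖Fr a r x - (S g : Cc → ℂ) x‖ₑ ^ 2) (t : Cc) := by
    intro t
    simp only [Fr_apply ha hr]
  rw [lintegral_congr h1]
  refine (lint_mu (fun x : Cc => ‖Fr a r x - (S g : Cc → ℂ) x‖ₑ ^ 2)).trans ?_
  congr 1
  have h2 : (fun x : Cc => Fr a r x - (S g : Cc → ℂ) x) =ᵐ[hm]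
      ((ContinuousMap.toLp (E := ℂ) 2 hm ℂ (Fr a r) - S g : Lp ℂ 2 hm) : Cc → ℂ) := by
    filter_upwards [Lp.coeFn_sub (ContinuousMap.toLp (E := ℂ) 2 hm ℂ (Fr a r)) (S g),
      ContinuousMap.coeFn_toLp (p := 2) (𝕜 := ℂ) hm (Fr a r)] with x hx hx2
    rw [hx, Pi.sub_apply, hx2]
  rw [lint_sq _ _ h2, toLp_Fr ha hr, ← map_sub, LinearIsometry.norm_map, norm_sq_lp]
  rfl

theorem tend {a : ℕ → ℂ} (ha : Summable fun n => ‖a n‖ ^ 2) :
    Tendsto (fun r : ℝ => ∑' n, ‖Ar a r n - a n‖ ^ 2) (𝓝[<] 1) (𝓝 0) := by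
  have h0 : (∑' _ : ℕ, (0 : ℝ)) = 0 := tsum_zero
  rw [← h0]
  refine tendsto_tsum_of_dominated_convergence (bound := fun n => ‖a n‖ ^ 2) ha ?_ ?_
  · intro n
    have hc : Continuous fun r : ℝ => ‖Ar a r n - a n‖ ^ 2 := by
      unfold Ar
      fun_prop
    have := (hc.tendsto 1).mono_left (nhdsWithin_le_nhds (s := Iio (1 : ℝ)))
    simpa [Ar] using this
  · have hev : ∀ᶠ r : ℝ in 𝓝[<] 1, r ∈ Ioo (0 : ℝ) 1 := Ioo_mem_nhdsLT one_pos
    filter_upwards [hev] with r hr n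
    have h1 : Ar a r n - a n = a n * (((r ^ n - 1 : ℝ)) : ℂ) := by
      unfold Ar
      push_cast
      ring
    rw [h1, Real.norm_of_nonneg (by positivity), norm_mul, Complex.norm_real]
    have h2 : ‖r ^ n - 1‖ ≤ 1 := by
      rw [Real.norm_eq_abs, abs_sub_comm, abs_of_nonneg]
      · have := pow_nonneg hr.1.le n
        linarith
      · have := pow_le_one₀ hr.1.le hr.2.le (n := n)
        linarith
    have h3 : ‖a n‖ * ‖r ^ n - 1‖ ≤ ‖a n‖ := mul_le_of_le_one_right (norm_nonneg _) h2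
    gcongr

end E1cAux

attribute [local instance] E1cAux.factPi

open E1cAux in
theorem E1c_ok : St_E1c := by
  intro a ha
  refine ⟨?_, ?_⟩
  · intro r hr
    have h1 : ∀ t : ℝ, ‖sl (fun z => ∑' n, a n * z ^ n) r t‖ₑ ^ 2
        = (fun x : Cc => ‖Fr a r x‖ₑ ^ 2) (t : Cc) := by
      intro t
      simp only [Fr_apply ha hr]
    rw [lintegral_congr h1]
    refine (lint_mu (fun x : Cc => ‖Fr a r x‖ₑ ^ 2)).le.trans ?_
    rw [lint_sq _ _ (ContinuousMap.coeFn_toLp (p := 2) (𝕜 := ℂ) hm (Fr a r)).symm,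
      toLp_Fr ha hr, LinearIsometry.norm_map, norm_sq_lp, ← ENNReal.ofReal_mul (by positivity)]
    refine ENNReal.ofReal_le_ofReal ?_
    refine mul_le_mul_of_nonneg_left ?_ (by positivity)
    refine (Ar_sum ha hr).tsum_le_tsum (fun n => ?_) ha
    have : ‖Ar a r n‖ ≤ ‖a n‖ := by
      unfold Ar
      rw [norm_mul, norm_pow, Complex.norm_real, Real.norm_of_nonneg hr.1.le]
      exact mul_le_of_le_one_right (norm_nonneg _) (pow_le_one₀ hr.1.le hr.2.le)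
    gcongr
  · set g : lp (fun _ : ℕ => ℂ) 2 := ⟨a, memlp ha⟩ with hg
    refine ⟨fun t => (S g : Cc → ℂ) (t : Cc), ?_, ?_, ?_⟩
    · exact (Lp.stronglyMeasurable (S g)).measurable.comp (AddCircle.measurable_mk' )
    · rw [lint_mu (fun x => ‖(S g : Cc → ℂ) x‖ₑ ^ 2), lint_sq (S g) _ (ae_eq_refl _)]
      exact ENNReal.mul_lt_top ENNReal.ofReal_lt_top ENNReal.ofReal_lt_top
    · have h1 : Tendsto (fun r : ℝ => ENNReal.ofReal (2 * π)
          * ENNReal.ofReal (∑' n, ‖Ar a r n - a n‖ ^ 2)) (𝓝[<] 1) (𝓝 0) := by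
        have h2 := (ENNReal.continuous_ofReal.tendsto 0).comp (tend ha)
        have h3 := ENNReal.Tendsto.const_mul (a := ENNReal.ofReal (2 * π)) h2
          (Or.inr ENNReal.ofReal_ne_top)
        simpa using h3
      refine h1.congr' ?_
      filter_upwards [Ioo_mem_nhdsLT (one_pos (α := ℝ))] with r hr
      exact (main ha hr g).symm

end Pool.Agent.H582R3.HL
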