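import Pool.Agent.H582R3.HL.Stubs

/-!
# E2: the norm of the Hardy–Lorentz space is computed by the boundary function
-/

set_option autoImplicit false

open MeasureTheory Set Filter Topology
open scoped ENNReal Real

namespace Pool.Agent.H582R3.HL

namespace E2

theorem norm_circle {r t : ℝ} (hr : r ∈ Set.Ioo (0 : ℝ) 1) :
    ((r : ℂ) * Complex.exp (t * Complex.I)) ∈ Metric.ball (0 : ℂ) 1 := by
  rw [mem_ball_zero_iff, norm_mul, Complex.norm_exp_ofReal_mul_I, mul_one, Complex.norm_real,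
    Real.norm_of_nonneg hr.1.le]
  exact hr.2

theorem continuous_sl {f : ℂ → ℂ} (hf : DifferentiableOn ℂ f (Metric.ball 0 1)) {r : ℝ}
    (hr : r ∈ Set.Ioo (0 : ℝ) 1) : Continuous (sl f r) := by
  unfold sl
  exact hf.continuousOn.comp_continuous (by fun_prop) fun t => norm_circle hr

end E2

theorem E2_ok (hW : St_WRB) (hN : St_N1) (hPB : St_PB) (hKP : St_KP) (hL : St_LSC) : St_E2 := by
  intro Ψ h f F hf hF
  obtain ⟨J, τ, hR⟩ := hW Ψ h
  obtain ⟨hFm, hFi, hFt⟩ := hF
  obtain ⟨-, hp⟩ := hPB f F hf ⟨hFm, hFi, hFt⟩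
  apply le_antisymm
  · unfold Hn
    refine iSup₂_le fun r hr => ?_
    have hsl : sl f r = pois r F := funext fun t => hp r hr t
    have hm : Measurable fun s => ‖pois r F s‖ₑ := by
      rw [← hsl]
      exact (E2.continuous_sl hf hr).measurable.enorm
    obtain ⟨hK, hE⟩ := hKP F hFm hFi r hr
    rw [hsl]
    unfold lnorm
    rw [hN Ψ h J τ hR _ hm, hN Ψ h J τ hR _ hFm.enorm]
    gcongr with p
    exact hK (τ p) (hR.mem p)
  · have hr : ∀ n : ℕ, (1 - 1 / ((n : ℝ) + 2)) ∈ Set.Ioo (0 : ℝ) 1 := by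
      intro n
      have h1 : (0 : ℝ) < (n : ℝ) + 2 := by positivity
      have h2 : 1 / ((n : ℝ) + 2) ≤ 1 / 2 := by
        apply one_div_le_one_div_of_le (by norm_num)
        have : (0 : ℝ) ≤ n := Nat.cast_nonneg n
        linarith
      have h3 : 0 < 1 / ((n : ℝ) + 2) := by positivity
      constructor <;> linarith
    refine hL Ψ h (fun n => sl f (1 - 1 / ((n : ℝ) + 2))) F
      (fun n => (E2.continuous_sl hf (hr n)).measurable) hFm ?_ (Hn h f) ?_
    · refine hFt.comp (tendsto_nhdsWithin_iff.2 ⟨?_, Eventually.of_forall fun n => (hr n).2⟩)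
      have h1 : Tendsto (fun n : ℕ => 1 / ((n : ℝ) + 2)) atTop (𝓝 0) := by
        have h2 := tendsto_one_div_add_atTop_nhds_zero_nat (𝕜 := ℝ)
        have h3 := h2.comp (tendsto_add_atTop_nat 1)
        refine h3.congr fun n => ?_
        simp only [Function.comp_apply]
        push_cast
        ring
      have h4 := (tendsto_const_nhds (x := (1 : ℝ))).sub h1
      rwa [sub_zero] at h4
    · intro n
      unfold Hn
      exact le_iSup₂_of_le (1 - 1 / ((n : ℝ) + 2)) (hr n) le_rfl

end Pool.Agent.H582R3.HL
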