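import Pool.Agent.H582R3.HL.T_GE

set_option autoImplicit false

open MeasureTheory Set Filter Topology
open scoped ENNReal Real

namespace Pool.Agent.H582R3.HL

theorem phs_meas {Φ : ℝ → ℝ} {F : ℝ → ℂ} (hΦ : Continuous Φ) (hF : Measurable F) :
    Measurable (phs Φ F) := by
  unfold phs
  have h1 : Measurable fun t => Φ ‖F t‖ := hΦ.measurable.comp hF.norm
  exact (Complex.measurable_ofReal.comp h1).mul (hF.div (Complex.measurable_ofReal.comp hF.norm))

theorem phs_norm_le {Φ : ℝ → ℝ} {F : ℝ → ℂ} {L : NNReal} (hΦ : LipschitzWith L Φ) (h0 : Φ 0 = 0)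
    (t : ℝ) : ‖phs Φ F t‖ ≤ L * ‖F t‖ := by
  have h1 : |Φ ‖F t‖| ≤ L * ‖F t‖ := by
    have := hΦ.dist_le_mul ‖F t‖ 0
    simpa [h0, Real.dist_eq] using this
  unfold phs
  rw [norm_mul, Complex.norm_real, norm_div, Complex.norm_real, norm_norm, Real.norm_eq_abs]
  by_cases hF : ‖F t‖ = 0
  · rw [hF]; simp
  · rw [div_self hF, mul_one]; exact h1

theorem FIN_ok (hNP' : St_NP) (hE2 : St_E2) (hD1 : St_D1) (hD2 : St_D2) (hGE : St_GE) : Final := by
  intro Ψ h h0 f hf hfin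
  have hNP := hNP' Ψ h
  obtain ⟨hex, hall⟩ := hGE Ψ h h0 f hf hfin
  refine ⟨hex, fun F hF => ⟨hall F hF, fun hsc => ?_⟩⟩
  rw [hall F hF]
  refine and_congr_right fun hone => ⟨fun H Φ hL hΦ0 hneg => ?_, fun H G hGm hGfin hGn hC => ?_⟩
  · obtain ⟨L, hL⟩ := hL
    obtain ⟨ε, hε, hC⟩ := hD2 Ψ h F hF.1 Φ ⟨L, hL⟩ hΦ0
    have hpm := phs_meas hL.continuous hF.1
    have hm : Measurable fun t => (ε : ℂ) * phs Φ F t := hpm.const_mul _
    obtain ⟨c, hc⟩ := H (fun t => (ε : ℂ) * phs Φ F t) hm (by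
      rw [lnorm_smul hNP hpm]
      refine ENNReal.mul_lt_top (by simp) ?_
      have h1 := lnorm_le_add hNP (x := F) (y := F) (z := phs Φ F) hF.1 hF.1 hpm (L : ℝ≥0∞) 0
        (by simp) (by simp) (fun t => by
          rw [zero_mul, add_zero, ← ofReal_norm, ← ofReal_norm]
          refine (ENNReal.ofReal_le_ofReal (phs_norm_le hL hΦ0 t)).trans (le_of_eq ?_)
          rw [ENNReal.ofReal_mul (by positivity), ENNReal.ofReal_coe_nnreal])
      rw [zero_mul, add_zero] at h1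
      refine h1.trans_lt (ENNReal.mul_lt_top (by simp) ?_)
      rw [← hE2 Ψ h f F hf hF]
      exact hfin) (by
      intro n hn
      have := hneg n hn
      simp only [mul_assoc] at this ⊢
      rw [integral_const_mul, this, mul_zero]) hC
    · refine ⟨c / ε, ?_⟩
      filter_upwards [hc] with t ht
      by_cases hFt : F t = 0
      · rw [hFt]; simp [hΦ0]
      · have hn : (‖F t‖ : ℂ) ≠ 0 := by
          exact_mod_cast (norm_ne_zero_iff.2 hFt)
        unfold phs at ht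
        have h2 : ((ε : ℂ) * (Φ ‖F t‖ : ℂ)) * F t = ((c : ℂ) * (‖F t‖ : ℂ)) * F t := by
          field_simp at ht
          linear_combination (F t) * ht
        have h3 : (ε : ℂ) * (Φ ‖F t‖ : ℂ) = (c : ℂ) * (‖F t‖ : ℂ) := mul_right_cancel₀ hFt h2
        have h4 : ε * Φ ‖F t‖ = c * ‖F t‖ := by exact_mod_cast h3
        rw [div_mul_eq_mul_div, eq_div_iff hε.ne']
        linarith
  · obtain ⟨Φ, hΦL, hΦ0, hG⟩ := hD1 Ψ h hsc F G hF.1 hGm hC
    obtain ⟨c, hc⟩ := H Φ ⟨1, hΦL⟩ hΦ0 (by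
      intro n hn
      rw [← hGn n hn]
      refine integral_congr_ae ?_
      filter_upwards [hG] with t ht
      rw [ht])
    refine ⟨c, ?_⟩
    filter_upwards [hG, hc] with t h1 h2
    rw [h1]
    unfold phs
    rw [h2]
    by_cases hFt : F t = 0
    · rw [hFt]; simp
    · have hn : (‖F t‖ : ℂ) ≠ 0 := by
        exact_mod_cast (norm_ne_zero_iff.2 hFt)
      push_cast
      field_simp

end Pool.Agent.H582R3.HL
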