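import Pool.Agent.H582R3.HL.G1

set_option autoImplicit false

open MeasureTheory Set Filter Topology
open scoped ENNReal Real

namespace Pool.Agent.H582R3.HL

variable {Ψ : ℝ → ℝ} {h : IsWeight Ψ}

theorem lnorm_one (hNP : NProps h) : lnorm h (fun _ => 1) = ENNReal.ofReal (Ψ (2 * π)) := by
  unfold lnorm
  simp only [enorm_one]
  exact hNP.one

theorem Hn_le_of (B : ℝ≥0∞) {f : ℂ → ℂ} (hB : ∀ r ∈ Set.Ioo (0 : ℝ) 1, lnorm h (sl f r) ≤ B) :
    Hn h f ≤ B := iSup₂_le hB

theorem le_Hn {f : ℂ → ℂ} {r : ℝ} (hr : r ∈ Set.Ioo (0 : ℝ) 1) : lnorm h (sl f r) ≤ Hn h f :=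
  le_iSup₂ (f := fun (r : ℝ) (_ : r ∈ Set.Ioo (0 : ℝ) 1) => lnorm h (sl f r)) r hr

/-- adding a small constant -/
theorem Hn_add_const (hNP : NProps h) {f : ℂ → ℂ} (hf : DifferentiableOn ℂ f (Metric.ball 0 1))
    (δ : ℂ) : Hn h (fun z => f z + δ) ≤ Hn h f + ‖δ‖ₑ * ENNReal.ofReal (Ψ (2 * π)) := by
  refine Hn_le_of _ fun r hr => ?_
  have h1 := lnorm_le_add hNP (x := sl f r) (y := fun _ => 1) (z := sl (fun z => f z + δ) r)
    (sl_meas hf hr) measurable_const ((sl_meas hf hr).add measurable_const) 1 ‖δ‖ₑ (by simp)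
    (by simp) (fun t => by
      simp only [sl, enorm_one, mul_one, one_mul]
      exact enorm_add_le _ _)
  rw [lnorm_one hNP, one_mul] at h1
  exact h1.trans (by gcongr; exact le_Hn hr)

theorem extreme_norm (hNP : NProps h) {f : ℂ → ℂ}
    (hext : IsExtremePt h f) : Hn h f = 1 := by
  by_contra hne
  have hlt : Hn h f < 1 := lt_of_le_of_ne hext.1.2 hne
  have hfin : Hn h f ≠ ∞ := (hlt.trans ENNReal.one_lt_top).ne
  set m : ℝ := (Hn h f).toReal with hm
  have hm1 : m < 1 := by
    have := (ENNReal.toReal_lt_toReal hfin ENNReal.one_ne_top).2 hlt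
    simpa using this
  have hmo : Hn h f = ENNReal.ofReal m := (ENNReal.ofReal_toReal hfin).symm
  have hm0 : 0 ≤ m := ENNReal.toReal_nonneg
  set S : ℝ := |Ψ (2 * π)| + 1 with hS
  have hS0 : 0 < S := by positivity
  set δ : ℝ := (1 - m) / S with hδ
  have hδ0 : 0 < δ := div_pos (by linarith) hS0
  have key : ∀ e : ℂ, ‖e‖ = δ → InBall h (fun z => f z + e) := by
    intro e he
    refine ⟨hext.1.1.add (differentiableOn_const _), (Hn_add_const hNP hext.1.1 e).trans ?_⟩
    rw [hmo, ← ofReal_norm, he, ← ENNReal.ofReal_mul hδ0.le]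
    calc ENNReal.ofReal m + ENNReal.ofReal (δ * Ψ (2 * π))
        ≤ ENNReal.ofReal m + ENNReal.ofReal (δ * S) := by
          gcongr
          rw [hS]
          exact (le_abs_self _).trans (by linarith)
      _ = ENNReal.ofReal (m + δ * S) := (ENNReal.ofReal_add hm0 (by positivity)).symm
      _ = 1 := by
          rw [hδ, div_mul_cancel₀ _ hS0.ne']
          simp
  have h1 := hext.2 (fun z => f z + (δ : ℂ)) (fun z => f z + (-δ : ℂ))
    (key _ (by simp [abs_of_pos hδ0])) (key _ (by simp [abs_of_pos hδ0]))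
    (fun z _ => by ring) 0 (by simp)
  have h2 : (δ : ℂ) = -δ := by simpa using h1
  have h3 : (δ : ℂ) = 0 := by
    have : (2 : ℂ) * δ = 0 := by linear_combination h2
    simpa using this
  exact hδ0.ne' (by exact_mod_cast h3)

theorem GE_ok (hNP' : St_NP) (hB1 : St_B1) (hB2 : St_B2) (hE1 : St_E1) (hE2 : St_E2)
    (hPA : St_PA) (hPF : St_PF) (hPB : St_PB) : St_GE := by
  intro Ψ h h0 f hf hfin
  have hNP := hNP' Ψ h
  refine ⟨hE1 f hf (Hn_L1 hNP h0 hf hfin), ?_⟩
  intro F hF
  have hHF : Hn h f = lnorm h F := hE2 Ψ h f F hf hF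
  constructor
  · intro hext
    have hone : Hn h f = 1 := extreme_norm hNP hext
    refine ⟨hone, ?_⟩
    intro G hGm hGfin hGn hC
    have hF1 : lnorm h F = 1 := hHF ▸ hone
    -- G is integrable
    have hκ0 : 0 < Ψ (2 * π) / (2 * π) := by positivity
    have hGi : Integrable G mu := by
      refine ⟨hGm.aestronglyMeasurable, ?_⟩
      have h1 := hNP.low (fun t => ‖G t‖ₑ) hGm.enorm
      rw [hasFiniteIntegral_iff_enorm]
      by_contra hcon
      have h2 : ∫⁻ t, ‖G t‖ₑ ∂mu = ∞ := by simpa using hcon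
      rw [h2, ENNReal.mul_top (by simpa using hκ0)] at h1
      exact absurd (lt_of_le_of_lt h1 hGfin) (by simp)
    obtain ⟨g, hg, hgG⟩ := hPF G hGm hGi hGn
    have hGb : IsBdry g G := by
      refine ⟨hGm, hGi, (hPA G hGm hGi).congr' ?_⟩
      filter_upwards [evIoo] with r hr
      refine lintegral_congr fun t => ?_
      rw [hgG r hr t]
    have hsum := hB2 Ψ h h0 F G hF.1 hGm (by rw [hF1]; exact ENNReal.one_lt_top) hGfin hC
    rw [hF1, mul_one] at hsum
    set a : ℝ≥0∞ := lnorm h (fun t => F t + G t) with ha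
    set b : ℝ≥0∞ := lnorm h (fun t => F t - G t) with hb
    have ha' : a ≠ ∞ := fun hh => by rw [hh] at hsum; simp at hsum
    have hb' : b ≠ ∞ := fun hh => by rw [hh] at hsum; simp at hsum
    set A : ℝ := a.toReal with hA
    set B : ℝ := b.toReal with hB
    have hAB : A + B = 2 := by
      rw [hA, hB, ← ENNReal.toReal_add ha' hb', hsum]; simp
    have haA : a = ENNReal.ofReal A := (ENNReal.ofReal_toReal ha').symm
    have hbB : b = ENNReal.ofReal B := (ENNReal.ofReal_toReal hb').symm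
    have hA0 : 0 ≤ A := ENNReal.toReal_nonneg
    have hB0 : 0 ≤ B := ENNReal.toReal_nonneg
    set c : ℝ := A - 1 with hc
    have hc1 : |c| ≤ 1 := by rw [abs_le]; constructor <;> linarith
    set s : ℝ := 1 / 2 with hs
    have hcl := abs_le.1 hc1
    have hs0 : 0 ≤ s := by rw [hs]; norm_num
    have hp1 : 0 ≤ 1 - s - s * c := by rw [hs]; linarith [hcl.2]
    have hp2 : 0 ≤ 1 - s + s * c := by rw [hs]; linarith [hcl.1]
    -- the two competitors
    have hb1 : IsBdry (fun z => ((1 - s * c : ℝ) : ℂ) * f z + (s : ℂ) * g z)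
        (fun t => ((1 - s * c : ℝ) : ℂ) * F t + (s : ℂ) * G t) := bdry_comb hf hg hF hGb _ _
    have hb2 : IsBdry (fun z => ((1 + s * c : ℝ) : ℂ) * f z + ((-s : ℝ) : ℂ) * g z)
        (fun t => ((1 + s * c : ℝ) : ℂ) * F t + ((-s : ℝ) : ℂ) * G t) := bdry_comb hf hg hF hGb _ _
    have hd1 : DifferentiableOn ℂ (fun z => ((1 - s * c : ℝ) : ℂ) * f z + (s : ℂ) * g z)
        (Metric.ball 0 1) := (hf.const_mul _).add (hg.const_mul _)
    have hd2 : DifferentiableOn ℂ (fun z => ((1 + s * c : ℝ) : ℂ) * f z + ((-s : ℝ) : ℂ) * g z)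
        (Metric.ball 0 1) := (hf.const_mul _).add (hg.const_mul _)
    have hin1 : InBall h (fun z => ((1 - s * c : ℝ) : ℂ) * f z + (s : ℂ) * g z) := by
      refine ⟨hd1, ?_⟩
      rw [hE2 Ψ h _ _ hd1 hb1]
      have h1 := lnorm_le_add hNP (x := F) (y := fun t => F t + G t)
        (z := fun t => ((1 - s * c : ℝ) : ℂ) * F t + (s : ℂ) * G t) hF.1 (hF.1.add hGm) hb1.1
        (ENNReal.ofReal (1 - s - s * c)) (ENNReal.ofReal s) (by simp) (by simp) (fun t => by
          have e : ((1 - s * c : ℝ) : ℂ) * F t + (s : ℂ) * G t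
              = ((1 - s - s * c : ℝ) : ℂ) * F t + ((s : ℝ) : ℂ) * (F t + G t) := by
            push_cast; ring
          rw [e]
          refine (enorm_add_le _ _).trans (le_of_eq ?_)
          rw [enorm_mul, enorm_mul, ← ofReal_norm ((1 - s - s * c : ℝ) : ℂ),
            ← ofReal_norm ((s : ℝ) : ℂ), Complex.norm_real, Complex.norm_real,
            Real.norm_of_nonneg hp1, Real.norm_of_nonneg hs0])
      refine h1.trans ?_
      rw [hF1, mul_one, ← ha, haA, ← ENNReal.ofReal_mul hs0,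
        ← ENNReal.ofReal_add hp1 (by positivity)]
      have : 1 - s - s * c + s * A = 1 := by rw [hc]; ring
      rw [this]; simp
    have hin2 : InBall h (fun z => ((1 + s * c : ℝ) : ℂ) * f z + ((-s : ℝ) : ℂ) * g z) := by
      refine ⟨hd2, ?_⟩
      rw [hE2 Ψ h _ _ hd2 hb2]
      have h1 := lnorm_le_add hNP (x := F) (y := fun t => F t - G t)
        (z := fun t => ((1 + s * c : ℝ) : ℂ) * F t + ((-s : ℝ) : ℂ) * G t) hF.1 (hF.1.sub hGm) hb2.1
        (ENNReal.ofReal (1 - s + s * c)) (ENNReal.ofReal s) (by simp) (by simp) (fun t => by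
          have e : ((1 + s * c : ℝ) : ℂ) * F t + ((-s : ℝ) : ℂ) * G t
              = ((1 - s + s * c : ℝ) : ℂ) * F t + ((s : ℝ) : ℂ) * (F t - G t) := by
            push_cast; ring
          rw [e]
          refine (enorm_add_le _ _).trans (le_of_eq ?_)
          rw [enorm_mul, enorm_mul, ← ofReal_norm ((1 - s + s * c : ℝ) : ℂ),
            ← ofReal_norm ((s : ℝ) : ℂ), Complex.norm_real, Complex.norm_real,
            Real.norm_of_nonneg hp2, Real.norm_of_nonneg hs0])
      refine h1.trans ?_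
      rw [hF1, mul_one, ← hb, hbB, ← ENNReal.ofReal_mul hs0,
        ← ENNReal.ofReal_add hp2 (by positivity)]
      have : 1 - s + s * c + s * B = 1 := by
        have : B = 2 - A := by linarith
        rw [this, hc]; ring
      rw [this]; simp
    have hkey := hext.2 _ _ hin1 hin2 (fun z _ => by push_cast; ring)
    have hgc : ∀ z ∈ Metric.ball (0 : ℂ) 1, g z = (c : ℂ) * f z + 0 * f z := by
      intro z hz
      have h1 := hkey z hz
      rw [hs] at h1
      push_cast at h1
      linear_combination h1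
    refine ⟨c, ?_⟩
    have := bdry_unique hg hGb (bdry_comb hf hf hF hF (c : ℂ) 0) hgc
    filter_upwards [this] with t ht
    rw [ht]; ring
  · rintro ⟨hone, hall⟩
    refine ⟨⟨hf, hone.le⟩, ?_⟩
    intro g₁ g₂ hg₁ hg₂ hmid
    have hF1 : lnorm h F = 1 := hHF ▸ hone
    obtain ⟨G₁, hG₁⟩ := hE1 g₁ hg₁.1 (Hn_L1 hNP h0 hg₁.1 (hg₁.2.trans_lt ENNReal.one_lt_top))
    obtain ⟨G₂, hG₂⟩ := hE1 g₂ hg₂.1 (Hn_L1 hNP h0 hg₂.1 (hg₂.2.trans_lt ENNReal.one_lt_top))
    have hn1 : lnorm h G₁ ≤ 1 := by rw [← hE2 Ψ h g₁ G₁ hg₁.1 hG₁]; exact hg₁.2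
    have hn2 : lnorm h G₂ ≤ 1 := by rw [← hE2 Ψ h g₂ G₂ hg₂.1 hG₂]; exact hg₂.2
    have hFG : ∀ᵐ t ∂mu, F t = (1 / 2) * G₁ t + (1 / 2) * G₂ t :=
      bdry_unique hf hF (bdry_comb hg₁.1 hg₂.1 hG₁ hG₂ (1 / 2) (1 / 2))
        (fun z hz => by rw [hmid z hz]; ring)
    set G : ℝ → ℂ := fun t => (1 / 2) * G₁ t + (-1 / 2) * G₂ t with hG
    have hGm : Measurable G := (hG₁.1.const_mul _).add (hG₂.1.const_mul _)
    have e1 : lnorm h (fun t => F t + G t) = lnorm h G₁ := by
      refine lnorm_congr hNP (hF.1.add hGm) hG₁.1 ?_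
      filter_upwards [hFG] with t ht
      rw [ht, hG]; ring
    have e2 : lnorm h (fun t => F t - G t) = lnorm h G₂ := by
      refine lnorm_congr hNP (hF.1.sub hGm) hG₂.1 ?_
      filter_upwards [hFG] with t ht
      rw [ht, hG]; ring
    have hle : 2 * lnorm h F ≤ lnorm h (fun t => F t + G t) + lnorm h (fun t => F t - G t) := by
      have h1 := lnorm_le_add hNP (x := fun t => F t + G t) (y := fun t => F t - G t)
        (z := fun t => 2 * F t) (hF.1.add hGm) (hF.1.sub hGm) (hF.1.const_mul _) 1 1 (by simp)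
        (by simp) (fun t => by
          rw [one_mul, one_mul]
          have e : 2 * F t = (F t + G t) + (F t - G t) := by ring
          rw [e]
          exact enorm_add_le _ _)
      rw [lnorm_smul hNP hF.1, one_mul, one_mul] at h1
      have e : ‖(2 : ℂ)‖ₑ = 2 := by
        rw [← ofReal_norm]; simp
      rwa [e] at h1
    have hEq : lnorm h (fun t => F t + G t) + lnorm h (fun t => F t - G t) = 2 * lnorm h F := by
      refine le_antisymm ?_ hle
      rw [e1, e2, hF1, mul_one]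
      calc lnorm h G₁ + lnorm h G₂ ≤ 1 + 1 := add_le_add hn1 hn2
        _ = 2 := by norm_num
    have hC := hB1 Ψ h h0 F G hF.1 hGm (by rw [hF1]; exact ENNReal.one_lt_top) hEq
    have hb : IsBdry (fun z => (1 / 4) * g₁ z + (-1 / 4) * g₂ z)
        (fun t => (1 / 4) * G₁ t + (-1 / 4) * G₂ t) := bdry_comb hg₁.1 hg₂.1 hG₁ hG₂ _ _
    have hd : DifferentiableOn ℂ (fun z => (1 / 4) * g₁ z + (-1 / 4) * g₂ z) (Metric.ball 0 1) :=
      (hg₁.1.const_mul _).add (hg₂.1.const_mul _)
    have eG : (fun t => G t / 2) = fun t => (1 / 4) * G₁ t + (-1 / 4) * G₂ t := by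
      funext t; simp only [hG]; ring
    have hfinG : lnorm h (fun t => G t / 2) < ∞ := by
      have h1 := lnorm_le_add hNP (x := G₁) (y := G₂) (z := fun t => G t / 2) hG₁.1 hG₂.1
        (hGm.div_const _) 1 1 (by simp) (by simp) (fun t => by
          rw [one_mul, one_mul]
          have e : G t / 2 = (1 / 4) * G₁ t + (-1 / 4) * G₂ t := by simp only [hG]; ring
          rw [e]
          refine (enorm_add_le _ _).trans ?_
          rw [enorm_mul, enorm_mul]
          have e4 : ‖(1 / 4 : ℂ)‖ₑ ≤ 1 := by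
            rw [← ofReal_norm]
            simp only [ENNReal.ofReal_le_one]
            norm_num
          have e5 : ‖(-1 / 4 : ℂ)‖ₑ ≤ 1 := by
            rw [← ofReal_norm]
            simp only [ENNReal.ofReal_le_one]
            norm_num
          calc _ ≤ 1 * ‖G₁ t‖ₑ + 1 * ‖G₂ t‖ₑ := by gcongr
            _ = _ := by rw [one_mul, one_mul])
      rw [one_mul, one_mul] at h1
      exact h1.trans_lt (lt_of_le_of_lt (add_le_add hn1 hn2) (by norm_num))
    obtain ⟨c, hcG⟩ := hall (fun t => G t / 2) (hGm.div_const _) hfinG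
      (eG ▸ (hPB _ _ hd hb).1) hC
    -- c = 0
    have f1 : lnorm h (fun t => F t + G t) = ‖((1 + 2 * c : ℝ) : ℂ)‖ₑ := by
      have : lnorm h (fun t => F t + G t) = lnorm h (fun t => ((1 + 2 * c : ℝ) : ℂ) * F t) := by
        refine lnorm_congr hNP (hF.1.add hGm) (hF.1.const_mul _) ?_
        filter_upwards [hcG] with t ht
        have : G t = 2 * (c * F t) := by rw [← ht]; ring
        rw [this]; push_cast; ring
      rw [this, lnorm_smul hNP hF.1, hF1, mul_one]
    have f2 : lnorm h (fun t => F t - G t) = ‖((1 - 2 * c : ℝ) : ℂ)‖ₑ := by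
      have : lnorm h (fun t => F t - G t) = lnorm h (fun t => ((1 - 2 * c : ℝ) : ℂ) * F t) := by
        refine lnorm_congr hNP (hF.1.sub hGm) (hF.1.const_mul _) ?_
        filter_upwards [hcG] with t ht
        have : G t = 2 * (c * F t) := by rw [← ht]; ring
        rw [this]; push_cast; ring
      rw [this, lnorm_smul hNP hF.1, hF1, mul_one]
    have g1 : |1 + 2 * c| ≤ 1 := by
      have h1 : ‖((1 + 2 * c : ℝ) : ℂ)‖ₑ ≤ 1 := by rw [← f1, e1]; exact hn1
      rw [← ofReal_norm, ENNReal.ofReal_le_one, Complex.norm_real, Real.norm_eq_abs] at h1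
      exact h1
    have g2 : |1 - 2 * c| ≤ 1 := by
      have h1 : ‖((1 - 2 * c : ℝ) : ℂ)‖ₑ ≤ 1 := by rw [← f2, e2]; exact hn2
      rw [← ofReal_norm, ENNReal.ofReal_le_one, Complex.norm_real, Real.norm_eq_abs] at h1
      exact h1
    have hc0 : c = 0 := by
      have a1 := abs_le.1 g1
      have a2 := abs_le.1 g2
      linarith
    have hz0 : ∀ᵐ t ∂mu, (1 / 4) * G₁ t + (-1 / 4) * G₂ t = 0 := by
      filter_upwards [hcG] with t ht
      have := congrFun eG t
      rw [← this, ht, hc0]; simp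
    have hz := bdry_zero hPB hd hb hz0
    intro z hz'
    have := hz z hz'
    linear_combination 4 * this

end Pool.Agent.H582R3.HL
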