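import Pool.Agent.H582R3.HL.Stubs

set_option autoImplicit false

open MeasureTheory Set Filter Topology
open scoped ENNReal Real

namespace Pool.Agent.H582R3.HL

theorem K2_mu_Ico (x y : ℝ) : mu (Ico y x) ≤ ENNReal.ofReal |x - y| := by
  calc mu (Ico y x) ≤ volume (Ico y x) := Measure.restrict_apply_le _ _
    _ = ENNReal.ofReal (x - y) := Real.volume_Ico
    _ ≤ ENNReal.ofReal |x - y| := ENNReal.ofReal_le_ofReal (le_abs_self _)

theorem K2_mu_univ : mu univ = ENNReal.ofReal (2 * π) := by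
  rw [mu, Measure.restrict_apply_univ, Real.volume_Ico, sub_zero]

theorem K2_fin (S : Set ℝ) : mu S ≠ ∞ := by
  have : mu S ≤ mu univ := measure_mono (subset_univ _)
  rw [K2_mu_univ] at this
  exact ne_top_of_le_ne_top ENNReal.ofReal_ne_top this

theorem K2_le (u : ℝ → ℝ≥0∞) (t : ℝ) :
    mu {s | sInf {c : ℝ≥0∞ | mu {s | c < u s} ≤ ENNReal.ofReal t} < u s} ≤ ENNReal.ofReal t := by
  set S : Set ℝ≥0∞ := {c : ℝ≥0∞ | mu {s | c < u s} ≤ ENNReal.ofReal t} with hS
  have hne : S.Nonempty := ⟨⊤, by simp [hS]⟩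
  obtain ⟨c, hc1, hc2, hc3⟩ := exists_seq_tendsto_sInf hne (OrderBot.bddBelow S)
  have h1 : {s | sInf S < u s} = ⋃ n, {s | c n < u s} := by
    ext s
    simp only [Set.mem_ofPred_eq, mem_iUnion]
    constructor
    · intro h
      exact (hc2.eventually (gt_mem_nhds h)).exists
    · rintro ⟨n, hn⟩
      exact lt_of_le_of_lt (sInf_le (hc3 n)) hn
  have hmono : Monotone fun n => {s | c n < u s} := by
    intro m n hmn s hs
    exact lt_of_le_of_lt (hc1 hmn) hs
  rw [h1, hmono.measure_iUnion]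
  exact iSup_le fun n => hc3 n

theorem K2_ge (u : ℝ → ℝ≥0∞) (hu : Measurable u) (t : ℝ) (ht : t ≤ 2 * π) :
    ENNReal.ofReal t ≤
      mu {s | sInf {c : ℝ≥0∞ | mu {s | c < u s} ≤ ENNReal.ofReal t} ≤ u s} := by
  set S : Set ℝ≥0∞ := {c : ℝ≥0∞ | mu {s | c < u s} ≤ ENNReal.ofReal t} with hS
  rcases eq_or_lt_of_le (zero_le (a := sInf S)) with h0 | h0
  · rw [← h0]
    simp only [zero_le, Set.ofPred_true]
    rw [K2_mu_univ]
    exact ENNReal.ofReal_le_ofReal ht
  · obtain ⟨c, hc1, hc2, hc3⟩ := exists_seq_strictMono_tendsto' h0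
    have h1 : {s | sInf S ≤ u s} = ⋂ n, {s | c n < u s} := by
      ext s
      simp only [Set.mem_ofPred_eq, mem_iInter]
      constructor
      · intro h n
        exact lt_of_lt_of_le (hc2 n).2 h
      · intro h
        exact le_of_tendsto' hc3 fun n => (h n).le
    have hanti : Antitone fun n => {s | c n < u s} := by
      intro m n hmn s hs
      exact lt_of_le_of_lt (hc1.monotone hmn) hs
    rw [h1, hanti.measure_iInter (fun n => (measurableSet_lt measurable_const hu).nullMeasurableSet)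
      ⟨0, K2_fin _⟩]
    refine le_iInf fun n => ?_
    by_contra hcon
    push Not at hcon
    exact absurd (sInf_le (show c n ∈ S from hcon.le)) (not_le.2 (hc2 n).2)

theorem K2_ok : St_K2 := by
  intro u hu t ht
  set c0 : ℝ≥0∞ := sInf {c : ℝ≥0∞ | mu {s | c < u s} ≤ ENNReal.ofReal t} with hc0
  have hle := K2_le u t
  have hge := K2_ge u hu t ht.2
  rw [← hc0] at hle hge
  set P : Set ℝ := {s | c0 < u s} with hP
  set Q : Set ℝ := {s | u s = c0} with hQ
  have hPm : MeasurableSet P := measurableSet_lt measurable_const hu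
  have hQm : MeasurableSet Q := hu (measurableSet_singleton c0)
  set G : ℝ → ℝ := fun x => (mu (P ∪ (Q ∩ Iio x))).toReal with hG
  have hG0 : G 0 ≤ t := by
    have h1 : mu (P ∪ (Q ∩ Iio 0)) ≤ ENNReal.ofReal t := by
      have h2 : mu (Iio (0 : ℝ)) = 0 := by
        rw [mu, Measure.restrict_apply measurableSet_Iio]
        have : Iio (0 : ℝ) ∩ Ico 0 (2 * π) = ∅ := by
          ext s
          simp only [mem_inter_iff, mem_Iio, mem_Ico, mem_empty_iff_false, iff_false]
          intro h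
          linarith [h.1, h.2.1]
        rw [this, measure_empty]
      calc mu (P ∪ (Q ∩ Iio 0)) ≤ mu P + mu (Q ∩ Iio 0) := measure_union_le _ _
        _ ≤ ENNReal.ofReal t + mu (Iio (0 : ℝ)) :=
            add_le_add hle (measure_mono inter_subset_right)
        _ = ENNReal.ofReal t := by rw [h2, add_zero]
    exact ENNReal.toReal_le_of_le_ofReal ht.1 h1
  have hG1 : t ≤ G (2 * π) := by
    have h1 : ENNReal.ofReal t ≤ mu (P ∪ (Q ∩ Iio (2 * π))) := by
      refine hge.trans ?_
      rw [mu, Measure.restrict_apply (measurableSet_le measurable_const hu),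
        Measure.restrict_apply (hPm.union (hQm.inter measurableSet_Iio))]
      refine measure_mono ?_
      rintro s ⟨h2, h3⟩
      refine ⟨?_, h3⟩
      rcases eq_or_lt_of_le (show c0 ≤ u s from h2) with h4 | h4
      · exact Or.inr ⟨h4.symm, h3.2⟩
      · exact Or.inl h4
    exact (ENNReal.ofReal_le_iff_le_toReal (K2_fin _)).1 h1
  have hGc : Continuous G := by
    refine (LipschitzWith.of_le_add ?_).continuous
    intro x y
    have h1 : mu (P ∪ (Q ∩ Iio x)) ≤ mu (P ∪ (Q ∩ Iio y)) + ENNReal.ofReal |x - y| := by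
      calc mu (P ∪ (Q ∩ Iio x)) ≤ mu ((P ∪ (Q ∩ Iio y)) ∪ Ico y x) := by
            refine measure_mono ?_
            rintro s (h | ⟨h2, h3⟩)
            · exact Or.inl (Or.inl h)
            · by_cases h4 : s < y
              · exact Or.inl (Or.inr ⟨h2, h4⟩)
              · exact Or.inr ⟨not_lt.1 h4, h3⟩
        _ ≤ mu (P ∪ (Q ∩ Iio y)) + mu (Ico y x) := measure_union_le _ _
        _ ≤ _ := add_le_add le_rfl (K2_mu_Ico x y)
    have h2 := ENNReal.toReal_mono (by simp [K2_fin]) h1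
    rw [ENNReal.toReal_add (K2_fin _) ENNReal.ofReal_ne_top,
      ENNReal.toReal_ofReal (abs_nonneg _)] at h2
    rw [Real.dist_eq]
    exact h2
  have hpi : (0 : ℝ) ≤ 2 * π := by positivity
  obtain ⟨x, hx1, hx2⟩ := intermediate_value_Icc hpi hGc.continuousOn
    (show t ∈ Icc (G 0) (G (2 * π)) from ⟨hG0, hG1⟩)
  have hAm : MeasurableSet (P ∪ (Q ∩ Iio x)) := hPm.union (hQm.inter measurableSet_Iio)
  refine ⟨(P ∪ (Q ∩ Iio x)) ∩ Ico 0 (2 * π), hAm.inter measurableSet_Ico, inter_subset_right,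
    ?_, ?_⟩
  · have h1 : mu ((P ∪ (Q ∩ Iio x)) ∩ Ico 0 (2 * π)) = mu (P ∪ (Q ∩ Iio x)) := by
      rw [mu, Measure.restrict_apply (hAm.inter measurableSet_Ico), Measure.restrict_apply hAm,
        inter_assoc, inter_self]
    rw [h1, ← ENNReal.ofReal_toReal (K2_fin (P ∪ (Q ∩ Iio x)))]
    congr 1
  · refine ae_of_all _ fun ξ => ?_
    have h1 : ∀ᵐ η ∂mu, η ∈ Ico (0 : ℝ) (2 * π) := ae_restrict_mem measurableSet_Ico
    filter_upwards [h1] with η hη hξA hηA
    have h2 : c0 ≤ u ξ := by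
      rcases hξA.1 with h3 | h3
      · exact le_of_lt h3
      · exact h3.1.symm.le
    refine le_trans ?_ h2
    by_contra h3
    push Not at h3
    exact hηA ⟨Or.inl h3, hη⟩

end Pool.Agent.H582R3.HL
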