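import Pool.Agent.H582R3.HL.Stubs

/-! Task K4: continuity of the K-functional -/

set_option autoImplicit false

open MeasureTheory Set Filter Topology
open scoped ENNReal Real

namespace Pool.Agent.H582R3.HL

theorem K4_meas (u : ℝ → ℝ≥0∞) : Measurable fun c : ℝ => mu {s | ENNReal.ofReal c < u s} := by
  apply Antitone.measurable
  intro c d hcd
  exact measure_mono fun s hs => lt_of_le_of_lt (ENNReal.ofReal_le_ofReal hcd) hs

theorem K4_layer (u : ℝ → ℝ≥0∞) (hu : Measurable u) (hfin : ∫⁻ s, u s ∂mu < ∞) :
    ∫⁻ c in Set.Ioi (0 : ℝ), mu {s | ENNReal.ofReal c < u s} = ∫⁻ s, u s ∂mu := by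
  have hae : ∀ᵐ s ∂mu, u s < ∞ := ae_lt_top hu hfin.ne
  have h1 : ∫⁻ s, u s ∂mu = ∫⁻ s, ENNReal.ofReal ((u s).toReal) ∂mu := by
    apply lintegral_congr_ae
    filter_upwards [hae] with s hs
    rw [ENNReal.ofReal_toReal hs.ne]
  rw [h1, lintegral_eq_lintegral_meas_lt mu (Eventually.of_forall fun s => ENNReal.toReal_nonneg)
    hu.ennreal_toReal.aemeasurable]
  apply setLIntegral_congr_fun measurableSet_Ioi
  intro c hc
  apply measure_congr
  filter_upwards [hae] with s hs
  have : (ENNReal.ofReal c < u s) = (c < (u s).toReal) := by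
    rw [ENNReal.ofReal_lt_iff_lt_toReal (le_of_lt hc) hs.ne]
  exact this

theorem K4_ok : St_K4 := by
  intro u hu hfin
  apply Continuous.continuousOn
  rw [continuous_iff_continuousAt]
  intro t
  unfold ContinuousAt Kf
  apply tendsto_lintegral_filter_of_dominated_convergence
    (fun c => mu {s | ENNReal.ofReal c < u s})
  · exact Eventually.of_forall fun x => (K4_meas u).min measurable_const
  · exact Eventually.of_forall fun x => Eventually.of_forall fun c => min_le_left _ _
  · rw [K4_layer u hu hfin]
    exact hfin.ne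
  · refine Eventually.of_forall fun c => ?_
    exact tendsto_const_nhds.min (ENNReal.continuous_ofReal.tendsto t)

end Pool.Agent.H582R3.HL
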