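import Pool.Agent.H582R3.HL.Stubs

set_option autoImplicit false

open MeasureTheory Set Filter Topology
open scoped ENNReal Real

namespace Pool.Agent.H582R3.HL

namespace KPaux

theorem tp : (0 : ℝ) < 2 * π := by positivity

instance : IsFiniteMeasure mu := by unfold mu; infer_instance

/-- integral of a periodic function over a period -/
theorem per_int (f : ℝ → ℝ≥0∞) (hf : Function.Periodic f (2 * π)) (a : ℝ) :
    ∫⁻ x in Set.Ioc a (a + 2 * π), f x = ∫⁻ x, f x ∂mu := by
  haveI : Fact ((0 : ℝ) < 2 * π) := ⟨tp⟩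
  have h := fun t => AddCircle.lintegral_preimage (2 * π) t hf.lift
  have h1 := (h a).trans (h 0).symm
  simp only [Function.Periodic.lift_coe] at h1
  rw [h1, zero_add]
  unfold mu
  exact setLIntegral_congr Ico_ae_eq_Ioc.symm

theorem per_refl (f : ℝ → ℝ≥0∞) (hf : Function.Periodic f (2 * π)) (s : ℝ) :
    ∫⁻ y, f (s - y) ∂mu = ∫⁻ y, f y ∂mu := by
  have h1 : ∫⁻ y, f (s - y) ∂mu = ∫⁻ y, (Set.Ioc (s - 2 * π) s).indicator f (s - y) := by
    unfold mu
    rw [← lintegral_indicator measurableSet_Ico]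
    refine lintegral_congr fun y => ?_
    by_cases hy : y ∈ Set.Ico (0 : ℝ) (2 * π)
    · rw [Set.indicator_of_mem hy, Set.indicator_of_mem]
      exact ⟨by linarith [hy.2], by linarith [hy.1]⟩
    · rw [Set.indicator_of_notMem hy, Set.indicator_of_notMem]
      rintro ⟨h1, h2⟩
      exact hy ⟨by linarith, by linarith⟩
  rw [h1, lintegral_sub_left_eq_self, lintegral_indicator measurableSet_Ioc]
  have h2 := per_int f hf (s - 2 * π)
  rw [sub_add_cancel] at h2
  exact h2

theorem per_shift (f : ℝ → ℝ≥0∞) (hf : Function.Periodic f (2 * π)) (a : ℝ) :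
    ∫⁻ y, f (y + a) ∂mu = ∫⁻ y, f y ∂mu := by
  have hg : Function.Periodic (fun z => f (a - z)) (2 * π) := by
    intro z
    have : f (a - z) = f (a - (z + 2 * π)) := by
      have := hf (a - (z + 2 * π))
      rw [← this]
      congr 1
      ring
    exact this.symm
  have h1 := per_refl _ hg 0
  rw [← per_refl f hf a, ← h1]
  refine lintegral_congr fun y => ?_
  congr 1
  ring

/-- reduction modulo `2π` -/
noncomputable def md (s : ℝ) : ℝ := Int.fract (s / (2 * π)) * (2 * π)

theorem md_meas : Measurable md :=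
  (measurable_fract.comp (measurable_id.div_const _)).mul_const _

theorem md_per : Function.Periodic md (2 * π) := by
  intro s
  unfold md
  have : (s + 2 * π) / (2 * π) = s / (2 * π) + 1 := by
    rw [add_div, div_self tp.ne']
  rw [this, Int.fract_add_one]

theorem md_eq {s : ℝ} (h : s ∈ Set.Ico (0 : ℝ) (2 * π)) : md s = s := by
  unfold md
  have h1 : Int.fract (s / (2 * π)) = s / (2 * π) := by
    rw [Int.fract_eq_self]
    refine ⟨div_nonneg h.1 tp.le, ?_⟩
    rw [div_lt_one tp]
    exact h.2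
  rw [h1, div_mul_cancel₀ _ tp.ne']

theorem lint_congr {f g : ℝ → ℝ≥0∞} (h : ∀ s ∈ Set.Ico (0 : ℝ) (2 * π), f s = g s) :
    ∫⁻ s, f s ∂mu = ∫⁻ s, g s ∂mu := by
  unfold mu
  exact setLIntegral_congr_fun measurableSet_Ico h

variable {r : ℝ}

theorem den_pos (hr : r ∈ Set.Ioo (0 : ℝ) 1) (x : ℝ) : 0 < 1 - 2 * r * Real.cos x + r ^ 2 := by
  have h1 := Real.cos_le_one x
  have h2 : 0 < (1 - r) ^ 2 := by
    have := hr.2
    have : 0 < 1 - r := by linarith
    positivity
  nlinarith [hr.1]

theorem P_nonneg (hr : r ∈ Set.Ioo (0 : ℝ) 1) (x : ℝ) : 0 ≤ P r x := by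
  unfold P
  refine div_nonneg ?_ (den_pos hr x).le
  nlinarith [hr.1, hr.2]

theorem P_cont (hr : r ∈ Set.Ioo (0 : ℝ) 1) : Continuous (P r) := by
  unfold P
  refine continuous_const.div ?_ fun x => (den_pos hr x).ne'
  fun_prop

theorem P_per : Function.Periodic (P r) (2 * π) := by
  intro x
  unfold P
  rw [Real.cos_add_two_pi]

theorem P_int (hr : r ∈ Set.Ioo (0 : ℝ) 1) : ∫ θ in (0 : ℝ)..(2 * π), P r θ = 2 * π := by
  have hf : DiffContOnCl ℂ (fun _ : ℂ => (1 : ℂ)) (Metric.ball 0 1) := diffContOnCl_const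
  have hw : (r : ℂ) ∈ Metric.ball (0 : ℂ) 1 := by
    rw [mem_ball_zero_iff, Complex.norm_real, Real.norm_eq_abs, abs_of_pos hr.1]
    exact hr.2
  have h := hf.circleAverage_poissonKernel_smul' hw
  rw [Real.circleAverage_def] at h
  have e : ∀ θ : ℝ, ((‖circleMap (0 : ℂ) 1 θ - 0‖ ^ 2 - ‖(r : ℂ) - 0‖ ^ 2) /
      ‖(circleMap (0 : ℂ) 1 θ - 0) - ((r : ℂ) - 0)‖ ^ 2) = P r θ := by
    intro θ
    unfold P
    simp only [sub_zero]
    have e1 : ‖circleMap (0 : ℂ) 1 θ‖ = 1 := by simp
    have e2 : ‖(r : ℂ)‖ = r := by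
      rw [Complex.norm_real, Real.norm_eq_abs, abs_of_pos hr.1]
    have e3 : ‖circleMap (0 : ℂ) 1 θ - (r : ℂ)‖ ^ 2 = 1 - 2 * r * Real.cos θ + r ^ 2 := by
      rw [← Complex.normSq_eq_norm_sq, Complex.normSq_apply]
      have c1 : circleMap (0 : ℂ) 1 θ = (Real.cos θ : ℂ) + (Real.sin θ : ℂ) * Complex.I := by
        rw [circleMap]
        simp [Complex.exp_mul_I]
      have c2 : (circleMap (0 : ℂ) 1 θ - (r : ℂ)).re = Real.cos θ - r := by
        rw [c1, Complex.sub_re, Complex.add_re, Complex.re_ofReal_mul, Complex.I_re,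
          Complex.ofReal_re, Complex.ofReal_re]
        ring
      have c3 : (circleMap (0 : ℂ) 1 θ - (r : ℂ)).im = Real.sin θ := by
        rw [c1, Complex.sub_im, Complex.add_im, Complex.im_ofReal_mul, Complex.I_im,
          Complex.ofReal_im, Complex.ofReal_im]
        ring
      rw [c2, c3]
      nlinarith [Real.sin_sq_add_cos_sq θ]
    rw [e1, e2, e3, one_pow]
  simp only [e] at h
  have h2 : ∫ θ in (0 : ℝ)..(2 * π), (P r θ) • (1 : ℂ) =
      ((∫ θ in (0 : ℝ)..(2 * π), P r θ : ℝ) : ℂ) := by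
    rw [← intervalIntegral.integral_ofReal]
    congr 1
    funext θ
    rw [Complex.real_smul, mul_one]
  rw [h2, Complex.real_smul, ← Complex.ofReal_mul] at h
  have h3 : (2 * π)⁻¹ * ∫ θ in (0 : ℝ)..(2 * π), P r θ = 1 := by exact_mod_cast h
  have h4 := tp
  field_simp at h3
  linarith

theorem P_lint (hr : r ∈ Set.Ioo (0 : ℝ) 1) :
    ∫⁻ θ, ENNReal.ofReal (P r θ) ∂mu = ENNReal.ofReal (2 * π) := by
  rw [← P_int hr, intervalIntegral.integral_of_le tp.le]
  have h1 : ∫ θ in Set.Ioc 0 (2 * π), P r θ = ∫ θ in Set.Ico 0 (2 * π), P r θ :=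
    setIntegral_congr_set Ico_ae_eq_Ioc.symm
  rw [h1]
  unfold mu
  rw [ofReal_integral_eq_lintegral_ofReal]
  · exact ((P_cont hr).continuousOn.integrableOn_Icc (a := 0) (b := 2 * π)).mono_set
      Set.Ico_subset_Icc_self
  · exact Filter.Eventually.of_forall fun x => P_nonneg hr x

theorem kap_meas (hr : r ∈ Set.Ioo (0 : ℝ) 1) : Measurable fun x => ENNReal.ofReal (P r x) :=
  ENNReal.measurable_ofReal.comp (P_cont hr).measurable

theorem kap_per : Function.Periodic (fun x => ENNReal.ofReal (P r x)) (2 * π) := by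
  intro x
  show ENNReal.ofReal (P r (x + 2 * π)) = _
  rw [P_per]

theorem CC : ENNReal.ofReal (1 / (2 * π)) * ENNReal.ofReal (2 * π) = 1 := by
  rw [← ENNReal.ofReal_mul (by positivity), one_div_mul_cancel tp.ne', ENNReal.ofReal_one]

theorem pois_le (hr : r ∈ Set.Ioo (0 : ℝ) 1) (F : ℝ → ℂ) (s : ℝ) :
    ‖pois r F s‖ₑ ≤ ENNReal.ofReal (1 / (2 * π)) *
      ∫⁻ y, ENNReal.ofReal (P r (s - y)) * ‖F y‖ₑ ∂mu := by
  unfold pois
  rw [enorm_mul]
  have h1 : ‖((1 / (2 * π) : ℝ) : ℂ)‖ₑ = ENNReal.ofReal (1 / (2 * π)) := by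
    rw [← ofReal_norm, Complex.norm_real, Real.norm_eq_abs, abs_of_pos]
    have := tp
    positivity
  rw [h1]
  refine mul_le_mul_right (le_trans (enorm_integral_le_lintegral_enorm _) ?_) _
  refine lintegral_mono fun y => ?_
  show ‖(P r (s - y) : ℂ) * F y‖ₑ ≤ _
  rw [enorm_mul]
  refine mul_le_mul_left ?_ _
  rw [← ofReal_norm, Complex.norm_real, Real.norm_eq_abs, abs_of_nonneg (P_nonneg hr _)]

theorem pois_meas (hr : r ∈ Set.Ioo (0 : ℝ) 1) {F : ℝ → ℂ} (hF : Measurable F) :
    Measurable (pois r F) := by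
  unfold pois
  refine Measurable.const_mul ?_ _
  have h1 : StronglyMeasurable (Function.uncurry fun t s : ℝ => (P r (t - s) : ℂ) * F s) := by
    refine Measurable.stronglyMeasurable ?_
    refine Measurable.mul ?_ (hF.comp measurable_snd)
    exact Complex.measurable_ofReal.comp
      ((P_cont hr).measurable.comp (measurable_fst.sub measurable_snd))
  exact h1.integral_prod_right.measurable

end KPaux

open KPaux in
theorem KP_ok (h1 : St_K1) (h2 : St_K2) : St_KP := by
  intro F hF _ r hr
  have hgm : Measurable fun y => ‖F y‖ₑ := hF.enorm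
  refine ⟨fun t ht => ?_, ?_⟩
  · -- the `K`-functional
    set g : ℝ → ℝ≥0∞ := fun y => ‖F y‖ₑ with hg
    set G : ℝ → ℝ≥0∞ := fun y => g (md y) with hG
    have hGm : Measurable G := hgm.comp md_meas
    have hGp : Function.Periodic G (2 * π) := fun y => by
      show g (md (y + 2 * π)) = g (md y)
      rw [md_per]
    have hGe : ∀ y ∈ Set.Ico (0 : ℝ) (2 * π), g y = G y := fun y hy => by
      show g y = g (md y)
      rw [md_eq hy]
    set κ : ℝ → ℝ≥0∞ := fun x => ENNReal.ofReal (P r x) with hκ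
    have hxm : Measurable fun s => ‖pois r F s‖ₑ := (pois_meas hr hF).enorm
    obtain ⟨A, hA, hAs, hAt, hAtop⟩ := h2 _ hxm t ht
    have hK := (h1 _ hxm A hA t ht hAt).2.1 hAtop
    rw [← hK]
    have hx : ∀ s, ‖pois r F s‖ₑ ≤ ENNReal.ofReal (1 / (2 * π)) *
        ∫⁻ y, κ y * G (s - y) ∂mu := by
      intro s
      refine (pois_le hr F s).trans (le_of_eq ?_)
      congr 1
      have hp : Function.Periodic (fun z => κ z * G (s - z)) (2 * π) := by
        intro z
        show κ (z + 2 * π) * G (s - (z + 2 * π)) = κ z * G (s - z)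
        have e1 : κ (z + 2 * π) = κ z := kap_per z
        have e2 : G (s - (z + 2 * π)) = G (s - z) := by
          have := hGp (s - (z + 2 * π))
          rw [← this]
          congr 1
          ring
        rw [e1, e2]
      rw [← per_refl _ hp s]
      refine lint_congr fun y hy => ?_
      show κ (s - y) * g y = κ (s - y) * G (s - (s - y))
      rw [sub_sub_cancel, hGe y hy]
    have hinner : ∀ y, ∫⁻ s in A, G (s - y) ∂mu ≤ Kf g t := by
      intro y
      have hAm : MeasurableSet (md ⁻¹' A) := md_meas hA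
      have hA'm : MeasurableSet ((fun s => md (s + y)) ⁻¹' A) :=
        (md_meas.comp (measurable_id.add_const y)) hA
      have hip : Function.Periodic ((md ⁻¹' A).indicator fun _ => (1 : ℝ≥0∞)) (2 * π) := by
        intro s
        by_cases hs : md s ∈ A
        · have a1 : s ∈ md ⁻¹' A := hs
          have a2 : s + 2 * π ∈ md ⁻¹' A := by
            show md (s + 2 * π) ∈ A
            rw [md_per]
            exact hs
          rw [Set.indicator_of_mem a1, Set.indicator_of_mem a2]
        · have a1 : s ∉ md ⁻¹' A := hs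
          have a2 : s + 2 * π ∉ md ⁻¹' A := by
            show md (s + 2 * π) ∉ A
            rw [md_per]
            exact hs
          rw [Set.indicator_of_notMem a1, Set.indicator_of_notMem a2]
      have hmuA : mu (md ⁻¹' A) = ENNReal.ofReal t := by
        rw [← hAt]
        unfold mu
        rw [Measure.restrict_apply hAm, Measure.restrict_apply hA]
        congr 1
        ext s
        constructor
        · rintro ⟨ha, hb⟩
          have : md s ∈ A := ha
          rw [md_eq hb] at this
          exact ⟨this, hb⟩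
        · rintro ⟨ha, hb⟩
          refine ⟨?_, hb⟩
          show md s ∈ A
          rw [md_eq hb]
          exact ha
      have hshift : ∀ s, (md ⁻¹' A).indicator (fun _ => (1 : ℝ≥0∞)) (s + y) =
          ((fun s => md (s + y)) ⁻¹' A).indicator (fun _ => (1 : ℝ≥0∞)) s := fun s => rfl
      have hmuA' : mu ((fun s => md (s + y)) ⁻¹' A) = ENNReal.ofReal t := by
        have e1 := per_shift _ hip y
        simp only [hshift] at e1
        rw [lintegral_indicator_const hA'm, lintegral_indicator_const hAm, one_mul, one_mul] at e1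
        rw [e1, hmuA]
      have hfin := (h1 g hgm _ hA'm t ht hmuA').1
      refine le_trans (le_of_eq ?_) hfin
      have hHp : Function.Periodic
          (fun s => (md ⁻¹' A).indicator (fun _ => (1 : ℝ≥0∞)) s * G (s - y)) (2 * π) := by
        intro s
        show (md ⁻¹' A).indicator (fun _ => (1 : ℝ≥0∞)) (s + 2 * π) * G (s + 2 * π - y) = _
        rw [hip s]
        have e2 : G (s + 2 * π - y) = G (s - y) := by
          rw [← hGp (s - y)]
          congr 1
          ring
        rw [e2]
      have e3 : ∫⁻ s in A, G (s - y) ∂mu =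
          ∫⁻ s, (md ⁻¹' A).indicator (fun _ => (1 : ℝ≥0∞)) s * G (s - y) ∂mu := by
        rw [← lintegral_indicator hA]
        refine lint_congr fun s hs => ?_
        by_cases hsA : s ∈ A
        · rw [Set.indicator_of_mem hsA, Set.indicator_of_mem, one_mul]
          show md s ∈ A
          rw [md_eq hs]
          exact hsA
        · rw [Set.indicator_of_notMem hsA, Set.indicator_of_notMem, zero_mul]
          show md s ∉ A
          rw [md_eq hs]
          exact hsA
      have e4 : ∫⁻ s in (fun s => md (s + y)) ⁻¹' A, g s ∂mu =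
          ∫⁻ s, ((fun s => md (s + y)) ⁻¹' A).indicator (fun _ => (1 : ℝ≥0∞)) s * G s ∂mu := by
        rw [← lintegral_indicator hA'm]
        refine lint_congr fun s hs => ?_
        by_cases hsA : s ∈ (fun s => md (s + y)) ⁻¹' A
        · rw [Set.indicator_of_mem hsA, Set.indicator_of_mem hsA, one_mul, hGe s hs]
        · rw [Set.indicator_of_notMem hsA, Set.indicator_of_notMem hsA, zero_mul]
      rw [e3, e4, ← per_shift _ hHp y]
      refine lintegral_congr fun s => ?_
      rw [hshift, add_sub_cancel_right]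
    calc ∫⁻ s in A, ‖pois r F s‖ₑ ∂mu
        ≤ ∫⁻ s in A, (ENNReal.ofReal (1 / (2 * π)) * ∫⁻ y, κ y * G (s - y) ∂mu) ∂mu :=
          lintegral_mono fun s => hx s
      _ = ENNReal.ofReal (1 / (2 * π)) * ∫⁻ s in A, (∫⁻ y, κ y * G (s - y) ∂mu) ∂mu := by
          rw [lintegral_const_mul']
          exact ENNReal.ofReal_ne_top
      _ = ENNReal.ofReal (1 / (2 * π)) * ∫⁻ y, (∫⁻ s in A, κ y * G (s - y) ∂mu) ∂mu := by
          rw [lintegral_lintegral_swap]
          refine Measurable.aemeasurable ?_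
          exact ((kap_meas hr).comp measurable_snd).mul
            (hGm.comp (measurable_fst.sub measurable_snd))
      _ ≤ ENNReal.ofReal (1 / (2 * π)) * ∫⁻ y, κ y * Kf g t ∂mu := by
          refine mul_le_mul_right (lintegral_mono fun y => ?_) _
          show ∫⁻ s in A, κ y * G (s - y) ∂mu ≤ κ y * Kf g t
          rw [lintegral_const_mul' _ _ ENNReal.ofReal_ne_top]
          exact mul_le_mul_right (hinner y) _
      _ = Kf g t := by
          rw [lintegral_mul_const _ (kap_meas hr), P_lint hr, ← mul_assoc, CC, one_mul]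
  · -- the essential supremum
    refine essSup_le_of_ae_le _ (Filter.Eventually.of_forall fun s => ?_)
    have hp : Function.Periodic (fun x => ENNReal.ofReal (P r x)) (2 * π) := kap_per
    calc ‖pois r F s‖ₑ ≤ ENNReal.ofReal (1 / (2 * π)) *
          ∫⁻ y, ENNReal.ofReal (P r (s - y)) * ‖F y‖ₑ ∂mu := pois_le hr F s
      _ ≤ ENNReal.ofReal (1 / (2 * π)) *
          ∫⁻ y, ENNReal.ofReal (P r (s - y)) * essSup (fun s => ‖F s‖ₑ) mu ∂mu := by
          refine mul_le_mul_right (lintegral_mono_ae ?_) _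
          filter_upwards [ENNReal.ae_le_essSup (fun s => ‖F s‖ₑ) (μ := mu)] with y hy
          exact mul_le_mul_right hy _
      _ = essSup (fun s => ‖F s‖ₑ) mu := by
          have hm : Measurable fun y => ENNReal.ofReal (P r (s - y)) :=
            (kap_meas hr).comp (measurable_const.sub measurable_id)
          rw [lintegral_mul_const _ hm, per_refl _ hp s, P_lint hr, ← mul_assoc, CC, one_mul]

end Pool.Agent.H582R3.HL
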