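import Pool.Agent.H582R3.HL.Stubs

/-!
LC (helper318): the layer cake formula for the Lorentz norm.
-/

set_option autoImplicit false

open MeasureTheory Set Filter Topology
open scoped ENNReal Real

namespace Pool.Agent.H582R3.HL

namespace LCh

/-- the distribution function -/
noncomputable def dd (u : ℝ → ℝ≥0∞) (c : ℝ≥0∞) : ℝ≥0∞ := mu {s | c < u s}

theorem dd_anti (u : ℝ → ℝ≥0∞) : Antitone (dd u) := by
  intro a b hab
  exact measure_mono fun s hs => lt_of_le_of_lt hab hs

theorem mu_univ : mu Set.univ = ENNReal.ofReal (2 * π) := by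
  unfold mu
  rw [Measure.restrict_apply_univ, Real.volume_Ico, sub_zero]

theorem dd_le (u : ℝ → ℝ≥0∞) (c : ℝ≥0∞) : dd u c ≤ ENNReal.ofReal (2 * π) := by
  rw [← mu_univ]
  exact measure_mono (Set.subset_univ _)

theorem dd_sup (u : ℝ → ℝ≥0∞) (c : ℝ≥0∞) (m : ℝ≥0∞) (hc : c ≠ ∞)
    (h : ∀ c', c < c' → dd u c' ≤ m) : dd u c ≤ m := by
  obtain ⟨v, hv1, hv2, hv3⟩ := exists_seq_strictAnti_tendsto' (lt_top_iff_ne_top.2 hc)
  have e : {s | c < u s} = ⋃ n, {s | v n < u s} := by
    ext s
    simp only [Set.mem_ofPred_eq, Set.mem_iUnion]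
    constructor
    · intro hs
      have := hv3.eventually (gt_mem_nhds hs)
      exact this.exists
    · rintro ⟨n, hn⟩
      exact (hv2 n).1.trans hn
  have hm : Monotone fun n => {s | v n < u s} := by
    intro a b hab s hs
    exact lt_of_le_of_lt (hv1.antitone hab) hs
  unfold dd
  rw [e, hm.measure_iUnion]
  exact iSup_le fun n => h _ (hv2 n).1

theorem lt_rearr (u : ℝ → ℝ≥0∞) (c : ℝ≥0∞) (t : ℝ) :
    c < rearr u t ↔ ENNReal.ofReal t < dd u c := by
  unfold rearr
  constructor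
  · intro h
    by_contra h2
    exact absurd h (not_lt.2 (sInf_le (not_lt.1 h2)))
  · intro h
    by_contra h2
    rw [not_lt] at h2
    have hc : c ≠ ∞ := by
      rintro rfl
      have : dd u ∞ = 0 := by
        unfold dd
        have : {s | (∞ : ℝ≥0∞) < u s} = ∅ := by
          ext s
          simp
        rw [this, measure_empty]
      rw [this] at h
      exact absurd h (by simp)
    have := dd_sup u c (ENNReal.ofReal t) hc (by
      intro c' hc'
      obtain ⟨c'', h1, h3⟩ := sInf_lt_iff.1 (lt_of_le_of_lt h2 hc')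
      exact (dd_anti u h3.le).trans h1)
    exact absurd h (not_lt.2 this)

theorem lc_basic (x : ℝ≥0∞) :
    ∫⁻ c in Set.Ioi (0 : ℝ), (if ENNReal.ofReal c < x then (1 : ℝ≥0∞) else 0) = x := by
  have hm : MeasurableSet {c : ℝ | ENNReal.ofReal c < x} :=
    measurableSet_lt ENNReal.measurable_ofReal measurable_const
  have e : (fun c : ℝ => if ENNReal.ofReal c < x then (1 : ℝ≥0∞) else 0) =
      Set.indicator {c : ℝ | ENNReal.ofReal c < x} 1 := by
    ext c
    by_cases h : ENNReal.ofReal c < x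
    · rw [if_pos h, Set.indicator_of_mem (by exact h)]
      rfl
    · rw [if_neg h, Set.indicator_of_notMem (by exact h)]
  rw [e, lintegral_indicator_one hm, Measure.restrict_apply hm]
  rcases eq_or_ne x ∞ with rfl | hx
  · have : {c : ℝ | ENNReal.ofReal c < ∞} ∩ Set.Ioi 0 = Set.Ioi 0 := by
      ext c
      simp
    rw [this, Real.volume_Ioi]
  · have : {c : ℝ | ENNReal.ofReal c < x} ∩ Set.Ioi 0 = Set.Ioo 0 x.toReal := by
      ext c
      simp only [Set.mem_inter_iff, Set.mem_ofPred_eq, Set.mem_Ioi, Set.mem_Ioo]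
      constructor
      · rintro ⟨h1, h2⟩
        refine ⟨h2, ?_⟩
        rwa [ENNReal.ofReal_lt_iff_lt_toReal h2.le hx] at h1
      · rintro ⟨h1, h2⟩
        exact ⟨(ENNReal.ofReal_lt_iff_lt_toReal h1.le hx).2 h2, h1⟩
    rw [this, Real.volume_Ioo, sub_zero, ENNReal.ofReal_toReal hx]

variable {Ψ : ℝ → ℝ}

theorem ext_eq (t : ℝ) (h0 : 0 ≤ t) (h1 : t ≤ 2 * π) : ext Ψ t = Ψ t := by
  unfold ext
  rw [min_eq_left h1, max_eq_right h0]

theorem ext_neg (h : IsWeight Ψ) (t : ℝ) (h0 : t ≤ 0) : ext Ψ t = 0 := by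
  unfold ext
  have hp : (0 : ℝ) < 2 * π := by positivity
  rw [min_eq_left (by linarith), max_eq_left h0, h.zero]

theorem st_apply (h : IsWeight Ψ) (t : ℝ) :
    (ext_mono h).stieltjesFunction t = Function.rightLim (ext Ψ) t :=
  Monotone.stieltjesFunction_eq _ _

theorem left_zero (h : IsWeight Ψ) :
    Function.leftLim (fun t => (ext_mono h).stieltjesFunction t) 0 = 0 := by
  apply leftLim_eq_of_tendsto
  apply tendsto_const_nhds.congr'
  filter_upwards [self_mem_nhdsWithin] with t ht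
  rw [st_apply h]
  apply le_antisymm
  · have := (ext_mono h).le_rightLim (le_refl t)
    rwa [ext_neg h t (le_of_lt ht)] at this
  · have := (ext_mono h).rightLim_le ht
    rwa [ext_neg h 0 le_rfl] at this

theorem left_pos (h : IsWeight Ψ) (M : ℝ) (h0 : 0 < M) (h1 : M ≤ 2 * π) :
    Function.leftLim (fun t => (ext_mono h).stieltjesFunction t) M = Ψ M := by
  apply leftLim_eq_of_tendsto
  have hl : Tendsto (fun t : ℝ => t / M * Ψ M) (𝓝[<] M) (𝓝 (Ψ M)) := by
    have : Tendsto (fun t : ℝ => t / M * Ψ M) (𝓝 M) (𝓝 (M / M * Ψ M)) :=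
      (tendsto_id.div_const M).mul_const _
    rw [div_self h0.ne', one_mul] at this
    exact this.mono_left nhdsWithin_le_nhds
  refine tendsto_of_tendsto_of_tendsto_of_le_of_le' hl tendsto_const_nhds ?_ ?_
  · have hev : ∀ᶠ t in 𝓝[<] M, t ∈ Set.Ioo 0 M := Ioo_mem_nhdsLT h0
    filter_upwards [hev] with t ht
    rw [st_apply h]
    refine le_trans ?_ ((ext_mono h).le_rightLim (le_refl t))
    rw [ext_eq t ht.1.le (ht.2.le.trans h1)]
    have ha : (0 : ℝ) ≤ 1 - t / M := by
      rw [sub_nonneg, div_le_one h0]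
      exact ht.2.le
    have hb : (0 : ℝ) ≤ t / M := div_nonneg ht.1.le h0.le
    have hx : (0 : ℝ) ∈ Set.Icc (0 : ℝ) (2 * π) := ⟨le_rfl, by positivity⟩
    have hy : M ∈ Set.Icc (0 : ℝ) (2 * π) := ⟨h0.le, h1⟩
    have hc := h.conc.2 hx hy ha hb (by ring)
    simp only [smul_eq_mul, mul_zero, zero_add, h.zero] at hc
    rwa [div_mul_cancel₀ _ h0.ne'] at hc
  · filter_upwards [self_mem_nhdsWithin] with t ht
    rw [st_apply h]
    have := (ext_mono h).rightLim_le ht
    rwa [ext_eq M h0.le h1] at this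

theorem dPsi_Ico (h : IsWeight Ψ) (M : ℝ) (h0 : 0 ≤ M) (h1 : M ≤ 2 * π) :
    dPsi h (Set.Ico 0 M) = ENNReal.ofReal (Ψ M) := by
  rcases eq_or_lt_of_le h0 with rfl | h0
  · rw [Set.Ico_self, measure_empty, h.zero, ENNReal.ofReal_zero]
  · unfold dPsi
    rw [StieltjesFunction.measure_Ico]
    have e1 := left_zero h
    have e2 := left_pos h M h0 h1
    rw [show Function.leftLim (↑(ext_mono h).stieltjesFunction) M = Ψ M from e2,
      show Function.leftLim (↑(ext_mono h).stieltjesFunction) 0 = 0 from e1, sub_zero]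

theorem dPsi_set (h : IsWeight Ψ) (m : ℝ≥0∞) (hm : m ≤ ENNReal.ofReal (2 * π)) :
    dPsi h ({t : ℝ | ENNReal.ofReal t < m} ∩ Set.Icc 0 (2 * π)) = ENNReal.ofReal (Ψ m.toReal) := by
  have hm' : m ≠ ∞ := ne_top_of_le_ne_top ENNReal.ofReal_ne_top hm
  have hp : (0 : ℝ) ≤ 2 * π := by positivity
  have h1 : m.toReal ≤ 2 * π := ENNReal.toReal_le_of_le_ofReal hp hm
  rw [← dPsi_Ico h m.toReal ENNReal.toReal_nonneg h1]
  congr 1
  ext t
  simp only [Set.mem_inter_iff, Set.mem_ofPred_eq, Set.mem_Icc, Set.mem_Ico]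
  constructor
  · rintro ⟨h2, h3, h4⟩
    exact ⟨h3, (ENNReal.ofReal_lt_iff_lt_toReal h3 hm').1 h2⟩
  · rintro ⟨h2, h3⟩
    exact ⟨(ENNReal.ofReal_lt_iff_lt_toReal h2 hm').2 h3, h2, (h3.le.trans h1)⟩

theorem sfin (h : IsWeight Ψ) : SFinite (dPsi h) := by
  unfold dPsi
  infer_instance

end LCh

open LCh in
theorem LC_ok : St_LC := by
  intro Ψ h u hu
  have := sfin h
  have hd : Measurable fun c : ℝ => dd u (ENNReal.ofReal c) := by
    apply Antitone.measurable
    intro a b hab
    exact dd_anti u (ENNReal.ofReal_le_ofReal hab)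
  have hset : MeasurableSet {x : ℝ × ℝ | ENNReal.ofReal x.1 < dd u (ENNReal.ofReal x.2)} :=
    measurableSet_lt (ENNReal.measurable_ofReal.comp measurable_fst) (hd.comp measurable_snd)
  have e1 : Nn h u = ∫⁻ t in Set.Icc 0 (2 * π), ∫⁻ c in Set.Ioi (0 : ℝ),
      (if ENNReal.ofReal t < dd u (ENNReal.ofReal c) then (1 : ℝ≥0∞) else 0) ∂volume ∂(dPsi h) := by
    unfold Nn
    apply lintegral_congr
    intro t
    rw [← lc_basic (rearr u t)]
    apply lintegral_congr
    intro c
    by_cases hc : ENNReal.ofReal c < rearr u t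
    · rw [if_pos hc, if_pos ((lt_rearr u _ t).1 hc)]
    · rw [if_neg hc, if_neg (fun h2 => hc ((lt_rearr u _ t).2 h2))]
  rw [e1, lintegral_lintegral_swap]
  · apply setLIntegral_congr_fun measurableSet_Ioi
    intro c _
    have hm : MeasurableSet {t : ℝ | ENNReal.ofReal t < dd u (ENNReal.ofReal c)} :=
      measurableSet_lt ENNReal.measurable_ofReal measurable_const
    have e : (fun t : ℝ => if ENNReal.ofReal t < dd u (ENNReal.ofReal c) then (1 : ℝ≥0∞) else 0) =
        Set.indicator {t : ℝ | ENNReal.ofReal t < dd u (ENNReal.ofReal c)} 1 := by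
      ext t
      by_cases h : ENNReal.ofReal t < dd u (ENNReal.ofReal c)
      · rw [if_pos h, Set.indicator_of_mem (by exact h)]
        rfl
      · rw [if_neg h, Set.indicator_of_notMem (by exact h)]
    show ∫⁻ t in Set.Icc 0 (2 * π), (if ENNReal.ofReal t < dd u (ENNReal.ofReal c) then (1 : ℝ≥0∞) else 0)
      ∂(dPsi h) = _
    rw [e, lintegral_indicator_one hm, Measure.restrict_apply hm, dPsi_set h _ (dd_le u _)]
    rfl
  · apply Measurable.aemeasurable
    exact Measurable.ite hset measurable_const measurable_const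

end Pool.Agent.H582R3.HL
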