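import Pool.Agent.H582R3.HL.Stubs

/-!
# LSC: lower semicontinuity of the norm with respect to `L¹` convergence
-/

set_option autoImplicit false

open MeasureTheory Set Filter Topology
open scoped ENNReal Real

namespace Pool.Agent.H582R3.HL

namespace LSC

theorem two_pi_pos' : (0 : ℝ) < 2 * π := by positivity

theorem mu_univ : mu univ = ENNReal.ofReal (2 * π) := by
  unfold mu
  rw [Measure.restrict_apply_univ, Real.volume_Ico, sub_zero]

theorem mu_le (s : Set ℝ) : mu s ≤ ENNReal.ofReal (2 * π) := by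
  rw [← mu_univ]
  exact measure_mono (subset_univ _)

theorem mu_ne_top (s : Set ℝ) : mu s ≠ ∞ := ((mu_le s).trans_lt ENNReal.ofReal_lt_top).ne

theorem toReal_mem (s : Set ℝ) : (mu s).toReal ∈ Set.Icc (0 : ℝ) (2 * π) :=
  ⟨ENNReal.toReal_nonneg, ENNReal.toReal_le_of_le_ofReal two_pi_pos'.le (mu_le s)⟩

theorem set_eq {c : ℝ} (hc : 0 ≤ c) (x : ℝ → ℂ) :
    {s | ENNReal.ofReal c < ‖x s‖ₑ} = {s | c < ‖x s‖} := by
  ext s
  rw [mem_setOf_eq, mem_setOf_eq, ← ofReal_norm, ENNReal.ofReal_lt_ofReal_iff_of_nonneg hc]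

/-- the scaling inequality -/
theorem scale {Ψ : ℝ → ℝ} (h : IsWeight Ψ) {s m : ℝ} (hs : 0 ≤ s) (hsm : s ≤ m) (hm : 0 < m)
    (hm2 : m ≤ 2 * π) : s / m * Ψ m ≤ Ψ s := by
  have k0 : (0 : ℝ) ∈ Set.Icc (0 : ℝ) (2 * π) := ⟨le_rfl, two_pi_pos'.le⟩
  have k1 : m ∈ Set.Icc (0 : ℝ) (2 * π) := ⟨hm.le, hm2⟩
  have k2 : 0 ≤ 1 - s / m := sub_nonneg.2 ((div_le_one hm).2 hsm)
  have k3 : 0 ≤ s / m := div_nonneg hs hm.le
  have h1 := h.conc.2 k0 k1 k2 k3 (by ring)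
  simp only [smul_eq_mul, mul_zero, zero_add, h.zero] at h1
  rwa [div_mul_cancel₀ _ hm.ne'] at h1

/-- the distribution function is right continuous -/
theorem exists_gap {c : ℝ} (hc : 0 < c) (X : ℝ → ℂ) {a : ℝ≥0∞} (h : a < mu {s | c < ‖X s‖}) :
    ∃ d : ℝ, 0 < d ∧ a < mu {s | c + d < ‖X s‖} := by
  have h1 : {s | c < ‖X s‖} = ⋃ k : ℕ, {s | c + 1 / ((k : ℝ) + 1) < ‖X s‖} := by
    ext s
    simp only [mem_setOf_eq, mem_iUnion]
    constructor
    · intro hs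
      obtain ⟨k, hk⟩ := exists_nat_one_div_lt (sub_pos.2 hs)
      exact ⟨k, by linarith⟩
    · rintro ⟨k, hk⟩
      have : 0 < 1 / ((k : ℝ) + 1) := by positivity
      linarith
  have hmono : Monotone fun k : ℕ => {s | c + 1 / ((k : ℝ) + 1) < ‖X s‖} := by
    intro k l hkl s hs
    simp only [mem_setOf_eq] at hs ⊢
    have : 1 / ((l : ℝ) + 1) ≤ 1 / ((k : ℝ) + 1) := by
      apply one_div_le_one_div_of_le
      · positivity
      · have : (k : ℝ) ≤ l := by exact_mod_cast hkl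
        linarith
    linarith
  rw [h1, hmono.measure_iUnion, lt_iSup_iff] at h
  obtain ⟨k, hk⟩ := h
  exact ⟨1 / ((k : ℝ) + 1), by positivity, hk⟩

theorem incl (c d : ℝ) (x X : ℝ → ℂ) :
    mu {s | c + d < ‖X s‖} ≤ mu {s | c < ‖x s‖} + mu {s | ENNReal.ofReal d ≤ ‖x s - X s‖ₑ} := by
  refine (measure_mono ?_).trans (measure_union_le _ _)
  intro s hs
  simp only [mem_setOf_eq] at hs
  by_cases h1 : c < ‖x s‖
  · exact Or.inl h1
  · right
    change ENNReal.ofReal d ≤ ‖x s - X s‖ₑ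
    rw [← ofReal_norm]
    apply ENNReal.ofReal_le_ofReal
    have h2 : ‖X s‖ ≤ ‖x s‖ + ‖x s - X s‖ := by
      have := norm_sub_le (x s) (x s - X s)
      rwa [sub_sub_cancel] at this
    linarith

theorem ev {x : ℕ → ℝ → ℂ} {X : ℝ → ℂ} (hx : ∀ n, Measurable (x n)) (hX : Measurable X)
    (hlim : Tendsto (fun n => ∫⁻ t, ‖x n t - X t‖ₑ ∂mu) atTop (𝓝 0)) {c : ℝ} (hc : 0 < c)
    {a : ℝ≥0∞} (h : a < mu {s | c < ‖X s‖}) : ∀ᶠ n in atTop, a < mu {s | c < ‖x n s‖} := by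
  obtain ⟨d, hd, h1⟩ := exists_gap hc X h
  have hd' : ENNReal.ofReal d ≠ 0 := (ENNReal.ofReal_pos.2 hd).ne'
  have h2 : Tendsto (fun n => (∫⁻ t, ‖x n t - X t‖ₑ ∂mu) / ENNReal.ofReal d) atTop (𝓝 0) := by
    have := ENNReal.Tendsto.div_const hlim (Or.inr hd') (b := ENNReal.ofReal d)
    rwa [ENNReal.zero_div] at this
  have h3 : 0 < mu {s | c + d < ‖X s‖} - a := tsub_pos_of_lt h1
  filter_upwards [h2.eventually (gt_mem_nhds h3)] with n hn
  by_contra hcon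
  rw [not_lt] at hcon
  have h4 : mu {s | ENNReal.ofReal d ≤ ‖x n s - X s‖ₑ} ≤
      (∫⁻ t, ‖x n t - X t‖ₑ ∂mu) / ENNReal.ofReal d :=
    meas_ge_le_lintegral_div ((hx n).sub hX).enorm.aemeasurable hd' ENNReal.ofReal_ne_top
  have h5 := incl c d (x n) X
  have h6 : a ≠ ∞ := (h1.trans_le le_top).ne
  have h7 : mu {s | c + d < ‖X s‖} < mu {s | c + d < ‖X s‖} := by
    calc mu {s | c + d < ‖X s‖}
        ≤ a + mu {s | ENNReal.ofReal d ≤ ‖x n s - X s‖ₑ} := h5.trans (add_le_add hcon le_rfl)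
      _ < a + (mu {s | c + d < ‖X s‖} - a) := ENNReal.add_lt_add_left h6 (h4.trans_lt hn)
      _ = mu {s | c + d < ‖X s‖} := add_tsub_cancel_of_le h1.le
  exact lt_irrefl _ h7

theorem key {Ψ : ℝ → ℝ} (h : IsWeight Ψ) {x : ℕ → ℝ → ℂ} {X : ℝ → ℂ}
    (hx : ∀ n, Measurable (x n)) (hX : Measurable X)
    (hlim : Tendsto (fun n => ∫⁻ t, ‖x n t - X t‖ₑ ∂mu) atTop (𝓝 0)) {c : ℝ} (hc : 0 < c) :
    ENNReal.ofReal (Ψ (mu {s | ENNReal.ofReal c < ‖X s‖ₑ}).toReal) ≤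
      liminf (fun n => ENNReal.ofReal (Ψ (mu {s | ENNReal.ofReal c < ‖x n s‖ₑ}).toReal))
        atTop := by
  simp only [set_eq hc.le]
  have hm := toReal_mem {s | c < ‖X s‖}
  rcases hm.1.eq_or_lt with h0 | h0
  · rw [← h0, h.zero, ENNReal.ofReal_zero]
    exact bot_le
  · set m := (mu {s | c < ‖X s‖}).toReal with hmdef
    have h1 : ∀ s : ℝ, 0 < s → s < m → ENNReal.ofReal (s / m * Ψ m) ≤
        liminf (fun n => ENNReal.ofReal (Ψ (mu {s | c < ‖x n s‖}).toReal)) atTop := by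
      intro s hs hsm
      apply Filter.le_liminf_of_le (by isBoundedDefault)
      have h2 : ENNReal.ofReal s < mu {s | c < ‖X s‖} := by
        rw [ENNReal.ofReal_lt_iff_lt_toReal hs.le (mu_ne_top _)]
        exact hsm
      filter_upwards [ev hx hX hlim hc h2] with n hn
      apply ENNReal.ofReal_le_ofReal
      refine (scale h hs.le hsm.le h0 hm.2).trans ?_
      refine h.mono ⟨hs.le, hsm.le.trans hm.2⟩ (toReal_mem _) ?_
      exact (ENNReal.ofReal_le_iff_le_toReal (mu_ne_top _)).1 hn.le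
    have h3 : Tendsto (fun s : ℝ => ENNReal.ofReal (s / m * Ψ m)) (𝓝[<] m)
        (𝓝 (ENNReal.ofReal (Ψ m))) := by
      have h4 : Tendsto (fun s : ℝ => s / m * Ψ m) (𝓝 m) (𝓝 (m / m * Ψ m)) := by
        apply Continuous.tendsto
        fun_prop
      rw [div_self h0.ne', one_mul] at h4
      exact (ENNReal.continuous_ofReal.tendsto _).comp (h4.mono_left nhdsWithin_le_nhds)
    refine le_of_tendsto h3 ?_
    have h5 : ∀ᶠ s in 𝓝[<] m, s ∈ Set.Ioo 0 m := Ioo_mem_nhdsLT h0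
    filter_upwards [h5] with s hs
    exact h1 s hs.1 hs.2

theorem meas {Ψ : ℝ → ℝ} (h : IsWeight Ψ) (x : ℝ → ℂ) :
    Measurable fun c : ℝ =>
      ENNReal.ofReal (Ψ (mu {s | ENNReal.ofReal c < ‖x s‖ₑ}).toReal) := by
  apply Antitone.measurable
  intro c d hcd
  apply ENNReal.ofReal_le_ofReal
  refine h.mono (toReal_mem _) (toReal_mem _) ?_
  apply ENNReal.toReal_mono (mu_ne_top _)
  apply measure_mono
  intro s hs
  exact (ENNReal.ofReal_le_ofReal hcd).trans_lt hs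

end LSC

theorem LSC_ok (hLC : St_LC) : St_LSC := by
  intro Ψ h x X hx hX hlim B hB
  have h1 : lnorm h X = ∫⁻ c in Set.Ioi (0 : ℝ),
      ENNReal.ofReal (Ψ (mu {s | ENNReal.ofReal c < ‖X s‖ₑ}).toReal) :=
    hLC Ψ h _ hX.enorm
  have h2 : ∀ n, lnorm h (x n) = ∫⁻ c in Set.Ioi (0 : ℝ),
      ENNReal.ofReal (Ψ (mu {s | ENNReal.ofReal c < ‖x n s‖ₑ}).toReal) :=
    fun n => hLC Ψ h _ (hx n).enorm
  rw [h1]
  calc ∫⁻ c in Set.Ioi (0 : ℝ), ENNReal.ofReal (Ψ (mu {s | ENNReal.ofReal c < ‖X s‖ₑ}).toReal)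
      ≤ ∫⁻ c in Set.Ioi (0 : ℝ), liminf (fun n =>
          ENNReal.ofReal (Ψ (mu {s | ENNReal.ofReal c < ‖x n s‖ₑ}).toReal)) atTop := by
        apply setLIntegral_mono' measurableSet_Ioi
        intro c hc
        exact LSC.key h hx hX hlim hc
    _ ≤ liminf (fun n => ∫⁻ c in Set.Ioi (0 : ℝ),
          ENNReal.ofReal (Ψ (mu {s | ENNReal.ofReal c < ‖x n s‖ₑ}).toReal)) atTop :=
        lintegral_liminf_le fun n => LSC.meas h (x n)
    _ ≤ B := by
        apply Filter.liminf_le_of_frequently_le'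
        exact Filter.Frequently.of_forall fun n => by rw [← h2 n]; exact hB n

end Pool.Agent.H582R3.HL
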