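import Pool.Agent.H582R3.HL.Stubs

set_option autoImplicit false

open MeasureTheory Set Filter Topology
open scoped ENNReal Real

namespace Pool.Agent.H582R3.HL

namespace N1aux

theorem vol_lt (a : ℝ≥0∞) :
    volume.restrict (Set.Ioi (0 : ℝ)) {c : ℝ | ENNReal.ofReal c < a} = a := by
  rw [Measure.restrict_apply (measurableSet_lt ENNReal.measurable_ofReal measurable_const)]
  rcases eq_or_ne a ∞ with h | h
  · subst h
    have : {c : ℝ | ENNReal.ofReal c < ∞} ∩ Set.Ioi 0 = Set.Ioi 0 := by
      ext c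
      simp
    rw [this, Real.volume_Ioi]
  · have : {c : ℝ | ENNReal.ofReal c < a} ∩ Set.Ioi 0 = Set.Ioo 0 a.toReal := by
      ext c
      constructor
      · rintro ⟨h1, h2⟩
        exact ⟨h2, (ENNReal.ofReal_lt_iff_lt_toReal (le_of_lt h2) h).1 h1⟩
      · rintro ⟨h1, h2⟩
        exact ⟨(ENNReal.ofReal_lt_iff_lt_toReal h1.le h).2 h2, h1⟩
    rw [this, Real.volume_Ioo, sub_zero, ENNReal.ofReal_toReal h]

theorem d_pos_iff (u : ℝ → ℝ≥0∞) (c : ℝ) :
    mu {s | ENNReal.ofReal c < u s} ≠ 0 ↔ ENNReal.ofReal c < essSup u mu := by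
  constructor
  · intro h
    by_contra hcon
    push Not at hcon
    apply h
    have h1 : ∀ᵐ s ∂mu, ¬ ENNReal.ofReal c < u s := by
      filter_upwards [ENNReal.ae_le_essSup u (μ := mu)] with s hs
      exact not_lt.2 (hs.trans hcon)
    rw [ae_iff] at h1
    simpa using h1
  · intro h h0
    have h1 : ∀ᵐ s ∂mu, u s ≤ ENNReal.ofReal c := by
      rw [ae_iff]
      simpa using h0
    exact absurd h (not_lt.2 (essSup_le_of_ae_le _ h1))

theorem mu_le (S : Set ℝ) : mu S ≤ ENNReal.ofReal (2 * π) := by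
  calc mu S ≤ mu Set.univ := measure_mono (Set.subset_univ _)
    _ = ENNReal.ofReal (2 * π) := by
      unfold mu
      rw [Measure.restrict_apply_univ, Real.volume_Ico, sub_zero]

theorem d_meas (u : ℝ → ℝ≥0∞) : Measurable fun c : ℝ => mu {s | ENNReal.ofReal c < u s} := by
  refine Antitone.measurable fun c c' hcc => measure_mono fun s hs => ?_
  exact lt_of_le_of_lt (ENNReal.ofReal_le_ofReal hcc) hs

end N1aux

open N1aux in
theorem N1_ok (hLC : St_LC) : St_N1 := by
  intro Ψ h J τ hR u hu
  rw [hLC Ψ h u hu]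
  have key : ∀ c : ℝ, ENNReal.ofReal (Ψ (mu {s | ENNReal.ofReal c < u s}).toReal) =
      ({c : ℝ | ENNReal.ofReal c < essSup u mu}.indicator (fun _ => ENNReal.ofReal J) c) +
        ∫⁻ p in Set.Ioi (0 : ℝ), min (mu {s | ENNReal.ofReal c < u s}) (ENNReal.ofReal (τ p)) := by
    intro c
    by_cases h0 : mu {s | ENNReal.ofReal c < u s} = 0
    · have h1 : ¬ ENNReal.ofReal c < essSup u mu := fun h1 => (d_pos_iff u c).2 h1 h0
      rw [Set.indicator_of_notMem (by exact h1), h0]
      simp [h.zero]
    · have h1 : ENNReal.ofReal c < essSup u mu := (d_pos_iff u c).1 h0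
      rw [Set.indicator_of_mem (by exact h1)]
      have hle := mu_le {s | ENNReal.ofReal c < u s}
      have htop : mu {s | ENNReal.ofReal c < u s} ≠ ∞ := (hle.trans_lt ENNReal.ofReal_lt_top).ne
      have hmem : (mu {s | ENNReal.ofReal c < u s}).toReal ∈ Set.Ioc (0 : ℝ) (2 * π) :=
        ⟨ENNReal.toReal_pos h0 htop, ENNReal.toReal_le_of_le_ofReal (by positivity) hle⟩
      rw [hR.rep _ hmem]
      congr 1
      refine lintegral_congr fun p => ?_
      rw [ENNReal.ofReal_min, ENNReal.ofReal_toReal htop]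
  rw [lintegral_congr key, lintegral_add_left]
  · rw [lintegral_indicator_const
      (measurableSet_lt ENNReal.measurable_ofReal measurable_const), vol_lt]
    congr 1
    rw [lintegral_lintegral_swap]
    · rfl
    · refine Measurable.aemeasurable ?_
      exact ((d_meas u).comp measurable_fst).min
        ((ENNReal.measurable_ofReal.comp hR.meas).comp measurable_snd)
  · exact measurable_const.indicator
      (measurableSet_lt ENNReal.measurable_ofReal measurable_const)

end Pool.Agent.H582R3.HL
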