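import Pool.Agent.H582R3.HL.Stubs

set_option autoImplicit false

open MeasureTheory Set Filter Topology
open scoped ENNReal Real

namespace Pool.Agent.H582R3.HL

namespace NPx

theorem two_pi_pos' : (0 : ℝ) < 2 * π := by positivity

theorem mu_univ : mu Set.univ = ENNReal.ofReal (2 * π) := by
  rw [mu, Measure.restrict_apply_univ, Real.volume_Ico, sub_zero]

instance : IsFiniteMeasure mu := ⟨by rw [mu_univ]; exact ENNReal.ofReal_lt_top⟩

theorem mu_ne_top (A : Set ℝ) : mu A ≠ ⊤ := measure_ne_top mu A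

theorem mu_toReal_mem (A : Set ℝ) : (mu A).toReal ∈ Set.Icc 0 (2 * π) := by
  refine ⟨ENNReal.toReal_nonneg, ?_⟩
  have h : mu A ≤ ENNReal.ofReal (2 * π) := by
    rw [← mu_univ]
    exact measure_mono (subset_univ _)
  have h2 := ENNReal.toReal_mono ENNReal.ofReal_ne_top h
  rwa [ENNReal.toReal_ofReal two_pi_pos'.le] at h2

theorem kf_mono (u : ℝ → ℝ≥0∞) : Monotone (Kf u) := by
  intro s t hst
  unfold Kf
  exact lintegral_mono (fun c => min_le_min le_rfl (ENNReal.ofReal_le_ofReal hst))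

theorem mono_ok (hLC : St_LC) {Ψ : ℝ → ℝ} (h : IsWeight Ψ) (u v : ℝ → ℝ≥0∞) (hu : Measurable u)
    (hv : Measurable v) (huv : ∀ᵐ t ∂mu, u t ≤ v t) : Nn h u ≤ Nn h v := by
  rw [hLC Ψ h u hu, hLC Ψ h v hv]
  refine lintegral_mono (fun c => ?_)
  refine ENNReal.ofReal_le_ofReal ?_
  refine h.mono (mu_toReal_mem _) (mu_toReal_mem _) ?_
  refine ENNReal.toReal_mono (mu_ne_top _) ?_
  refine measure_mono_ae ?_
  filter_upwards [huv] with t ht
  intro (h1 : ENNReal.ofReal c < u t)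
  exact lt_of_lt_of_le h1 ht

theorem kf_add (hK1 : St_K1) (hK2 : St_K2) (u v : ℝ → ℝ≥0∞) (hu : Measurable u)
    (hv : Measurable v) (t : ℝ) (ht : t ∈ Set.Icc (0 : ℝ) (2 * π)) :
    Kf (fun s => u s + v s) t ≤ Kf u t + Kf v t := by
  obtain ⟨A, hA, -, hmu, htop⟩ := hK2 (fun s => u s + v s) (hu.add hv) t ht
  have h1 := (hK1 (fun s => u s + v s) (hu.add hv) A hA t ht hmu).2.1 htop
  rw [← h1, lintegral_add_left hu]
  exact add_le_add (hK1 u hu A hA t ht hmu).1 (hK1 v hv A hA t ht hmu).1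

theorem add_ok (hW : St_WRB) (hN : St_N1) (hK1 : St_K1) (hK2 : St_K2) {Ψ : ℝ → ℝ}
    (h : IsWeight Ψ) (u v : ℝ → ℝ≥0∞) (hu : Measurable u) (hv : Measurable v) :
    Nn h (fun t => u t + v t) ≤ Nn h u + Nn h v := by
  obtain ⟨J, τ, hR⟩ := hW Ψ h
  have hadd : Measurable (fun t => u t + v t) := hu.add hv
  rw [hN Ψ h J τ hR u hu, hN Ψ h J τ hR v hv, hN Ψ h J τ hR (fun t => u t + v t) hadd]
  have h1 : essSup (fun t => u t + v t) mu ≤ essSup u mu + essSup v mu :=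
    ENNReal.essSup_add_le u v
  have hmeas : Measurable (fun p => Kf u (τ p)) := (kf_mono u).measurable.comp hR.meas
  have h2 : ∫⁻ p in Set.Ioi (0 : ℝ), Kf (fun t => u t + v t) (τ p) ≤
      (∫⁻ p in Set.Ioi (0 : ℝ), Kf u (τ p)) + ∫⁻ p in Set.Ioi (0 : ℝ), Kf v (τ p) := by
    rw [← lintegral_add_left hmeas]
    exact lintegral_mono (fun p => kf_add hK1 hK2 u v hu hv (τ p) ⟨(hR.mem p).1, (hR.mem p).2⟩)
  calc ENNReal.ofReal J * essSup (fun t => u t + v t) mu +
        ∫⁻ p in Set.Ioi (0 : ℝ), Kf (fun t => u t + v t) (τ p)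
      ≤ ENNReal.ofReal J * (essSup u mu + essSup v mu) +
        ((∫⁻ p in Set.Ioi (0 : ℝ), Kf u (τ p)) + ∫⁻ p in Set.Ioi (0 : ℝ), Kf v (τ p)) :=
        add_le_add (mul_le_mul_right h1 _) h2
    _ = _ := by
        rw [mul_add]
        abel

theorem rearr_smul (c : ℝ≥0∞) (u : ℝ → ℝ≥0∞) (hc0 : c ≠ 0) (hc : c ≠ ∞) (t : ℝ) :
    rearr (fun s => c * u s) t = c * rearr u t := by
  unfold rearr
  have key : ∀ d : ℝ≥0∞, {s | c * d < c * u s} = {s | d < u s} := by
    intro d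
    ext s
    simp only [mem_ofPred_eq]
    exact ENNReal.mul_lt_mul_iff_right hc0 hc
  apply le_antisymm
  · rw [mul_comm, ← ENNReal.div_le_iff hc0 hc]
    refine le_sInf (fun d hd => ?_)
    rw [ENNReal.div_le_iff hc0 hc]
    refine sInf_le ?_
    simp only [mem_ofPred_eq] at hd ⊢
    rw [mul_comm, key d]
    exact hd
  · refine le_sInf (fun d hd => ?_)
    have hd' : c * (d / c) = d := ENNReal.mul_div_cancel hc0 hc
    rw [← hd']
    refine mul_le_mul_right (sInf_le ?_) _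
    simp only [mem_ofPred_eq] at hd ⊢
    rw [← key, hd']
    exact hd

theorem smul_ok {Ψ : ℝ → ℝ} (h : IsWeight Ψ) (c : ℝ≥0∞) (u : ℝ → ℝ≥0∞) (hc : c ≠ ∞) :
    Nn h (fun t => c * u t) = c * Nn h u := by
  unfold Nn
  by_cases hc0 : c = 0
  · subst hc0
    have h0 : ∀ t, rearr (fun s => 0 * u s) t = 0 := by
      intro t
      unfold rearr
      refine le_antisymm (sInf_le ?_) bot_le
      simp
    rw [zero_mul, lintegral_congr h0, lintegral_zero]
  · rw [← lintegral_const_mul' _ _ hc]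
    refine lintegral_congr (fun t => ?_)
    exact rearr_smul c u hc0 hc t

theorem lin_ge {Ψ : ℝ → ℝ} (h : IsWeight Ψ) (s : ℝ) (hs : s ∈ Set.Icc (0 : ℝ) (2 * π)) :
    Ψ (2 * π) / (2 * π) * s ≤ Ψ s := by
  have hp := two_pi_pos'
  have h1 := h.conc.2 (show (0 : ℝ) ∈ Set.Icc (0 : ℝ) (2 * π) from ⟨le_rfl, hp.le⟩)
    (show 2 * π ∈ Set.Icc (0 : ℝ) (2 * π) from ⟨hp.le, le_rfl⟩)
    (show 0 ≤ 1 - s / (2 * π) by rw [sub_nonneg, div_le_one hp]; exact hs.2)
    (show 0 ≤ s / (2 * π) from div_nonneg hs.1 hp.le)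
    (show 1 - s / (2 * π) + s / (2 * π) = 1 by ring)
  rw [h.zero, smul_zero, zero_add, zero_add] at h1
  simp only [smul_eq_mul] at h1
  rw [div_mul_cancel₀ _ hp.ne'] at h1
  calc Ψ (2 * π) / (2 * π) * s = s / (2 * π) * Ψ (2 * π) := by ring
    _ ≤ Ψ s := h1

theorem cake (u : ℝ → ℝ≥0∞) (hu : Measurable u) :
    ∫⁻ t, u t ∂mu = ∫⁻ c in Set.Ioi (0 : ℝ), mu {s | ENNReal.ofReal c < u s} := by
  have h1 : ∀ t, u t = ∫⁻ c in Set.Ioi (0 : ℝ),
      ({p : ℝ × ℝ | ENNReal.ofReal p.2 < u p.1}.indicator (fun _ => (1 : ℝ≥0∞)) (t, c)) := by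
    intro t
    have h2 : (fun c => {p : ℝ × ℝ | ENNReal.ofReal p.2 < u p.1}.indicator
        (fun _ => (1 : ℝ≥0∞)) (t, c)) =
        {c : ℝ | ENNReal.ofReal c < u t}.indicator (fun _ => (1 : ℝ≥0∞)) := by
      funext c
      rfl
    rw [h2, lintegral_indicator (measurableSet_lt ENNReal.measurable_ofReal measurable_const),
      lintegral_const, one_mul, Measure.restrict_apply_univ,
      Measure.restrict_apply (measurableSet_lt ENNReal.measurable_ofReal measurable_const)]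
    by_cases ht : u t = ∞
    · rw [ht]
      have : {c : ℝ | ENNReal.ofReal c < ⊤} ∩ Ioi 0 = Ioi 0 := by
        ext c
        simp
      rw [this, Real.volume_Ioi]
    · have : {c : ℝ | ENNReal.ofReal c < u t} ∩ Ioi 0 = Ioo 0 (u t).toReal := by
        ext c
        simp only [mem_inter_iff, mem_ofPred_eq, mem_Ioi, mem_Ioo]
        constructor
        · rintro ⟨h3, h4⟩
          exact ⟨h4, (ENNReal.ofReal_lt_iff_lt_toReal h4.le ht).1 h3⟩
        · rintro ⟨h3, h4⟩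
          exact ⟨(ENNReal.ofReal_lt_iff_lt_toReal h3.le ht).2 h4, h3⟩
      rw [this, Real.volume_Ioo, sub_zero, ENNReal.ofReal_toReal ht]
  have hmeas : MeasurableSet {p : ℝ × ℝ | ENNReal.ofReal p.2 < u p.1} :=
    measurableSet_lt (ENNReal.measurable_ofReal.comp measurable_snd) (hu.comp measurable_fst)
  calc ∫⁻ t, u t ∂mu = ∫⁻ t, (∫⁻ c in Set.Ioi (0 : ℝ),
      ({p : ℝ × ℝ | ENNReal.ofReal p.2 < u p.1}.indicator (fun _ => (1 : ℝ≥0∞)) (t, c))) ∂mu :=
        lintegral_congr h1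
    _ = ∫⁻ c in Set.Ioi (0 : ℝ), (∫⁻ t,
      ({p : ℝ × ℝ | ENNReal.ofReal p.2 < u p.1}.indicator (fun _ => (1 : ℝ≥0∞)) (t, c)) ∂mu) := by
        refine lintegral_lintegral_swap ?_
        exact (measurable_const.indicator hmeas).aemeasurable
    _ = _ := by
        refine lintegral_congr (fun c => ?_)
        have h2 : (fun t => {p : ℝ × ℝ | ENNReal.ofReal p.2 < u p.1}.indicator
            (fun _ => (1 : ℝ≥0∞)) (t, c)) =
            {t : ℝ | ENNReal.ofReal c < u t}.indicator (fun _ => (1 : ℝ≥0∞)) := by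
          funext t
          rfl
        rw [h2, lintegral_indicator (measurableSet_lt measurable_const hu), lintegral_const,
          one_mul, Measure.restrict_apply_univ]

theorem low_ok (hLC : St_LC) {Ψ : ℝ → ℝ} (h : IsWeight Ψ) (u : ℝ → ℝ≥0∞) (hu : Measurable u) :
    ENNReal.ofReal (Ψ (2 * π) / (2 * π)) * ∫⁻ t, u t ∂mu ≤ Nn h u := by
  rw [hLC Ψ h u hu, cake u hu, ← lintegral_const_mul' _ _ ENNReal.ofReal_ne_top]
  refine lintegral_mono (fun c => ?_)
  have hp := two_pi_pos'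
  have h0 : 0 ≤ Ψ (2 * π) / (2 * π) := by
    refine div_nonneg ?_ hp.le
    rw [← h.zero]
    exact h.mono ⟨le_rfl, hp.le⟩ ⟨hp.le, le_rfl⟩ hp.le
  have h1 := lin_ge h _ (mu_toReal_mem {s | ENNReal.ofReal c < u s})
  show ENNReal.ofReal (Ψ (2 * π) / (2 * π)) * mu {s | ENNReal.ofReal c < u s} ≤ _
  rw [← ENNReal.ofReal_toReal (mu_ne_top {s | ENNReal.ofReal c < u s}),
    ← ENNReal.ofReal_mul h0, ENNReal.toReal_ofReal ENNReal.toReal_nonneg]
  exact ENNReal.ofReal_le_ofReal h1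

theorem one_ok (hLC : St_LC) {Ψ : ℝ → ℝ} (h : IsWeight Ψ) :
    Nn h (fun _ => 1) = ENNReal.ofReal (Ψ (2 * π)) := by
  rw [hLC Ψ h _ measurable_const]
  have h1 : ∀ c : ℝ, c ∈ Ioi (0 : ℝ) → ENNReal.ofReal (Ψ (mu {_s : ℝ | ENNReal.ofReal c < 1}).toReal) =
      (Iio (1 : ℝ)).indicator (fun _ => ENNReal.ofReal (Ψ (2 * π))) c := by
    intro c hc
    by_cases h2 : c < 1
    · rw [indicator_of_mem (show c ∈ Iio (1 : ℝ) from h2)]
      have : {_s : ℝ | ENNReal.ofReal c < 1} = univ := by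
        refine eq_univ_of_forall (fun s => ?_)
        show ENNReal.ofReal c < 1
        rw [← ENNReal.ofReal_one]
        exact (ENNReal.ofReal_lt_ofReal_iff one_pos).2 h2
      rw [this, mu_univ, ENNReal.toReal_ofReal two_pi_pos'.le]
    · rw [indicator_of_notMem (show c ∉ Iio (1 : ℝ) from h2)]
      have : {_s : ℝ | ENNReal.ofReal c < 1} = ∅ := by
        refine eq_empty_of_forall_notMem (fun s hs => ?_)
        have hs' : ENNReal.ofReal c < 1 := hs
        rw [← ENNReal.ofReal_one] at hs'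
        exact h2 ((ENNReal.ofReal_lt_ofReal_iff one_pos).1 hs')
      rw [this, measure_empty, ENNReal.toReal_zero, h.zero, ENNReal.ofReal_zero]
  rw [setLIntegral_congr_fun measurableSet_Ioi h1, lintegral_indicator measurableSet_Iio,
    lintegral_const, Measure.restrict_apply_univ, Measure.restrict_apply measurableSet_Iio]
  have : Iio (1 : ℝ) ∩ Ioi 0 = Ioo 0 1 := by
    ext x
    simp [and_comm]
  rw [this, Real.volume_Ioo]
  simp

end NPx

theorem NP_ok (hLC : St_LC) (hW : St_WRB) (hN : St_N1) (hK1 : St_K1) (hK2 : St_K2) : St_NP := by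
  intro Ψ h
  exact ⟨NPx.mono_ok hLC h, NPx.add_ok hW hN hK1 hK2 h, fun c u hc _ => NPx.smul_ok h c u hc,
    NPx.low_ok hLC h, NPx.one_ok hLC h⟩

end Pool.Agent.H582R3.HL
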