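import Pool.Agent.H582R3.HL.Stubs

/-!
# PA: `P_r * F → F` in `L¹`
-/

set_option autoImplicit false

open MeasureTheory Set Filter Topology
open scoped ENNReal Real

namespace Pool.Agent.H582R3.HL

theorem PA_den (r x : ℝ) : 1 - 2 * r * Real.cos x + r ^ 2 = (1 - r) ^ 2 + 2 * r * (1 - Real.cos x) := by
  ring

theorem PA_den_pos {r : ℝ} (h0 : 0 ≤ r) (h1 : r < 1) (x : ℝ) :
    0 < 1 - 2 * r * Real.cos x + r ^ 2 := by
  rw [PA_den]
  have h2 : 0 < (1 - r) ^ 2 := by
    have : 0 < 1 - r := by linarith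
    positivity
  have h3 : 0 ≤ 1 - Real.cos x := by linarith [Real.cos_le_one x]
  positivity

theorem PA_P_nonneg {r : ℝ} (h0 : 0 ≤ r) (h1 : r < 1) (x : ℝ) : 0 ≤ P r x := by
  unfold P
  have := PA_den_pos h0 h1 x
  have h2 : 0 ≤ 1 - r ^ 2 := by nlinarith
  positivity

theorem PA_P_cont {r : ℝ} (h0 : 0 ≤ r) (h1 : r < 1) : Continuous (P r) := by
  unfold P
  refine Continuous.div (by fun_prop) (by fun_prop) fun x => (PA_den_pos h0 h1 x).ne'

theorem PA_P_even (r x : ℝ) : P r (-x) = P r x := by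
  unfold P; rw [Real.cos_neg]

theorem PA_ker {r : ℝ} (h0 : 0 ≤ r) (h1 : r < 1) : ∫ t in (0:ℝ)..(2 * π), P r t = 2 * π := by
  have hz : (r : ℂ) ∈ Metric.ball (0 : ℂ) 1 := by
    rw [mem_ball_zero_iff, Complex.norm_real, Real.norm_eq_abs, abs_of_nonneg h0]; exact h1
  have h := DiffContOnCl.circleAverage_poissonKernel_smul' (E := ℂ) (f := fun _ => (1:ℂ)) (c := 0)
    (R := 1) (w := (r : ℂ)) diffContOnCl_const hz
  rw [Real.circleAverage_def] at h
  simp only [sub_zero, circleMap_zero, Complex.ofReal_one, one_mul, Complex.norm_exp_ofReal_mul_I,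
    one_pow] at h
  have e1 : ∀ t : ℝ, ((1 - ‖(r : ℂ)‖ ^ 2) / ‖Complex.exp ((t : ℂ) * Complex.I) - (r : ℂ)‖ ^ 2 : ℝ)
      = P r t := by
    intro t
    unfold P
    congr 1
    · rw [Complex.norm_real, Real.norm_eq_abs, sq_abs]
    · rw [← Complex.normSq_eq_norm_sq, Complex.normSq_apply]
      simp only [Complex.sub_re, Complex.sub_im, Complex.exp_ofReal_mul_I_re,
        Complex.exp_ofReal_mul_I_im, Complex.ofReal_re, Complex.ofReal_im]
      nlinarith [Real.sin_sq_add_cos_sq t]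
  have h2 : (∫ t in (0:ℝ)..(2 * π), ((1 - ‖(r : ℂ)‖ ^ 2) /
        ‖Complex.exp ((t : ℂ) * Complex.I) - (r : ℂ)‖ ^ 2 : ℝ) • (1:ℂ))
      = ((∫ t in (0:ℝ)..(2 * π), P r t : ℝ) : ℂ) := by
    rw [← intervalIntegral.integral_ofReal]
    refine intervalIntegral.integral_congr fun t _ => ?_
    simp only [e1]
    simp
  rw [h2] at h
  have h3 := congrArg Complex.re h
  simp only [Complex.real_smul, ← Complex.ofReal_mul, Complex.ofReal_re, Complex.one_re] at h3
  have : (2 * π) ≠ 0 := by positivity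
  field_simp at h3
  linarith

theorem PA_P_per (r : ℝ) : Function.Periodic (P r) (2 * π) := by
  intro x; unfold P; rw [Real.cos_add_two_pi]

theorem PA_ker_shift {r : ℝ} (h0 : 0 ≤ r) (h1 : r < 1) (s : ℝ) :
    ∫ t in (0:ℝ)..(2 * π), P r (t - s) = 2 * π := by
  rw [intervalIntegral.integral_comp_sub_right (fun t => P r t) s]
  have h := (PA_P_per r).intervalIntegral_add_eq (-s) 0
  rw [zero_sub, show 2 * π - s = -s + 2 * π by ring, h, zero_add]
  exact PA_ker h0 h1

theorem PA_ker_mu {r : ℝ} (h0 : 0 ≤ r) (h1 : r < 1) (s : ℝ) :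
    ∫ t, P r (t - s) ∂mu = 2 * π := by
  rw [← PA_ker_shift h0 h1 s, intervalIntegral.integral_of_le (by positivity)]
  unfold mu
  rw [MeasureTheory.integral_Ico_eq_integral_Ioo, MeasureTheory.integral_Ioc_eq_integral_Ioo]

instance PA_fin : IsFiniteMeasure mu := by
  unfold mu
  infer_instance

theorem PA_int_ker {r : ℝ} (h0 : 0 ≤ r) (h1 : r < 1) (s : ℝ) :
    Integrable (fun t => P r (t - s)) mu := by
  unfold mu
  have hc : Continuous fun t => P r (t - s) := (PA_P_cont h0 h1).comp (by fun_prop)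
  exact (hc.integrableOn_Icc (a := 0) (b := 2 * π)).mono_set Ico_subset_Icc_self

theorem PA_lint_ker {r : ℝ} (h0 : 0 ≤ r) (h1 : r < 1) (s : ℝ) :
    ∫⁻ t, ENNReal.ofReal (P r (t - s)) ∂mu = ENNReal.ofReal (2 * π) := by
  rw [← PA_ker_mu h0 h1 s, ofReal_integral_eq_lintegral_ofReal (PA_int_ker h0 h1 s)]
  exact Filter.Eventually.of_forall fun t => PA_P_nonneg h0 h1 _

theorem PA_ker_mu' {r : ℝ} (h0 : 0 ≤ r) (h1 : r < 1) (t : ℝ) :
    ∫ s, P r (t - s) ∂mu = 2 * π := by
  rw [← PA_ker_mu h0 h1 t]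
  refine integral_congr_ae (Filter.Eventually.of_forall fun s => ?_)
  simp only
  rw [← PA_P_even, neg_sub]

theorem PA_bdd {r : ℝ} (h0 : 0 ≤ r) (h1 : r < 1) : ∃ C : ℝ, ∀ x, ‖P r x‖ ≤ C := by
  refine ⟨(1 - r ^ 2) / (1 - r) ^ 2, fun x => ?_⟩
  rw [Real.norm_eq_abs, abs_of_nonneg (PA_P_nonneg h0 h1 x)]
  unfold P
  have h2 : 0 < (1 - r) ^ 2 := by
    have : 0 < 1 - r := by linarith
    positivity
  have h3 : 0 ≤ 1 - Real.cos x := by linarith [Real.cos_le_one x]
  have h4 : 0 ≤ 1 - r ^ 2 := by nlinarith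
  apply div_le_div_of_nonneg_left h4 h2
  rw [PA_den]
  have : 0 ≤ 2 * r * (1 - Real.cos x) := by positivity
  linarith

theorem PA_int_mul {r : ℝ} (h0 : 0 ≤ r) (h1 : r < 1) {F : ℝ → ℂ} (hF : Integrable F mu) (t : ℝ) :
    Integrable (fun s => (P r (t - s) : ℂ) * F s) mu := by
  obtain ⟨C, hC⟩ := PA_bdd h0 h1
  refine hF.bdd_mul (c := C) ?_ (Filter.Eventually.of_forall fun s => ?_)
  · have hc : Continuous fun s : ℝ => (P r (t - s) : ℂ) :=
      Complex.continuous_ofReal.comp ((PA_P_cont h0 h1).comp (by fun_prop))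
    exact hc.aestronglyMeasurable
  · rw [Complex.norm_real]; exact hC _

theorem PA_sub {r : ℝ} (h0 : 0 ≤ r) (h1 : r < 1) {F G : ℝ → ℂ} (hF : Integrable F mu)
    (hG : Integrable G mu) (t : ℝ) : pois r (fun s => F s - G s) t = pois r F t - pois r G t := by
  unfold pois
  rw [← mul_sub, ← integral_sub (PA_int_mul h0 h1 hF t) (PA_int_mul h0 h1 hG t)]
  congr 1
  refine integral_congr_ae (Filter.Eventually.of_forall fun s => ?_)
  simp only
  ring

theorem PA_contr {r : ℝ} (h0 : 0 ≤ r) (h1 : r < 1) {F : ℝ → ℂ} (hm : AEMeasurable F mu) :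
    ∫⁻ t, ‖pois r F t‖ₑ ∂mu ≤ ∫⁻ t, ‖F t‖ₑ ∂mu := by
  have e1 : ∀ t, ‖pois r F t‖ₑ ≤ ENNReal.ofReal (1 / (2 * π)) *
      ∫⁻ s, ENNReal.ofReal (P r (t - s)) * ‖F s‖ₑ ∂mu := by
    intro t
    unfold pois
    rw [enorm_mul]
    have e2 : ‖((1 / (2 * π) : ℝ) : ℂ)‖ₑ = ENNReal.ofReal (1 / (2 * π)) := by
      rw [← ofReal_norm, Complex.norm_real, Real.norm_eq_abs, abs_of_pos (by positivity)]
    rw [e2]
    refine mul_le_mul_right (le_trans (enorm_integral_le_lintegral_enorm _) ?_) _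
    refine lintegral_mono fun s => ?_
    simp only
    rw [enorm_mul]
    refine mul_le_mul_left ?_ _
    rw [← ofReal_norm, Complex.norm_real, Real.norm_eq_abs,
      abs_of_nonneg (PA_P_nonneg h0 h1 _)]
  calc ∫⁻ t, ‖pois r F t‖ₑ ∂mu
      ≤ ∫⁻ t, ENNReal.ofReal (1 / (2 * π)) *
          ∫⁻ s, ENNReal.ofReal (P r (t - s)) * ‖F s‖ₑ ∂mu ∂mu := lintegral_mono e1
    _ = ENNReal.ofReal (1 / (2 * π)) * ∫⁻ t, ∫⁻ s, ENNReal.ofReal (P r (t - s)) * ‖F s‖ₑ ∂mu ∂mu :=
        lintegral_const_mul' _ _ ENNReal.ofReal_ne_top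
    _ = ENNReal.ofReal (1 / (2 * π)) * ∫⁻ s, ∫⁻ t, ENNReal.ofReal (P r (t - s)) * ‖F s‖ₑ ∂mu ∂mu := by
        have hmeas : AEMeasurable (Function.uncurry fun t s : ℝ =>
            ENNReal.ofReal (P r (t - s)) * ‖F s‖ₑ) (mu.prod mu) := by
          have hc : Continuous fun p : ℝ × ℝ => P r (p.1 - p.2) :=
            (PA_P_cont h0 h1).comp (by fun_prop)
          have h2 : AEMeasurable (fun p : ℝ × ℝ => ‖F p.2‖ₑ) (mu.prod mu) :=
            (hm.comp_snd (μ := mu)).enorm
          exact ((ENNReal.measurable_ofReal.comp hc.measurable).aemeasurable).mul h2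
        rw [lintegral_lintegral_swap hmeas]
    _ = ENNReal.ofReal (1 / (2 * π)) * ∫⁻ s, ENNReal.ofReal (2 * π) * ‖F s‖ₑ ∂mu := by
        congr 1
        refine lintegral_congr fun s => ?_
        rw [lintegral_mul_const' _ _ enorm_ne_top, PA_lint_ker h0 h1]
    _ = ∫⁻ t, ‖F t‖ₑ ∂mu := by
        rw [lintegral_const_mul' _ _ ENNReal.ofReal_ne_top, ← mul_assoc,
          ← ENNReal.ofReal_mul (by positivity)]
        have : 1 / (2 * π) * (2 * π) = 1 := by field_simp
        rw [this, ENNReal.ofReal_one, one_mul]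

theorem PA_cos {δ x : ℝ} (hδ : 0 < δ) (hδ2 : δ ≤ π) (h1 : δ ≤ |x|) (h2 : |x| ≤ 2 * π - δ) :
    Real.cos x ≤ Real.cos δ := by
  rw [← Real.cos_abs x]
  rcases le_total |x| π with h | h
  · exact Real.cos_le_cos_of_nonneg_of_le_pi hδ.le h h1
  · have e : Real.cos |x| = Real.cos (2 * π - |x|) := by rw [Real.cos_two_pi_sub]
    rw [e]
    exact Real.cos_le_cos_of_nonneg_of_le_pi hδ.le (by linarith) (by linarith)

/-- uniform estimate for continuous functions away from the end points -/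
theorem PA_unif (g : ℝ → ℂ) (hg : Continuous g) (M : ℝ) (hM : ∀ t, ‖g t‖ ≤ M) (ε δ : ℝ) (hε : 0 ≤ ε)
    (hδ : 0 < δ) (hδ2 : δ ≤ π) (hu : ∀ s t, |t - s| < δ → ‖g s - g t‖ ≤ ε)
    {r : ℝ} (h0 : 0 < r) (h1 : r < 1) (t : ℝ) (ht0 : δ ≤ t) (ht1 : t ≤ 2 * π - δ) :
    ‖pois r g t - g t‖ ≤ ε + 2 * M * ((1 - r ^ 2) / (2 * r * (1 - Real.cos δ))) := by
  have hM0 : 0 ≤ M := (norm_nonneg _).trans (hM 0)
  have hc1 : 0 < 1 - Real.cos δ := by
    have : Real.cos δ < Real.cos 0 :=
      Real.cos_lt_cos_of_nonneg_of_le_pi le_rfl hδ2 hδ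
    rw [Real.cos_zero] at this
    linarith
  have hr2 : 0 ≤ 1 - r ^ 2 := by nlinarith
  set K : ℝ := (1 - r ^ 2) / (2 * r * (1 - Real.cos δ)) with hK
  have hK0 : 0 ≤ K := by positivity
  have hgi : Integrable g mu := by
    refine Integrable.of_bound hg.aestronglyMeasurable M (Filter.Eventually.of_forall hM)
  have e1 : pois r g t - g t = (1 / (2 * π) : ℝ) * ∫ s, (P r (t - s) : ℂ) * (g s - g t) ∂mu := by
    have e2 : ∫ s, (P r (t - s) : ℂ) * (g s - g t) ∂mu
        = (∫ s, (P r (t - s) : ℂ) * g s ∂mu) - ∫ s, (P r (t - s) : ℂ) * g t ∂mu := by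
      rw [← integral_sub (PA_int_mul h0.le h1 hgi t)
        (PA_int_mul (F := fun _ => g t) h0.le h1 (integrable_const _) t)]
      refine integral_congr_ae (Filter.Eventually.of_forall fun s => ?_)
      simp only
      ring
    have e3 : ∫ s, (P r (t - s) : ℂ) * g t ∂mu = ((2 * π : ℝ) : ℂ) * g t := by
      rw [integral_mul_const, ← PA_ker_mu' h0.le h1 t, ← integral_complex_ofReal]
    rw [e2, e3]
    unfold pois
    rw [mul_sub, ← mul_assoc, ← Complex.ofReal_mul]
    have : 1 / (2 * π) * (2 * π) = 1 := by field_simp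
    rw [this, Complex.ofReal_one, one_mul]
  rw [e1, norm_mul, Complex.norm_real, Real.norm_eq_abs, abs_of_pos (by positivity)]
  have e4 : ‖∫ s, (P r (t - s) : ℂ) * (g s - g t) ∂mu‖ ≤ ∫ s, (ε * P r (t - s) + 2 * M * K) ∂mu := by
    refine norm_integral_le_of_norm_le ?_ ?_
    · refine Integrable.add ?_ (integrable_const _)
      refine Integrable.const_mul ?_ _
      have := PA_int_mul (F := fun _ => (1 : ℂ)) h0.le h1 (integrable_const _) t
      have h2 := this.re
      refine h2.congr (Filter.Eventually.of_forall fun s => ?_)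
      simp
    · have hs : ∀ᵐ s ∂mu, s ∈ Ico (0 : ℝ) (2 * π) := by
        unfold mu
        exact ae_restrict_mem measurableSet_Ico
      filter_upwards [hs] with s hs
      rw [norm_mul, Complex.norm_real, Real.norm_eq_abs, abs_of_nonneg (PA_P_nonneg h0.le h1 _)]
      by_cases hd : |t - s| < δ
      · have h3 := mul_le_mul_of_nonneg_left (hu s t hd) (PA_P_nonneg h0.le h1 (t - s))
        have h4 : 0 ≤ 2 * M * K := by positivity
        linarith
      · have hd' : δ ≤ |t - s| := not_lt.mp hd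
        have hd2 : |t - s| ≤ 2 * π - δ := by
          rw [abs_le]
          constructor
          · have := hs.2; linarith
          · have := hs.1; linarith
        have hcos := PA_cos hδ hδ2 hd' hd2
        have hP : P r (t - s) ≤ K := by
          rw [hK]
          unfold P
          apply div_le_div_of_nonneg_left hr2 (by positivity)
          rw [PA_den]
          have h5 : 2 * r * (1 - Real.cos δ) ≤ 2 * r * (1 - Real.cos (t - s)) := by
            apply mul_le_mul_of_nonneg_left _ (by positivity)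
            linarith
          have h6 : 0 ≤ (1 - r) ^ 2 := sq_nonneg _
          linarith
        have h7 : ‖g s - g t‖ ≤ 2 * M := by
          calc ‖g s - g t‖ ≤ ‖g s‖ + ‖g t‖ := norm_sub_le _ _
            _ ≤ 2 * M := by linarith [hM s, hM t]
        have h8 : P r (t - s) * ‖g s - g t‖ ≤ K * (2 * M) :=
          mul_le_mul hP h7 (norm_nonneg _) hK0
        have h9 : 0 ≤ ε * P r (t - s) := mul_nonneg hε (PA_P_nonneg h0.le h1 _)
        linarith
  have e5 : ∫ s, (ε * P r (t - s) + 2 * M * K) ∂mu = 2 * π * (ε + 2 * M * K) := by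
    have hi : Integrable (fun s => ε * P r (t - s)) mu := by
      refine Integrable.const_mul ?_ _
      have := PA_int_mul (F := fun _ => (1 : ℂ)) h0.le h1 (integrable_const _) t
      have h2 := this.re
      refine h2.congr (Filter.Eventually.of_forall fun s => ?_)
      simp
    rw [integral_add hi (integrable_const _), integral_const_mul, PA_ker_mu' h0.le h1 t,
      integral_const]
    have hmu : mu.real Set.univ = 2 * π := by
      unfold mu Measure.real
      rw [Measure.restrict_apply_univ, Real.volume_Ico, sub_zero, ENNReal.toReal_ofReal (by positivity)]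
    rw [hmu, smul_eq_mul]
    ring
  rw [e5] at e4
  calc 1 / (2 * π) * ‖∫ s, (P r (t - s) : ℂ) * (g s - g t) ∂mu‖
      ≤ 1 / (2 * π) * (2 * π * (ε + 2 * M * K)) := mul_le_mul_of_nonneg_left e4 (by positivity)
    _ = ε + 2 * M * K := by field_simp

theorem PA_K_lim (c : ℝ) (hc : 0 < c) :
    Tendsto (fun r : ℝ => (1 - r ^ 2) / (2 * r * c)) (𝓝[<] 1) (𝓝 0) := by
  have h1 : ContinuousAt (fun r : ℝ => (1 - r ^ 2) / (2 * r * c)) 1 := by
    refine ContinuousAt.div (by fun_prop) (by fun_prop) (by positivity)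
  have h2 := h1.tendsto
  simp only [one_pow, sub_self, zero_div] at h2
  exact h2.mono_left nhdsWithin_le_nhds

theorem PA_norm_pois {r : ℝ} (h0 : 0 ≤ r) (h1 : r < 1) (g : ℝ → ℂ) (M : ℝ)
    (hM : ∀ t, ‖g t‖ ≤ M) (t : ℝ) : ‖pois r g t‖ ≤ M := by
  unfold pois
  rw [norm_mul, Complex.norm_real, Real.norm_eq_abs, abs_of_pos (by positivity)]
  have hi : Integrable (fun s => P r (t - s) * M) mu := by
    refine Integrable.mul_const ?_ _
    have := PA_int_mul (F := fun _ => (1 : ℂ)) h0 h1 (integrable_const _) t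
    have h2 := this.re
    refine h2.congr (Filter.Eventually.of_forall fun s => ?_)
    simp
  have e4 : ‖∫ s, (P r (t - s) : ℂ) * g s ∂mu‖ ≤ ∫ s, P r (t - s) * M ∂mu := by
    refine norm_integral_le_of_norm_le hi (Filter.Eventually.of_forall fun s => ?_)
    rw [norm_mul, Complex.norm_real, Real.norm_eq_abs, abs_of_nonneg (PA_P_nonneg h0 h1 _)]
    exact mul_le_mul_of_nonneg_left (hM s) (PA_P_nonneg h0 h1 _)
  rw [integral_mul_const, PA_ker_mu' h0 h1 t] at e4
  calc 1 / (2 * π) * ‖∫ s, (P r (t - s) : ℂ) * g s ∂mu‖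
      ≤ 1 / (2 * π) * (2 * π * M) := mul_le_mul_of_nonneg_left e4 (by positivity)
    _ = M := by field_simp

theorem PA_mu_univ : mu Set.univ = ENNReal.ofReal (2 * π) := by
  unfold mu
  rw [Measure.restrict_apply_univ, Real.volume_Ico, sub_zero]

theorem PA_mu_compl (δ : ℝ) (hδ : 0 < δ) :
    mu (Icc δ (2 * π - δ))ᶜ ≤ ENNReal.ofReal (2 * δ) := by
  unfold mu
  rw [Measure.restrict_apply measurableSet_Icc.compl]
  have hsub : (Icc δ (2 * π - δ))ᶜ ∩ Ico 0 (2 * π) ⊆ Ico 0 δ ∪ Ioo (2 * π - δ) (2 * π) := by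
    rintro t ⟨h1, h2⟩
    rw [mem_compl_iff, mem_Icc, not_and_or, not_le, not_le] at h1
    rcases h1 with h | h
    · exact Or.inl ⟨h2.1, h⟩
    · exact Or.inr ⟨h, h2.2⟩
  refine (measure_mono hsub).trans ((measure_union_le _ _).trans ?_)
  rw [Real.volume_Ico, Real.volume_Ioo, ← ENNReal.ofReal_add (by linarith) (by linarith)]
  apply ENNReal.ofReal_le_ofReal
  linarith

/-- convergence for continuous functions with compact support -/
theorem PA_cont (g : ℝ → ℂ) (hg : Continuous g) (hs : HasCompactSupport g) (e : ℝ) (he : 0 < e) :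
    ∀ᶠ r in 𝓝[<] (1 : ℝ), ∫⁻ t, ‖pois r g t - g t‖ₑ ∂mu ≤ ENNReal.ofReal e := by
  obtain ⟨M0, hM0⟩ := hg.bounded_above_of_compact_support hs
  obtain ⟨M, hMdef⟩ : ∃ M, M = max M0 1 := ⟨_, rfl⟩
  have hM : ∀ t, ‖g t‖ ≤ M := fun t => (hM0 t).trans (hMdef ▸ le_max_left _ _)
  have hM1 : 1 ≤ M := hMdef ▸ le_max_right _ _
  have hMp : 0 < M := by linarith
  have hp : 0 < π := Real.pi_pos
  have huc : UniformContinuous g := hs.uniformContinuous_of_continuous hg
  obtain ⟨δ0, hδ0, hu⟩ := Metric.uniformContinuous_iff.mp huc (e / (8 * π)) (by positivity)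
  obtain ⟨δ, hδdef⟩ : ∃ δ, δ = min δ0 (min π (e / (8 * M))) := ⟨_, rfl⟩
  have hδ : 0 < δ := by rw [hδdef]; positivity
  have hδ1 : δ ≤ δ0 := hδdef ▸ min_le_left _ _
  have hδ2 : δ ≤ π := hδdef ▸ (min_le_right _ _).trans (min_le_left _ _)
  have hδ3 : δ ≤ e / (8 * M) := hδdef ▸ (min_le_right _ _).trans (min_le_right _ _)
  have hu' : ∀ s t, |t - s| < δ → ‖g s - g t‖ ≤ e / (8 * π) := by
    intro s t hst
    have h1 : dist s t < δ0 := by
      rw [Real.dist_eq, abs_sub_comm]; linarith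
    have h2 := hu h1
    rw [dist_eq_norm] at h2
    exact h2.le
  have hc1 : 0 < 1 - Real.cos δ := by
    have : Real.cos δ < Real.cos 0 := Real.cos_lt_cos_of_nonneg_of_le_pi le_rfl hδ2 hδ
    rw [Real.cos_zero] at this
    linarith
  have hlim := PA_K_lim (1 - Real.cos δ) hc1
  have hev : ∀ᶠ r in 𝓝[<] (1 : ℝ), (1 - r ^ 2) / (2 * r * (1 - Real.cos δ)) < e / (16 * π * M) :=
    hlim.eventually (gt_mem_nhds (by positivity))
  have hev2 : ∀ᶠ r in 𝓝[<] (1 : ℝ), 0 < r :=
    (eventually_gt_nhds zero_lt_one).filter_mono nhdsWithin_le_nhds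
  have hev3 : ∀ᶠ r in 𝓝[<] (1 : ℝ), r < 1 := self_mem_nhdsWithin
  filter_upwards [hev, hev2, hev3] with r hK h0 h1
  set K : ℝ := (1 - r ^ 2) / (2 * r * (1 - Real.cos δ)) with hKdef
  have hK0 : 0 ≤ K := by
    have : 0 ≤ 1 - r ^ 2 := by nlinarith
    positivity
  have hb : ∀ t, ‖pois r g t - g t‖ₑ ≤ ENNReal.ofReal (e / (8 * π) + 2 * M * K) +
      (Icc δ (2 * π - δ))ᶜ.indicator (fun _ => ENNReal.ofReal (2 * M)) t := by
    intro t
    by_cases ht : t ∈ Icc δ (2 * π - δ)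
    · have h2 := PA_unif g hg M hM (e / (8 * π)) δ (by positivity) hδ hδ2 hu' h0 h1 t ht.1 ht.2
      rw [← ofReal_norm]
      exact (ENNReal.ofReal_le_ofReal h2).trans le_self_add
    · have h2 : ‖pois r g t - g t‖ ≤ 2 * M := by
        calc _ ≤ ‖pois r g t‖ + ‖g t‖ := norm_sub_le _ _
          _ ≤ 2 * M := by linarith [PA_norm_pois h0.le h1 g M hM t, hM t]
      rw [indicator_of_mem (show t ∈ (Icc δ (2 * π - δ))ᶜ from ht), ← ofReal_norm]
      exact (ENNReal.ofReal_le_ofReal h2).trans le_add_self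
  calc ∫⁻ t, ‖pois r g t - g t‖ₑ ∂mu
      ≤ ∫⁻ t, (ENNReal.ofReal (e / (8 * π) + 2 * M * K) +
        (Icc δ (2 * π - δ))ᶜ.indicator (fun _ => ENNReal.ofReal (2 * M)) t) ∂mu := lintegral_mono hb
    _ = ENNReal.ofReal (e / (8 * π) + 2 * M * K) * ENNReal.ofReal (2 * π) +
        ENNReal.ofReal (2 * M) * mu (Icc δ (2 * π - δ))ᶜ := by
        rw [lintegral_add_left measurable_const, lintegral_const, PA_mu_univ,
          lintegral_indicator_const measurableSet_Icc.compl]
    _ ≤ ENNReal.ofReal (e / (8 * π) + 2 * M * K) * ENNReal.ofReal (2 * π) +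
        ENNReal.ofReal (2 * M) * ENNReal.ofReal (2 * δ) := by
        gcongr
        exact PA_mu_compl δ hδ
    _ = ENNReal.ofReal ((e / (8 * π) + 2 * M * K) * (2 * π) + 2 * M * (2 * δ)) := by
        rw [← ENNReal.ofReal_mul (by positivity), ← ENNReal.ofReal_mul (by positivity),
          ← ENNReal.ofReal_add (by positivity) (by positivity)]
    _ ≤ ENNReal.ofReal e := by
        apply ENNReal.ofReal_le_ofReal
        have a1 : e / (8 * π) * (2 * π) = e / 4 := by field_simp; ring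
        have a2 : 2 * M * K * (2 * π) ≤ e / 4 := by
          have : 2 * M * K * (2 * π) ≤ 2 * M * (e / (16 * π * M)) * (2 * π) := by gcongr
          have h5 : 2 * M * (e / (16 * π * M)) * (2 * π) = e / 4 := by field_simp; ring
          linarith
        have a3 : 2 * M * (2 * δ) ≤ e / 2 := by
          have : 2 * M * (2 * δ) ≤ 2 * M * (2 * (e / (8 * M))) := by gcongr
          have h5 : 2 * M * (2 * (e / (8 * M))) = e / 2 := by field_simp; ring
          linarith
        rw [add_mul, a1]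
        linarith

theorem PA_ok : St_PA := by
  intro F _ hF
  rw [ENNReal.tendsto_nhds_zero]
  intro ε hε
  obtain ⟨e, he0, he⟩ := ENNReal.lt_iff_exists_nnreal_btwn.mp hε
  have he0' : (0 : ℝ) < e := by exact_mod_cast he0
  have hne : ENNReal.ofReal ((e : ℝ) / 4) ≠ 0 := by
    rw [Ne, ENNReal.ofReal_eq_zero, not_le]; positivity
  obtain ⟨g, hgs, hFg, hgc, hgi⟩ := hF.exists_hasCompactSupport_lintegral_sub_le hne
  have hev2 : ∀ᶠ r in 𝓝[<] (1 : ℝ), 0 < r :=
    (eventually_gt_nhds zero_lt_one).filter_mono nhdsWithin_le_nhds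
  have hev3 : ∀ᶠ r in 𝓝[<] (1 : ℝ), r < 1 := self_mem_nhdsWithin
  filter_upwards [PA_cont g hgc hgs ((e : ℝ) / 4) (by positivity), hev2, hev3] with r hr h0 h1
  have hFgi : Integrable (fun t => F t - g t) mu := hF.sub hgi
  have h3 := PA_contr h0.le h1 hFgi.aemeasurable
  have hpt : ∀ t, ‖pois r F t - F t‖ₑ ≤ ‖pois r (fun s => F s - g s) t‖ₑ + ‖pois r g t - g t‖ₑ
      + ‖F t - g t‖ₑ := by
    intro t
    have e1 : pois r F t - F t = pois r (fun s => F s - g s) t + (pois r g t - g t)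
        - (F t - g t) := by
      rw [PA_sub h0.le h1 hF hgi]; ring
    rw [e1]
    exact (enorm_sub_le).trans (by gcongr; exact enorm_add_le _ _)
  have hm3 : AEMeasurable (fun t => ‖F t - g t‖ₑ) mu := hFgi.aemeasurable.enorm
  have hcP : ∀ G : ℝ → ℂ, Integrable G mu → Continuous (pois r G) := by
    intro G hG
    unfold pois
    refine continuous_const.mul ?_
    obtain ⟨C, hC⟩ := PA_bdd h0.le h1
    refine continuous_of_dominated (bound := fun s => C * ‖G s‖) ?_ ?_ ?_ ?_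
    · intro t; exact (PA_int_mul h0.le h1 hG t).aestronglyMeasurable
    · intro t
      refine Filter.Eventually.of_forall fun s => ?_
      rw [norm_mul, Complex.norm_real]
      exact mul_le_mul_of_nonneg_right (hC _) (norm_nonneg _)
    · exact hG.norm.const_mul _
    · refine Filter.Eventually.of_forall fun s => ?_
      exact (Complex.continuous_ofReal.comp ((PA_P_cont h0.le h1).comp (by fun_prop))).mul
        continuous_const
  have hm1 : Measurable (fun t => ‖pois r (fun s => F s - g s) t‖ₑ) :=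
    (hcP _ hFgi).measurable.enorm
  have hm2 : Measurable (fun t => ‖pois r g t - g t‖ₑ) :=
    ((hcP _ hgi).sub hgc).measurable.enorm
  calc ∫⁻ t, ‖pois r F t - F t‖ₑ ∂mu
      ≤ ∫⁻ t, (‖pois r (fun s => F s - g s) t‖ₑ + ‖pois r g t - g t‖ₑ + ‖F t - g t‖ₑ) ∂mu :=
        lintegral_mono hpt
    _ = (∫⁻ t, ‖pois r (fun s => F s - g s) t‖ₑ ∂mu) + (∫⁻ t, ‖pois r g t - g t‖ₑ ∂mu)
        + ∫⁻ t, ‖F t - g t‖ₑ ∂mu := by
        have hm12 : Measurable (fun t => ‖pois r (fun s => F s - g s) t‖ₑ + ‖pois r g t - g t‖ₑ) :=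
          hm1.add hm2
        rw [lintegral_add_left hm12, lintegral_add_left hm1]
    _ ≤ ENNReal.ofReal ((e : ℝ) / 4) + ENNReal.ofReal ((e : ℝ) / 4) + ENNReal.ofReal ((e : ℝ) / 4) := by
        gcongr
        exact h3.trans hFg
    _ ≤ ε := by
        rw [← ENNReal.ofReal_add (by positivity) (by positivity),
          ← ENNReal.ofReal_add (by positivity) (by positivity)]
        refine le_trans (ENNReal.ofReal_le_ofReal (show _ ≤ (e : ℝ) by linarith)) ?_
        rw [ENNReal.ofReal_coe_nnreal]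
        exact he.le

end Pool.Agent.H582R3.HL
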