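import Pool.Agent.H582R3.HL.Stubs

set_option autoImplicit false

open MeasureTheory Set Filter Topology
open scoped ENNReal Real

namespace Pool.Agent.H582R3.HL

namespace PB

theorem norm_circle {r t : ℝ} (hr : r ∈ Set.Ioo (0 : ℝ) 1) :
    ((r : ℂ) * Complex.exp (t * Complex.I)) ∈ Metric.ball (0 : ℂ) 1 := by
  rw [mem_ball_zero_iff, norm_mul, Complex.norm_exp_ofReal_mul_I, mul_one, Complex.norm_real,
    Real.norm_of_nonneg hr.1.le]
  exact hr.2

theorem continuous_sl {f : ℂ → ℂ} (hf : DifferentiableOn ℂ f (Metric.ball 0 1)) {r : ℝ}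
    (hr : r ∈ Set.Ioo (0 : ℝ) 1) : Continuous (sl f r) := by
  unfold sl
  exact hf.continuousOn.comp_continuous (by fun_prop) fun t => norm_circle hr

theorem integral_mu (g : ℝ → ℂ) : ∫ s, g s ∂mu = ∫ s in (0 : ℝ)..(2 * π), g s := by
  have hp : (0 : ℝ) ≤ 2 * π := by positivity
  rw [intervalIntegral.integral_of_le hp, mu, integral_Ico_eq_integral_Ioo,
    integral_Ioc_eq_integral_Ioo]

instance : IsFiniteMeasure mu := by
  unfold mu
  infer_instance

theorem diffCont {f : ℂ → ℂ} (hf : DifferentiableOn ℂ f (Metric.ball 0 1)) {ρ : ℝ}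
    (hρ : ρ ∈ Set.Ioo (0 : ℝ) 1) :
    DifferentiableOn ℂ (fun z => f (ρ * z)) (Metric.closedBall 0 1) := by
  apply hf.comp (by fun_prop)
  intro z hz
  rw [mem_closedBall_zero_iff] at hz
  rw [mem_ball_zero_iff, norm_mul, Complex.norm_real, Real.norm_of_nonneg hρ.1.le]
  nlinarith [hρ.1, hρ.2, norm_nonneg z]

theorem kernel (r t θ : ℝ) (hr : r ∈ Set.Ioo (0 : ℝ) 1) :
    poissonKernel 0 (r * Complex.exp (t * Complex.I)) (circleMap 0 1 θ) = P r (t - θ) := by
  have h1 : circleMap 0 1 θ = Complex.exp (θ * Complex.I) := by simp [circleMap]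
  rw [poissonKernel_def, h1]
  have h2 : ‖Complex.exp (θ * Complex.I)‖ = 1 := Complex.norm_exp_ofReal_mul_I θ
  have h3 : ‖(r : ℂ) * Complex.exp (t * Complex.I)‖ = r := by
    rw [norm_mul, Complex.norm_exp_ofReal_mul_I, mul_one, Complex.norm_real,
      Real.norm_of_nonneg hr.1.le]
  have h4 : ‖Complex.exp (θ * Complex.I) - r * Complex.exp (t * Complex.I)‖ ^ 2 =
      1 - 2 * r * Real.cos (t - θ) + r ^ 2 := by
    rw [Complex.sq_norm, Complex.normSq_apply]
    have e : ∀ x : ℝ, Complex.exp (x * Complex.I) = (Real.cos x : ℂ) + (Real.sin x : ℂ) * Complex.I := by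
      intro x
      rw [Complex.exp_mul_I, Complex.ofReal_cos, Complex.ofReal_sin]
    rw [e θ, e t]
    simp only [Complex.sub_re, Complex.sub_im, Complex.add_re, Complex.add_im, Complex.mul_re,
      Complex.mul_im, Complex.ofReal_re, Complex.ofReal_im, Complex.I_re, Complex.I_im,
      Real.cos_sub]
    have s1 := Real.sin_sq_add_cos_sq θ
    have s2 := Real.sin_sq_add_cos_sq t
    linear_combination s1 + r ^ 2 * s2
  simp only [sub_zero]
  rw [h2, h3, h4]
  unfold P
  norm_num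

theorem poisson {f : ℂ → ℂ} (hf : DifferentiableOn ℂ f (Metric.ball 0 1)) {ρ r : ℝ}
    (hρ : ρ ∈ Set.Ioo (0 : ℝ) 1) (hr : r ∈ Set.Ioo (0 : ℝ) 1) (t : ℝ) :
    f (ρ * (r * Complex.exp (t * Complex.I))) = pois r (sl f ρ) t := by
  have hd : DiffContOnCl ℂ (fun z => f (ρ * z)) (Metric.ball 0 1) := by
    apply DifferentiableOn.diffContOnCl
    rw [closure_ball _ one_ne_zero]
    exact diffCont hf hρ
  have h1 := hd.circleAverage_poissonKernel_smul (norm_circle (t := t) hr)
  rw [← h1, Real.circleAverage_def, pois, integral_mu]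
  have h2 : ∀ θ : ℝ, (poissonKernel 0 (r * Complex.exp (t * Complex.I)) • fun z : ℂ => f (ρ * z))
      (circleMap 0 1 θ) = (P r (t - θ) : ℂ) * sl f ρ θ := by
    intro θ
    rw [Pi.smul_apply', kernel r t θ hr, Complex.real_smul]
    congr 2
    simp [circleMap]
  simp only [h2]
  rw [Complex.real_smul]
  norm_num

theorem cauchy {f : ℂ → ℂ} (hf : DifferentiableOn ℂ f (Metric.ball 0 1)) {ρ : ℝ}
    (hρ : ρ ∈ Set.Ioo (0 : ℝ) 1) (n : ℕ) (hn : 1 ≤ n) :
    ∫ t, Complex.exp (n * t * Complex.I) * sl f ρ t ∂mu = 0 := by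
  obtain ⟨m, rfl⟩ : ∃ m, n = m + 1 := ⟨n - 1, by omega⟩
  have hd : DifferentiableOn ℂ (fun z => z ^ m * f (ρ * z)) (Metric.closedBall 0 1) :=
    (differentiableOn_id.pow m).mul (diffCont hf hρ)
  have h1 : (∮ z in C(0, 1), z ^ m * f (ρ * z)) = 0 := by
    apply Complex.circleIntegral_eq_zero_of_differentiable_on_off_countable zero_le_one
      countable_empty hd.continuousOn
    intro z hz
    exact (hd.mono Metric.ball_subset_closedBall).differentiableAt (Metric.isOpen_ball.mem_nhds hz.1)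
  rw [circleIntegral] at h1
  have h2 : ∀ θ : ℝ, deriv (circleMap 0 1) θ • ((circleMap 0 1 θ) ^ m * f (ρ * circleMap 0 1 θ)) =
      Complex.I * (Complex.exp (((m + 1 : ℕ) : ℂ) * θ * Complex.I) * sl f ρ θ) := by
    intro θ
    have h3 : circleMap 0 1 θ = Complex.exp (θ * Complex.I) := by simp [circleMap]
    rw [deriv_circleMap, h3, smul_eq_mul, sl]
    have h4 : Complex.exp (((m + 1 : ℕ) : ℂ) * θ * Complex.I) =
        Complex.exp (θ * Complex.I) * Complex.exp (θ * Complex.I) ^ m := by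
      rw [← pow_succ', ← Complex.exp_nat_mul]
      congr 1
      ring
    rw [h4]
    ring
  simp only [h2] at h1
  rw [intervalIntegral.integral_const_mul] at h1
  rw [integral_mu]
  exact (mul_eq_zero.1 h1).resolve_left Complex.I_ne_zero

theorem lim {f : ℂ → ℂ} {F : ℝ → ℂ} (hf : DifferentiableOn ℂ f (Metric.ball 0 1))
    (hF : IsBdry f F) (k : ℝ → ℂ) (hk : Continuous k) (C : ℝ) (hC : ∀ s, ‖k s‖ ≤ C) :
    Tendsto (fun ρ : ℝ => ∫ s, k s * sl f ρ s ∂mu) (𝓝[<] 1) (𝓝 (∫ s, k s * F s ∂mu)) := by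
  obtain ⟨hFm, hFi, hFt⟩ := hF
  have hC0 : 0 ≤ C := le_trans (norm_nonneg _) (hC 0)
  have hev : ∀ᶠ ρ : ℝ in 𝓝[<] 1, ρ ∈ Set.Ioo (0 : ℝ) 1 :=
    Ioo_mem_nhdsLT zero_lt_one
  apply tendsto_integral_of_L1
  · exact (hFi.bdd_mul hk.aestronglyMeasurable (Eventually.of_forall hC)).aestronglyMeasurable
  · filter_upwards [hev] with ρ hρ
    have hc : Continuous fun s => k s * sl f ρ s := hk.mul (continuous_sl hf hρ)
    unfold mu
    exact (hc.integrableOn_Icc (a := 0) (b := 2 * π)).mono_set Ico_subset_Icc_self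
  · have h1 : Tendsto (fun ρ : ℝ => ENNReal.ofReal C * ∫⁻ t, ‖sl f ρ t - F t‖ₑ ∂mu) (𝓝[<] 1)
        (𝓝 0) := by
      have := ENNReal.Tendsto.const_mul hFt (Or.inr (ENNReal.ofReal_ne_top (r := C)))
      rwa [mul_zero] at this
    refine tendsto_of_tendsto_of_tendsto_of_le_of_le tendsto_const_nhds h1
      (fun _ => zero_le) fun ρ => ?_
    rw [← lintegral_const_mul' _ _ ENNReal.ofReal_ne_top]
    apply lintegral_mono
    intro s
    change ‖k s * sl f ρ s - k s * F s‖ₑ ≤ ENNReal.ofReal C * ‖sl f ρ s - F s‖ₑ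
    rw [← mul_sub, enorm_mul]
    gcongr
    rw [← ofReal_norm_eq_enorm]
    exact ENNReal.ofReal_le_ofReal (hC s)

end PB

theorem PB_ok : St_PB := by
  intro f F hf hF
  have hev : ∀ᶠ ρ : ℝ in 𝓝[<] 1, ρ ∈ Set.Ioo (0 : ℝ) 1 := Ioo_mem_nhdsLT zero_lt_one
  constructor
  · intro n hn
    have h1 := PB.lim hf hF (fun t => Complex.exp (n * t * Complex.I)) (by fun_prop) 1 (by
      intro s
      have : (n : ℂ) * s * Complex.I = ((n * s : ℝ) : ℂ) * Complex.I := by push_cast; ring
      rw [this, Complex.norm_exp_ofReal_mul_I])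
    have h2 : Tendsto (fun ρ : ℝ => ∫ s, Complex.exp (n * s * Complex.I) * sl f ρ s ∂mu) (𝓝[<] 1)
        (𝓝 0) := by
      refine tendsto_const_nhds.congr' ?_
      filter_upwards [hev] with ρ hρ
      exact (PB.cauchy hf hρ n hn).symm
    have h3 := tendsto_nhds_unique h1 h2
    simp only [mul_comm (F _)]
    exact h3
  · intro r hr t
    have hden : ∀ x : ℝ, 0 < 1 - 2 * r * Real.cos x + r ^ 2 := by
      intro x
      have h1 := Real.cos_le_one x
      nlinarith [hr.1, hr.2, mul_le_mul_of_nonneg_left h1 (by linarith [hr.1] : 0 ≤ 2 * r),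
        mul_pos (sub_pos.2 hr.2) (sub_pos.2 hr.2)]
    have hden2 : ∀ x : ℝ, (1 - r) ^ 2 ≤ 1 - 2 * r * Real.cos x + r ^ 2 := by
      intro x
      have h1 := Real.cos_le_one x
      nlinarith [hr.1, hr.2, mul_le_mul_of_nonneg_left h1 (by linarith [hr.1] : 0 ≤ 2 * r)]
    have hnum : 0 < 1 - r ^ 2 := by nlinarith [hr.1, hr.2]
    have hkc : Continuous fun s => (P r (t - s) : ℂ) := by
      apply Complex.continuous_ofReal.comp
      unfold P
      apply Continuous.div (by fun_prop) (by fun_prop)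
      intro s
      exact (hden _).ne'
    have hkb : ∀ s, ‖(P r (t - s) : ℂ)‖ ≤ (1 - r ^ 2) / (1 - r) ^ 2 := by
      intro s
      rw [Complex.norm_real, Real.norm_of_nonneg]
      · unfold P
        exact div_le_div_of_nonneg_left hnum.le (pow_pos (sub_pos.2 hr.2) 2) (hden2 _)
      · exact div_nonneg hnum.le (hden _).le
    have h1 := PB.lim hf hF _ hkc _ hkb
    have h2 : Tendsto (fun ρ : ℝ => pois r (sl f ρ) t) (𝓝[<] 1) (𝓝 (pois r F t)) := by
      unfold pois
      exact h1.const_mul _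
    have h3 : Tendsto (fun ρ : ℝ => pois r (sl f ρ) t) (𝓝[<] 1) (𝓝 (sl f r t)) := by
      have hc : ContinuousAt (fun ρ : ℝ => f (ρ * (r * Complex.exp (t * Complex.I)))) 1 := by
        apply ContinuousAt.comp (g := f)
        · rw [Complex.ofReal_one, one_mul]
          exact (hf.differentiableAt (Metric.isOpen_ball.mem_nhds (PB.norm_circle hr))).continuousAt
        · fun_prop
      have h4 : Tendsto (fun ρ : ℝ => f (ρ * (r * Complex.exp (t * Complex.I)))) (𝓝[<] 1)
          (𝓝 (sl f r t)) := by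
        have := hc.tendsto.mono_left (nhdsWithin_le_nhds (s := Set.Iio (1 : ℝ)))
        simpa [sl] using this
      refine h4.congr' ?_
      filter_upwards [hev] with ρ hρ
      exact PB.poisson hf hρ hr t
    exact tendsto_nhds_unique h3 h2

end Pool.Agent.H582R3.HL
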