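import Pool.Agent.H582R3.HL.Stubs

set_option autoImplicit false

open MeasureTheory Set Filter Topology
open scoped ENNReal Real

namespace Pool.Agent.H582R3.HL

namespace PFaux

theorem P_eq (r : ℝ) (hr : r ∈ Set.Ioo (0 : ℝ) 1) (x : ℝ) :
    (P r x : ℂ) = (∑' n : ℕ, ((r : ℂ) * Complex.exp (x * Complex.I)) ^ n) +
      ∑' n : ℕ, ((r : ℂ) * Complex.exp (-(x * Complex.I))) ^ (n + 1) := by
  set u : ℂ := (r : ℂ) * Complex.exp (x * Complex.I) with hu
  set v : ℂ := (r : ℂ) * Complex.exp (-(x * Complex.I)) with hv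
  have hun : ‖u‖ = r := by
    rw [hu, norm_mul, Complex.norm_exp_ofReal_mul_I, mul_one, Complex.norm_real,
      Real.norm_of_nonneg hr.1.le]
  have hvn : ‖v‖ = r := by
    have : -((x : ℂ) * Complex.I) = ((-x : ℝ) : ℂ) * Complex.I := by push_cast; ring
    rw [hv, this, norm_mul, Complex.norm_exp_ofReal_mul_I, mul_one, Complex.norm_real,
      Real.norm_of_nonneg hr.1.le]
  have hu1 : ‖u‖ < 1 := by rw [hun]; exact hr.2
  have hv1 : ‖v‖ < 1 := by rw [hvn]; exact hr.2
  have huv : u * v = (r : ℂ) ^ 2 := by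
    have : Complex.exp (x * Complex.I) * Complex.exp (-(x * Complex.I)) = 1 := by
      rw [← Complex.exp_add]; simp
    calc u * v = (r : ℂ) ^ 2 * (Complex.exp (x * Complex.I) * Complex.exp (-(x * Complex.I))) := by
          rw [hu, hv]; ring
      _ = _ := by rw [this, mul_one]
  have hsum : u + v = 2 * r * Real.cos x := by
    rw [hu, hv, Complex.ofReal_cos, Complex.cos]
    rw [neg_mul]
    ring
  have hne1 : (1 : ℂ) - u ≠ 0 := by
    intro h
    have : u = 1 := (sub_eq_zero.1 h).symm
    rw [this] at hu1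
    simp at hu1
  have hne2 : (1 : ℂ) - v ≠ 0 := by
    intro h
    have : v = 1 := (sub_eq_zero.1 h).symm
    rw [this] at hv1
    simp at hv1
  have hden : (1 : ℂ) - 2 * r * Real.cos x + (r : ℂ) ^ 2 = (1 - u) * (1 - v) := by
    rw [← hsum, ← huv]; ring
  rw [tsum_geometric_of_norm_lt_one hu1]
  have h2 : ∑' n : ℕ, v ^ (n + 1) = v * (1 - v)⁻¹ := by
    simp only [pow_succ']
    rw [tsum_mul_left, tsum_geometric_of_norm_lt_one hv1]
  rw [h2]
  unfold P
  push_cast
  rw [← Complex.ofReal_cos, hden]
  field_simp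
  rw [← huv]
  ring

end PFaux

open PFaux

theorem PF_ok : St_PF := by
  intro F hFm hFi hN
  set c : ℕ → ℂ := fun n => ((1 / (2 * π) : ℝ) : ℂ) *
    ∫ s, F s * Complex.exp (-(n * s * Complex.I)) ∂mu with hc
  have hnormexp : ∀ (n : ℕ) (s : ℝ), ‖Complex.exp (-(n * s * Complex.I))‖ = 1 := by
    intro n s
    have : -((n : ℂ) * s * Complex.I) = ((-(n * s) : ℝ) : ℂ) * Complex.I := by push_cast; ring
    rw [this, Complex.norm_exp_ofReal_mul_I]
  have hcn : ∀ n, ‖c n‖ ≤ ‖((1 / (2 * π) : ℝ) : ℂ)‖ * ∫ s, ‖F s‖ ∂mu := by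
    intro n
    rw [hc]
    simp only
    rw [norm_mul]
    gcongr
    refine (norm_integral_le_integral_norm _).trans (le_of_eq ?_)
    refine integral_congr_ae (Eventually.of_forall fun s => ?_)
    simp only [norm_mul, hnormexp, mul_one]
  set C := ‖((1 / (2 * π) : ℝ) : ℂ)‖ * ∫ s, ‖F s‖ ∂mu with hC
  have hC0 : 0 ≤ C := (norm_nonneg _).trans (hcn 0)
  refine ⟨fun z => ∑' n : ℕ, c n * z ^ n, ?_, ?_⟩
  · intro z hz
    have hz1 : ‖z‖ < 1 := by simpa using hz
    set ρ := (1 + ‖z‖) / 2 with hρ
    have hρ1 : ρ < 1 := by rw [hρ]; linarith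
    have hρ0 : 0 ≤ ρ := by rw [hρ]; positivity
    have hzρ : ‖z‖ < ρ := by rw [hρ]; linarith
    have h1 : DifferentiableOn ℂ (fun w => ∑' n : ℕ, c n * w ^ n) (Metric.ball 0 ρ) := by
      refine Complex.differentiableOn_tsum_of_summable_norm (u := fun n => C * ρ ^ n)
        ((summable_geometric_of_lt_one hρ0 hρ1).mul_left C) (fun n => by fun_prop)
        Metric.isOpen_ball ?_
      intro n w hw
      have hw1 : ‖w‖ < ρ := by simpa using hw
      rw [norm_mul, norm_pow]
      gcongr
      exact hcn n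
    exact (h1.differentiableAt (Metric.isOpen_ball.mem_nhds (by simpa using hzρ))).differentiableWithinAt
  · intro r hr t
    have hFn : ∀ (g : ℝ → ℂ), Continuous g → (∃ K : ℝ, ∀ s, ‖g s‖ ≤ K) →
        Integrable (fun s => g s * F s) mu := by
      intro g hg ⟨K, hK⟩
      exact hFi.bdd_mul hg.aestronglyMeasurable (Eventually.of_forall hK)
    set A : ℕ → ℝ → ℂ := fun n s => ((r : ℂ) * Complex.exp ((t - s : ℝ) * Complex.I)) ^ n * F s
      with hA
    set B : ℕ → ℝ → ℂ := fun n s =>
      ((r : ℂ) * Complex.exp (-((t - s : ℝ) * Complex.I))) ^ (n + 1) * F s with hB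
    have hn1 : ∀ s : ℝ, ‖(r : ℂ) * Complex.exp ((t - s : ℝ) * Complex.I)‖ = r := by
      intro s
      rw [norm_mul, Complex.norm_exp_ofReal_mul_I, mul_one, Complex.norm_real,
        Real.norm_of_nonneg hr.1.le]
    have hn2 : ∀ s : ℝ, ‖(r : ℂ) * Complex.exp (-((t - s : ℝ) * Complex.I))‖ = r := by
      intro s
      have : -(((t - s : ℝ) : ℂ) * Complex.I) = ((-(t - s) : ℝ) : ℂ) * Complex.I := by
        push_cast; ring
      rw [this, norm_mul, Complex.norm_exp_ofReal_mul_I, mul_one, Complex.norm_real,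
        Real.norm_of_nonneg hr.1.le]
    have hAi : ∀ n, Integrable (A n) mu := by
      intro n
      refine hFn _ (by fun_prop) ⟨r ^ n, fun s => ?_⟩
      rw [norm_pow, hn1]
    have hBi : ∀ n, Integrable (B n) mu := by
      intro n
      refine hFn _ (by fun_prop) ⟨r ^ (n + 1), fun s => ?_⟩
      rw [norm_pow, hn2]
    have hAs : Summable fun n => ∫ s, ‖A n s‖ ∂mu := by
      have : (fun n => ∫ s, ‖A n s‖ ∂mu) = fun n => r ^ n * ∫ s, ‖F s‖ ∂mu := by
        funext n
        rw [← integral_const_mul]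
        refine integral_congr_ae (Eventually.of_forall fun s => ?_)
        simp only [hA, norm_mul, norm_pow]
        rw [← norm_mul, hn1]
      rw [this]
      exact (summable_geometric_of_lt_one hr.1.le hr.2).mul_right _
    have hBs : Summable fun n => ∫ s, ‖B n s‖ ∂mu := by
      have : (fun n => ∫ s, ‖B n s‖ ∂mu) = fun n => r ^ n * (r * ∫ s, ‖F s‖ ∂mu) := by
        funext n
        rw [← mul_assoc, ← pow_succ, ← integral_const_mul]
        refine integral_congr_ae (Eventually.of_forall fun s => ?_)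
        simp only [hB, norm_mul, norm_pow]
        rw [← norm_mul, hn2]
      rw [this]
      exact (summable_geometric_of_lt_one hr.1.le hr.2).mul_right _
    have hAh := hasSum_integral_of_summable_integral_norm hAi hAs
    have hBh := hasSum_integral_of_summable_integral_norm hBi hBs
    have hB0 : ∀ n, ∫ s, B n s ∂mu = 0 := by
      intro n
      have h1 := hN (n + 1) (by omega)
      have h2 : ∀ s, B n s = ((r : ℂ) ^ (n + 1) * Complex.exp (-((n + 1 : ℕ) * t * Complex.I))) *
          (F s * Complex.exp (((n + 1 : ℕ) : ℂ) * s * Complex.I)) := by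
        intro s
        simp only [hB]
        rw [mul_pow, ← Complex.exp_nat_mul]
        have : ((n + 1 : ℕ) : ℂ) * -(((t - s : ℝ) : ℂ) * Complex.I) =
            -((n + 1 : ℕ) * t * Complex.I) + ((n + 1 : ℕ) : ℂ) * s * Complex.I := by
          push_cast; ring
        rw [this, Complex.exp_add]
        ring
      simp only [h2]
      rw [integral_const_mul, h1, mul_zero]
    have hA1 : ∀ n, ((1 / (2 * π) : ℝ) : ℂ) * ∫ s, A n s ∂mu =
        c n * ((r : ℂ) * Complex.exp (t * Complex.I)) ^ n := by
      intro n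
      have h2 : ∀ s, A n s = ((r : ℂ) * Complex.exp (t * Complex.I)) ^ n *
          (F s * Complex.exp (-((n : ℂ) * s * Complex.I))) := by
        intro s
        simp only [hA]
        rw [mul_pow, mul_pow, ← Complex.exp_nat_mul, ← Complex.exp_nat_mul]
        have : (n : ℂ) * (((t - s : ℝ) : ℂ) * Complex.I) =
            (n : ℂ) * (t * Complex.I) + -((n : ℂ) * s * Complex.I) := by
          push_cast; ring
        rw [this, Complex.exp_add]
        ring
      simp only [h2]
      rw [integral_const_mul, hc]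
      ring
    have hint : ∫ s, (P r (t - s) : ℂ) * F s ∂mu = (∫ s, (∑' n, A n s) ∂mu) + ∫ s, (∑' n, B n s) ∂mu := by
      have hiA : Integrable (fun s => ∑' n, A n s) mu := by
        have : (fun s => ∑' n, A n s) = fun s =>
            (1 - (r : ℂ) * Complex.exp ((t - s : ℝ) * Complex.I))⁻¹ * F s := by
          funext s
          simp only [hA]
          rw [tsum_mul_right, tsum_geometric_of_norm_lt_one (by rw [hn1]; exact hr.2)]
        rw [this]
        have hne : ∀ s : ℝ, (1 - (r : ℂ) * Complex.exp ((t - s : ℝ) * Complex.I)) ≠ 0 := by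
          intro s h
          have h1 := hn1 s
          rw [← sub_eq_zero.1 h] at h1
          simp at h1
          linarith [hr.2]
        refine hFn _ (Continuous.inv₀ (by fun_prop) hne) ⟨(1 - r)⁻¹, fun s => ?_⟩
        rw [norm_inv]
        have h1 : 1 - r ≤ ‖1 - (r : ℂ) * Complex.exp ((t - s : ℝ) * Complex.I)‖ := by
          have := norm_sub_norm_le (1 : ℂ) ((r : ℂ) * Complex.exp ((t - s : ℝ) * Complex.I))
          rw [hn1, norm_one] at this
          exact this
        gcongr
        linarith [hr.2]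
      have hiB : Integrable (fun s => ∑' n, B n s) mu := by
        have : (fun s => ∑' n, B n s) = fun s =>
            ((r : ℂ) * Complex.exp (-((t - s : ℝ) * Complex.I)) *
              (1 - (r : ℂ) * Complex.exp (-((t - s : ℝ) * Complex.I)))⁻¹) * F s := by
          funext s
          simp only [hB]
          rw [tsum_mul_right]
          simp only [pow_succ']
          rw [tsum_mul_left, tsum_geometric_of_norm_lt_one (by rw [hn2]; exact hr.2)]
        rw [this]
        have hne : ∀ s : ℝ, (1 - (r : ℂ) * Complex.exp (-((t - s : ℝ) * Complex.I))) ≠ 0 := by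
          intro s h
          have h1 := hn2 s
          rw [← sub_eq_zero.1 h] at h1
          simp at h1
          linarith [hr.2]
        refine hFn _ (Continuous.mul (by fun_prop) (Continuous.inv₀ (by fun_prop) hne))
          ⟨r * (1 - r)⁻¹, fun s => ?_⟩
        rw [norm_mul, norm_inv, hn2]
        have h1 : 1 - r ≤ ‖1 - (r : ℂ) * Complex.exp (-((t - s : ℝ) * Complex.I))‖ := by
          have := norm_sub_norm_le (1 : ℂ) ((r : ℂ) * Complex.exp (-((t - s : ℝ) * Complex.I)))
          rw [hn2, norm_one] at this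
          exact this
        have hr0 := hr.1.le
        gcongr
        linarith [hr.2]
      rw [← integral_add hiA hiB]
      refine integral_congr_ae (Eventually.of_forall fun s => ?_)
      simp only [hA, hB]
      rw [P_eq r hr (t - s), tsum_mul_right, tsum_mul_right, add_mul]
    unfold sl pois
    rw [hint, ← hAh.tsum_eq, ← hBh.tsum_eq]
    simp only [hB0, tsum_zero, add_zero]
    rw [← tsum_mul_left]
    refine tsum_congr fun n => ?_
    rw [hA1 n]

end Pool.Agent.H582R3.HL
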