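import Pool.Agent.H582R3.HL.Stubs

/-! Task WRA -/

set_option autoImplicit false

open MeasureTheory Set Filter Topology
open scoped ENNReal Real

namespace Pool.Agent.H582R3.HL

namespace WRA

theorem ext_of_pos {Ψ : ℝ → ℝ} {t : ℝ} (ht : 0 ≤ t) : ext Ψ t = Ψ (min t (2 * π)) := by
  unfold ext
  rw [max_eq_right]
  exact le_min ht (by positivity)

theorem ext_eq {Ψ : ℝ → ℝ} {t : ℝ} (ht : t ∈ Set.Ioc (0 : ℝ) (2 * π)) : ext Ψ t = Ψ t := by
  rw [ext_of_pos ht.1.le, min_eq_left ht.2]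

theorem ext_zero {Ψ : ℝ → ℝ} (h : IsWeight Ψ) : ext Ψ 0 = 0 := by
  rw [ext_of_pos le_rfl, min_eq_left (by positivity), h.zero]

theorem concave {Ψ : ℝ → ℝ} (h : IsWeight Ψ) : ConcaveOn ℝ (Set.Ioi 0) (ext Ψ) := by
  refine ⟨convex_Ioi 0, ?_⟩
  intro x hx y hy a b ha hb hab
  have hx' : (0 : ℝ) < x := hx
  have hy' : (0 : ℝ) < y := hy
  have hp : (0 : ℝ) < 2 * π := by positivity
  simp only [smul_eq_mul]
  have h1 : 0 ≤ a * x + b * y := by positivity
  rw [ext_of_pos hx'.le, ext_of_pos hy'.le, ext_of_pos h1]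
  have mx : min x (2 * π) ∈ Set.Icc 0 (2 * π) := ⟨le_min hx'.le hp.le, min_le_right _ _⟩
  have my : min y (2 * π) ∈ Set.Icc 0 (2 * π) := ⟨le_min hy'.le hp.le, min_le_right _ _⟩
  have h2 := h.conc.2 mx my ha hb hab
  simp only [smul_eq_mul] at h2
  refine h2.trans (h.mono ?_ ?_ ?_)
  · have := h.conc.1 mx my ha hb hab
    simpa only [smul_eq_mul] using this
  · exact ⟨le_min h1 hp.le, min_le_right _ _⟩
  · refine le_min ?_ ?_
    · exact add_le_add (mul_le_mul_of_nonneg_left (min_le_left _ _) ha)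
        (mul_le_mul_of_nonneg_left (min_le_left _ _) hb)
    · have e : 2 * π = a * (2 * π) + b * (2 * π) := by rw [← add_mul, hab, one_mul]
      calc a * min x (2 * π) + b * min y (2 * π) ≤ a * (2 * π) + b * (2 * π) :=
            add_le_add (mul_le_mul_of_nonneg_left (min_le_right _ _) ha)
              (mul_le_mul_of_nonneg_left (min_le_right _ _) hb)
        _ = 2 * π := e.symm

/-- the right derivative -/
noncomputable def psi (Ψ : ℝ → ℝ) (t : ℝ) : ℝ := if t ≤ 0 then 0 else derivWithin (ext Ψ) (Ioi t) t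

theorem psi_der {Ψ : ℝ → ℝ} (h : IsWeight Ψ) {t : ℝ} (ht : 0 < t) :
    HasDerivWithinAt (ext Ψ) (psi Ψ t) (Ioi t) t := by
  have h1 := (concave h).neg.differentiableWithinAt_Ioi_of_mem_interior (x := t)
    (by rw [interior_Ioi]; exact ht)
  have h2 : DifferentiableWithinAt ℝ (ext Ψ) (Ioi t) t := by
    have := h1.neg
    simpa using this
  unfold psi
  rw [if_neg (not_le.mpr ht)]
  exact h2.hasDerivWithinAt

theorem psi_anti {Ψ : ℝ → ℝ} (h : IsWeight Ψ) : AntitoneOn (psi Ψ) (Set.Ioi 0) := by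
  intro s hs t ht hst
  have h1 := (concave h).neg.monotoneOn_rightDeriv
  rw [interior_Ioi] at h1
  have h2 := h1 hs ht hst
  have hd : ∀ x : ℝ, 0 < x → derivWithin (-(ext Ψ)) (Ioi x) x = - psi Ψ x := fun x hx =>
    ((psi_der h hx).neg).derivWithin (uniqueDiffWithinAt_Ioi x)
  simp only at h2
  rw [hd s hs, hd t ht] at h2
  linarith

theorem psi_nonneg {Ψ : ℝ → ℝ} (h : IsWeight Ψ) (t : ℝ) : 0 ≤ psi Ψ t := by
  unfold psi
  split_ifs with h1
  · exact le_rfl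
  · exact ((ext_mono h).monotoneOn _).derivWithin_nonneg

theorem psi_meas (Ψ : ℝ → ℝ) : Measurable (psi Ψ) := by
  unfold psi
  exact Measurable.ite measurableSet_Iic measurable_const (measurable_derivWithin_Ioi _)

theorem psi_zero {Ψ : ℝ → ℝ} (h : IsWeight Ψ) {t : ℝ} (ht : 2 * π ≤ t) : psi Ψ t = 0 := by
  have hp : (0 : ℝ) < 2 * π := by positivity
  have h1 := psi_der h (hp.trans_le ht)
  have h2 : HasDerivWithinAt (ext Ψ) 0 (Ioi t) t := by
    refine (hasDerivWithinAt_const t (Ioi t) (Ψ (2 * π))).congr ?_ ?_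
    · intro x hx
      have hx' : t < x := hx
      rw [ext_of_pos (by linarith), min_eq_right (by linarith)]
    · rw [ext_of_pos (by linarith), min_eq_right ht]
  rw [← h1.derivWithin (uniqueDiffWithinAt_Ioi t), h2.derivWithin (uniqueDiffWithinAt_Ioi t)]

theorem slope_le {Ψ : ℝ → ℝ} (h : IsWeight Ψ) {s t : ℝ} (hs : 0 < s) (hst : s < t) :
    slope (ext Ψ) s t ≤ psi Ψ s :=
  (concave h).slope_le_of_hasDerivWithinAt_Ioi (x := s) (y := t) hs (hs.trans hst) hst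
    (psi_der h hs)

theorem ext_cont {Ψ : ℝ → ℝ} (h : IsWeight Ψ) : ContinuousOn (ext Ψ) (Set.Ioi 0) :=
  (concave h).continuousOn isOpen_Ioi

theorem psi_rc {Ψ : ℝ → ℝ} (h : IsWeight Ψ) {t : ℝ} (ht : 0 < t) :
    ContinuousWithinAt (psi Ψ) (Set.Ici t) t := by
  rw [Metric.continuousWithinAt_iff]
  intro ε hε
  have h1 := (hasDerivWithinAt_iff_tendsto_slope.mp (psi_der h ht))
  simp only [mem_Ioi, lt_self_iff_false, not_false_eq_true, sdiff_singleton_eq_self] at h1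
  -- a point `s > t` with slope > psi t - ε / 2
  have h2 : ∀ᶠ s in 𝓝[>] t, psi Ψ t - ε / 2 < slope (ext Ψ) t s :=
    h1.eventually (lt_mem_nhds (by linarith))
  obtain ⟨s, hs1, hs2⟩ := (h2.and self_mem_nhdsWithin).exists
  have hs2 : t < s := hs2
  -- continuity of x ↦ slope x s at t
  have hE : ContinuousAt (ext Ψ) t := (ext_cont h).continuousAt (Ioi_mem_nhds ht)
  have h3 : ContinuousAt (fun x => slope (ext Ψ) x s) t := by
    simp only [slope_def_field]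
    refine ContinuousAt.div (by fun_prop) (by fun_prop) ?_
    linarith
  have h4 : ∀ᶠ x in 𝓝 t, psi Ψ t - ε / 2 < slope (ext Ψ) x s :=
    h3.eventually (lt_mem_nhds hs1)
  have h5 : ∀ᶠ x in 𝓝 t, x < s := gt_mem_nhds hs2
  obtain ⟨δ, hδ, hb⟩ := Metric.eventually_nhds_iff.mp (h4.and h5)
  refine ⟨δ, hδ, ?_⟩
  intro x hx hxd
  have hx : t ≤ x := hx
  obtain ⟨h6, h7⟩ := hb hxd
  have h8 : slope (ext Ψ) x s ≤ psi Ψ x := slope_le h (ht.trans_le hx) h7
  have h9 : psi Ψ x ≤ psi Ψ t := psi_anti h ht (ht.trans_le hx) hx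
  rw [Real.dist_eq, abs_lt]
  constructor <;> linarith

theorem psi_ii {Ψ : ℝ → ℝ} (h : IsWeight Ψ) {s t : ℝ} (hs : 0 < s) (hst : s ≤ t) :
    IntervalIntegrable (psi Ψ) volume s t := by
  refine ((psi_anti h).mono ?_).intervalIntegrable
  rw [uIcc_of_le hst]
  intro x hx
  exact hs.trans_le hx.1

theorem ftc {Ψ : ℝ → ℝ} (h : IsWeight Ψ) {s t : ℝ} (hs : 0 < s) (hst : s ≤ t) :
    ext Ψ t - ext Ψ s = ∫ x in s..t, psi Ψ x := by
  symm
  refine intervalIntegral.integral_eq_sub_of_hasDeriv_right_of_le hst ?_ ?_ (psi_ii h hs hst)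
  · exact (ext_cont h).mono fun x hx => hs.trans_le hx.1
  · intro x hx
    exact psi_der h (hs.trans hx.1)

theorem ftc' {Ψ : ℝ → ℝ} (h : IsWeight Ψ) {s t : ℝ} (hs : 0 < s) (hst : s ≤ t) :
    ENNReal.ofReal (ext Ψ t) = ENNReal.ofReal (ext Ψ s) +
      ∫⁻ x in Ioo s t, ENNReal.ofReal (psi Ψ x) := by
  have h1 := ftc h hs hst
  have h2 := psi_ii h hs hst
  rw [intervalIntegral.integral_of_le hst] at h1
  rw [intervalIntegrable_iff_integrableOn_Ioc_of_le hst] at h2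
  have h0 : 0 ≤ ext Ψ s := by
    rw [← ext_zero h]; exact ext_mono h hs.le
  have h3 : ENNReal.ofReal (∫ x in Ioc s t, psi Ψ x) = ∫⁻ x in Ioc s t, ENNReal.ofReal (psi Ψ x) :=
    ofReal_integral_eq_lintegral_ofReal h2 (Eventually.of_forall fun x => psi_nonneg h x)
  rw [show ext Ψ t = ext Ψ s + ∫ x in Ioc s t, psi Ψ x by linarith,
    ENNReal.ofReal_add h0 (integral_nonneg fun x => psi_nonneg h x), h3]
  congr 1
  exact (setLIntegral_congr Ioo_ae_eq_Ioc).symm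

/-- the jump at `0` -/
noncomputable def J (Ψ : ℝ → ℝ) : ℝ := sInf (ext Ψ '' Ioi 0)

theorem J_lim {Ψ : ℝ → ℝ} (h : IsWeight Ψ) : Tendsto (ext Ψ) (𝓝[>] 0) (𝓝 (J Ψ)) :=
  (ext_mono h).tendsto_nhdsGT 0

theorem J_nonneg {Ψ : ℝ → ℝ} (h : IsWeight Ψ) : 0 ≤ J Ψ := by
  refine le_csInf ⟨ext Ψ 1, 1, by simp, rfl⟩ ?_
  rintro _ ⟨x, hx, rfl⟩
  rw [← ext_zero h]
  exact ext_mono h (le_of_lt hx)

theorem J_le {Ψ : ℝ → ℝ} (h : IsWeight Ψ) {x : ℝ} (hx : 0 < x) : J Ψ ≤ ext Ψ x := by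
  refine csInf_le ⟨0, ?_⟩ ⟨x, hx, rfl⟩
  rintro _ ⟨x, hx, rfl⟩
  rw [← ext_zero h]
  exact ext_mono h (le_of_lt hx)

theorem J_jump {Ψ : ℝ → ℝ} (h : IsWeight Ψ) : 0 < J Ψ ↔ Jump Ψ := by
  have hp : (0 : ℝ) < 2 * π := by positivity
  constructor
  · intro hJ
    refine ⟨J Ψ, hJ, ?_⟩
    intro t ht
    rw [← ext_eq (Ψ := Ψ) ht]
    exact J_le h ht.1
  · rintro ⟨δ, hδ, hb⟩
    refine hδ.trans_le (le_csInf ⟨ext Ψ 1, 1, by simp, rfl⟩ ?_)
    rintro _ ⟨x, hx, rfl⟩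
    have hx : (0 : ℝ) < x := hx
    rw [ext_of_pos hx.le]
    exact hb _ ⟨lt_min hx hp, min_le_right _ _⟩

theorem formula {Ψ : ℝ → ℝ} (h : IsWeight Ψ) {s : ℝ} (hs : s ∈ Set.Ioc (0 : ℝ) (2 * π)) :
    ENNReal.ofReal (Ψ s)
      = ENNReal.ofReal (J Ψ) + ∫⁻ t in Set.Ioo 0 s, ENNReal.ofReal (psi Ψ t) := by
  rw [← ext_eq (Ψ := Ψ) hs]
  have hs0 : 0 < s := hs.1
  set e : ℕ → ℝ := fun n => s / (n + 1) with he
  have e0 : ∀ n, 0 < e n := fun n => by positivity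
  have es : ∀ n, e n ≤ s := fun n => by
    rw [he]
    exact div_le_self hs0.le (by linarith [(Nat.cast_nonneg n : (0 : ℝ) ≤ n)])
  have et : Tendsto e atTop (𝓝 0) := by
    have := tendsto_one_div_add_atTop_nhds_zero_nat (𝕜 := ℝ)
    have h2 := this.const_mul s
    simp only [mul_one_div, mul_zero] at h2
    exact h2
  have et' : Tendsto e atTop (𝓝[>] 0) :=
    tendsto_nhdsWithin_iff.mpr ⟨et, Eventually.of_forall e0⟩
  have eanti : Antitone e := by
    intro m n hmn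
    rw [he]
    simp only
    have : (m : ℝ) ≤ n := by exact_mod_cast hmn
    gcongr
  have h1 : Tendsto (fun n => ENNReal.ofReal (ext Ψ (e n))) atTop (𝓝 (ENNReal.ofReal (J Ψ))) :=
    (ENNReal.continuous_ofReal.tendsto _).comp ((J_lim h).comp et')
  have hU : (⋃ n, Ioo (e n) s) = Ioo 0 s := by
    ext x
    simp only [mem_iUnion, mem_Ioo]
    constructor
    · rintro ⟨n, h3, h4⟩
      exact ⟨(e0 n).trans h3, h4⟩
    · rintro ⟨h3, h4⟩
      obtain ⟨n, hn⟩ := (et.eventually (gt_mem_nhds h3)).exists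
      exact ⟨n, hn, h4⟩
  have h2 : Tendsto (fun n => ∫⁻ x in Ioo (e n) s, ENNReal.ofReal (psi Ψ x)) atTop
      (𝓝 (∫⁻ x in Ioo 0 s, ENNReal.ofReal (psi Ψ x))) := by
    have hm : Monotone fun n => Ioo (e n) s := fun m n hmn => Ioo_subset_Ioo_left (eanti hmn)
    have h3 : Tendsto (fun n => (volume.withDensity fun x => ENNReal.ofReal (psi Ψ x)) (Ioo (e n) s))
        atTop (𝓝 ((volume.withDensity fun x => ENNReal.ofReal (psi Ψ x)) (⋃ n, Ioo (e n) s))) :=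
      tendsto_measure_iUnion_atTop hm
    rw [hU] at h3
    simpa only [withDensity_apply _ measurableSet_Ioo] using h3
  have h3 : Tendsto (fun n : ℕ => ENNReal.ofReal (ext Ψ s)) atTop
      (𝓝 (ENNReal.ofReal (J Ψ) + ∫⁻ x in Ioo 0 s, ENNReal.ofReal (psi Ψ x))) := by
    refine (h1.add h2).congr fun n => ?_
    exact (ftc' h (e0 n) (es n)).symm
  exact tendsto_nhds_unique tendsto_const_nhds h3

end WRA

theorem WRA_ok : St_WRA := by
  intro Ψ h
  refine ⟨WRA.J Ψ, WRA.psi Ψ, WRA.J_nonneg h, WRA.J_jump h, WRA.psi_anti h, WRA.psi_meas Ψ,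
    WRA.psi_nonneg h, fun t ht => WRA.psi_zero h ht, fun t ht => WRA.psi_rc h ht,
    fun s t hs hst => WRA.ftc h hs hst, fun s hs => WRA.formula h hs⟩

end Pool.Agent.H582R3.HL
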