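import Pool.Agent.H582R3.HL.Stubs

/-!
# Task WRB: representation of the weight
-/

set_option autoImplicit false

open MeasureTheory Set Filter Topology
open scoped ENNReal Real

namespace Pool.Agent.H582R3.HL

namespace WRBx

/-- distribution function of `ψ` -/
noncomputable def F (ψ : ℝ → ℝ) (p : ℝ) : ℝ := (volume ({t | p < ψ t} ∩ Ioo 0 (2 * π))).toReal

/-- `τ` -/
noncomputable def tau (ψ : ℝ → ℝ) (p : ℝ) : ℝ := if 0 < p then F ψ p else 0

lemma fin (ψ : ℝ → ℝ) (p : ℝ) : volume ({t | p < ψ t} ∩ Ioo 0 (2 * π)) ≠ ∞ :=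
  measure_ne_top_of_subset inter_subset_right (by rw [Real.volume_Ioo]; exact ENNReal.ofReal_ne_top)

lemma F_anti (ψ : ℝ → ℝ) : Antitone (F ψ) := by
  intro p q hpq
  refine ENNReal.toReal_mono (fin ψ p) (measure_mono ?_)
  rintro t ⟨h1, h2⟩
  exact ⟨lt_of_le_of_lt hpq h1, h2⟩

lemma tau_meas (ψ : ℝ → ℝ) : Measurable (tau ψ) :=
  Measurable.ite measurableSet_Ioi (F_anti ψ).measurable measurable_const

lemma F_mem (ψ : ℝ → ℝ) (p : ℝ) : 0 ≤ F ψ p ∧ F ψ p ≤ 2 * π := by
  have hp : (0 : ℝ) < 2 * π := by positivity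
  refine ⟨ENNReal.toReal_nonneg, ?_⟩
  have h := measure_mono (μ := volume) (inter_subset_right : {t | p < ψ t} ∩ Ioo 0 (2 * π) ⊆ _)
  rw [Real.volume_Ioo, sub_zero] at h
  exact ENNReal.toReal_le_of_le_ofReal hp.le h

lemma tau_mem (ψ : ℝ → ℝ) (p : ℝ) : 0 ≤ tau ψ p ∧ tau ψ p ≤ 2 * π := by
  unfold tau
  split_ifs
  · exact F_mem ψ p
  · exact ⟨le_rfl, by positivity⟩

section
variable {ψ : ℝ → ℝ} (ha : AntitoneOn ψ (Ioi 0)) (hz : ∀ t, 2 * π ≤ t → ψ t = 0)

include ha in
lemma lt_tau {p t : ℝ} (ht : 0 < t) (h : t < tau ψ p) : p < ψ t := by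
  by_contra hc
  push Not at hc
  unfold tau at h
  split_ifs at h with hp
  · have h1 : {t | p < ψ t} ∩ Ioo 0 (2 * π) ⊆ Ioo 0 t := by
      rintro a ⟨h2, h3, h4⟩
      refine ⟨h3, ?_⟩
      by_contra h5
      push Not at h5
      have h6 : ψ a ≤ ψ t := ha ht h3 h5
      have h7 : p < ψ a := h2
      linarith
    have h2 := measure_mono (μ := volume) h1
    rw [Real.volume_Ioo, sub_zero] at h2
    have h3 : F ψ p ≤ t := ENNReal.toReal_le_of_le_ofReal ht.le h2
    linarith
  · linarith

include ha hz in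
lemma tau_lt {p t : ℝ} (hp : 0 < p) (h : tau ψ p < t) : ψ t ≤ p := by
  have ht : 0 < t := lt_of_le_of_lt (tau_mem ψ p).1 h
  by_contra hc
  push Not at hc
  have ht2 : t < 2 * π := by
    by_contra h1
    push Not at h1
    rw [hz t h1] at hc
    linarith
  unfold tau at h
  rw [if_pos hp] at h
  have h1 : Ioo 0 t ⊆ {t | p < ψ t} ∩ Ioo 0 (2 * π) := by
    rintro a ⟨h2, h3⟩
    refine ⟨lt_of_lt_of_le hc (ha h2 ht h3.le), h2, h3.trans ht2⟩
  have h2 := measure_mono (μ := volume) h1
  rw [Real.volume_Ioo, sub_zero] at h2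
  have h3 : t ≤ F ψ p := by
    rw [← ENNReal.toReal_ofReal ht.le]
    exact ENNReal.toReal_mono (fin ψ p) h2
  linarith

include ha hz in
lemma vol_eq {p s : ℝ} (hp : 0 < p) (hs : 0 < s) :
    volume ({t | p < ψ t} ∩ Ioo 0 s) = ENNReal.ofReal (min s (tau ψ p)) := by
  apply le_antisymm
  · have h1 : {t | p < ψ t} ∩ Ioo 0 s ⊆ Icc 0 (min s (tau ψ p)) := by
      rintro a ⟨h2, h3, h4⟩
      refine ⟨h3.le, le_min h4.le ?_⟩
      by_contra h5
      push Not at h5
      have h6 := tau_lt ha hz hp h5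
      have h7 : p < ψ a := h2
      linarith
    refine (measure_mono h1).trans ?_
    rw [Real.volume_Icc, sub_zero]
  · have h1 : Ioo 0 (min s (tau ψ p)) ⊆ {t | p < ψ t} ∩ Ioo 0 s := by
      rintro a ⟨h2, h3⟩
      exact ⟨lt_tau ha h2 (lt_of_lt_of_le h3 (min_le_right _ _)), h2,
        lt_of_lt_of_le h3 (min_le_left _ _)⟩
    refine le_trans ?_ (measure_mono h1)
    rw [Real.volume_Ioo, sub_zero]

include ha in
lemma int_on {s t : ℝ} (hs : 0 < s) (hst : s ≤ t) : IntervalIntegrable ψ volume s t := by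
  apply AntitoneOn.intervalIntegrable
  refine ha.mono ?_
  rw [uIcc_of_le hst]
  intro x hx
  exact lt_of_lt_of_le hs hx.1

include ha in
lemma int_low {s t : ℝ} (hs : 0 < s) (hst : s ≤ t) : ψ t * (t - s) ≤ ∫ x in s..t, ψ x := by
  have h1 : ∫ x in s..t, (fun _ => ψ t) x = ψ t * (t - s) := by
    rw [intervalIntegral.integral_const, smul_eq_mul]
    ring
  rw [← h1]
  apply intervalIntegral.integral_mono_on hst intervalIntegrable_const (int_on ha hs hst)
  intro x hx
  exact ha (lt_of_lt_of_le hs hx.1) (lt_of_lt_of_le hs hst) hx.2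

include ha in
lemma int_up {s t : ℝ} (hs : 0 < s) (hst : s ≤ t) : ∫ x in s..t, ψ x ≤ ψ s * (t - s) := by
  have h1 : ∫ x in s..t, (fun _ => ψ s) x = ψ s * (t - s) := by
    rw [intervalIntegral.integral_const, smul_eq_mul]
    ring
  rw [← h1]
  apply intervalIntegral.integral_mono_on hst (int_on ha hs hst) intervalIntegrable_const
  intro x hx
  exact ha hs (lt_of_lt_of_le hs hx.1) hx.1

end

end WRBx

open WRBx

theorem WRB_ok (hA : St_WRA) : St_WRB := by
  intro Ψ hΨ
  obtain ⟨J, ψ, hJ0, hJ, ha, hm, hn, hz, -, hd, hr⟩ := hA Ψ hΨ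
  have hpi : (0 : ℝ) < 2 * π := by positivity
  refine ⟨J, tau ψ, hJ0, tau_meas ψ, tau_mem ψ, ?_, hJ, ?_, ?_⟩
  · intro s hs
    rw [hr s hs]
    congr 1
    rw [lintegral_eq_lintegral_meas_lt (μ := volume.restrict (Ioo 0 s)) (f := ψ)
      (Eventually.of_forall hn) hm.aemeasurable]
    refine setLIntegral_congr_fun measurableSet_Ioi fun p hp => ?_
    have hms : MeasurableSet {t | p < ψ t} := measurableSet_lt measurable_const hm
    show (volume.restrict (Ioo 0 s)) {t | p < ψ t} = _
    rw [Measure.restrict_apply hms]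
    exact vol_eq ha hz hp hs.1
  · intro p hp
    rcases eq_or_lt_of_le (tau_mem ψ p).1 with h0 | h0
    · exact Or.inl h0.symm
    · right
      refine ⟨⟨h0, (tau_mem ψ p).2⟩, ?_⟩
      rintro ε hε ⟨a, b, hab⟩
      obtain ⟨t₀, ht₀⟩ : ∃ t₀, t₀ = tau ψ p := ⟨_, rfl⟩
      rw [← ht₀] at h0 hab
      obtain ⟨e, he⟩ : ∃ e, e = min ε t₀ := ⟨_, rfl⟩
      have he0 : 0 < e := by rw [he]; exact lt_min hε h0
      have heε : e ≤ ε := by rw [he]; exact min_le_left _ _
      have het : e ≤ t₀ := by rw [he]; exact min_le_right _ _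
      -- to the left
      have hl : p < b := by
        have s1 : 0 < t₀ - e / 2 := by linarith
        have s2 : t₀ - e / 2 ≤ t₀ - e / 4 := by linarith
        have h1 := int_low ha s1 s2
        rw [← hd _ _ s1 s2, hab _ (by rw [abs_lt]; constructor <;> linarith),
          hab _ (by rw [abs_lt]; constructor <;> linarith)] at h1
        have h2 : p < ψ (t₀ - e / 4) := lt_tau ha (by linarith) (by rw [← ht₀]; linarith)
        have h3 : ψ (t₀ - e / 4) * (e / 4) ≤ b * (e / 4) := by
          have e1 : t₀ - e / 4 - (t₀ - e / 2) = e / 4 := by ring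
          rw [e1] at h1
          linarith
        have h4 := le_of_mul_le_mul_right h3 (by linarith)
        linarith
      have hrr : b ≤ p := by
        have s1 : 0 < t₀ + e / 4 := by linarith
        have s2 : t₀ + e / 4 ≤ t₀ + e / 2 := by linarith
        have h1 := int_up ha s1 s2
        rw [← hd _ _ s1 s2, hab _ (by rw [abs_lt]; constructor <;> linarith),
          hab _ (by rw [abs_lt]; constructor <;> linarith)] at h1
        have h2 : ψ (t₀ + e / 4) ≤ p := tau_lt ha hz hp (by rw [← ht₀]; linarith)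
        have h3 : b * (e / 4) ≤ ψ (t₀ + e / 4) * (e / 4) := by
          have e1 : t₀ + e / 2 - (t₀ + e / 4) = e / 4 := by ring
          rw [e1] at h1
          linarith
        have h4 := le_of_mul_le_mul_right h3 (by linarith)
        linarith
      linarith
  · rintro t ⟨ht, hk⟩ ε hε
    rw [pos_iff_ne_zero]
    intro hv
    obtain ⟨e, he⟩ : ∃ e, e = min ε t := ⟨_, rfl⟩
    have he0 : 0 < e := by rw [he]; exact lt_min hε ht.1
    have heε : e ≤ ε := by rw [he]; exact min_le_left _ _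
    have het : e ≤ t := by rw [he]; exact min_le_right _ _
    have hc : ∀ s₁ s₂, |s₁ - t| < e → |s₂ - t| < e → s₁ < s₂ → ψ s₁ ≤ ψ s₂ := by
      intro s₁ s₂ h1 h2 h12
      rw [abs_lt] at h1 h2
      by_contra hc
      push Not at hc
      have hsub : Ioo (ψ s₂) (ψ s₁) ⊆ {p : ℝ | 0 < p ∧ |tau ψ p - t| < ε} := by
        rintro p ⟨hp1, hp2⟩
        have hp0 : 0 < p := lt_of_le_of_lt (hn s₂) hp1
        refine ⟨hp0, ?_⟩
        have h3 : s₁ ≤ tau ψ p := by
          by_contra h4
          push Not at h4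
          have := tau_lt ha hz hp0 h4
          linarith
        have h4 : tau ψ p ≤ s₂ := by
          by_contra h5
          push Not at h5
          have := lt_tau ha (by linarith) h5
          linarith
        rw [abs_lt]
        constructor <;> linarith
      have h3 := measure_mono (μ := volume) hsub
      rw [hv, Real.volume_Ioo] at h3
      have h4 : ψ s₁ - ψ s₂ ≤ 0 := ENNReal.ofReal_eq_zero.1 (le_antisymm h3 bot_le)
      linarith
    have hc2 : ∀ s, |s - t| < e → ψ s = ψ t := by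
      intro s hs
      have hs0 : 0 < s := by
        rw [abs_lt] at hs
        linarith
      rcases lt_trichotomy s t with h | h | h
      · exact le_antisymm (hc s t hs (by simpa using he0) h) (ha hs0 ht.1 h.le)
      · rw [h]
      · exact le_antisymm (ha ht.1 hs0 h.le) (hc t s (by simpa using he0) hs h)
    apply hk e he0
    refine ⟨ext Ψ t - ψ t * t, ψ t, fun s hs => ?_⟩
    have hs' := abs_lt.1 hs
    have hs0 : 0 < s := by linarith
    rcases le_total s t with h | h
    · have h1 := int_low ha hs0 h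
      have h2 := int_up ha hs0 h
      rw [← hd s t hs0 h] at h1 h2
      rw [hc2 s hs] at h2
      linarith
    · have h1 := int_low ha ht.1 h
      have h2 := int_up ha ht.1 h
      rw [← hd t s ht.1 h] at h1 h2
      rw [hc2 s hs] at h1
      linarith

end Pool.Agent.H582R3.HL
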