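import Pool.Agent.H582R3.HL.T_B1
import Pool.Agent.H582R3.HL.T_B2
import Pool.Agent.H582R3.HL.T_D1
import Pool.Agent.H582R3.HL.T_D1a
import Pool.Agent.H582R3.HL.T_D1b
import Pool.Agent.H582R3.HL.T_D2
import Pool.Agent.H582R3.HL.T_E1
import Pool.Agent.H582R3.HL.T_E1a
import Pool.Agent.H582R3.HL.T_E1b
import Pool.Agent.H582R3.HL.T_E1c
import Pool.Agent.H582R3.HL.T_E2
import Pool.Agent.H582R3.HL.T_FIN
import Pool.Agent.H582R3.HL.T_GE
import Pool.Agent.H582R3.HL.T_K1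
import Pool.Agent.H582R3.HL.T_K2
import Pool.Agent.H582R3.HL.T_K4
import Pool.Agent.H582R3.HL.T_KP
import Pool.Agent.H582R3.HL.T_LC
import Pool.Agent.H582R3.HL.T_LSC
import Pool.Agent.H582R3.HL.T_N1
import Pool.Agent.H582R3.HL.T_NP
import Pool.Agent.H582R3.HL.T_PA
import Pool.Agent.H582R3.HL.T_PB
import Pool.Agent.H582R3.HL.T_PF
import Pool.Agent.H582R3.HL.T_WRA
import Pool.Agent.H582R3.HL.T_WRB

set_option autoImplicit false

namespace Pool.Agent.H582R3.HL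

theorem NP_all : St_NP :=
  NP_ok LC_ok (WRB_ok WRA_ok) (N1_ok LC_ok) K1_ok K2_ok

theorem E1_all : St_E1 := E1_ok (E1b_ok E1a_ok) E1c_ok

theorem E2_all : St_E2 :=
  E2_ok (WRB_ok WRA_ok) (N1_ok LC_ok) PB_ok (KP_ok K1_ok K2_ok) (LSC_ok LC_ok)

theorem B1_all : St_B1 :=
  B1_ok (WRB_ok WRA_ok) (N1_ok LC_ok) NP_all K1_ok K2_ok K4_ok

theorem B2_all : St_B2 :=
  B2_ok (WRB_ok WRA_ok) (N1_ok LC_ok) NP_all K1_ok K2_ok

theorem GE_all : St_GE :=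
  GE_ok NP_all B1_all B2_all E1_all E2_all PA_ok PF_ok PB_ok

theorem final_all : Final :=
  FIN_ok NP_all E2_all (D1_ok D1a_ok D1b_ok) (D2_ok K2_ok) GE_all

end Pool.Agent.H582R3.HL
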