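import Pool.Agent.H582R3.HL.Stubs

set_option autoImplicit false

open MeasureTheory Set Filter Topology
open scoped ENNReal Real

namespace Pool.Agent.H582R3.HL

/-- boundary function of an inner function -/
def Inner (I : ℝ → ℂ) : Prop := Measurable I ∧ (∀ᵐ t ∂mu, ‖I t‖ = 1) ∧ NegZero I

/-- boundary function of an outer function of `H¹`: the polynomial multiples of `O` approximate `1`
in `L¹` -/
def Outer (O : ℝ → ℂ) : Prop :=
  Measurable O ∧ Integrable O mu ∧ NegZero O ∧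
    ∀ ε : ℝ, 0 < ε → ∃ p : Polynomial ℂ,
      ∫⁻ t, ‖p.eval (Complex.exp (t * Complex.I)) * O t - 1‖ₑ ∂mu < ENNReal.ofReal ε

def St_L1 : Prop :=
  ∀ u O : ℝ → ℂ, Measurable u → (∃ C : ℝ, ∀ᵐ t ∂mu, ‖u t‖ ≤ C) → NegZero u → Measurable O →
    Integrable O mu → NegZero O → NegZero (fun t => u t * O t)

def St_L2 : Prop :=
  ∀ u O : ℝ → ℂ, Measurable u → (∃ C : ℝ, ∀ᵐ t ∂mu, ‖u t‖ ≤ C) → Outer O →
    NegZero (fun t => u t * O t) → NegZero u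

def St_L3 : Prop :=
  ∀ φ : ℝ → ℝ, Measurable φ → (∃ C : ℝ, ∀ᵐ t ∂mu, |φ t| ≤ C) → NegZero (fun t => (φ t : ℂ)) →
    ∃ c : ℝ, ∀ᵐ t ∂mu, φ t = c

def St_L4 : Prop := ∀ O : ℝ → ℂ, Outer O → ∀ᵐ t ∂mu, O t ≠ 0

end Pool.Agent.H582R3.HL
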