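import Pool.Agent.H582R3.HL.T_FIN
import Pool.Agent.H582R3.HL.Stubs2

set_option autoImplicit false

open MeasureTheory Set Filter Topology
open scoped ENNReal Real

namespace Pool.Agent.H582R3.HL

/-- the inner-outer form -/
def FinalIO : Prop :=
  ∀ (Ψ : ℝ → ℝ) (h : IsWeight Ψ), 0 < Ψ (2 * π) →
    ∀ f : ℂ → ℂ, DifferentiableOn ℂ f (Metric.ball 0 1) → Hn h f < ∞ →
      ∀ F I O : ℝ → ℂ, IsBdry f F → Inner I → Outer O → (∀ᵐ t ∂mu, F t = I t * O t) →
        (StrictMonoOn Ψ (Set.Icc 0 (2 * π)) → (∃ c : ℂ, ∀ᵐ t ∂mu, I t = c) → Hn h f = 1 →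
          IsExtremePt h f) ∧
        (StrictConcaveOn ℝ (Set.Icc 0 (2 * π)) Ψ →
          (IsExtremePt h f ↔ Hn h f = 1 ∧
            ∀ φ : ℝ → ℝ, Measurable φ → (∃ C : ℝ, ∀ t, |φ t| ≤ C) →
              NegZero (fun t => φ t * I t) →
              (∃ (L : NNReal) (Φ : ℝ → ℝ), LipschitzWith L Φ ∧ Φ 0 = 0 ∧
                ∀ᵐ t ∂mu, φ t * ‖F t‖ = Φ ‖F t‖) →
              ∃ c : ℝ, ∀ᵐ t ∂mu, φ t = c))

theorem kink_end {Ψ : ℝ → ℝ} (hs : StrictMonoOn Ψ (Set.Icc 0 (2 * π))) : Kink Ψ (2 * π) := by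
  have hp : (0 : ℝ) < 2 * π := by positivity
  refine ⟨⟨hp, le_rfl⟩, fun ε hε => ?_⟩
  rintro ⟨a, b, hab⟩
  set δ : ℝ := min (ε / 2) π with hδ
  have hδ0 : 0 < δ := lt_min (by linarith) Real.pi_pos
  have hδ1 : δ ≤ ε / 2 := min_le_left _ _
  have hδ2 : δ ≤ π := min_le_right _ _
  have e1 := hab (2 * π) (by simpa using hε)
  have e2 := hab (2 * π + δ) (by
    rw [show 2 * π + δ - 2 * π = δ by ring, abs_of_pos hδ0]; linarith)
  have e3 := hab (2 * π - δ) (by
    rw [show 2 * π - δ - 2 * π = -δ by ring, abs_neg, abs_of_pos hδ0]; linarith)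
  have f1 : ext Ψ (2 * π) = Ψ (2 * π) := by
    unfold ext; rw [min_self, max_eq_right hp.le]
  have f2 : ext Ψ (2 * π + δ) = Ψ (2 * π) := by
    unfold ext; rw [min_eq_right (by linarith), max_eq_right hp.le]
  have f3 : ext Ψ (2 * π - δ) = Ψ (2 * π - δ) := by
    unfold ext; rw [min_eq_left (by linarith), max_eq_right (by linarith [Real.pi_pos])]
  have hlt : Ψ (2 * π - δ) < Ψ (2 * π) :=
    hs ⟨by linarith [Real.pi_pos], by linarith⟩ ⟨hp.le, le_rfl⟩ (by linarith)
  rw [f1] at e1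
  rw [f2] at e2
  rw [f3] at e3
  have hb : b * δ = 0 := by linarith
  have : b * (2 * π - δ) = b * (2 * π) - b * δ := by ring
  linarith

theorem real_quot {Ψ : ℝ → ℝ} {F G : ℝ → ℂ} (hk : Kink Ψ (2 * π)) (hC : Cond Ψ F G) :
    ∀ᵐ t ∂mu, ∃ φ : ℝ, |φ| ≤ 1 ∧ G t = φ * F t := by
  obtain ⟨A, hA, hAs, hAm, -, -, hr⟩ := hC.1 _ hk
  have hr := hr rfl
  have hfull : mu Aᶜ = 0 := by
    have h1 : mu Set.univ = ENNReal.ofReal (2 * π) := by
      unfold mu
      rw [Measure.restrict_apply_univ, Real.volume_Ico, sub_zero]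
    rw [measure_compl hA (by rw [hAm]; exact ENNReal.ofReal_ne_top), h1, hAm, tsub_self]
  have h2 : ∀ᵐ t ∂mu, t ∈ A := by
    rw [ae_iff]; exact hfull
  filter_upwards [hr, h2] with t ht hta
  exact ht hta

theorem FIN2_ok (hNP' : St_NP) (hE2 : St_E2) (hPB : St_PB) (hGE : St_GE) (hFin : Final)
    (hL1 : St_L1) (hL2 : St_L2) (hL3 : St_L3) (hL4 : St_L4) : FinalIO := by
  intro Ψ h h0 f hf hfin F I O hF hI hO hIO
  have hNP := hNP' Ψ h
  have hO0 := hL4 O hO
  have hF0 : ∀ᵐ t ∂mu, F t ≠ 0 := by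
    filter_upwards [hO0, hIO, hI.2.1] with t h1 h2 h3
    rw [h2]
    refine mul_ne_zero ?_ h1
    intro hh; rw [hh] at h3; simp at h3
  constructor
  · rintro hsm ⟨c0, hc0⟩ hone
    rw [((hGE Ψ h h0 f hf hfin).2 F hF)]
    refine ⟨hone, fun G hGm hGfin hGn hC => ?_⟩
    have hq := real_quot (kink_end hsm) hC
    set φ : ℝ → ℝ := fun t => (G t / F t).re with hφ
    have hφm : Measurable φ := Complex.measurable_re.comp (hGm.div hF.1)
    have hφG : ∀ᵐ t ∂mu, G t = φ t * F t ∧ |φ t| ≤ 1 := by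
      filter_upwards [hq, hF0] with t ⟨x, hx1, hx2⟩ h2
      have : G t / F t = (x : ℂ) := by rw [hx2, mul_div_assoc, div_self h2, mul_one]
      have e : φ t = x := by rw [hφ]; simp only; rw [this]; simp
      rw [e]; exact ⟨hx2, hx1⟩
    have hmu : mu Set.univ ≠ 0 := by
      unfold mu
      rw [Measure.restrict_apply_univ, Real.volume_Ico, sub_zero]
      simp [Real.pi_pos]
    have hc00 : c0 ≠ 0 := by
      intro hc
      have : ∀ᵐ _t ∂mu, False := by
        filter_upwards [hc0, hI.2.1] with t h1 h2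
        rw [h1, hc] at h2; simp at h2
      rw [ae_iff] at this
      simp only [not_false_eq_true, Set.setOf_true] at this
      exact hmu this
    have hnegφO : NegZero (fun t => (φ t : ℂ) * O t) := by
      intro n hn
      have h1 := hGn n hn
      have h2 : ∫ t, G t * Complex.exp (n * t * Complex.I) ∂mu
          = c0 * ∫ t, ((φ t : ℂ) * O t) * Complex.exp (n * t * Complex.I) ∂mu := by
        rw [← integral_const_mul]
        refine integral_congr_ae ?_
        filter_upwards [hφG, hIO, hc0] with t a1 a2 a3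
        rw [a1.1, a2, a3]; ring
      rw [h2] at h1
      exact (mul_eq_zero.1 h1).resolve_left hc00
    have hnegφ := hL2 (fun t => (φ t : ℂ)) O (Complex.measurable_ofReal.comp hφm)
      ⟨1, by filter_upwards [hφG] with t ht; rw [Complex.norm_real]; exact ht.2⟩ hO hnegφO
    obtain ⟨c, hc⟩ := hL3 φ hφm ⟨1, by filter_upwards [hφG] with t ht; exact ht.2⟩ hnegφ
    refine ⟨c, ?_⟩
    filter_upwards [hc, hφG] with t a1 a2
    rw [a2.1, a1]
  · intro hsc
    rw [((hFin Ψ h h0 f hf hfin).2 F hF).2 hsc]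
    refine and_congr_right fun hone => ⟨fun H φ hφm hφb hneg hex => ?_, fun H Φ hL hΦ0 hneg => ?_⟩
    · obtain ⟨L, Φ, hΦL, hΦ0, hΦ⟩ := hex
      obtain ⟨C, hC⟩ := hφb
      have hn1 := hL1 (fun t => (φ t : ℂ) * I t) O
        ((Complex.measurable_ofReal.comp hφm).mul hI.1)
        ⟨C, by
          filter_upwards [hI.2.1] with t ht
          rw [norm_mul, ht, mul_one, Complex.norm_real]; exact hC t⟩ hneg hO.1 hO.2.1 hO.2.2.1
      obtain ⟨c, hc⟩ := H Φ ⟨L, hΦL⟩ hΦ0 (by
        intro n hn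
        rw [← hn1 n hn]
        refine integral_congr_ae ?_
        filter_upwards [hΦ, hIO, hF0] with t a1 a2 a3
        have hn : (‖F t‖ : ℂ) ≠ 0 := by exact_mod_cast (norm_ne_zero_iff.2 a3)
        have e : phs Φ F t = (φ t : ℂ) * I t * O t := by
          unfold phs
          rw [← a1]
          push_cast
          rw [mul_assoc (φ t : ℂ) (I t), ← a2]
          field_simp
        rw [e])
      refine ⟨c, ?_⟩
      filter_upwards [hc, hΦ, hF0] with t a1 a2 a3
      rw [← a2] at a1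
      exact mul_right_cancel₀ (norm_ne_zero_iff.2 a3) a1
    · obtain ⟨L, hL⟩ := hL
      set φ : ℝ → ℝ := fun t => Φ ‖F t‖ / ‖F t‖ with hφ
      have hφm : Measurable φ := (hL.continuous.measurable.comp hF.1.norm).div hF.1.norm
      have hφb : ∀ t, |φ t| ≤ L := by
        intro t
        have h1 : |Φ ‖F t‖| ≤ L * ‖F t‖ := by
          have := hL.dist_le_mul ‖F t‖ 0
          simpa [hΦ0, Real.dist_eq] using this
        rw [hφ]
        simp only
        rw [abs_div, abs_norm]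
        by_cases hz : ‖F t‖ = 0
        · rw [hz]; simp
        · exact (div_le_iff₀ (lt_of_le_of_ne (norm_nonneg _) (Ne.symm hz))).2 h1
      have hn1 : NegZero (fun t => ((φ t : ℂ) * I t) * O t) := by
        intro n hn
        rw [← hneg n hn]
        refine integral_congr_ae ?_
        filter_upwards [hIO, hF0] with t a2 a3
        have e : phs Φ F t = (φ t : ℂ) * I t * O t := by
          unfold phs
          rw [mul_assoc (φ t : ℂ) (I t), ← a2, hφ]
          push_cast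
          ring
        rw [e]
      have hn2 := hL2 (fun t => (φ t : ℂ) * I t) O
        ((Complex.measurable_ofReal.comp hφm).mul hI.1)
        ⟨L, by
          filter_upwards [hI.2.1] with t ht
          rw [norm_mul, ht, mul_one, Complex.norm_real]; exact hφb t⟩ hO hn1
      obtain ⟨c, hc⟩ := H φ hφm ⟨L, hφb⟩ hn2 ⟨L, Φ, hL, hΦ0, by
        filter_upwards [hF0] with t a3
        rw [hφ]
        exact div_mul_cancel₀ _ (norm_ne_zero_iff.2 a3)⟩
      refine ⟨c, ?_⟩
      filter_upwards [hc, hF0] with t a1 a3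
      rw [← a1, hφ]
      exact (div_mul_cancel₀ _ (norm_ne_zero_iff.2 a3)).symm

end Pool.Agent.H582R3.HL
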