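import Pool.Agent.H582R3.HL.Stubs2

set_option autoImplicit false

open MeasureTheory Set Filter Topology
open scoped ENNReal Real

namespace Pool.Agent.H582R3.HL

namespace L1aux

theorem circ {r t : ℝ} (hr : r ∈ Set.Ioo (0 : ℝ) 1) :
    ‖(r : ℂ) * Complex.exp (t * Complex.I)‖ = r := by
  rw [norm_mul, Complex.norm_exp_ofReal_mul_I, mul_one, Complex.norm_real,
    Real.norm_of_nonneg hr.1.le]

theorem circ_mem {r t : ℝ} (hr : r ∈ Set.Ioo (0 : ℝ) 1) :
    ((r : ℂ) * Complex.exp (t * Complex.I)) ∈ Metric.ball (0 : ℂ) 1 := by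
  rw [mem_ball_zero_iff, circ hr]
  exact hr.2

theorem continuous_sl {f : ℂ → ℂ} (hf : DifferentiableOn ℂ f (Metric.ball 0 1)) {r : ℝ}
    (hr : r ∈ Set.Ioo (0 : ℝ) 1) : Continuous (sl f r) := by
  unfold sl
  exact hf.continuousOn.comp_continuous (by fun_prop) fun t => circ_mem hr

theorem fin_mu : IsFiniteMeasure mu := by
  unfold mu
  infer_instance

theorem norm_e (k : ℕ) (t : ℝ) : ‖Complex.exp (k * t * Complex.I)‖ = 1 := by
  have h1 : (k : ℂ) * t * Complex.I = ((k * t : ℝ) : ℂ) * Complex.I := by push_cast; ring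
  rw [h1, Complex.norm_exp_ofReal_mul_I]

theorem zero_r {u : ℝ → ℂ} (hu : Measurable u) {C : ℝ} (hC : ∀ᵐ t ∂mu, ‖u t‖ ≤ C)
    (hn : NegZero u) {o : ℂ → ℂ} (ho : DifferentiableOn ℂ o (Metric.ball 0 1)) {r : ℝ}
    (hr : r ∈ Set.Ioo (0 : ℝ) 1) (k : ℕ) (hk : 1 ≤ k) :
    ∫ t, u t * Complex.exp (k * t * Complex.I) * sl o r t ∂mu = 0 := by
  have := fin_mu
  obtain ⟨a, ha⟩ : ∃ a : ℕ → ℂ, ∀ z : ℂ, ‖z‖ < 1 → HasSum (fun n => a n * z ^ n) (o z) := by
    refine ⟨fun n => (n.factorial : ℂ)⁻¹ * iteratedDeriv n o 0, fun z hz => ?_⟩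
    have h1 := Complex.hasSum_taylorSeries_on_ball (c := 0) (r := 1) (f := o) (z := z)
      ho (by rw [mem_ball_zero_iff]; exact hz)
    have h2 : (fun n : ℕ => (n.factorial : ℂ)⁻¹ * iteratedDeriv n o 0 * z ^ n) =
        fun n : ℕ => (n.factorial : ℂ)⁻¹ • (z - 0) ^ n • iteratedDeriv n o 0 := by
      funext n
      rw [smul_eq_mul, smul_eq_mul, sub_zero]
      ring
    rw [h2]
    exact h1
  have hs : Summable (fun n => ‖a n‖ * r ^ n) := by
    have h1 := (ha (r : ℂ) (by
      rw [Complex.norm_real, Real.norm_of_nonneg hr.1.le]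
      exact hr.2)).summable.norm
    simpa [norm_mul, norm_pow, abs_of_pos hr.1] using h1
  have hui : Integrable u mu :=
    (integrable_const (|C|)).mono' hu.aestronglyMeasurable
      (hC.mono fun t ht => ht.trans (le_abs_self C))
  have hue : ∀ n : ℕ, ∀ t : ℝ,
      u t * Complex.exp (k * t * Complex.I) * (a n * (r * Complex.exp (t * Complex.I)) ^ n) =
        (a n * (r : ℂ) ^ n) * (u t * Complex.exp (((n + k : ℕ) : ℂ) * t * Complex.I)) := by
    intro n t
    rw [mul_pow, ← Complex.exp_nat_mul]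
    have h2 : Complex.exp (((n + k : ℕ) : ℂ) * t * Complex.I) =
        Complex.exp (k * t * Complex.I) * Complex.exp (n * (t * Complex.I)) := by
      rw [← Complex.exp_add]
      congr 1
      push_cast
      ring
    rw [h2]
    ring
  have hFi0 : ∀ n : ℕ, Integrable
      (fun t : ℝ => u t * Complex.exp ((n : ℂ) * t * Complex.I)) mu := by
    intro n
    exact hui.mul_bdd (c := 1) (Continuous.aestronglyMeasurable (by fun_prop))
      (Eventually.of_forall fun t => (norm_e n t).le)
  have hFi : ∀ n : ℕ, Integrable (fun t : ℝ => u t * Complex.exp (k * t * Complex.I) *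
      (a n * (r * Complex.exp (t * Complex.I)) ^ n)) mu := by
    intro n
    simp only [hue]
    exact (hFi0 (n + k)).const_mul _
  have hFs : Summable (fun n : ℕ => ∫ t, ‖u t * Complex.exp (k * t * Complex.I) *
      (a n * (r * Complex.exp (t * Complex.I)) ^ n)‖ ∂mu) := by
    have h1 : ∀ n : ℕ, ∫ t, ‖u t * Complex.exp (k * t * Complex.I) *
        (a n * (r * Complex.exp (t * Complex.I)) ^ n)‖ ∂mu =
          (∫ t, ‖u t‖ ∂mu) * (‖a n‖ * r ^ n) := by
      intro n
      rw [← integral_mul_const]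
      refine integral_congr_ae (Eventually.of_forall fun t => ?_)
      change ‖u t * Complex.exp (k * t * Complex.I) *
        (a n * (r * Complex.exp (t * Complex.I)) ^ n)‖ = ‖u t‖ * (‖a n‖ * r ^ n)
      rw [norm_mul, norm_mul, norm_e, mul_one, norm_mul, norm_pow, circ hr]
    simp only [h1]
    exact hs.mul_left _
  have hF0 : ∀ n : ℕ, ∫ t, u t * Complex.exp (k * t * Complex.I) *
      (a n * (r * Complex.exp (t * Complex.I)) ^ n) ∂mu = 0 := by
    intro n
    simp only [hue]
    rw [integral_const_mul, hn (n + k) (by omega), mul_zero]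
  have h3 := hasSum_integral_of_summable_integral_norm hFi hFs
  simp only [hF0] at h3
  have h4 := h3.unique hasSum_zero
  rw [← h4]
  refine integral_congr_ae (Eventually.of_forall fun t => ?_)
  change u t * Complex.exp (k * t * Complex.I) * sl o r t =
    ∑' n : ℕ, u t * Complex.exp (k * t * Complex.I) *
      (a n * (r * Complex.exp (t * Complex.I)) ^ n)
  rw [tsum_mul_left]
  congr 1
  have h5 := ha ((r : ℂ) * Complex.exp (t * Complex.I)) (by rw [circ hr]; exact hr.2)
  exact h5.tsum_eq.symm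

end L1aux

theorem L1_ok (hPA : St_PA) (hPF : St_PF) : St_L1 := by
  intro u O hu hC hun hO hOi hOn k hk
  have := L1aux.fin_mu
  obtain ⟨C, hC⟩ := hC
  obtain ⟨o, ho, hoP⟩ := hPF O hO hOi hOn
  have hev : ∀ᶠ r : ℝ in 𝓝[<] 1, r ∈ Set.Ioo (0 : ℝ) 1 := Ioo_mem_nhdsLT zero_lt_one
  have hC' : ∀ᵐ t ∂mu, ‖u t * Complex.exp (k * t * Complex.I)‖ ≤ |C| := by
    filter_upwards [hC] with t ht
    rw [norm_mul, L1aux.norm_e, mul_one]
    exact ht.trans (le_abs_self C)
  have hum : Measurable fun t : ℝ => u t * Complex.exp (k * t * Complex.I) :=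
    hu.mul (Continuous.measurable (by fun_prop))
  have hlim : Tendsto (fun r : ℝ => ∫ t, u t * Complex.exp (k * t * Complex.I) * sl o r t ∂mu)
      (𝓝[<] 1) (𝓝 (∫ t, u t * Complex.exp (k * t * Complex.I) * O t ∂mu)) := by
    apply tendsto_integral_of_L1
    · exact (hOi.bdd_mul hum.aestronglyMeasurable hC').aestronglyMeasurable
    · filter_upwards [hev] with r hr
      have hc : Continuous (sl o r) := L1aux.continuous_sl ho hr
      have hi : Integrable (sl o r) mu := by
        unfold mu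
        exact (hc.integrableOn_Icc (a := 0) (b := 2 * π)).mono_set Ico_subset_Icc_self
      exact hi.bdd_mul hum.aestronglyMeasurable hC'
    · have h1 : Tendsto (fun r : ℝ => ENNReal.ofReal |C| * ∫⁻ t, ‖pois r O t - O t‖ₑ ∂mu) (𝓝[<] 1)
          (𝓝 0) := by
        have := ENNReal.Tendsto.const_mul (hPA O hO hOi)
          (Or.inr (ENNReal.ofReal_ne_top (r := |C|)))
        rwa [mul_zero] at this
      refine tendsto_of_tendsto_of_tendsto_of_le_of_le' tendsto_const_nhds h1
        (Eventually.of_forall fun _ => zero_le) ?_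
      filter_upwards [hev] with r hr
      rw [← lintegral_const_mul' _ _ ENNReal.ofReal_ne_top]
      apply lintegral_mono_ae
      filter_upwards [hC'] with t ht
      rw [← mul_sub, enorm_mul, hoP r hr t]
      gcongr
      rw [← ofReal_norm]
      exact ENNReal.ofReal_le_ofReal ht
  have h2 : Tendsto (fun r : ℝ => ∫ t, u t * Complex.exp (k * t * Complex.I) * sl o r t ∂mu)
      (𝓝[<] 1) (𝓝 0) := by
    refine tendsto_const_nhds.congr' ?_
    filter_upwards [hev] with r hr
    exact (L1aux.zero_r hu hC hun ho hr k hk).symm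
  have h3 := tendsto_nhds_unique hlim h2
  rw [← h3]
  refine integral_congr_ae (Eventually.of_forall fun t => ?_)
  change u t * O t * Complex.exp (k * t * Complex.I) = u t * Complex.exp (k * t * Complex.I) * O t
  ring

end Pool.Agent.H582R3.HL
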