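import Pool.Agent.H582R3.HL.Stubs2

/-! L2: if `u O` is analytic and `O` is outer then `u` is analytic. -/

set_option autoImplicit false

open MeasureTheory Set Filter Topology
open scoped ENNReal Real

namespace Pool.Agent.H582R3.HL

namespace L2

theorem fin_mu : IsFiniteMeasure mu := by
  unfold mu
  infer_instance

theorem norm_E (x t : ℝ) : ‖Complex.exp (x * t * Complex.I)‖ = 1 := by
  have h : (x : ℂ) * t * Complex.I = ((x * t : ℝ) : ℂ) * Complex.I := by push_cast; ring
  rw [h, Complex.norm_exp_ofReal_mul_I]

theorem norm_En (n : ℕ) (t : ℝ) : ‖Complex.exp (n * t * Complex.I)‖ = 1 := by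
  have := norm_E (n : ℝ) t
  simpa using this

theorem meas_En (n : ℕ) : Measurable fun t : ℝ => Complex.exp (n * t * Complex.I) := by
  have : Continuous fun t : ℝ => Complex.exp (n * t * Complex.I) := by fun_prop
  exact this.measurable

theorem mul_En {F : ℝ → ℂ} (hF : Integrable F mu) (n : ℕ) :
    Integrable (fun t => F t * Complex.exp (n * t * Complex.I)) mu := by
  refine hF.mul_bdd (c := 1) (meas_En n).aestronglyMeasurable ?_
  exact Eventually.of_forall fun t => (norm_En n t).le

end L2

open L2

theorem L2_ok : St_L2 := by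
  intro u O hu hC hO hneg n hn
  obtain ⟨C, hC⟩ := hC
  obtain ⟨hOm, hOi, -, hOa⟩ := hO
  have hfin := fin_mu
  have hui : Integrable u mu := Integrable.of_bound hu.aestronglyMeasurable C hC
  have huO : Integrable (fun t => u t * O t) mu := by
    exact hOi.bdd_mul (c := C) hu.aestronglyMeasurable hC
  set J : ℂ := ∫ t, u t * Complex.exp (n * t * Complex.I) ∂mu with hJ
  have hkey : ∀ ε : ℝ, 0 < ε → ‖J‖ₑ ≤ ENNReal.ofReal (max C 0) * ENNReal.ofReal ε := by
    intro ε hε
    obtain ⟨p, hp⟩ := hOa ε hε
    -- the second integral vanishes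
    have hexp : ∀ t : ℝ, u t * O t * p.eval (Complex.exp (t * Complex.I)) *
        Complex.exp (n * t * Complex.I) = ∑ j ∈ Finset.range (p.natDegree + 1),
          p.coeff j * ((u t * O t) * Complex.exp (((n + j : ℕ) : ℂ) * t * Complex.I)) := by
      intro t
      rw [Polynomial.eval_eq_sum_range, Finset.mul_sum, Finset.sum_mul]
      refine Finset.sum_congr rfl fun j _ => ?_
      have h1 : Complex.exp (((n + j : ℕ) : ℂ) * t * Complex.I) =
          Complex.exp (t * Complex.I) ^ j * Complex.exp (n * t * Complex.I) := by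
        rw [← Complex.exp_nat_mul, ← Complex.exp_add]
        congr 1
        push_cast
        ring
      rw [h1]
      ring
    have hint : ∀ j : ℕ, Integrable (fun t => p.coeff j * ((u t * O t) *
        Complex.exp (((n + j : ℕ) : ℂ) * t * Complex.I))) mu := fun j =>
      (mul_En huO (n + j)).const_mul _
    have hsi : Integrable (fun t => u t * O t * p.eval (Complex.exp (t * Complex.I)) *
        Complex.exp (n * t * Complex.I)) mu := by
      simp only [hexp]
      exact integrable_finset_sum _ fun j _ => hint j
    have hzero : ∫ t, u t * O t * p.eval (Complex.exp (t * Complex.I)) *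
        Complex.exp (n * t * Complex.I) ∂mu = 0 := by
      simp only [hexp]
      rw [integral_finset_sum _ fun j _ => hint j]
      refine Finset.sum_eq_zero fun j _ => ?_
      rw [integral_const_mul]
      have h1 := hneg (n + j) (by omega)
      rw [h1, mul_zero]
    have hJ2 : J = ∫ t, -(u t * (p.eval (Complex.exp (t * Complex.I)) * O t - 1) *
        Complex.exp (n * t * Complex.I)) ∂mu := by
      have h1 : J = ∫ t, (u t * Complex.exp (n * t * Complex.I) -
          u t * O t * p.eval (Complex.exp (t * Complex.I)) *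
            Complex.exp (n * t * Complex.I)) ∂mu := by
        rw [integral_sub (mul_En hui n) hsi, hzero, sub_zero]
      rw [h1]
      congr 1
      funext t
      ring
    rw [hJ2]
    calc ‖∫ t, -(u t * (p.eval (Complex.exp (t * Complex.I)) * O t - 1) *
        Complex.exp (n * t * Complex.I)) ∂mu‖ₑ
        ≤ ∫⁻ t, ‖-(u t * (p.eval (Complex.exp (t * Complex.I)) * O t - 1) *
            Complex.exp (n * t * Complex.I))‖ₑ ∂mu := enorm_integral_le_lintegral_enorm _
      _ ≤ ∫⁻ t, ENNReal.ofReal (max C 0) *
            ‖p.eval (Complex.exp (t * Complex.I)) * O t - 1‖ₑ ∂mu := by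
          refine lintegral_mono_ae ?_
          filter_upwards [hC] with t ht
          have h1 : ‖Complex.exp (n * t * Complex.I)‖ₑ = 1 := by
            rw [← ofReal_norm_eq_enorm, norm_En, ENNReal.ofReal_one]
          rw [enorm_neg, enorm_mul, enorm_mul, h1, mul_one]
          gcongr
          rw [← ofReal_norm_eq_enorm]
          exact ENNReal.ofReal_le_ofReal (ht.trans (le_max_left _ _))
      _ = ENNReal.ofReal (max C 0) * ∫⁻ t,
            ‖p.eval (Complex.exp (t * Complex.I)) * O t - 1‖ₑ ∂mu :=
          lintegral_const_mul' _ _ ENNReal.ofReal_ne_top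
      _ ≤ ENNReal.ofReal (max C 0) * ENNReal.ofReal ε := by
          gcongr
  by_contra hne
  have hpos : 0 < ‖J‖ := norm_pos_iff.mpr hne
  have hM : 0 ≤ max C 0 := le_max_right _ _
  have h1 := hkey (‖J‖ / (2 * (max C 0 + 1))) (by positivity)
  rw [← ENNReal.ofReal_mul hM, ← ofReal_norm_eq_enorm,
    ENNReal.ofReal_le_ofReal_iff (by positivity)] at h1
  have h2 : max C 0 * (‖J‖ / (2 * (max C 0 + 1))) ≤ ‖J‖ / 2 := by
    rw [mul_div_assoc', div_le_div_iff₀ (by positivity) (by norm_num)]
    nlinarith
  linarith

end Pool.Agent.H582R3.HL
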