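import Pool.Agent.H582R3.HL.Stubs2

set_option autoImplicit false

open MeasureTheory Set Filter Topology
open scoped ENNReal Real

namespace Pool.Agent.H582R3.HL

namespace L3

theorem mu_eq : mu = volume.restrict (Set.Ioc 0 (2 * π)) :=
  Measure.restrict_congr_set Ico_ae_eq_Ioc

theorem int_exp (n : ℤ) (hn : n ≠ 0) : ∫ t : ℝ in (0 : ℝ)..(2 * π), Complex.exp (n * t * Complex.I) = 0 := by
  have hc : (n : ℂ) * Complex.I ≠ 0 := mul_ne_zero (by exact_mod_cast hn) Complex.I_ne_zero
  have h1 : ∀ t : ℝ, Complex.exp (n * t * Complex.I) = Complex.exp ((n : ℂ) * Complex.I * t) :=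
    fun t => by congr 1; ring
  simp_rw [h1]
  rw [integral_exp_mul_complex hc]
  have h2 : Complex.exp ((n : ℂ) * Complex.I * ((2 * π : ℝ) : ℂ)) = 1 := by
    rw [Complex.exp_eq_one_iff]
    refine ⟨n, ?_⟩
    push_cast
    ring
  rw [h2]
  simp

end L3

theorem L3_ok : St_L3 := by
  intro φ hφ hb hN
  obtain ⟨C, hC⟩ := hb
  have : IsFiniteMeasure (volume.restrict (Set.Ioc (0 : ℝ) (2 * π))) := ⟨by
    rw [Measure.restrict_apply_univ, Real.volume_Ioc]; exact ENNReal.ofReal_lt_top⟩
  have h2π : (0 : ℝ) < 2 * π := by positivity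
  unfold NegZero at hN
  rw [L3.mu_eq] at hC hN ⊢
  have hφi : IntervalIntegrable φ volume 0 (2 * π) := by
    rw [intervalIntegrable_iff_integrableOn_Ioc_of_le h2π.le]
    exact Integrable.of_bound hφ.aestronglyMeasurable C (by
      filter_upwards [hC] with t ht
      rwa [Real.norm_eq_abs])
  -- positive frequencies
  have hpos : ∀ n : ℕ, 1 ≤ n → ∫ t in (0 : ℝ)..(2 * π), (φ t : ℂ) * Complex.exp (n * t * Complex.I) = 0 := by
    intro n hn
    rw [intervalIntegral.integral_of_le h2π.le]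
    exact hN n hn
  have hneg : ∀ n : ℕ, 1 ≤ n →
      ∫ t in (0 : ℝ)..(2 * π), (φ t : ℂ) * Complex.exp (-(n : ℂ) * t * Complex.I) = 0 := by
    intro n hn
    have h1 := congrArg (starRingEnd ℂ) (hpos n hn)
    rw [map_zero, intervalIntegral.integral_of_le h2π.le, ← integral_conj] at h1
    rw [intervalIntegral.integral_of_le h2π.le, ← h1]
    congr 1
    funext t
    rw [map_mul, Complex.conj_ofReal, ← Complex.exp_conj]
    congr 2
    simp
  have hall : ∀ n : ℤ, n ≠ 0 →
      ∫ t in (0 : ℝ)..(2 * π), (φ t : ℂ) * Complex.exp (n * t * Complex.I) = 0 := by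
    intro n hn
    rcases lt_or_gt_of_ne hn with h | h
    · obtain ⟨k, hk⟩ : ∃ k : ℕ, n = -(k : ℤ) := ⟨n.natAbs, by omega⟩
      have hk1 : 1 ≤ k := by omega
      have := hneg k hk1
      rw [hk]
      push_cast
      exact this
    · obtain ⟨k, hk⟩ : ∃ k : ℕ, n = (k : ℤ) := ⟨n.natAbs, by omega⟩
      have hk1 : 1 ≤ k := by omega
      have := hpos k hk1
      rw [hk]
      push_cast
      exact this
  set m : ℝ := (1 / (2 * π)) * ∫ t in (0 : ℝ)..(2 * π), φ t with hm
  set f : ℝ → ℂ := fun t => ((φ t - m : ℝ) : ℂ) with hf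
  have hL2 : MemLp f 2 (volume.restrict (Ioc 0 (2 * π))) := by
    refine MemLp.of_bound ?_ (C + |m|) ?_
    · exact (Complex.measurable_ofReal.comp (hφ.sub_const m)).aestronglyMeasurable
    · filter_upwards [hC] with t ht
      rw [hf]
      simp only
      rw [Complex.norm_real, Real.norm_eq_abs]
      have := abs_sub (φ t) m
      linarith
  have hP := hasSum_sq_fourierCoeffOn h2π hL2
  have hcoef : ∀ n : ℤ, fourierCoeffOn h2π f n = 0 := by
    intro n
    rw [fourierCoeffOn_eq_integral]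
    have h1 : ∀ x : ℝ, (fourier (-n) (x : AddCircle (2 * π - 0)) : ℂ) • f x =
        (φ x : ℂ) * Complex.exp (((-n : ℤ) : ℂ) * x * Complex.I) -
          (m : ℂ) * Complex.exp (((-n : ℤ) : ℂ) * x * Complex.I) := by
      intro x
      rw [fourier_coe_apply, hf, smul_eq_mul]
      simp only
      have h2 : (2 * (π : ℂ) * Complex.I * ((-n : ℤ) : ℂ) * (x : ℂ) / ((2 * π - 0 : ℝ) : ℂ)) =
          ((-n : ℤ) : ℂ) * x * Complex.I := by
        have : (π : ℂ) ≠ 0 := by exact_mod_cast Real.pi_ne_zero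
        push_cast
        field_simp
        ring
      rw [h2]
      push_cast
      ring
    simp_rw [h1]
    have hce : Continuous fun x : ℝ => Complex.exp (((-n : ℤ) : ℂ) * x * Complex.I) := by fun_prop
    have hi1 : IntervalIntegrable (fun x : ℝ => (φ x : ℂ) *
        Complex.exp (((-n : ℤ) : ℂ) * x * Complex.I)) volume 0 (2 * π) := by
      have : IntervalIntegrable (fun x : ℝ => (φ x : ℂ)) volume 0 (2 * π) :=
        ⟨Integrable.ofReal hφi.1, Integrable.ofReal hφi.2⟩
      exact this.mul_continuousOn hce.continuousOn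
    have hi2 : IntervalIntegrable (fun x : ℝ => (m : ℂ) *
        Complex.exp (((-n : ℤ) : ℂ) * x * Complex.I)) volume 0 (2 * π) :=
      (continuous_const.mul hce).intervalIntegrable _ _
    rw [intervalIntegral.integral_sub hi1 hi2, intervalIntegral.integral_const_mul]
    by_cases hn : n = 0
    · subst hn
      have h3 : ∫ x in (0 : ℝ)..(2 * π), (φ x : ℂ) = ((∫ x in (0 : ℝ)..(2 * π), φ x : ℝ) : ℂ) :=
        intervalIntegral.integral_ofReal
      simp only [neg_zero, Int.cast_zero, zero_mul, Complex.exp_zero, mul_one]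
      rw [h3]
      have h4 : ∫ x in (0 : ℝ)..(2 * π), (1 : ℂ) = ((2 * π : ℝ) : ℂ) := by
        simp
      rw [h4]
      have h5 : (∫ x in (0 : ℝ)..(2 * π), φ x) = m * (2 * π) := by
        rw [hm]; field_simp
      rw [h5]
      push_cast
      ring_nf
      simp
    · have hn' : -n ≠ 0 := neg_ne_zero.2 hn
      rw [hall (-n) hn', L3.int_exp (-n) hn']
      simp
  simp_rw [hcoef] at hP
  have hz : (2 * π - 0)⁻¹ • ∫ x in (0 : ℝ)..(2 * π), ‖f x‖ ^ 2 = 0 := by
    refine hP.unique ?_
    simp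
  have hz2 : ∫ x in (0 : ℝ)..(2 * π), ‖f x‖ ^ 2 = 0 := by
    rw [smul_eq_mul, mul_eq_zero] at hz
    rcases hz with h | h
    · exfalso
      rw [inv_eq_zero] at h
      linarith
    · exact h
  rw [intervalIntegral.integral_of_le h2π.le] at hz2
  have hint : Integrable (fun x => ‖f x‖ ^ 2) (volume.restrict (Ioc 0 (2 * π))) := by
    have := hL2.integrable_norm_pow (by norm_num)
    simpa using this
  rw [integral_eq_zero_iff_of_nonneg (fun x => by positivity) hint] at hz2
  refine ⟨m, ?_⟩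
  filter_upwards [hz2] with t ht
  simp only [Pi.zero_apply] at ht
  have h6 : ‖f t‖ = 0 := by
    exact pow_eq_zero_iff (two_ne_zero) |>.1 ht
  rw [hf] at h6
  simp only at h6
  rw [Complex.norm_real, Real.norm_eq_abs, abs_eq_zero] at h6
  linarith

end Pool.Agent.H582R3.HL
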