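import Pool.Agent.H582R3.HL.Stubs2

/-! L4 (helper195): an outer function does not vanish on a set of positive measure. -/

set_option autoImplicit false

open MeasureTheory Set Filter Topology
open scoped ENNReal Real

namespace Pool.Agent.H582R3.HL

theorem L4_ok : St_L4 := by
  intro O hO
  rw [ae_iff]
  simp only [not_not]
  have hms : MeasurableSet {t | O t = 0} := hO.1 (measurableSet_singleton 0)
  by_contra hne
  have hfin : mu {t | O t = 0} ≠ ∞ := by
    have h1 : mu {t | O t = 0} ≤ mu univ := measure_mono (subset_univ _)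
    have h2 : mu univ < ∞ := by
      unfold mu
      rw [Measure.restrict_apply_univ, Real.volume_Ico]
      exact ENNReal.ofReal_lt_top
    exact (h1.trans_lt h2).ne
  have hpos : 0 < (mu {t | O t = 0}).toReal := ENNReal.toReal_pos hne hfin
  obtain ⟨p, hp⟩ := hO.2.2.2 _ hpos
  rw [ENNReal.ofReal_toReal hfin] at hp
  refine absurd hp (not_lt.2 ?_)
  calc mu {t | O t = 0} = ∫⁻ t in {t | O t = 0}, 1 ∂mu := by simp
    _ = ∫⁻ t in {t | O t = 0}, ‖p.eval (Complex.exp (t * Complex.I)) * O t - 1‖ₑ ∂mu := by
        refine setLIntegral_congr_fun hms ?_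
        intro t ht
        have h0 : O t = 0 := ht
        simp [h0]
    _ ≤ _ := setLIntegral_le_lintegral _ _

end Pool.Agent.H582R3.HL
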