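import Pool.Agent.H582R3.HL.All
import Pool.Agent.H582R3.HL.T_FIN2
import Pool.Agent.H582R3.HL.T_L1
import Pool.Agent.H582R3.HL.T_L2
import Pool.Agent.H582R3.HL.T_L3
import Pool.Agent.H582R3.HL.T_L4

set_option autoImplicit false

namespace Pool.Agent.H582R3.HL

theorem finalIO_all : FinalIO :=
  FIN2_ok NP_all E2_all PB_ok GE_all final_all (L1_ok PA_ok PF_ok) L2_ok L3_ok L4_ok

end Pool.Agent.H582R3.HL
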