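import Mathlib

/-!
# Extreme points of the unit ball of the Hardy–Lorentz space `H(Λ(Ψ))`: definitions
-/

set_option autoImplicit false

open MeasureTheory Set Filter Topology
open scoped ENNReal Real

namespace Pool.Agent.H582R3.HL

/-- arc length on the unit circle, as a measure on the parameter interval `[0, 2π)` -/
noncomputable def mu : Measure ℝ := volume.restrict (Set.Ico 0 (2 * π))

/-- `Ψ : [0, 2π] → ℝ` is nondecreasing, concave and `Ψ 0 = 0` -/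
structure IsWeight (Ψ : ℝ → ℝ) : Prop where
  zero : Ψ 0 = 0
  mono : MonotoneOn Ψ (Set.Icc 0 (2 * π))
  conc : ConcaveOn ℝ (Set.Icc 0 (2 * π)) Ψ

/-- `Ψ` extended to `ℝ` by the constants `Ψ 0` and `Ψ (2π)` -/
noncomputable def ext (Ψ : ℝ → ℝ) (t : ℝ) : ℝ := Ψ (max 0 (min t (2 * π)))

theorem ext_mono {Ψ : ℝ → ℝ} (h : IsWeight Ψ) : Monotone (ext Ψ) := by
  intro s t hst
  have hp : (0 : ℝ) < 2 * π := by positivity
  unfold ext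
  refine h.mono ⟨le_max_left _ _, max_le hp.le (min_le_right _ _)⟩
    ⟨le_max_left _ _, max_le hp.le (min_le_right _ _)⟩ ?_
  exact max_le_max le_rfl (min_le_min hst le_rfl)

/-- the Lebesgue–Stieltjes measure `dΨ` on `[0, 2π]`; it has the atom `Ψ(0+)` at `0` -/
noncomputable def dPsi {Ψ : ℝ → ℝ} (h : IsWeight Ψ) : Measure ℝ :=
  (ext_mono h).stieltjesFunction.measure

/-- the nonincreasing rearrangement `u*` of `u ≥ 0` -/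
noncomputable def rearr (u : ℝ → ℝ≥0∞) (t : ℝ) : ℝ≥0∞ :=
  sInf {c : ℝ≥0∞ | mu {s | c < u s} ≤ ENNReal.ofReal t}

/-- the norm of the Lorentz space `Λ(Ψ)`: `∫_{[0,2π]} u*(t) dΨ(t)` -/
noncomputable def Nn {Ψ : ℝ → ℝ} (h : IsWeight Ψ) (u : ℝ → ℝ≥0∞) : ℝ≥0∞ :=
  ∫⁻ t in Set.Icc 0 (2 * π), rearr u t ∂(dPsi h)

/-- the norm of `Λ(Ψ)` of a complex function on the circle -/
noncomputable def lnorm {Ψ : ℝ → ℝ} (h : IsWeight Ψ) (x : ℝ → ℂ) : ℝ≥0∞ :=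
  Nn h (fun s => ‖x s‖ₑ)

/-- the function `t ↦ f (r e^{it})` -/
noncomputable def sl (f : ℂ → ℂ) (r : ℝ) (t : ℝ) : ℂ := f (r * Complex.exp (t * Complex.I))

/-- the norm of the Hardy–Lorentz space: `sup_{0<r<1} ‖f_r‖` -/
noncomputable def Hn {Ψ : ℝ → ℝ} (h : IsWeight Ψ) (f : ℂ → ℂ) : ℝ≥0∞ :=
  ⨆ r ∈ Set.Ioo (0 : ℝ) 1, lnorm h (sl f r)

/-- `f` is analytic in the open unit disc and belongs to the closed unit ball of `H(Λ(Ψ))` -/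
def InBall {Ψ : ℝ → ℝ} (h : IsWeight Ψ) (f : ℂ → ℂ) : Prop :=
  DifferentiableOn ℂ f (Metric.ball 0 1) ∧ Hn h f ≤ 1

/-- `f` is an extreme point of the closed unit ball of `H(Λ(Ψ))`: it is in the ball and it is not
the midpoint of two elements of the ball which are different functions on the disc -/
def IsExtremePt {Ψ : ℝ → ℝ} (h : IsWeight Ψ) (f : ℂ → ℂ) : Prop :=
  InBall h f ∧ ∀ g₁ g₂ : ℂ → ℂ, InBall h g₁ → InBall h g₂ →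
    (∀ z ∈ Metric.ball (0 : ℂ) 1, f z = (g₁ z + g₂ z) / 2) →
    ∀ z ∈ Metric.ball (0 : ℂ) 1, g₁ z = g₂ z

/-- `F` is the boundary function of `f`: `f (r e^{it}) → F t` in `L¹` as `r → 1` -/
def IsBdry (f : ℂ → ℂ) (F : ℝ → ℂ) : Prop :=
  Measurable F ∧ Integrable F mu ∧
    Tendsto (fun r : ℝ => ∫⁻ t, ‖sl f r t - F t‖ₑ ∂mu) (𝓝[<] 1) (𝓝 0)

/-- all Fourier coefficients of negative index vanish: `∫ F(t) e^{int} dt = 0` for `n ≥ 1` -/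
def NegZero (F : ℝ → ℂ) : Prop :=
  ∀ n : ℕ, 1 ≤ n → ∫ t, F t * Complex.exp (n * t * Complex.I) ∂mu = 0

/-- `t ∈ (0, 2π]` is a point such that `Ψ` (extended by the constant `Ψ (2π)`) is not affine in any
neighbourhood of `t` -/
def Kink (Ψ : ℝ → ℝ) (t : ℝ) : Prop :=
  t ∈ Set.Ioc 0 (2 * π) ∧
    ∀ ε : ℝ, 0 < ε → ¬ ∃ a b : ℝ, ∀ s : ℝ, |s - t| < ε → ext Ψ s = a + b * s

/-- `Ψ (0+) > 0` -/
def Jump (Ψ : ℝ → ℝ) : Prop := ∃ δ : ℝ, 0 < δ ∧ ∀ t ∈ Set.Ioc (0 : ℝ) (2 * π), δ ≤ Ψ t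

/-- `A` carries the largest values of `u`: `u η ≤ u ξ` for almost all `ξ ∈ A` and `η ∉ A` -/
def Top (u : ℝ → ℝ≥0∞) (A : Set ℝ) : Prop :=
  ∀ᵐ ξ ∂mu, ∀ᵐ η ∂mu, ξ ∈ A → η ∉ A → u η ≤ u ξ

/-- The direction `G` is flat at `F`.
* For every `t` at which `Ψ` is not locally affine there is a set `A` of measure `t` which carries
  the largest values of `|F + G|` and also the largest values of `|F - G|`; if moreover `Ψ` is
  constant on `[t, 2π]` then on `A` the quotient `G / F` is real with values in `[-1, 1]`.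
* If `Ψ (0+) > 0` then `‖F + G‖_∞ + ‖F - G‖_∞ = 2 ‖F‖_∞`. -/
def Cond (Ψ : ℝ → ℝ) (F G : ℝ → ℂ) : Prop :=
  (∀ t : ℝ, Kink Ψ t → ∃ A : Set ℝ, MeasurableSet A ∧ A ⊆ Set.Ico 0 (2 * π) ∧
      mu A = ENNReal.ofReal t ∧ Top (fun s => ‖F s + G s‖ₑ) A ∧ Top (fun s => ‖F s - G s‖ₑ) A ∧
      (Ψ t = Ψ (2 * π) → ∀ᵐ s ∂mu, s ∈ A → ∃ φ : ℝ, |φ| ≤ 1 ∧ G s = φ * F s)) ∧
  (Jump Ψ → essSup (fun s => ‖F s + G s‖ₑ) mu + essSup (fun s => ‖F s - G s‖ₑ) mu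
      = 2 * essSup (fun s => ‖F s‖ₑ) mu)

/-- `Φ(|F|) · F / |F|` -/
noncomputable def phs (Φ : ℝ → ℝ) (F : ℝ → ℂ) (t : ℝ) : ℂ := (Φ ‖F t‖ : ℂ) * (F t / (‖F t‖ : ℂ))

/-- the final statement: full characterisation of the extreme points -/
def Final : Prop :=
  ∀ (Ψ : ℝ → ℝ) (h : IsWeight Ψ), 0 < Ψ (2 * π) →
    ∀ f : ℂ → ℂ, DifferentiableOn ℂ f (Metric.ball 0 1) → Hn h f < ∞ →
      (∃ F, IsBdry f F) ∧
      ∀ F : ℝ → ℂ, IsBdry f F →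
        (IsExtremePt h f ↔ Hn h f = 1 ∧
          ∀ G : ℝ → ℂ, Measurable G → lnorm h G < ∞ → NegZero G → Cond Ψ F G →
            ∃ c : ℝ, ∀ᵐ t ∂mu, G t = c * F t) ∧
        (StrictConcaveOn ℝ (Set.Icc 0 (2 * π)) Ψ →
          (IsExtremePt h f ↔ Hn h f = 1 ∧
            ∀ Φ : ℝ → ℝ, (∃ L, LipschitzWith L Φ) → Φ 0 = 0 → NegZero (phs Φ F) →
              ∃ c : ℝ, ∀ᵐ t ∂mu, Φ ‖F t‖ = c * ‖F t‖))

end Pool.Agent.H582R3.HL
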