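import Pool.Agent.H582R3.HL.Stubs

set_option autoImplicit false

open MeasureTheory Set Filter Topology
open scoped ENNReal Real

namespace Pool.Agent.H582R3.HL

instance : IsFiniteMeasure mu := by
  unfold mu
  exact ⟨by rw [Measure.restrict_apply_univ, Real.volume_Ico]; exact ENNReal.ofReal_lt_top⟩

section alg

theorem sl_cont {f : ℂ → ℂ} (hf : DifferentiableOn ℂ f (Metric.ball 0 1)) {r : ℝ}
    (hr : r ∈ Set.Ioo (0 : ℝ) 1) : Continuous (sl f r) := by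
  have h1 : Continuous fun t : ℝ => (r : ℂ) * Complex.exp (t * Complex.I) := by fun_prop
  refine hf.continuousOn.comp_continuous h1 fun t => ?_
  rw [mem_ball_zero_iff, norm_mul, Complex.norm_exp_ofReal_mul_I, mul_one, Complex.norm_real,
    Real.norm_of_nonneg hr.1.le]
  exact hr.2

theorem sl_meas {f : ℂ → ℂ} (hf : DifferentiableOn ℂ f (Metric.ball 0 1)) {r : ℝ}
    (hr : r ∈ Set.Ioo (0 : ℝ) 1) : Measurable (sl f r) := (sl_cont hf hr).measurable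

theorem evIoo : ∀ᶠ r : ℝ in 𝓝[<] 1, r ∈ Set.Ioo (0 : ℝ) 1 := by
  refine mem_nhdsWithin.2 ⟨Set.Ioi 0, isOpen_Ioi, by norm_num, ?_⟩
  rintro x ⟨hx, hx'⟩
  exact ⟨hx, hx'⟩

theorem bdry_comb {f g : ℂ → ℂ} {F G : ℝ → ℂ} (hf : DifferentiableOn ℂ f (Metric.ball 0 1))
    (hg : DifferentiableOn ℂ g (Metric.ball 0 1)) (hF : IsBdry f F) (hG : IsBdry g G) (a b : ℂ) :
    IsBdry (fun z => a * f z + b * g z) (fun t => a * F t + b * G t) := by
  refine ⟨(hF.1.const_mul a).add (hG.1.const_mul b),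
    (hF.2.1.const_mul a).add (hG.2.1.const_mul b), ?_⟩
  have h1 : Tendsto (fun r : ℝ => ‖a‖ₑ * ∫⁻ t, ‖sl f r t - F t‖ₑ ∂mu +
      ‖b‖ₑ * ∫⁻ t, ‖sl g r t - G t‖ₑ ∂mu) (𝓝[<] 1) (𝓝 0) := by
    have := (ENNReal.Tendsto.const_mul hF.2.2 (a := ‖a‖ₑ) (Or.inr (by simp))).add
      (ENNReal.Tendsto.const_mul hG.2.2 (a := ‖b‖ₑ) (Or.inr (by simp)))
    simpa using this
  refine tendsto_of_tendsto_of_tendsto_of_le_of_le' tendsto_const_nhds h1
    (Eventually.of_forall fun _ => zero_le) ?_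
  filter_upwards [evIoo] with r hr
  have hm : Measurable fun t => ‖a‖ₑ * ‖sl f r t - F t‖ₑ :=
    (((sl_meas hf hr).sub hF.1).enorm).const_mul _
  rw [← lintegral_const_mul' _ _ (by simp), ← lintegral_const_mul' _ _ (by simp),
    ← lintegral_add_left hm]
  refine lintegral_mono fun t => ?_
  have e : sl (fun z => a * f z + b * g z) r t - (a * F t + b * G t)
      = a * (sl f r t - F t) + b * (sl g r t - G t) := by simp only [sl]; ring
  simp only [e]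
  refine (enorm_add_le _ _).trans (le_of_eq ?_)
  rw [enorm_mul, enorm_mul]

theorem bdry_unique {f g : ℂ → ℂ} {F G : ℝ → ℂ} (hf : DifferentiableOn ℂ f (Metric.ball 0 1))
    (hF : IsBdry f F) (hG : IsBdry g G) (h : ∀ z ∈ Metric.ball (0 : ℂ) 1, f z = g z) :
    ∀ᵐ t ∂mu, F t = G t := by
  have h1 : Tendsto (fun r : ℝ => ∫⁻ t, ‖sl f r t - F t‖ₑ ∂mu +
      ∫⁻ t, ‖sl g r t - G t‖ₑ ∂mu) (𝓝[<] 1) (𝓝 0) := by
    simpa using hF.2.2.add hG.2.2
  have h2 : ∫⁻ t, ‖F t - G t‖ₑ ∂mu ≤ 0 := by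
    refine ge_of_tendsto h1 ?_
    filter_upwards [evIoo] with r hr
    have hm : Measurable fun t => ‖sl f r t - F t‖ₑ := ((sl_meas hf hr).sub hF.1).enorm
    rw [← lintegral_add_left hm]
    refine lintegral_mono fun t => ?_
    have e : sl f r t = sl g r t := by
      simp only [sl]
      refine h _ ?_
      rw [mem_ball_zero_iff, norm_mul, Complex.norm_exp_ofReal_mul_I, mul_one, Complex.norm_real,
        Real.norm_of_nonneg hr.1.le]
      exact hr.2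
    have e2 : F t - G t = -(sl f r t - F t) + (sl g r t - G t) := by rw [e]; ring
    simp only
    rw [e2]
    refine (enorm_add_le _ _).trans ?_
    rw [enorm_neg]
  have h3 : ∫⁻ t, ‖F t - G t‖ₑ ∂mu = 0 := le_antisymm h2 zero_le
  have hm : Measurable fun t => ‖F t - G t‖ₑ := (hF.1.sub hG.1).enorm
  rw [lintegral_eq_zero_iff hm] at h3
  filter_upwards [h3] with t ht
  simpa [sub_eq_zero] using ht

theorem bdry_zero (hPB : St_PB) {f : ℂ → ℂ} {F : ℝ → ℂ}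
    (hf : DifferentiableOn ℂ f (Metric.ball 0 1)) (hF : IsBdry f F) (h0 : ∀ᵐ t ∂mu, F t = 0) :
    ∀ z ∈ Metric.ball (0 : ℂ) 1, f z = 0 := by
  have h1 := (hPB f F hf hF).2
  have h2 : ∀ z ∈ Metric.ball (0 : ℂ) 1, z ≠ 0 → f z = 0 := by
    intro z hz hz0
    have hr : ‖z‖ ∈ Set.Ioo (0 : ℝ) 1 := ⟨norm_pos_iff.2 hz0, by simpa using hz⟩
    have h3 := h1 ‖z‖ hr (Complex.arg z)
    simp only [sl, Complex.norm_mul_exp_arg_mul_I] at h3
    rw [h3, pois]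
    have : ∫ s, (P ‖z‖ (Complex.arg z - s) : ℂ) * F s ∂mu = 0 := by
      rw [← integral_zero ℝ ℂ (μ := mu)]
      refine integral_congr_ae ?_
      filter_upwards [h0] with s hs
      simp [hs]
    rw [this, mul_zero]
  intro z hz
  by_cases hz0 : z = 0
  · subst hz0
    have hc : ContinuousAt f 0 := (hf.continuousOn).continuousAt (Metric.isOpen_ball.mem_nhds hz)
    have h4 : Tendsto f (𝓝[≠] 0) (𝓝 (f 0)) := hc.tendsto.mono_left nhdsWithin_le_nhds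
    have h5 : Tendsto f (𝓝[≠] 0) (𝓝 0) := by
      refine tendsto_const_nhds.congr' ?_
      have : ∀ᶠ w : ℂ in 𝓝[≠] 0, w ∈ Metric.ball (0 : ℂ) 1 :=
        nhdsWithin_le_nhds (Metric.isOpen_ball.mem_nhds hz)
      filter_upwards [this, self_mem_nhdsWithin] with w hw hw0
      exact (h2 w hw hw0).symm
    exact tendsto_nhds_unique h4 h5
  · exact h2 z hz hz0

end alg

section norm

variable {Ψ : ℝ → ℝ} {h : IsWeight Ψ}

theorem lnorm_le_add (hNP : NProps h) {x y z : ℝ → ℂ} (hx : Measurable x) (hy : Measurable y)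
    (hz : Measurable z) (a b : ℝ≥0∞) (ha : a ≠ ∞) (hb : b ≠ ∞)
    (hxyz : ∀ t, ‖z t‖ₑ ≤ a * ‖x t‖ₑ + b * ‖y t‖ₑ) :
    lnorm h z ≤ a * lnorm h x + b * lnorm h y := by
  refine (hNP.mono _ _ hz.enorm ((hx.enorm.const_mul a).add (hy.enorm.const_mul b))
    (Eventually.of_forall hxyz)).trans ?_
  refine (hNP.add _ _ (hx.enorm.const_mul a) (hy.enorm.const_mul b)).trans (le_of_eq ?_)
  rw [hNP.smul a _ ha hx.enorm, hNP.smul b _ hb hy.enorm]
  rfl

theorem lnorm_smul (hNP : NProps h) {x : ℝ → ℂ} (hx : Measurable x) (c : ℂ) :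
    lnorm h (fun t => c * x t) = ‖c‖ₑ * lnorm h x := by
  unfold lnorm
  simp only [enorm_mul]
  exact hNP.smul _ _ (by simp) hx.enorm

theorem lnorm_congr (hNP : NProps h) {x y : ℝ → ℂ} (hx : Measurable x) (hy : Measurable y)
    (hxy : ∀ᵐ t ∂mu, x t = y t) : lnorm h x = lnorm h y := by
  refine le_antisymm (hNP.mono _ _ hx.enorm hy.enorm ?_) (hNP.mono _ _ hy.enorm hx.enorm ?_)
  · filter_upwards [hxy] with t ht; rw [ht]
  · filter_upwards [hxy] with t ht; rw [ht]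

theorem Hn_L1 (hNP : NProps h) (h0 : 0 < Ψ (2 * π)) {f : ℂ → ℂ}
    (hf : DifferentiableOn ℂ f (Metric.ball 0 1)) (hfin : Hn h f < ∞) :
    ∃ M : ℝ, ∀ r ∈ Set.Ioo (0 : ℝ) 1, ∫⁻ t, ‖sl f r t‖ₑ ∂mu ≤ ENNReal.ofReal M := by
  set κ : ℝ := Ψ (2 * π) / (2 * π) with hκ
  have hκ0 : 0 < κ := by positivity
  have hk : ENNReal.ofReal κ ≠ 0 := by simpa using hκ0
  have hfin2 : (ENNReal.ofReal κ)⁻¹ * Hn h f < ∞ :=
    ENNReal.mul_lt_top (by simpa using hκ0) hfin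
  refine ⟨((ENNReal.ofReal κ)⁻¹ * Hn h f).toReal, fun r hr => ?_⟩
  rw [ENNReal.ofReal_toReal hfin2.ne]
  have h1 := hNP.low (fun t => ‖sl f r t‖ₑ) (sl_meas hf hr).enorm
  have h2 : lnorm h (sl f r) ≤ Hn h f := by
    unfold Hn
    exact le_iSup₂ (f := fun (r : ℝ) (_ : r ∈ Set.Ioo (0 : ℝ) 1) => lnorm h (sl f r)) r hr
  have h3 : ENNReal.ofReal κ * ∫⁻ t, ‖sl f r t‖ₑ ∂mu ≤ Hn h f := h1.trans h2
  calc ∫⁻ t, ‖sl f r t‖ₑ ∂mu = (ENNReal.ofReal κ)⁻¹ * (ENNReal.ofReal κ * ∫⁻ t, ‖sl f r t‖ₑ ∂mu) := by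
        rw [← mul_assoc, ENNReal.inv_mul_cancel hk ENNReal.ofReal_ne_top, one_mul]
    _ ≤ _ := by gcongr

end norm

end Pool.Agent.H582R3.HL
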