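import Pool.Agent.H582R3.HL.Defs

/-!
Statements of the tasks (see the table `h582_tasks`).
-/

set_option autoImplicit false

open MeasureTheory Set Filter Topology
open scoped ENNReal Real

namespace Pool.Agent.H582R3.HL

/-! ### Lorentz norm -/

/-- layer cake formula -/
def St_LC : Prop :=
  ∀ (Ψ : ℝ → ℝ) (h : IsWeight Ψ) (u : ℝ → ℝ≥0∞), Measurable u →
    Nn h u = ∫⁻ c in Set.Ioi (0 : ℝ), ENNReal.ofReal (Ψ (mu {s | ENNReal.ofReal c < u s}).toReal)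

/-- integral representation of a concave function by the functions `s ↦ min s (τ p)` -/
structure Rep (Ψ : ℝ → ℝ) (J : ℝ) (τ : ℝ → ℝ) : Prop where
  J0 : 0 ≤ J
  meas : Measurable τ
  mem : ∀ p, 0 ≤ τ p ∧ τ p ≤ 2 * π
  rep : ∀ s ∈ Set.Ioc (0 : ℝ) (2 * π), ENNReal.ofReal (Ψ s)
    = ENNReal.ofReal J + ∫⁻ p in Set.Ioi (0 : ℝ), ENNReal.ofReal (min s (τ p))
  jump : 0 < J ↔ Jump Ψ
  kink : ∀ p, 0 < p → τ p = 0 ∨ Kink Ψ (τ p)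
  dense : ∀ t, Kink Ψ t → ∀ ε : ℝ, 0 < ε → 0 < volume {p : ℝ | 0 < p ∧ |τ p - t| < ε}

/-- WRA: the integral representation with a nonincreasing density `ψ` -/
def St_WRA : Prop :=
  ∀ Ψ : ℝ → ℝ, IsWeight Ψ → ∃ (J : ℝ) (ψ : ℝ → ℝ), 0 ≤ J ∧ (0 < J ↔ Jump Ψ) ∧
    AntitoneOn ψ (Set.Ioi 0) ∧ Measurable ψ ∧ (∀ t, 0 ≤ ψ t) ∧ (∀ t, 2 * π ≤ t → ψ t = 0) ∧
    (∀ t, 0 < t → ContinuousWithinAt ψ (Set.Ici t) t) ∧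
    (∀ s t : ℝ, 0 < s → s ≤ t → ext Ψ t - ext Ψ s = ∫ x in s..t, ψ x) ∧
    ∀ s ∈ Set.Ioc (0 : ℝ) (2 * π), ENNReal.ofReal (Ψ s)
      = ENNReal.ofReal J + ∫⁻ t in Set.Ioo 0 s, ENNReal.ofReal (ψ t)

/-- WRB: `Rep` -/
def St_WRB : Prop := ∀ Ψ : ℝ → ℝ, IsWeight Ψ → ∃ (J : ℝ) (τ : ℝ → ℝ), Rep Ψ J τ

/-- the `K`-functional `K(t,u) = ∫_0^∞ min (|{u > c}|, t) dc = ∫_0^t u*` -/
noncomputable def Kf (u : ℝ → ℝ≥0∞) (t : ℝ) : ℝ≥0∞ :=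
  ∫⁻ c in Set.Ioi (0 : ℝ), min (mu {s | ENNReal.ofReal c < u s}) (ENNReal.ofReal t)

def St_K1 : Prop :=
  ∀ (u : ℝ → ℝ≥0∞), Measurable u → ∀ (A : Set ℝ), MeasurableSet A → ∀ t ∈ Set.Icc (0 : ℝ) (2 * π),
    mu A = ENNReal.ofReal t →
      (∫⁻ s in A, u s ∂mu ≤ Kf u t) ∧ (Top u A → ∫⁻ s in A, u s ∂mu = Kf u t) ∧
      (∫⁻ s, u s ∂mu < ∞ → ∫⁻ s in A, u s ∂mu = Kf u t → Top u A)

def St_K2 : Prop :=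
  ∀ (u : ℝ → ℝ≥0∞), Measurable u → ∀ t ∈ Set.Icc (0 : ℝ) (2 * π),
    ∃ A, MeasurableSet A ∧ A ⊆ Set.Ico 0 (2 * π) ∧ mu A = ENNReal.ofReal t ∧ Top u A

def St_K4 : Prop :=
  ∀ (u : ℝ → ℝ≥0∞), Measurable u → ∫⁻ s, u s ∂mu < ∞ → ContinuousOn (Kf u) (Set.Icc 0 (2 * π))

def St_N1 : Prop :=
  ∀ (Ψ : ℝ → ℝ) (h : IsWeight Ψ) (J : ℝ) (τ : ℝ → ℝ), Rep Ψ J τ → ∀ u : ℝ → ℝ≥0∞, Measurable u →
    Nn h u = ENNReal.ofReal J * essSup u mu + ∫⁻ p in Set.Ioi (0 : ℝ), Kf u (τ p)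

/-- NP: basic properties of the norm -/
structure NProps {Ψ : ℝ → ℝ} (h : IsWeight Ψ) : Prop where
  mono : ∀ u v : ℝ → ℝ≥0∞, Measurable u → Measurable v → (∀ᵐ t ∂mu, u t ≤ v t) → Nn h u ≤ Nn h v
  add : ∀ u v : ℝ → ℝ≥0∞, Measurable u → Measurable v →
    Nn h (fun t => u t + v t) ≤ Nn h u + Nn h v
  smul : ∀ (c : ℝ≥0∞) (u : ℝ → ℝ≥0∞), c ≠ ∞ → Measurable u → Nn h (fun t => c * u t) = c * Nn h u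
  low : ∀ u : ℝ → ℝ≥0∞, Measurable u → ENNReal.ofReal (Ψ (2 * π) / (2 * π)) * ∫⁻ t, u t ∂mu ≤ Nn h u
  one : Nn h (fun _ => 1) = ENNReal.ofReal (Ψ (2 * π))

def St_NP : Prop := ∀ (Ψ : ℝ → ℝ) (h : IsWeight Ψ), NProps h

/-! ### equality in the triangle inequality -/

/-- B1 -/
def St_B1 : Prop :=
  ∀ (Ψ : ℝ → ℝ) (h : IsWeight Ψ), 0 < Ψ (2 * π) → ∀ F G : ℝ → ℂ, Measurable F → Measurable G →
    lnorm h F < ∞ →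
    lnorm h (fun t => F t + G t) + lnorm h (fun t => F t - G t) = 2 * lnorm h F →
    Cond Ψ F (fun t => G t / 2)

/-- B2 -/
def St_B2 : Prop :=
  ∀ (Ψ : ℝ → ℝ) (h : IsWeight Ψ), 0 < Ψ (2 * π) → ∀ F G : ℝ → ℂ, Measurable F → Measurable G →
    lnorm h F < ∞ → lnorm h G < ∞ → Cond Ψ F G →
    lnorm h (fun t => F t + G t) + lnorm h (fun t => F t - G t) = 2 * lnorm h F

/-- D1a: common top sets of all sizes give comonotonicity -/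
def St_D1a : Prop :=
  ∀ u v : ℝ → ℝ≥0∞, Measurable u → Measurable v →
    (∀ t ∈ Set.Ioo (0 : ℝ) (2 * π), ∃ A, MeasurableSet A ∧ mu A = ENNReal.ofReal t ∧ Top u A ∧ Top v A) →
    ∀ᵐ ξ ∂mu, ∀ᵐ η ∂mu, u η < u ξ → v η ≤ v ξ

/-- D1b: a function which is 1-Lipschitz with respect to `R` is a Lipschitz function of `R` -/
def St_D1b : Prop :=
  ∀ R H : ℝ → ℝ, Measurable R → Measurable H → (∀ t, 0 ≤ R t) → (∀ᵐ t ∂mu, |H t| ≤ R t) →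
    (∀ᵐ ξ ∂mu, ∀ᵐ η ∂mu, |H ξ - H η| ≤ |R ξ - R η|) →
    ∃ Φ : ℝ → ℝ, LipschitzWith 1 Φ ∧ Φ 0 = 0 ∧ ∀ᵐ t ∂mu, H t = Φ (R t)

/-- D1 -/
def St_D1 : Prop :=
  ∀ (Ψ : ℝ → ℝ), IsWeight Ψ → StrictConcaveOn ℝ (Set.Icc 0 (2 * π)) Ψ → ∀ F G : ℝ → ℂ,
    Measurable F → Measurable G → Cond Ψ F G →
    ∃ Φ : ℝ → ℝ, LipschitzWith 1 Φ ∧ Φ 0 = 0 ∧ ∀ᵐ t ∂mu, G t = phs Φ F t

/-- D2 -/
def St_D2 : Prop :=
  ∀ (Ψ : ℝ → ℝ), IsWeight Ψ → ∀ F : ℝ → ℂ, Measurable F → ∀ Φ : ℝ → ℝ,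
    (∃ L, LipschitzWith L Φ) → Φ 0 = 0 → ∃ ε : ℝ, 0 < ε ∧ Cond Ψ F (fun t => ε * phs Φ F t)

/-! ### Hardy space `H¹` -/

/-- the Poisson kernel -/
noncomputable def P (r x : ℝ) : ℝ := (1 - r ^ 2) / (1 - 2 * r * Real.cos x + r ^ 2)

/-- the Poisson integral -/
noncomputable def pois (r : ℝ) (F : ℝ → ℂ) (t : ℝ) : ℂ :=
  (1 / (2 * π) : ℝ) * ∫ s, (P r (t - s) : ℂ) * F s ∂mu

/-- E1a: division by the zeros and square root -/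
def St_E1a : Prop :=
  ∀ (R : ℝ) (f : ℂ → ℂ), 1 < R → DifferentiableOn ℂ f (Metric.ball 0 R) →
    (∀ z : ℂ, ‖z‖ = 1 → f z ≠ 0) →
    ∃ (R' : ℝ) (u v : ℂ → ℂ), 1 < R' ∧ DifferentiableOn ℂ u (Metric.ball 0 R') ∧
      DifferentiableOn ℂ v (Metric.ball 0 R') ∧ (∀ z : ℂ, ‖z‖ ≤ 1 → f z = u z * v z) ∧
      ∀ z : ℂ, ‖z‖ = 1 → ‖u z‖ ^ 2 = ‖f z‖ ∧ ‖v z‖ ^ 2 = ‖f z‖

/-- E1b: every function of `H¹` is a product of two functions of `H²` -/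
def St_E1b : Prop :=
  ∀ (f : ℂ → ℂ), DifferentiableOn ℂ f (Metric.ball 0 1) →
    (∃ M : ℝ, ∀ r ∈ Set.Ioo (0 : ℝ) 1, ∫⁻ t, ‖sl f r t‖ₑ ∂mu ≤ ENNReal.ofReal M) →
    ∃ a b : ℕ → ℂ, (Summable fun n => ‖a n‖ ^ 2) ∧ (Summable fun n => ‖b n‖ ^ 2) ∧
      ∀ z : ℂ, ‖z‖ < 1 → f z = (∑' n, a n * z ^ n) * (∑' n, b n * z ^ n)

/-- E1c: boundary functions of `H²` functions, in `L²` -/
def St_E1c : Prop :=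
  ∀ a : ℕ → ℂ, (Summable fun n => ‖a n‖ ^ 2) →
    (∀ r ∈ Set.Ioo (0 : ℝ) 1, ∫⁻ t, ‖sl (fun z => ∑' n, a n * z ^ n) r t‖ₑ ^ 2 ∂mu
      ≤ ENNReal.ofReal (2 * π * ∑' n, ‖a n‖ ^ 2)) ∧
    ∃ U : ℝ → ℂ, Measurable U ∧ ∫⁻ t, ‖U t‖ₑ ^ 2 ∂mu < ∞ ∧
      Tendsto (fun r : ℝ => ∫⁻ t, ‖sl (fun z => ∑' n, a n * z ^ n) r t - U t‖ₑ ^ 2 ∂mu)
        (𝓝[<] 1) (𝓝 0)

/-- E1: boundary functions of `H¹` functions (F. and M. Riesz) -/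
def St_E1 : Prop :=
  ∀ (f : ℂ → ℂ), DifferentiableOn ℂ f (Metric.ball 0 1) →
    (∃ M : ℝ, ∀ r ∈ Set.Ioo (0 : ℝ) 1, ∫⁻ t, ‖sl f r t‖ₑ ∂mu ≤ ENNReal.ofReal M) →
    ∃ F, IsBdry f F

/-- PA: `P_r * F → F` in `L¹` -/
def St_PA : Prop :=
  ∀ F : ℝ → ℂ, Measurable F → Integrable F mu →
    Tendsto (fun r : ℝ => ∫⁻ t, ‖pois r F t - F t‖ₑ ∂mu) (𝓝[<] 1) (𝓝 0)

/-- PF: the Poisson integral of a function without negative frequencies is analytic -/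
def St_PF : Prop :=
  ∀ F : ℝ → ℂ, Measurable F → Integrable F mu → NegZero F →
    ∃ f : ℂ → ℂ, DifferentiableOn ℂ f (Metric.ball 0 1) ∧
      ∀ r ∈ Set.Ioo (0 : ℝ) 1, ∀ t : ℝ, sl f r t = pois r F t

/-- PB: `f` is the Poisson integral of its boundary function -/
def St_PB : Prop :=
  ∀ (f : ℂ → ℂ) (F : ℝ → ℂ), DifferentiableOn ℂ f (Metric.ball 0 1) → IsBdry f F →
    NegZero F ∧ ∀ r ∈ Set.Ioo (0 : ℝ) 1, ∀ t : ℝ, sl f r t = pois r F t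

/-- KP: averaging decreases the `K`-functional and the essential supremum -/
def St_KP : Prop :=
  ∀ (F : ℝ → ℂ), Measurable F → Integrable F mu → ∀ r ∈ Set.Ioo (0 : ℝ) 1,
    (∀ t ∈ Set.Icc (0 : ℝ) (2 * π), Kf (fun s => ‖pois r F s‖ₑ) t ≤ Kf (fun s => ‖F s‖ₑ) t) ∧
    essSup (fun s => ‖pois r F s‖ₑ) mu ≤ essSup (fun s => ‖F s‖ₑ) mu

/-- LSC: lower semicontinuity of the norm with respect to `L¹` convergence -/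
def St_LSC : Prop :=
  ∀ (Ψ : ℝ → ℝ) (h : IsWeight Ψ) (x : ℕ → ℝ → ℂ) (X : ℝ → ℂ), (∀ n, Measurable (x n)) →
    Measurable X → Tendsto (fun n => ∫⁻ t, ‖x n t - X t‖ₑ ∂mu) atTop (𝓝 0) →
    ∀ B : ℝ≥0∞, (∀ n, lnorm h (x n) ≤ B) → lnorm h X ≤ B

/-- E2: the norm is computed by the boundary function -/
def St_E2 : Prop :=
  ∀ (Ψ : ℝ → ℝ) (h : IsWeight Ψ) (f : ℂ → ℂ) (F : ℝ → ℂ),
    DifferentiableOn ℂ f (Metric.ball 0 1) → IsBdry f F → Hn h f = lnorm h F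

/-- GE: general characterisation -/
def St_GE : Prop :=
  ∀ (Ψ : ℝ → ℝ) (h : IsWeight Ψ), 0 < Ψ (2 * π) →
    ∀ f : ℂ → ℂ, DifferentiableOn ℂ f (Metric.ball 0 1) → Hn h f < ∞ →
      (∃ F, IsBdry f F) ∧
      ∀ F : ℝ → ℂ, IsBdry f F →
        (IsExtremePt h f ↔ Hn h f = 1 ∧
          ∀ G : ℝ → ℂ, Measurable G → lnorm h G < ∞ → NegZero G → Cond Ψ F G →
            ∃ c : ℝ, ∀ᵐ t ∂mu, G t = c * F t)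

end Pool.Agent.H582R3.HL
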