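import Pool.Agent.H582R3.HL.Stubs

/-!
B1: equality in the triangle inequality (helper847)
-/

set_option autoImplicit false

open MeasureTheory Set Filter Topology
open scoped ENNReal Real

namespace Pool.Agent.H582R3.HL

namespace B1aux

theorem add_eq_aux {a b c d : ℝ≥0∞} (h1 : a ≤ c) (h2 : b ≤ d) (h : c + d ≤ a + b)
    (hf : a + b ≠ ∞) : a = c ∧ b = d := by
  have ha : a ≠ ∞ := fun h' => hf (by rw [h', top_add])
  have hb : b ≠ ∞ := fun h' => hf (by rw [h', add_top])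
  constructor
  · refine le_antisymm h1 ?_
    have : c + b ≤ a + b := (add_le_add_right h2 c).trans h
    exact (ENNReal.add_le_add_iff_right hb).1 this
  · refine le_antisymm h2 ?_
    have : a + d ≤ a + b := (add_le_add_left h1 d).trans h
    exact (ENNReal.add_le_add_iff_left ha).1 this

theorem Kf_mono (u v : ℝ → ℝ≥0∞) (h : ∀ s, u s ≤ v s) (t : ℝ) : Kf u t ≤ Kf v t := by
  unfold Kf
  refine lintegral_mono fun c => min_le_min (measure_mono fun s hs => ?_) le_rfl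
  exact lt_of_lt_of_le hs (h s)

theorem Kf_monotone (u : ℝ → ℝ≥0∞) : Monotone (Kf u) := by
  intro s t hst
  unfold Kf
  exact lintegral_mono fun c => min_le_min le_rfl (ENNReal.ofReal_le_ofReal hst)

theorem Kf_meas (u : ℝ → ℝ≥0∞) (τ : ℝ → ℝ) (hτ : Measurable τ) :
    Measurable (fun p => Kf u (τ p)) := (Kf_monotone u).measurable.comp hτ

theorem Kf_add (hK1 : St_K1) (hK2 : St_K2) (u v : ℝ → ℝ≥0∞) (hu : Measurable u)
    (hv : Measurable v) (t : ℝ) (ht : t ∈ Set.Icc (0 : ℝ) (2 * π)) :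
    Kf (fun s => u s + v s) t ≤ Kf u t + Kf v t := by
  obtain ⟨A, hA, -, hmA, hT⟩ := hK2 (fun s => u s + v s) (hu.add hv) t ht
  rw [← (hK1 (fun s => u s + v s) (hu.add hv) A hA t ht hmA).2.1 hT,
    lintegral_add_left hu]
  exact add_le_add (hK1 u hu A hA t ht hmA).1 (hK1 v hv A hA t ht hmA).1

theorem at_kink {Ψ : ℝ → ℝ} {J : ℝ} {τ : ℝ → ℝ} (hr : Rep Ψ J τ) (f g : ℝ → ℝ≥0∞)
    (hf : ContinuousOn f (Set.Icc 0 (2 * π))) (hg : ContinuousOn g (Set.Icc 0 (2 * π)))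
    (h : ∀ᵐ p ∂(volume.restrict (Set.Ioi (0 : ℝ))), f (τ p) = g (τ p)) (t : ℝ)
    (ht : Kink Ψ t) : f t = g t := by
  have h1 : ∀ᵐ p ∂(volume : Measure ℝ), p ∈ Set.Ioi (0 : ℝ) → f (τ p) = g (τ p) :=
    (ae_restrict_iff' measurableSet_Ioi).1 h
  have htm : t ∈ Set.Icc (0 : ℝ) (2 * π) := ⟨ht.1.1.le, ht.1.2⟩
  have h2 : ∀ ε : ℝ, 0 < ε → ∃ s ∈ Set.Icc (0 : ℝ) (2 * π), |s - t| < ε ∧ f s = g s := by
    intro ε hε
    by_contra hcon
    push Not at hcon
    have h3 : {p : ℝ | 0 < p ∧ |τ p - t| < ε} ⊆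
        {p | ¬ (p ∈ Set.Ioi (0 : ℝ) → f (τ p) = g (τ p))} := by
      intro p hp hcon'
      exact hcon (τ p) ⟨(hr.mem p).1, (hr.mem p).2⟩ hp.2 (hcon' hp.1)
    have h4 : volume {p : ℝ | 0 < p ∧ |τ p - t| < ε} = 0 :=
      measure_mono_null h3 (ae_iff.1 h1)
    exact absurd h4 (hr.dense t ht ε hε).ne'
  have h3 : t ∈ closure {s | s ∈ Set.Icc (0 : ℝ) (2 * π) ∧ f s = g s} := by
    rw [Metric.mem_closure_iff]
    intro ε hε
    obtain ⟨s, hs, hst, he⟩ := h2 ε hε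
    exact ⟨s, ⟨hs, he⟩, by rw [Real.dist_eq, abs_sub_comm]; exact hst⟩
  obtain ⟨x, hx, hxt⟩ := mem_closure_iff_seq_limit.1 h3
  have h4 : Tendsto x atTop (𝓝[Set.Icc (0 : ℝ) (2 * π)] t) :=
    tendsto_nhdsWithin_iff.2 ⟨hxt, Eventually.of_forall fun n => (hx n).1⟩
  have h5 : Tendsto (fun n => f (x n)) atTop (𝓝 (f t)) := (hf t htm).tendsto.comp h4
  have h6 : Tendsto (fun n => g (x n)) atTop (𝓝 (g t)) := (hg t htm).tendsto.comp h4
  refine tendsto_nhds_unique h5 (h6.congr fun n => ?_)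
  exact ((hx n).2).symm

theorem complex_aux (a b : ℂ) (h : ‖a + b‖ + ‖a - b‖ = 2 * ‖a‖) :
    ∃ φ : ℝ, |φ| ≤ 1 ∧ b = φ * a := by
  have h1 : SameRay ℝ (a + b) (a - b) := by
    rw [sameRay_iff_norm_add, h]
    have : a + b + (a - b) = 2 * a := by ring
    rw [this, norm_mul]
    simp
  obtain ⟨α, β, hα, hβ, hαβ, h2, h3⟩ := h1.exists_eq_smul_add
  have e : a + b + (a - b) = 2 * a := by ring
  rw [e] at h2 h3
  refine ⟨2 * α - 1, ?_, ?_⟩
  · rw [abs_le]
    constructor <;> linarith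
  · rw [Complex.real_smul] at h2
    push_cast
    linear_combination h2

theorem enorm_two' : ‖(2 : ℂ)‖ₑ = (2 : ℝ≥0∞) := by
  rw [← ofReal_norm, Complex.norm_ofNat]
  simp

end B1aux

open B1aux in
theorem B1_ok (hW : St_WRB) (hN : St_N1) (hNP : St_NP) (hK1 : St_K1) (hK2 : St_K2)
    (hK4 : St_K4) : St_B1 := by
  intro Ψ h hΨ F G hF hG hFfin heq
  obtain ⟨J, τ, hr⟩ := hW Ψ h
  have hp := hNP Ψ h
  -- the functions
  set f : ℝ → ℝ≥0∞ := fun s => ‖F s‖ₑ with hf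
  set u : ℝ → ℝ≥0∞ := fun s => ‖F s + G s‖ₑ with hu
  set v : ℝ → ℝ≥0∞ := fun s => ‖F s - G s‖ₑ with hv
  set w : ℝ → ℝ≥0∞ := fun s => 2 * f s with hw
  set u' : ℝ → ℝ≥0∞ := fun s => ‖F s + G s / 2‖ₑ with hu'
  set v' : ℝ → ℝ≥0∞ := fun s => ‖F s - G s / 2‖ₑ with hv'
  set z : ℝ → ℝ≥0∞ := fun s => u' s + v' s with hz
  set y : ℝ → ℝ≥0∞ := fun s => u s + v s with hy
  have mf : Measurable f := hF.enorm
  have mu1 : Measurable u := (hF.add hG).enorm
  have mv1 : Measurable v := (hF.sub hG).enorm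
  have mw : Measurable w := mf.const_mul 2
  have mu' : Measurable u' := (hF.add (hG.div_const 2)).enorm
  have mv' : Measurable v' := (hF.sub (hG.div_const 2)).enorm
  have mz : Measurable z := mu'.add mv'
  have my : Measurable y := mu1.add mv1
  have half2 : ∀ x : ℝ≥0∞, (2 : ℝ≥0∞)⁻¹ * (2 * x) = x := by
    intro x
    rw [← mul_assoc, ENNReal.inv_mul_cancel two_ne_zero ENNReal.ofNat_ne_top, one_mul]
  have hwy : ∀ s, w s ≤ y s := by
    intro s
    have e : (2 : ℂ) * F s = (F s + G s) + (F s - G s) := by ring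
    have e2 : w s = ‖(2 : ℂ) * F s‖ₑ := by
      rw [enorm_mul, enorm_two']
    rw [e2, e]
    exact enorm_add_le _ _
  have hwz : ∀ s, w s ≤ z s := by
    intro s
    have e : (2 : ℂ) * F s = (F s + G s / 2) + (F s - G s / 2) := by ring
    have e2 : w s = ‖(2 : ℂ) * F s‖ₑ := by
      rw [enorm_mul, enorm_two']
    rw [e2, e]
    exact enorm_add_le _ _
  have hhalf : ‖(2 : ℂ)⁻¹‖ₑ = (2 : ℝ≥0∞)⁻¹ := by
    rw [enorm_inv two_ne_zero, enorm_two']
  have hu'le : ∀ s, u' s ≤ 2⁻¹ * (u s + f s) := by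
    intro s
    have e : F s + G s / 2 = (2 : ℂ)⁻¹ * ((F s + G s) + F s) := by ring
    show ‖F s + G s / 2‖ₑ ≤ _
    rw [e, enorm_mul, hhalf]
    exact mul_le_mul_right (enorm_add_le _ _) _
  have hv'le : ∀ s, v' s ≤ 2⁻¹ * (v s + f s) := by
    intro s
    have e : F s - G s / 2 = (2 : ℂ)⁻¹ * ((F s - G s) + F s) := by ring
    show ‖F s - G s / 2‖ₑ ≤ _
    rw [e, enorm_mul, hhalf]
    exact mul_le_mul_right (enorm_add_le _ _) _
  have hzle : ∀ s, z s ≤ 2⁻¹ * (y s + w s) := by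
    intro s
    refine (add_le_add (hu'le s) (hv'le s)).trans (le_of_eq ?_)
    show 2⁻¹ * (u s + f s) + 2⁻¹ * (v s + f s) = 2⁻¹ * ((u s + v s) + 2 * f s)
    rw [← mul_add]
    congr 1
    ring
  -- the norms
  have hNf : Nn h f ≠ ∞ := hFfin.ne
  have hNw : Nn h w = 2 * Nn h f := hp.smul 2 f ENNReal.ofNat_ne_top mf
  have hNwfin : Nn h w ≠ ∞ := by
    rw [hNw]
    exact ENNReal.mul_ne_top ENNReal.ofNat_ne_top hNf
  have heq' : Nn h u + Nn h v = Nn h w := by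
    rw [hNw]
    exact heq
  have hNy : Nn h y = Nn h w := by
    refine le_antisymm ?_ (hp.mono w y mw my (Eventually.of_forall hwy))
    rw [← heq']
    exact hp.add u v mu1 mv1
  have hNu' : Nn h u' ≤ 2⁻¹ * (Nn h u + Nn h f) := by
    refine (hp.mono u' (fun s => 2⁻¹ * (u s + f s)) mu' ((mu1.add mf).const_mul _)
      (Eventually.of_forall hu'le)).trans ?_
    rw [hp.smul 2⁻¹ (fun s => u s + f s) (ENNReal.inv_ne_top.2 two_ne_zero) (mu1.add mf)]
    exact mul_le_mul_right (hp.add u f mu1 mf) _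
  have hNv' : Nn h v' ≤ 2⁻¹ * (Nn h v + Nn h f) := by
    refine (hp.mono v' (fun s => 2⁻¹ * (v s + f s)) mv' ((mv1.add mf).const_mul _)
      (Eventually.of_forall hv'le)).trans ?_
    rw [hp.smul 2⁻¹ (fun s => v s + f s) (ENNReal.inv_ne_top.2 two_ne_zero) (mv1.add mf)]
    exact mul_le_mul_right (hp.add v f mv1 mf) _
  have hsum : Nn h u' + Nn h v' ≤ Nn h w := by
    refine (add_le_add hNu' hNv').trans (le_of_eq ?_)
    rw [← mul_add]
    have : Nn h u + Nn h f + (Nn h v + Nn h f) = 2 * Nn h w := by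
      calc Nn h u + Nn h f + (Nn h v + Nn h f) = (Nn h u + Nn h v) + 2 * Nn h f := by ring
        _ = 2 * Nn h w := by rw [heq', ← hNw]; ring
    rw [this, half2]
  have hNz1 : Nn h w ≤ Nn h z := hp.mono w z mw mz (Eventually.of_forall hwz)
  have hNz2 : Nn h z ≤ Nn h u' + Nn h v' := hp.add u' v' mu' mv'
  have hNz : Nn h z = Nn h w := le_antisymm (hNz2.trans hsum) hNz1
  have hNs : Nn h u' + Nn h v' = Nn h w := le_antisymm hsum (hNz1.trans hNz2)
  -- integrability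
  have hint : ∀ x : ℝ → ℝ≥0∞, Measurable x → Nn h x ≠ ∞ → ∫⁻ s, x s ∂mu < ∞ := by
    intro x hx hxN
    have h1 := hp.low x hx
    have hpos : 0 < Ψ (2 * π) / (2 * π) := div_pos hΨ (by positivity)
    by_contra hcon
    have h2 : ∫⁻ s, x s ∂mu = ∞ := not_lt_top_iff.1 hcon
    rw [h2, ENNReal.mul_top (by simpa using hpos)] at h1
    exact hxN (top_le_iff.1 h1)
  have iw := hint w mw hNwfin
  have iy := hint y my (by rw [hNy]; exact hNwfin)
  have iz := hint z mz (by rw [hNz]; exact hNwfin)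
  have hu'fin : Nn h u' ≠ ∞ := fun h' => hNwfin (by rw [← hNs, h', top_add])
  have hv'fin : Nn h v' ≠ ∞ := fun h' => hNwfin (by rw [← hNs, h', add_top])
  have iu' := hint u' mu' hu'fin
  have iv' := hint v' mv' hv'fin
  -- the representation
  have hτm : ∀ p, τ p ∈ Set.Icc (0 : ℝ) (2 * π) := fun p => ⟨(hr.mem p).1, (hr.mem p).2⟩
  have nw := hN Ψ h J τ hr w mw
  have ny := hN Ψ h J τ hr y my
  have nz := hN Ψ h J τ hr z mz
  have nu' := hN Ψ h J τ hr u' mu'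
  have nv' := hN Ψ h J τ hr v' mv'
  have esz : essSup z mu ≤ essSup u' mu + essSup v' mu := by
    refine essSup_le_of_ae_le _ ?_
    filter_upwards [ENNReal.ae_le_essSup u', ENNReal.ae_le_essSup v'] with s h1 h2
    exact add_le_add h1 h2
  have c1 := add_eq_aux (a := ENNReal.ofReal J * essSup w mu)
    (b := ∫⁻ p in Set.Ioi (0 : ℝ), Kf w (τ p)) (c := ENNReal.ofReal J * essSup y mu)
    (d := ∫⁻ p in Set.Ioi (0 : ℝ), Kf y (τ p))
    (mul_le_mul_right (essSup_mono_ae (Eventually.of_forall hwy)) _)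
    (lintegral_mono fun p => Kf_mono w y hwy (τ p))
    (by rw [← nw, ← ny, hNy]) (by rw [← nw]; exact hNwfin)
  have c2 := add_eq_aux (a := ENNReal.ofReal J * essSup w mu)
    (b := ∫⁻ p in Set.Ioi (0 : ℝ), Kf w (τ p)) (c := ENNReal.ofReal J * essSup z mu)
    (d := ∫⁻ p in Set.Ioi (0 : ℝ), Kf z (τ p))
    (mul_le_mul_right (essSup_mono_ae (Eventually.of_forall hwz)) _)
    (lintegral_mono fun p => Kf_mono w z hwz (τ p))
    (by rw [← nw, ← nz, hNz]) (by rw [← nw]; exact hNwfin)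
  have c3 := add_eq_aux (a := ENNReal.ofReal J * essSup z mu)
    (b := ∫⁻ p in Set.Ioi (0 : ℝ), Kf z (τ p))
    (c := ENNReal.ofReal J * (essSup u' mu + essSup v' mu))
    (d := ∫⁻ p in Set.Ioi (0 : ℝ), (Kf u' (τ p) + Kf v' (τ p)))
    (mul_le_mul_right esz _)
    (lintegral_mono fun p => Kf_add hK1 hK2 u' v' mu' mv' (τ p) (hτm p))
    (by
      rw [← nz, hNz, lintegral_add_left (Kf_meas u' τ hr.meas), ← hNs, nu', nv']
      refine le_of_eq ?_
      ring) (by rw [← nz, hNz]; exact hNwfin)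
  have fw : ∫⁻ p in Set.Ioi (0 : ℝ), Kf w (τ p) ≠ ∞ := by
    intro h'
    rw [h', add_top] at nw
    exact hNwfin nw
  have fz : ∫⁻ p in Set.Ioi (0 : ℝ), Kf z (τ p) ≠ ∞ := by
    rw [← c2.2]
    exact fw
  have a1 := ae_eq_of_ae_le_of_lintegral_le
    (Eventually.of_forall fun p => Kf_mono w y hwy (τ p) :
      ∀ᵐ p ∂(volume.restrict (Set.Ioi (0 : ℝ))), Kf w (τ p) ≤ Kf y (τ p))
    fw (Kf_meas y τ hr.meas).aemeasurable c1.2.ge
  have a2 := ae_eq_of_ae_le_of_lintegral_le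
    (Eventually.of_forall fun p => Kf_mono w z hwz (τ p) :
      ∀ᵐ p ∂(volume.restrict (Set.Ioi (0 : ℝ))), Kf w (τ p) ≤ Kf z (τ p))
    fw (Kf_meas z τ hr.meas).aemeasurable c2.2.ge
  have a3 := ae_eq_of_ae_le_of_lintegral_le
    (Eventually.of_forall fun p => Kf_add hK1 hK2 u' v' mu' mv' (τ p) (hτm p) :
      ∀ᵐ p ∂(volume.restrict (Set.Ioi (0 : ℝ))), Kf z (τ p) ≤ Kf u' (τ p) + Kf v' (τ p))
    fz ((Kf_meas u' τ hr.meas).add (Kf_meas v' τ hr.meas)).aemeasurable c3.2.ge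
  have kw := hK4 w mw iw
  have ky := hK4 y my iy
  have kz := hK4 z mz iz
  have ku' := hK4 u' mu' iu'
  have kv' := hK4 v' mv' iv'
  have kfin : ∀ x : ℝ → ℝ≥0∞, Measurable x → ∫⁻ s, x s ∂mu < ∞ → ∀ t ∈ Set.Icc (0 : ℝ) (2 * π),
      Kf x t ≠ ∞ := by
    intro x hx hxi t ht
    obtain ⟨A, hA, -, hmA, hT⟩ := hK2 x hx t ht
    rw [← (hK1 x hx A hA t ht hmA).2.1 hT]
    exact (lt_of_le_of_lt (setLIntegral_le_lintegral _ _) hxi).ne
  refine ⟨?_, ?_⟩
  · intro t ht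
    have htm : t ∈ Set.Icc (0 : ℝ) (2 * π) := ⟨ht.1.1.le, ht.1.2⟩
    have b1 := at_kink hr (Kf w) (Kf y) kw ky a1 t ht
    have b2 := at_kink hr (Kf w) (Kf z) kw kz a2 t ht
    have b3 := at_kink hr (Kf z) (fun t => Kf u' t + Kf v' t) kz (ku'.add kv') a3 t ht
    obtain ⟨A, hA, hA2, hmA, hT⟩ := hK2 z mz t htm
    have hz1 := (hK1 z mz A hA t htm hmA).2.1 hT
    have hzs : ∫⁻ s in A, z s ∂mu = ∫⁻ s in A, u' s ∂mu + ∫⁻ s in A, v' s ∂mu :=
      lintegral_add_left mu' _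
    have hkz := kfin z mz iz t htm
    have d1 := add_eq_aux (a := ∫⁻ s in A, u' s ∂mu) (b := ∫⁻ s in A, v' s ∂mu)
      (c := Kf u' t) (d := Kf v' t) (hK1 u' mu' A hA t htm hmA).1
      (hK1 v' mv' A hA t htm hmA).1 (by rw [← hzs, hz1, b3]) (by rw [← hzs, hz1]; exact hkz)
    refine ⟨A, hA, hA2, hmA, (hK1 u' mu' A hA t htm hmA).2.2 iu' d1.1,
      (hK1 v' mv' A hA t htm hmA).2.2 iv' d1.2, ?_⟩
    intro _
    -- `u + v = w` on `A`
    have e1 : Kf w t ≤ 2⁻¹ * (∫⁻ s in A, y s ∂mu + ∫⁻ s in A, w s ∂mu) := by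
      rw [b2, ← hz1]
      refine (lintegral_mono fun s => hzle s).trans (le_of_eq ?_)
      rw [lintegral_const_mul (f := fun s => y s + w s) _ (my.add mw), lintegral_add_left my]
    have e2 : ∫⁻ s in A, y s ∂mu ≤ Kf w t := by
      rw [b1]
      exact (hK1 y my A hA t htm hmA).1
    have e3 : ∫⁻ s in A, w s ∂mu ≤ Kf w t := (hK1 w mw A hA t htm hmA).1
    have hkw := kfin w mw iw t htm
    have e4 := add_eq_aux e2 e3 (by
      have h2 := mul_le_mul_right e1 (2 : ℝ≥0∞)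
      rw [← mul_assoc, ENNReal.mul_inv_cancel two_ne_zero ENNReal.ofNat_ne_top, one_mul] at h2
      rw [← two_mul]
      exact h2) (ne_top_of_le_ne_top (ENNReal.add_ne_top.2 ⟨hkw, hkw⟩) (add_le_add e2 e3))
    have e5 : ∀ᵐ s ∂(mu.restrict A), w s = y s :=
      ae_eq_of_ae_le_of_lintegral_le (Eventually.of_forall hwy) (by rw [e4.2]; exact hkw)
        my.aemeasurable (by rw [e4.1, e4.2])
    have e6 : ∀ᵐ s ∂mu, s ∈ A → w s = y s := (ae_restrict_iff' hA).1 e5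
    filter_upwards [e6] with s hs hsA
    have h1 := hs hsA
    have h2 : z s = w s := by
      refine le_antisymm ?_ (hwz s)
      refine (hzle s).trans (le_of_eq ?_)
      rw [← h1, ← two_mul, half2]
    have h3 : ‖F s + G s / 2‖ + ‖F s - G s / 2‖ = 2 * ‖F s‖ := by
      have h4 := congrArg ENNReal.toReal h2
      simp only [hz, hw, hu', hv', hf] at h4
      rw [ENNReal.toReal_add enorm_ne_top enorm_ne_top, ENNReal.toReal_mul, toReal_enorm,
        toReal_enorm, toReal_enorm] at h4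
      simpa using h4
    exact complex_aux (F s) (G s / 2) h3
  · intro hJ
    have hJ' : 0 < J := hr.jump.2 hJ
    have h1 : ENNReal.ofReal J * essSup w mu =
        ENNReal.ofReal J * (essSup u' mu + essSup v' mu) := c2.1.trans c3.1
    have h2 := (ENNReal.mul_right_inj (by simpa using hJ') ENNReal.ofReal_ne_top).1 h1
    show essSup u' mu + essSup v' mu = 2 * essSup f mu
    rw [← h2, hw]
    exact ENNReal.essSup_const_mul

end Pool.Agent.H582R3.HL
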