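import Pool.Agent.H582R3.HL.Stubs

/-!
Task K1: the `K`-functional and the sets of measure `t`.
-/

set_option autoImplicit false

open MeasureTheory Set Filter Topology
open scoped ENNReal Real

namespace Pool.Agent.H582R3.HL

namespace K1

theorem finmu : IsFiniteMeasure mu := by
  unfold mu
  infer_instance

theorem slice (x : ℝ≥0∞) : volume ({c : ℝ | ENNReal.ofReal c < x} ∩ Ioi 0) = x := by
  rcases eq_or_ne x ∞ with rfl | hx
  · have : {c : ℝ | ENNReal.ofReal c < ∞} ∩ Ioi 0 = Ioi 0 := by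
      ext c
      simp
    rw [this, Real.volume_Ioi]
  · have : {c : ℝ | ENNReal.ofReal c < x} ∩ Ioi 0 = Ioo 0 x.toReal := by
      ext c
      simp only [mem_inter_iff, mem_ofPred_eq, mem_Ioi, mem_Ioo]
      constructor
      · rintro ⟨h1, h2⟩
        exact ⟨h2, (ENNReal.ofReal_lt_iff_lt_toReal h2.le hx).1 h1⟩
      · rintro ⟨h1, h2⟩
        exact ⟨(ENNReal.ofReal_lt_iff_lt_toReal h1.le hx).2 h2, h1⟩
    rw [this, Real.volume_Ioo, sub_zero, ENNReal.ofReal_toReal hx]

/-- layer cake formula with real levels -/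
theorem cake {ν : Measure ℝ} [SFinite ν] {u : ℝ → ℝ≥0∞} (hu : Measurable u) :
    ∫⁻ s, u s ∂ν = ∫⁻ c in Ioi (0 : ℝ), ν {s | ENNReal.ofReal c < u s} := by
  have hm : MeasurableSet {p : ℝ × ℝ | ENNReal.ofReal p.2 < u p.1} :=
    measurableSet_lt (ENNReal.measurable_ofReal.comp measurable_snd) (hu.comp measurable_fst)
  have h1 := Measure.prod_apply (μ := ν) (ν := volume.restrict (Ioi (0 : ℝ))) hm
  have h2 := Measure.prod_apply_symm (μ := ν) (ν := volume.restrict (Ioi (0 : ℝ))) hm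
  rw [h1] at h2
  calc ∫⁻ s, u s ∂ν = ∫⁻ s, (volume.restrict (Ioi (0 : ℝ)))
        (Prod.mk s ⁻¹' {p : ℝ × ℝ | ENNReal.ofReal p.2 < u p.1}) ∂ν := by
        apply lintegral_congr
        intro s
        rw [Measure.restrict_apply (measurable_prodMk_left hm)]
        exact (slice (u s)).symm
    _ = _ := h2

theorem msl {u : ℝ → ℝ≥0∞} (hu : Measurable u) (c : ℝ) :
    MeasurableSet {s | ENNReal.ofReal c < u s} :=
  measurableSet_lt measurable_const hu

theorem cakeA {u : ℝ → ℝ≥0∞} (hu : Measurable u) {A : Set ℝ} :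
    ∫⁻ s in A, u s ∂mu = ∫⁻ c in Ioi (0 : ℝ), mu ({s | ENNReal.ofReal c < u s} ∩ A) := by
  have := finmu
  rw [cake hu]
  apply lintegral_congr
  intro c
  rw [Measure.restrict_apply (msl hu c)]

theorem le_min' {u : ℝ → ℝ≥0∞} {A : Set ℝ} (c : ℝ) :
    mu ({s | ENNReal.ofReal c < u s} ∩ A) ≤ min (mu {s | ENNReal.ofReal c < u s}) (mu A) :=
  le_min (measure_mono inter_subset_left) (measure_mono inter_subset_right)

theorem top_eq {u : ℝ → ℝ≥0∞} {A : Set ℝ} (h : Top u A) (c : ℝ) :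
    mu ({s | ENNReal.ofReal c < u s} ∩ A) = min (mu {s | ENNReal.ofReal c < u s}) (mu A) := by
  apply le_antisymm (le_min' c)
  by_cases h0 : mu (A \ {s | ENNReal.ofReal c < u s}) = 0
  · apply (min_le_right _ _).trans
    calc mu A ≤ mu ({s | ENNReal.ofReal c < u s} ∩ A) +
          mu (A \ {s | ENNReal.ofReal c < u s}) := by
          rw [inter_comm]
          exact measure_le_inter_add_sdiff _ _ _
      _ = _ := by rw [h0, add_zero]
  · obtain ⟨ξ, hξ, hξ'⟩ : ∃ ξ ∈ A \ {s | ENNReal.ofReal c < u s},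
        ∀ᵐ η ∂mu, ξ ∈ A → η ∉ A → u η ≤ u ξ := by
      by_contra hc
      apply h0
      refine measure_mono_null ?_ (ae_iff.1 h)
      intro ξ hξ hh
      exact hc ⟨ξ, hξ, hh⟩
    have h1 : mu ({s | ENNReal.ofReal c < u s} \ A) = 0 := by
      refine measure_mono_null ?_ (ae_iff.1 hξ')
      intro η hη hh
      have h2 : u η ≤ u ξ := hh hξ.1 hη.2
      have h3 : u ξ ≤ ENNReal.ofReal c := not_lt.1 hξ.2
      exact absurd hη.1 (not_lt.2 (h2.trans h3))
    apply (min_le_left _ _).trans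
    calc mu {s | ENNReal.ofReal c < u s} ≤ mu ({s | ENNReal.ofReal c < u s} ∩ A) +
          mu ({s | ENNReal.ofReal c < u s} \ A) := measure_le_inter_add_sdiff _ _ _
      _ = _ := by rw [h1, add_zero]

/-- `c` is a good level -/
def Good (u : ℝ → ℝ≥0∞) (A : Set ℝ) (c : ℝ) : Prop :=
  mu (A \ {s | ENNReal.ofReal c < u s}) = 0 ∨ mu ({s | ENNReal.ofReal c < u s} \ A) = 0

theorem good_of_eq {u : ℝ → ℝ≥0∞} (hu : Measurable u) {A : Set ℝ} (hA : MeasurableSet A) {c : ℝ}
    (h : mu ({s | ENNReal.ofReal c < u s} ∩ A) =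
      min (mu {s | ENNReal.ofReal c < u s}) (mu A)) : Good u A c := by
  have := finmu
  rcases le_total (mu {s | ENNReal.ofReal c < u s}) (mu A) with h1 | h1
  · right
    rw [min_eq_left h1] at h
    have h2 := measure_inter_add_sdiff (μ := mu) {s | ENNReal.ofReal c < u s} hA
    rw [h] at h2
    have h3 : mu {s | ENNReal.ofReal c < u s} ≠ ∞ := measure_ne_top _ _
    exact (ENNReal.add_right_inj h3).1 (h2.trans (add_zero _).symm)
  · left
    rw [min_eq_right h1, inter_comm] at h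
    have h2 := measure_inter_add_sdiff (μ := mu) A (msl hu c)
    rw [h] at h2
    have h3 : mu A ≠ ∞ := measure_ne_top _ _
    exact (ENNReal.add_right_inj h3).1 (h2.trans (add_zero _).symm)

theorem top_of_good {u : ℝ → ℝ≥0∞} {A : Set ℝ}
    (h : ∀ᵐ c ∂(volume.restrict (Ioi (0 : ℝ))), Good u A c) : Top u A := by
  have h1 : ∀ p q : ℚ, ∃ c : ℝ, (0 ≤ p → p < q → (p : ℝ) < c ∧ c < q ∧ Good u A c) := by
    intro p q
    by_cases hpq : 0 ≤ p ∧ p < q
    · have hne : (volume.restrict (Ioi (0 : ℝ))) (Ioo (p : ℝ) q) ≠ 0 := by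
        rw [Measure.restrict_apply measurableSet_Ioo]
        have : Ioo (p : ℝ) q ∩ Ioi 0 = Ioo (p : ℝ) q := by
          apply inter_eq_left.2
          intro x hx
          have : (0 : ℝ) ≤ p := by exact_mod_cast hpq.1
          exact this.trans_lt hx.1
        rw [this, Real.volume_Ioo]
        have : (p : ℝ) < q := by exact_mod_cast hpq.2
        simp only [ne_eq, ENNReal.ofReal_eq_zero, not_le]
        linarith
      by_contra hc
      push Not at hc
      apply hne
      refine measure_mono_null ?_ (ae_iff.1 h)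
      intro c hcm hg
      exact (hc c).2.2 hcm.1 hcm.2 hg
    · exact ⟨0, fun h1 h2 => absurd ⟨h1, h2⟩ hpq⟩
  choose cc hcc using h1
  have h2 : ∀ᵐ ξ ∂mu, ∀ p q : ℚ, mu (A \ {s | ENNReal.ofReal (cc p q) < u s}) = 0 →
      ξ ∈ A → ENNReal.ofReal (cc p q) < u ξ := by
    rw [ae_all_iff]
    intro p
    rw [ae_all_iff]
    intro q
    by_cases h0 : mu (A \ {s | ENNReal.ofReal (cc p q) < u s}) = 0
    · rw [ae_iff]
      refine measure_mono_null ?_ h0
      intro ξ hξ
      simp only [mem_ofPred_eq, Classical.not_imp] at hξ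
      exact ⟨hξ.2.1, hξ.2.2⟩
    · exact Eventually.of_forall fun ξ h3 => absurd h3 h0
  have h3 : ∀ᵐ η ∂mu, ∀ p q : ℚ, mu ({s | ENNReal.ofReal (cc p q) < u s} \ A) = 0 →
      η ∉ A → u η ≤ ENNReal.ofReal (cc p q) := by
    rw [ae_all_iff]
    intro p
    rw [ae_all_iff]
    intro q
    by_cases h0 : mu ({s | ENNReal.ofReal (cc p q) < u s} \ A) = 0
    · rw [ae_iff]
      refine measure_mono_null ?_ h0
      intro ξ hξ
      simp only [mem_ofPred_eq, Classical.not_imp, not_le] at hξ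
      exact ⟨hξ.2.2, hξ.2.1⟩
    · exact Eventually.of_forall fun ξ h3 => absurd h3 h0
  filter_upwards [h2] with ξ hξ
  filter_upwards [h3] with η hη
  intro hξA hηA
  by_contra hlt
  rw [not_le] at hlt
  obtain ⟨p, hp0, hp1, hp2⟩ := ENNReal.lt_iff_exists_rat_btwn.1 hlt
  obtain ⟨q, hq0, hq1, hq2⟩ := ENNReal.lt_iff_exists_rat_btwn.1 hp2
  have hpq : p < q := by
    have h4 : Real.toNNReal p < Real.toNNReal q := by exact_mod_cast hq1
    have h5 : (0 : ℝ) ≤ (p : ℝ) := by exact_mod_cast hp0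
    have h6 := (Real.toNNReal_lt_toNNReal_iff_of_nonneg h5).1 h4
    exact_mod_cast h6
  obtain ⟨g1, g2, g3⟩ := hcc p q hp0 hpq
  have hp0' : (0 : ℝ) ≤ p := by exact_mod_cast hp0
  have e1 : u ξ < ENNReal.ofReal (cc p q) :=
    hp1.trans_le (ENNReal.ofReal_le_ofReal g1.le)
  have e2 : ENNReal.ofReal (cc p q) < u η :=
    (ENNReal.ofReal_le_ofReal g2.le).trans_lt hq2
  rcases g3 with g3 | g3
  · exact absurd (hξ p q g3 hξA) (not_lt.2 e1.le)
  · exact absurd (hη p q g3 hηA) (not_le.2 e2)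

end K1

open K1 in
theorem K1_ok : St_K1 := by
  intro u hu A hA t ht hAt
  have := finmu
  have hK : Kf u t = ∫⁻ c in Ioi (0 : ℝ), min (mu {s | ENNReal.ofReal c < u s}) (mu A) := by
    rw [Kf, hAt]
  refine ⟨?_, ?_, ?_⟩
  · rw [hK, cakeA hu]
    exact lintegral_mono fun c => le_min' c
  · intro hT
    rw [hK, cakeA hu]
    exact lintegral_congr fun c => top_eq hT c
  · intro hfin heq
    rw [hK, cakeA hu] at heq
    have hne : ∫⁻ c in Ioi (0 : ℝ), mu ({s | ENNReal.ofReal c < u s} ∩ A) ≠ ∞ := by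
      rw [← cakeA hu]
      exact ((setLIntegral_le_lintegral A _).trans_lt hfin).ne
    have hanti : Antitone fun c : ℝ => min (mu {s | ENNReal.ofReal c < u s}) (mu A) := by
      intro c d hcd
      refine min_le_min (measure_mono ?_) le_rfl
      intro s hs
      exact (ENNReal.ofReal_le_ofReal hcd).trans_lt hs
    have hae := ae_eq_of_ae_le_of_lintegral_le
      (Eventually.of_forall fun c => le_min' (u := u) (A := A) c) hne
      hanti.measurable.aemeasurable heq.ge
    apply top_of_good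
    filter_upwards [hae] with c hc
    exact good_of_eq hu hA hc

end Pool.Agent.H582R3.HL
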